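import Pool.Agent.FKQ.Rep
import Pool.Agent.FKB.LatGeo

open Finset
noncomputable section
namespace FKB

variable {q : ℕ} [NeZero q]

/-! ### elementary facts about `ch` -/

theorem Bound_two_pos : (0 : ℝ) < 2 * q := by
  have : (0 : ℝ) < q := by exact_mod_cast Nat.pos_of_ne_zero (NeZero.ne q)
  linarith

theorem Bound_abs_ch (t : ZMod (2 * q)) : |ch q t| ≤ 1 := by
  unfold ch
  refine (Complex.abs_re_le_norm _).trans ?_
  rw [AddChar.norm_apply]

theorem Bound_ch_le (t : ZMod (2 * q)) : ch q t ≤ 1 := (abs_le.1 (Bound_abs_ch t)).2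

theorem Bound_le_ch (t : ZMod (2 * q)) : -1 ≤ ch q t := (abs_le.1 (Bound_abs_ch t)).1

theorem Bound_ch_zero : ch q 0 = 1 := by simp [ch]

theorem Bound_ch_nat (n : ℕ) : ch q (n : ZMod (2 * q)) = Real.cos (Real.pi * n / q) := by
  have hq : (q : ℝ) ≠ 0 := by exact_mod_cast NeZero.ne q
  have h := ZMod.stdAddChar_coe (N := 2 * q) (n : ℤ)
  unfold ch
  have h2 : ((n : ℤ) : ZMod (2 * q)) = (n : ZMod (2 * q)) := by push_cast; rfl
  rw [h2] at h
  rw [h]
  have h3 : (2 * (Real.pi : ℂ) * Complex.I * ((n : ℤ) : ℂ) / ((2 * q : ℕ) : ℂ)) =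
      ((Real.pi * n / q : ℝ) : ℂ) * Complex.I := by
    have hq' : (q : ℂ) ≠ 0 := by exact_mod_cast NeZero.ne q
    push_cast
    field_simp
  rw [h3, Complex.exp_ofReal_mul_I_re]

theorem Bound_ch_sum (hq : 2 ≤ q) : ∑ t : ZMod (2 * q), ch q (2 * t) = 0 := by
  have h2 : (2 : ZMod (2 * q)) ≠ 0 := by
    intro h
    have h' : ((2 : ℕ) : ZMod (2 * q)) = 0 := by exact_mod_cast h
    rw [ZMod.natCast_eq_zero_iff] at h'
    have := Nat.le_of_dvd (by norm_num) h'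
    omega
  have h := AddChar.sum_mulShift (R := ZMod (2 * q)) (2 : ZMod (2 * q))
    (ZMod.isPrimitive_stdAddChar (2 * q))
  rw [if_neg h2] at h
  unfold ch
  have h3 : ∑ t : ZMod (2 * q), (ZMod.stdAddChar (2 * t)).re =
      (∑ t : ZMod (2 * q), ZMod.stdAddChar (t * 2)).re := by
    rw [Complex.re_sum]
    exact Finset.sum_congr rfl fun t _ => congrArg (fun u => (ZMod.stdAddChar u).re) (mul_comm _ _)
  rw [h3, h]
  simp

theorem Bound_card : (Fintype.card (ZMod (2 * q)) : ℝ) = 2 * q := by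
  rw [ZMod.card]; push_cast; rfl

omit [NeZero q] in
theorem Bound_two_q : (2 : ZMod (2 * q)) * (q : ZMod (2 * q)) = 0 := by
  have : ((2 * q : ℕ) : ZMod (2 * q)) = 0 := ZMod.natCast_self _
  exact_mod_cast this

theorem Bound_q_ne : (q : ZMod (2 * q)) ≠ 0 := by
  intro h
  rw [ZMod.natCast_eq_zero_iff] at h
  have hq := Nat.pos_of_ne_zero (NeZero.ne q)
  have := Nat.le_of_dvd hq h
  omega

/-- two equal terms of the sum -/
theorem Bound_two_terms (H : ℝ) (t : ZMod (2 * q)) :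
    1 / (q : ℝ) * Real.exp (H * ch q (2 * t)) ≤ Gq q H := by
  classical
  have hq : (0 : ℝ) < q := by exact_mod_cast Nat.pos_of_ne_zero (NeZero.ne q)
  unfold Gq
  rw [le_div_iff₀ Bound_two_pos]
  have h1 : ∑ s ∈ ({t, t + q} : Finset (ZMod (2 * q))), Real.exp (H * ch q (2 * s)) ≤
      ∑ s : ZMod (2 * q), Real.exp (H * ch q (2 * s)) :=
    Finset.sum_le_sum_of_subset_of_nonneg (Finset.subset_univ _) fun s _ _ => (Real.exp_pos _).le
  have hne : t ≠ t + q := by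
    intro h
    exact Bound_q_ne (q := q) (by simpa using h)
  rw [Finset.sum_pair hne, mul_add (2 : ZMod (2 * q)), Bound_two_q, add_zero] at h1
  refine le_trans (le_of_eq ?_) h1
  field_simp
  ring

theorem Gq_pos (H : ℝ) : 0 < Gq q H := by
  unfold Gq
  exact div_pos (Finset.sum_pos (fun _ _ => Real.exp_pos _) Finset.univ_nonempty) Bound_two_pos

theorem one_le_Gq (hq : 2 ≤ q) (H : ℝ) : 1 ≤ Gq q H := by
  unfold Gq
  rw [le_div_iff₀ Bound_two_pos, one_mul]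
  calc (2 * q : ℝ) = ∑ t : ZMod (2 * q), (H * ch q (2 * t) + 1) := by
        rw [Finset.sum_add_distrib, ← Finset.mul_sum, Bound_ch_sum hq, mul_zero, zero_add,
          Finset.sum_const, Finset.card_univ, nsmul_eq_mul, mul_one, Bound_card]
    _ ≤ _ := Finset.sum_le_sum fun t _ => Real.add_one_le_exp _

theorem Bound_Gq_zero : Gq q 0 = 1 := by
  unfold Gq
  simp only [zero_mul, Real.exp_zero]
  rw [Finset.sum_const, Finset.card_univ, nsmul_eq_mul, mul_one, Bound_card]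
  exact div_self Bound_two_pos.ne'

theorem Gq_add_le (H K : ℝ) (hH : 0 ≤ H) : Gq q (H + K) ≤ Real.exp H * Gq q K := by
  unfold Gq
  rw [← mul_div_assoc, Finset.mul_sum]
  refine div_le_div_of_nonneg_right (Finset.sum_le_sum fun t _ => ?_) Bound_two_pos.le
  rw [← Real.exp_add]
  refine Real.exp_le_exp.2 ?_
  have := mul_le_mul_of_nonneg_left (Bound_ch_le (2 * t)) hH
  linarith

theorem Gq_le_sq (hq : 2 ≤ q) (H : ℝ) : Gq q H ≤ Real.exp (H ^ 2 / 2) := by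
  refine le_trans ?_ (Real.cosh_le_exp_half_sq H)
  unfold Gq
  rw [div_le_iff₀ Bound_two_pos]
  have h1 : ∀ t : ZMod (2 * q), Real.exp (H * ch q (2 * t)) ≤
      Real.cosh H + ch q (2 * t) * Real.sinh H := by
    intro t
    have c1 : 0 ≤ (1 + ch q (2 * t)) / 2 := by linarith [Bound_le_ch (2 * t)]
    have c2 : 0 ≤ (1 - ch q (2 * t)) / 2 := by linarith [Bound_ch_le (2 * t)]
    have h := convexOn_exp.2 (Set.mem_univ H) (Set.mem_univ (-H)) c1 c2 (by ring)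
    simp only [smul_eq_mul] at h
    have e1 : (1 + ch q (2 * t)) / 2 * H + (1 - ch q (2 * t)) / 2 * -H = H * ch q (2 * t) := by
      ring
    rw [e1] at h
    refine h.trans (le_of_eq ?_)
    rw [Real.cosh_eq, Real.sinh_eq]
    ring
  refine (Finset.sum_le_sum fun t _ => h1 t).trans (le_of_eq ?_)
  rw [Finset.sum_add_distrib, ← Finset.sum_mul, Bound_ch_sum hq, zero_mul, add_zero,
    Finset.sum_const, Finset.card_univ, nsmul_eq_mul, Bound_card]
  ring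

theorem Gq_ge (H : ℝ) : 1 / (q : ℝ) * Real.exp H ≤ Gq q H := by
  have h := Bound_two_terms (q := q) H 0
  rwa [mul_zero, Bound_ch_zero, mul_one] at h

theorem Bound_ch_half (hq : 2 ≤ q) : ch q (2 * ((q / 2 : ℕ) : ZMod (2 * q))) ≤ -1 / 2 := by
  have hq0 : (0 : ℝ) < q := by exact_mod_cast Nat.pos_of_ne_zero (NeZero.ne q)
  have e1 : (2 : ZMod (2 * q)) * ((q / 2 : ℕ) : ZMod (2 * q)) = ((2 * (q / 2) : ℕ) : ZMod (2 * q)) := by
    push_cast; rfl
  rw [e1, Bound_ch_nat]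
  have h23 : Real.cos (2 * Real.pi / 3) = -1 / 2 := by
    have : 2 * Real.pi / 3 = Real.pi - Real.pi / 3 := by ring
    rw [this, Real.cos_pi_sub, Real.cos_pi_div_three]; ring
  rw [← h23]
  refine Real.cos_le_cos_of_nonneg_of_le_pi (by positivity) ?_ ?_
  · rw [div_le_iff₀ hq0]
    have h1 : (((2 * (q / 2) : ℕ)) : ℝ) ≤ q := by exact_mod_cast Nat.mul_div_le q 2
    exact mul_le_mul_of_nonneg_left h1 Real.pi_pos.le
  · rw [le_div_iff₀ hq0]
    have h1 : 2 * q ≤ 3 * (2 * (q / 2)) := by omega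
    have h2 : (2 : ℝ) * q ≤ 3 * ((2 * (q / 2) : ℕ) : ℝ) := by exact_mod_cast h1
    have := mul_le_mul_of_nonneg_left h2 Real.pi_pos.le
    linarith

theorem Gq_neg_ge (hq : 2 ≤ q) {H : ℝ} (hH : 0 ≤ H) :
    1 / (q : ℝ) * Real.exp (H / 2) ≤ Gq q (-H) := by
  have hq0 : (0 : ℝ) < q := by exact_mod_cast Nat.pos_of_ne_zero (NeZero.ne q)
  refine le_trans (mul_le_mul_of_nonneg_left (Real.exp_le_exp.2 ?_) (by positivity))
    (Bound_two_terms (q := q) (-H) ((q / 2 : ℕ) : ZMod (2 * q)))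
  have := mul_le_mul_of_nonneg_left (Bound_ch_half hq) hH
  linarith

/-- ratio of partition functions -/
theorem Bound_ratio {V : Type*} [DecidableEq V] {D : Finset (V × V)}
    {w : V × V → ℝ} {S : Finset V} (hS : Verts D S) (h : V → ℝ) :
    ZS q D w S h / ZS q D w S (fun _ => 0) =
      E D w q (fun A => ∏ C ∈ clusters A S, Gq q (∑ x ∈ C, h x)) := by
  rw [ZS_eq w hS, ZS_eq w hS, E]
  have h0 : ∀ A ∈ D.powerset, wt D w q A * ∏ C ∈ clusters A S, Gq q (∑ _x ∈ C, (0 : ℝ)) =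
      wt D w q A := by
    intro A _
    simp [Bound_Gq_zero]
  rw [Finset.sum_congr rfl h0, ← Z]
  have hc : ((2 * q : ℝ) ^ S.card) ≠ 0 := pow_ne_zero _ Bound_two_pos.ne'
  exact mul_div_mul_left _ _ hc

theorem Bound_prod_one (hq : 2 ≤ q) {V : Type*} [DecidableEq V] (A : Finset (V × V))
    (S : Finset V) (h : V → ℝ) : 1 ≤ ∏ C ∈ clusters A S, Gq q (∑ x ∈ C, h x) :=
  Finset.one_le_prod (fun _ _ => one_le_Gq hq _)

theorem Bound_prod_two (hq : 2 ≤ q) {V : Type*} [DecidableEq V] {A : Finset (V × V)}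
    {S : Finset V} (h : V → ℝ) {x y : V}
    (hx : x ∈ S) (hy : y ∈ S) (hxy : ¬ Conn A x y) :
    Gq q (∑ z ∈ cl A S x, h z) * Gq q (∑ z ∈ cl A S y, h z) ≤
      ∏ C ∈ clusters A S, Gq q (∑ z ∈ C, h z) := by
  classical
  have hne : cl A S x ≠ cl A S y := fun he => hxy ((cl_eq_iff hx).1 he)
  have hsub : ({cl A S x, cl A S y} : Finset (Finset V)) ⊆ clusters A S := by
    intro C hC
    rcases Finset.mem_insert.1 hC with rfl | hC
    · exact self_mem_clusters hx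
    · rw [Finset.mem_singleton.1 hC]; exact self_mem_clusters hy
  have h1 : ∏ C ∈ ({cl A S x, cl A S y} : Finset (Finset V)), Gq q (∑ z ∈ C, h z) ≤
      ∏ C ∈ clusters A S, Gq q (∑ z ∈ C, h z) := by
    rw [← Finset.prod_sdiff hsub]
    refine le_mul_of_one_le_left (Finset.prod_nonneg (fun C _ => (Gq_pos _).le)) ?_
    exact Finset.one_le_prod (fun C _ => one_le_Gq hq _)
  rwa [Finset.prod_pair hne] at h1

theorem Bound_prod_single (hq : 2 ≤ q) {V : Type*} [DecidableEq V] {A : Finset (V × V)}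
    {S : Finset V} (h : V → ℝ) {x : V} (hx : x ∈ S) :
    Gq q (∑ z ∈ cl A S x, h z) ≤ ∏ C ∈ clusters A S, Gq q (∑ z ∈ C, h z) := by
  classical
  rw [← Finset.mul_prod_erase _ _ (self_mem_clusters (A := A) hx)]
  refine le_mul_of_one_le_right (Gq_pos _).le ?_
  exact Finset.one_le_prod (fun C _ => one_le_Gq hq _)

/-- lower bound of the partition function by a separation event -/
theorem sepq_lower (hq : 2 ≤ q) {V : Type*} [DecidableEq V] {D : Finset (V × V)}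
    {w : V × V → ℝ} (hw : Adm D w) {S : Finset V} (hS : Verts D S) (h : V → ℝ) (M1 M2 : ℝ)
    (hM2 : 0 ≤ M2) (Ev : Finset (V × V) → Prop)
    (hEv : ∀ A, A ⊆ D → (∀ e ∈ D, w e = 1 → e ∈ A) → (∀ e ∈ A, w e ≠ 0) → Ev A →
      ∃ x ∈ S, ∃ y ∈ S, ¬ Conn A x y ∧ M1 ≤ ∑ z ∈ cl A S x, h z ∧ ∑ z ∈ cl A S y, h z ≤ -M2) :
    P D w q Ev * (1 / (q : ℝ) ^ 2 * Real.exp (M1 + M2 / 2)) ≤
      ZS q D w S h / ZS q D w S (fun _ => 0) := by
  have hq0 : (0 : ℝ) < q := by exact_mod_cast Nat.pos_of_ne_zero (NeZero.ne q)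
  rw [Bound_ratio hS, P, mul_comm, ← E_smul]
  refine E_mono' hq0 hw fun A hA h1 h2 => ?_
  by_cases hE : Ev A
  · obtain ⟨x, hx, y, hy, hxy, hm1, hm2⟩ := hEv A hA h1 h2 hE
    rw [ind_true hE, mul_one]
    refine le_trans ?_ (Bound_prod_two hq h hx hy hxy)
    have a1 := Gq_ge (q := q) (∑ z ∈ cl A S x, h z)
    have a2 := Gq_neg_ge (q := q) hq (H := -∑ z ∈ cl A S y, h z) (by linarith)
    rw [neg_neg] at a2
    have b1 : 1 / (q : ℝ) * Real.exp M1 ≤ Gq q (∑ z ∈ cl A S x, h z) :=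
      (mul_le_mul_of_nonneg_left (Real.exp_le_exp.2 hm1) (by positivity)).trans a1
    have b2 : 1 / (q : ℝ) * Real.exp (M2 / 2) ≤ Gq q (∑ z ∈ cl A S y, h z) :=
      (mul_le_mul_of_nonneg_left (Real.exp_le_exp.2 (by linarith)) (by positivity)).trans a2
    calc 1 / (q : ℝ) ^ 2 * Real.exp (M1 + M2 / 2)
        = (1 / (q : ℝ) * Real.exp M1) * (1 / (q : ℝ) * Real.exp (M2 / 2)) := by
          rw [Real.exp_add]; ring
      _ ≤ _ := mul_le_mul b1 b2 (by positivity) (Gq_pos _).le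
  · rw [ind_false hE, mul_zero]
    exact Finset.prod_nonneg fun C _ => (Gq_pos _).le

/-- one cluster of weight at least `M1` -/
theorem oneq_lower (hq : 2 ≤ q) {V : Type*} [DecidableEq V] {D : Finset (V × V)}
    {w : V × V → ℝ} (hw : Adm D w) {S : Finset V} (hS : Verts D S) (h : V → ℝ) (M1 : ℝ)
    (hEv : ∀ A, A ⊆ D → (∀ e ∈ D, w e = 1 → e ∈ A) → (∀ e ∈ A, w e ≠ 0) →
      ∃ x ∈ S, M1 ≤ ∑ z ∈ cl A S x, h z) :
    1 / (q : ℝ) * Real.exp M1 ≤ ZS q D w S h / ZS q D w S (fun _ => 0) := by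
  have hq0 : (0 : ℝ) < q := by exact_mod_cast Nat.pos_of_ne_zero (NeZero.ne q)
  rw [Bound_ratio hS, ← E_const (D := D) (w := w) hq0 hw (1 / (q : ℝ) * Real.exp M1)]
  refine E_mono' hq0 hw fun A hA h1 h2 => ?_
  obtain ⟨x, hx, hm⟩ := hEv A hA h1 h2
  refine le_trans ?_ (Bound_prod_single hq h hx)
  exact (mul_le_mul_of_nonneg_left (Real.exp_le_exp.2 hm) (by positivity)).trans (Gq_ge _)

theorem ZSq_ge_one (hq : 2 ≤ q) {V : Type*} [DecidableEq V] {D : Finset (V × V)}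
    {w : V × V → ℝ} (hw : Adm D w) {S : Finset V} (hS : Verts D S) (h : V → ℝ) :
    1 ≤ ZS q D w S h / ZS q D w S (fun _ => 0) := by
  have hq0 : (0 : ℝ) < q := by exact_mod_cast Nat.pos_of_ne_zero (NeZero.ne q)
  rw [Bound_ratio hS]
  calc (1 : ℝ) = E D w q (fun _ => 1) := (E_const hq0 hw 1).symm
    _ ≤ _ := E_mono hq0 hw fun A _ => Bound_prod_one hq A S h

theorem Bound_one (hq : 2 ≤ q) {V : Type*} [DecidableEq V] (C Y : Finset V) (h : V → ℝ)
    (h0 : ∀ x ∈ C, 0 ≤ h x) (N : ℕ) (hN : ∀ x ∈ C, x ∈ Y → C.card ≤ N) :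
    Gq q (∑ x ∈ C, h x) ≤
      Real.exp (∑ x ∈ C, if x ∈ Y then (N : ℝ) / 2 * (h x) ^ 2 else h x) := by
  have hs : ∑ x ∈ C, h x = ∑ x ∈ C with ¬ x ∈ Y, h x + ∑ x ∈ C with x ∈ Y, h x := by
    rw [add_comm]; exact (Finset.sum_filter_add_sum_filter_not C (fun x => x ∈ Y) h).symm
  have hs2 : ∑ x ∈ C, (if x ∈ Y then (N : ℝ) / 2 * (h x) ^ 2 else h x) =
      ∑ x ∈ C with ¬ x ∈ Y, h x + (N : ℝ) / 2 * ∑ x ∈ C with x ∈ Y, (h x) ^ 2 := by
    rw [Finset.sum_ite, Finset.mul_sum, add_comm]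
  rw [hs, hs2]
  have hu : 0 ≤ ∑ x ∈ C with ¬ x ∈ Y, h x :=
    Finset.sum_nonneg (fun x hx => h0 x (Finset.mem_filter.1 hx).1)
  refine (Gq_add_le _ _ hu).trans ?_
  rw [Real.exp_add]
  refine mul_le_mul_of_nonneg_left ?_ (Real.exp_pos _).le
  refine (Gq_le_sq hq _).trans (Real.exp_le_exp.2 ?_)
  have h1 : (∑ x ∈ C with x ∈ Y, h x) ^ 2 ≤
      ((C.filter (fun x => x ∈ Y)).card : ℝ) * ∑ x ∈ C with x ∈ Y, (h x) ^ 2 :=
    sq_sum_le_card_mul_sum_sq
  have h2 : ((C.filter (fun x => x ∈ Y)).card : ℝ) * ∑ x ∈ C with x ∈ Y, (h x) ^ 2 ≤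
      (N : ℝ) * ∑ x ∈ C with x ∈ Y, (h x) ^ 2 := by
    rcases (C.filter (fun x => x ∈ Y)).eq_empty_or_nonempty with he | ⟨x, hx⟩
    · rw [he]; simp
    · refine mul_le_mul_of_nonneg_right ?_ (Finset.sum_nonneg (fun x _ => sq_nonneg _))
      have hx' := Finset.mem_filter.1 hx
      exact_mod_cast (Finset.card_filter_le C _).trans (hN x hx'.1 hx'.2)
  linarith

theorem Bound_prod_upper (hq : 2 ≤ q) {V : Type*} [DecidableEq V] {A : Finset (V × V)}
    {S Y : Finset V} (hYS : Y ⊆ S) (h : V → ℝ)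
    (h0 : ∀ x ∈ S, 0 ≤ h x) (N : ℕ) (hN : ∀ x ∈ Y, (cl A S x).card ≤ N) :
    ∏ C ∈ clusters A S, Gq q (∑ x ∈ C, h x) ≤
      Real.exp (∑ x ∈ S \ Y, h x + N / 2 * ∑ x ∈ Y, (h x) ^ 2) := by
  classical
  have hC : ∀ C ∈ clusters A S, C ⊆ S := by
    intro C hC x hx
    rw [← biUnion_clusters A S]
    exact Finset.mem_biUnion.2 ⟨C, hC, hx⟩
  have h1 : ∏ C ∈ clusters A S, Gq q (∑ x ∈ C, h x) ≤
      ∏ C ∈ clusters A S,
        Real.exp (∑ x ∈ C, if x ∈ Y then (N : ℝ) / 2 * (h x) ^ 2 else h x) := by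
    refine Finset.prod_le_prod (fun C _ => (Gq_pos _).le) (fun C hCm => ?_)
    refine Bound_one hq C Y h (fun x hx => h0 x (hC C hCm hx)) N (fun x hx hxY => ?_)
    have hcl : C = cl A S x := by
      by_contra hne
      have hd := mem_clusters_disj hCm (self_mem_clusters (hC C hCm hx)) hne
      exact (Finset.disjoint_left.1 hd) hx (mem_cl.2 ⟨hC C hCm hx, Conn.rfl' A x⟩)
    rw [hcl]
    exact hN x hxY
  refine h1.trans ?_
  rw [← Real.exp_sum, sum_clusters A S (fun x => if x ∈ Y then (N : ℝ) / 2 * (h x) ^ 2 else h x)]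
  refine Real.exp_le_exp.2 (le_of_eq ?_)
  rw [← Finset.sum_sdiff hYS, Finset.mul_sum]
  congr 1
  · refine Finset.sum_congr rfl (fun x hx => ?_)
    rw [if_neg (Finset.mem_sdiff.1 hx).2]
  · refine Finset.sum_congr rfl (fun x hx => ?_)
    rw [if_pos hx]

/-- upper bound -/
theorem ZSq_upper (hq : 2 ≤ q) {d : ℕ} {D : Finset (Pt d × Pt d)} {w : Pt d × Pt d → ℝ}
    (hD : IsLat D) (hw : Adm D w) {S : Finset (Pt d)} (hS : Verts D S)
    (h : Pt d → ℝ) (h0 : ∀ x ∈ S, 0 ≤ h x) (l : ℕ) (U : Finset (Pt d)) :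
    ZS q D w S h / ZS q D w S (fun _ => 0) ≤
      E D w q (fun A => Real.exp (∑ x ∈ S, h x * ind (x ∈ U ∨ Far l A x))) *
        Real.exp (((2 * l + 1 : ℕ) : ℝ) ^ d / 2 * ∑ x ∈ S, (h x) ^ 2) := by
  classical
  have hq0 : (0 : ℝ) < q := by exact_mod_cast Nat.pos_of_ne_zero (NeZero.ne q)
  rw [Bound_ratio hS, mul_comm, ← E_smul]
  refine E_mono hq0 hw fun A hA => ?_
  have hAl : IsLat A := fun e he => hD e (hA he)
  set Y := S.filter (fun x => ¬ (x ∈ U ∨ Far l A x)) with hY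
  have h1 := Bound_prod_upper hq (A := A) (S := S) (Y := Y) (Finset.filter_subset _ _) h h0
    ((2 * l + 1) ^ d) (by
      intro x hx
      rw [← card_cube x l]
      refine Finset.card_le_card fun y hy => ?_
      have hx' := (Finset.mem_filter.1 hx).2
      exact notFar_cluster hAl (fun hf => hx' (Or.inr hf)) (mem_cl.1 hy).2)
  refine h1.trans ?_
  rw [← Real.exp_add]
  refine Real.exp_le_exp.2 ?_
  have h2 : ∑ x ∈ S \ Y, h x = ∑ x ∈ S, h x * ind (x ∈ U ∨ Far l A x) := by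
    rw [hY, ← Finset.filter_not, Finset.sum_filter]
    refine Finset.sum_congr rfl fun x _ => ?_
    by_cases hx : x ∈ U ∨ Far l A x
    · rw [if_pos (not_not.2 hx), ind_true hx, mul_one]
    · rw [if_neg (not_not.2 hx), ind_false hx, mul_zero]
  have h3 : ∑ x ∈ Y, (h x) ^ 2 ≤ ∑ x ∈ S, (h x) ^ 2 :=
    Finset.sum_le_sum_of_subset_of_nonneg (Finset.filter_subset _ _) fun x _ _ => sq_nonneg _
  have h4 : (((2 * l + 1) ^ d : ℕ) : ℝ) / 2 * ∑ x ∈ Y, (h x) ^ 2 ≤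
      ((2 * l + 1 : ℕ) : ℝ) ^ d / 2 * ∑ x ∈ S, (h x) ^ 2 := by
    push_cast
    exact mul_le_mul_of_nonneg_left h3 (by positivity)
  rw [h2]
  linarith

end FKB
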