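import Pool.Agent.FKQ.Magn
import Pool.Agent.FKQ.Bound
import Pool.Agent.FKB.Moment

open Finset
noncomputable section
namespace FKB

variable {d : ℕ}

theorem magnA_fa {V : Type*} [DecidableEq V] {Q Q' : Finset V} (h : Disjoint Q Q') (x : V) :
    fa Q Q' x = ind (x ∈ Q ∪ Q') := by
  unfold fa
  by_cases h1 : x ∈ Q
  · have h2 : x ∉ Q' := Finset.disjoint_left.1 h h1
    rw [ind_true h1, ind_false h2, ind_true (Finset.mem_union_left _ h1), add_zero]
  · by_cases h2 : x ∈ Q'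
    · rw [ind_false h1, ind_true h2, ind_true (Finset.mem_union_right _ h2), zero_add]
    · rw [ind_false h1, ind_false h2, ind_false, add_zero]
      rw [Finset.mem_union]
      tauto

theorem magnA_sum {V : Type*} [DecidableEq V] {S Q : Finset V} (hQ : Q ⊆ S) (f : V → ℝ) :
    ∑ x ∈ S, ind (x ∈ Q) * f x = ∑ x ∈ Q, f x := by
  rw [← Finset.sum_subset hQ]
  · exact Finset.sum_congr rfl fun x hx => by rw [ind_true hx, one_mul]
  · intro x _ hx
    rw [ind_false hx, zero_mul]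

/-- upper bound for a field `a` on `U` and `b` on `W` -/
theorem magnA_up {q l : ℕ} [NeZero q] (hq : 2 ≤ q) {p : ℝ} (hp0 : 0 < p) (hp1 : p < 1) :
    ∃ t1 : ℝ, 0 < t1 ∧ ∀ (D : Finset (Pt d × Pt d)) (w : Pt d × Pt d → ℝ) (S U W : Finset (Pt d))
      (a b : ℝ), IsLat D → Adm D w → Verts D S → U ⊆ S → W ⊆ S → Disjoint U W →
      (∀ z ∈ W, ∀ e ∈ D, e ∈ lat (cube z l) → w e ≤ p) → 0 ≤ a → 0 ≤ b → b ≤ t1 →
      Real.log (ZS q D w S (fun x => a * ind (x ∈ U) + b * ind (x ∈ W))) -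
        Real.log (ZS q D w S (fun _ => 0)) ≤
        a * U.card + b * ((1 + 1 / 100) * th d l p q * W.card) +
          (2 * l + 1) ^ d / 2 * (a ^ 2 * U.card + b ^ 2 * W.card) := by
  have hq1 : (1 : ℝ) ≤ (q : ℝ) := by
    have : (2 : ℝ) ≤ (q : ℝ) := by exact_mod_cast hq
    linarith
  obtain ⟨t1, ht1, hmom⟩ := moment_small (d := d) (l := l) hq1 hp0.le hp1.le
    (δ := 1 / 100) (by norm_num)
  refine ⟨t1, ht1, fun D w S U W a b hD hw hS hU hW hUW hle ha hb hbt => ?_⟩
  have hpos := ZS_pos (q := q) hw S (fun _ => 0)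
  have hpos' := ZS_pos (q := q) hw S (fun x => a * ind (x ∈ U) + b * ind (x ∈ W))
  rw [← Real.log_div hpos'.ne' hpos.ne', Real.log_le_iff_le_exp (div_pos hpos' hpos)]
  refine (ZSq_upper hq hD hw hS (fun x => a * ind (x ∈ U) + b * ind (x ∈ W))
    (fun x _ => add_nonneg (mul_nonneg ha (ind_nonneg _)) (mul_nonneg hb (ind_nonneg _)))
    l U).trans ?_
  rw [Real.exp_add, Real.exp_add]
  have hUW' : ∀ x ∈ U, x ∉ W := fun x hx => Finset.disjoint_left.1 hUW hx
  have hWU' : ∀ x ∈ W, x ∉ U := fun x hx => Finset.disjoint_right.1 hUW hx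
  have h1 : E D w q (fun A => Real.exp (∑ x ∈ S, (a * ind (x ∈ U) + b * ind (x ∈ W)) *
      ind (x ∈ U ∨ Far l A x))) ≤ Real.exp (a * U.card) *
        Real.exp (b * ((1 + 1 / 100) * th d l p q * W.card)) := by
    have h2 : ∀ A, Real.exp (∑ x ∈ S, (a * ind (x ∈ U) + b * ind (x ∈ W)) *
        ind (x ∈ U ∨ Far l A x)) = Real.exp (a * U.card) * Real.exp (b * nFar l A W) := by
      intro A
      rw [← Real.exp_add]
      congr 1
      have h3 : ∀ x, (a * ind (x ∈ U) + b * ind (x ∈ W)) * ind (x ∈ U ∨ Far l A x) =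
          ind (x ∈ U) * (a * ind (x ∈ U ∨ Far l A x)) +
          ind (x ∈ W) * (b * ind (x ∈ U ∨ Far l A x)) := fun x => by ring
      rw [Finset.sum_congr rfl fun x _ => h3 x, Finset.sum_add_distrib, magnA_sum hU,
        magnA_sum hW, mo_nFar]
      congr 1
      · rw [Finset.sum_congr rfl fun x hx => by rw [ind_true (Or.inl hx), mul_one],
          Finset.sum_const, nsmul_eq_mul, mul_comm]
      · rw [Finset.mul_sum]
        refine Finset.sum_congr rfl fun x hx => ?_
        congr 1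
        refine ind_congr ⟨fun h => ?_, Or.inr⟩
        rcases h with h | h
        · exact absurd h (hWU' x hx)
        · exact h
    simp_rw [h2]
    rw [E_smul]
    exact mul_le_mul_of_nonneg_left (hmom D w hD hw W hle b hb hbt) (Real.exp_pos _).le
  refine mul_le_mul h1 (le_of_eq ?_) (Real.exp_pos _).le
    (mul_pos (Real.exp_pos _) (Real.exp_pos _)).le
  congr 1
  have h4 : ∀ x, (a * ind (x ∈ U) + b * ind (x ∈ W)) ^ 2 =
      ind (x ∈ U) * (a ^ 2 * ind (x ∈ U) + 2 * a * b * ind (x ∈ W)) +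
      ind (x ∈ W) * (b ^ 2 * ind (x ∈ W)) := fun x => by ring
  have h5 : ∑ x ∈ U, (a ^ 2 * ind (x ∈ U) + 2 * a * b * ind (x ∈ W)) = a ^ 2 * U.card := by
    rw [Finset.sum_congr rfl (g := fun _ => a ^ 2) (fun x hx => by
      rw [ind_true hx, ind_false (hUW' x hx), mul_zero, add_zero, mul_one]),
      Finset.sum_const, nsmul_eq_mul, mul_comm]
  have h6 : ∑ x ∈ W, (b ^ 2 * ind (x ∈ W)) = b ^ 2 * W.card := by
    rw [Finset.sum_congr rfl (g := fun _ => b ^ 2) (fun x hx => by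
      rw [ind_true hx, mul_one]), Finset.sum_const, nsmul_eq_mul, mul_comm]
  rw [Finset.sum_congr rfl fun x _ => h4 x, Finset.sum_add_distrib, magnA_sum hU, magnA_sum hW,
    h5, h6]
  push_cast
  ring

/-- magnetisation near two cubes of the bulk -/
theorem magnA {q l : ℕ} [NeZero q] (hq : 2 ≤ q) {p : ℝ} (hp0 : 0 < p) (hp1 : p < 1)
    (hth : 0 < th d l p q) :
    ∃ t0 : ℝ, 0 < t0 ∧ ∀ (D : Finset (Pt d × Pt d)) (w : Pt d × Pt d → ℝ) (S Q Q' : Finset (Pt d))
      (x : Pt d) (t : ℝ), IsLat D → Adm D w → Verts D S → Q ⊆ S → Q' ⊆ S → Disjoint Q Q' →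
      x ∈ S → (∀ z ∈ Q ∪ Q', ∀ e ∈ D, e ∈ lat (cube z l) → w e ≤ p) →
      (∀ z ∈ Q ∪ Q', 7 / 8 * th d l p q ^ 2 ≤ P D w q (fun A => Conn A x z)) →
      0 < t → t ≤ t0 → 100 / th d l p q ^ 2 ≤ t * (Q ∪ Q').card →
      3 / 8 * th d l p q ≤ SE q D w S (fun y => t * fa Q Q' y) (cs q S x) := by
  have hq1 : (1 : ℝ) ≤ (q : ℝ) := by
    have : (2 : ℝ) ≤ (q : ℝ) := by exact_mod_cast hq
    linarith
  obtain ⟨t1, ht1, hup⟩ := magnA_up (d := d) (l := l) hq hp0 hp1
  set N : ℝ := (2 * l + 1) ^ d with hN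
  have hN0 : 0 < N := by positivity
  set θ : ℝ := th d l p q with hθ
  have hθ1 : θ ≤ 1 := th_le_one hq1 hp0.le hp1.le
  refine ⟨min (t1 / 17) (θ / (500 * N)), by positivity,
    fun D w S Q Q' x t hD hw hS hQ hQ' hQQ hx hle hP ht htt hbig => ?_⟩
  have hW : Q ∪ Q' ⊆ S := Finset.union_subset hQ hQ'
  refine magnq hw (h0 := fa Q Q') (fun y _ => ?_) hW (fun y hy => ?_) hth hθ1 ht
    (fun z hz => ?_) (fun u hu1 hu2 => ?_) hbig
  · rw [magnA_fa hQQ]
    exact ind_nonneg _
  · rw [magnA_fa hQQ, ind_true hy]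
  · have h1 := hP z hz
    have h2 := SE_cs_cs_zero hq hw hS hx (hW hz)
    linarith
  · have hu0 : 0 < u := by linarith
    have hut : u ≤ t1 / 17 := (hu2.trans htt).trans (min_le_left _ _)
    have hut' : u ≤ θ / (500 * N) := (hu2.trans htt).trans (min_le_right _ _)
    have h1 := mag_le (q := q) hw S (fun y => u * fa Q Q' y) hW (k := 16 * u) (by positivity)
    refine h1.trans ?_
    rw [div_le_iff₀ (by positivity)]
    have h2 := hup D w S ∅ (Q ∪ Q') 0 (17 * u) hD hw hS (Finset.empty_subset _) hW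
      (Finset.disjoint_empty_left _) hle le_rfl (by positivity) (by linarith)
    have h3 : (fun x => 0 * ind (x ∈ (∅ : Finset (Pt d))) + 17 * u * ind (x ∈ Q ∪ Q')) =
        fun x => u * fa Q Q' x + 16 * u * ind (x ∈ Q ∪ Q') := by
      funext y
      rw [magnA_fa hQQ]
      ring
    rw [h3] at h2
    have h4 := ZSq_ge_one hq hw hS (fun y => u * fa Q Q' y)
    have h5 := ZS_pos (q := q) hw S (fun _ => 0)
    have h6 := ZS_pos (q := q) hw S (fun y => u * fa Q Q' y)
    have h7 := Real.log_nonneg h4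
    rw [Real.log_div h6.ne' h5.ne'] at h7
    have h8 : u * N ≤ θ / 500 := by
      rw [le_div_iff₀ (by positivity)] at hut'
      linarith
    have hc : (0 : ℝ) ≤ (Q ∪ Q').card := Nat.cast_nonneg _
    have h9 : u * N * (u * (Q ∪ Q').card) ≤ θ / 500 * (u * (Q ∪ Q').card) :=
      mul_le_mul_of_nonneg_right h8 (by positivity)
    have h10 : 0 ≤ θ * (u * (Q ∪ Q').card) := by positivity
    simp only [Finset.card_empty, Nat.cast_zero] at h2
    nlinarith

/-- magnetisation near the seed: `Q` is inside one cluster -/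
theorem magnB {q l : ℕ} [NeZero q] (hq : 2 ≤ q) {p : ℝ} (hp0 : 0 < p) (hp1 : p < 1)
    (hth : 0 < th d l p q) :
    ∃ t0 B : ℝ, 0 < t0 ∧ 0 < B ∧
      ∀ (D : Finset (Pt d × Pt d)) (w : Pt d × Pt d → ℝ) (S Q Q' : Finset (Pt d))
      (x c : Pt d) (t : ℝ), IsLat D → Adm D w → Verts D S → Q ⊆ S → Q' ⊆ S → Disjoint Q Q' →
      Q.card ≤ Q'.card → x ∈ S → c ∈ Q → (∀ z ∈ Q', ∀ e ∈ D, e ∈ lat (cube z l) → w e ≤ p) →
      (∀ A, A ⊆ D → (∀ e ∈ D, w e = 1 → e ∈ A) → ∀ y ∈ Q, Conn A c y) →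
      (∀ z ∈ Q', 7 / 8 * th d l p q ^ 2 ≤ P D w q (fun A => Conn A x z)) →
      0 < t → t ≤ t0 → B ≤ t * Q'.card →
      3 / 8 * th d l p q ≤ SE q D w S (fun y => t * fa Q Q' y) (cs q S x) := by
  have hq2 : (2 : ℝ) ≤ (q : ℝ) := by exact_mod_cast hq
  have hq1 : (1 : ℝ) ≤ (q : ℝ) := by linarith
  obtain ⟨t1, ht1, hup⟩ := magnA_up (d := d) (l := l) hq hp0 hp1
  set N : ℝ := (2 * l + 1) ^ d with hN
  have hN0 : 0 < N := by positivity
  set θ : ℝ := th d l p q with hθ
  have hθ1 : θ ≤ 1 := th_le_one hq1 hp0.le hp1.le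
  have hL : 0 < Real.log q := Real.log_pos (by linarith)
  refine ⟨min (t1 / 17) (θ / (500 * N)), 100 / θ ^ 2 + 63 * Real.log q / θ, by positivity,
    by positivity,
    fun D w S Q Q' x c t hD hw hS hQ hQ' hQQ hcard hx hc hle hcl hP ht htt hbig => ?_⟩
  refine magnq hw (h0 := fa Q Q') (fun y _ => ?_) hQ' (fun y hy => ?_) hth hθ1 ht
    (fun z hz => ?_) (fun u hu1 hu2 => ?_) ?_
  · rw [magnA_fa hQQ]
    exact ind_nonneg _
  · rw [magnA_fa hQQ, ind_true (Finset.mem_union_right _ hy)]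
  · have h1 := hP z hz
    have h2 := SE_cs_cs_zero hq hw hS hx (hQ' hz)
    linarith
  · have hu0 : 0 < u := by linarith
    have hut : u ≤ t1 / 17 := (hu2.trans htt).trans (min_le_left _ _)
    have hut' : u ≤ θ / (500 * N) := (hu2.trans htt).trans (min_le_right _ _)
    have h1 := mag_le (q := q) hw S (fun y => u * fa Q Q' y) hQ' (k := 16 * u) (by positivity)
    refine h1.trans ?_
    rw [div_le_iff₀ (by positivity)]
    have h2 := hup D w S Q Q' u (17 * u) hD hw hS hQ hQ' hQQ hle hu0.le (by positivity)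
      (by linarith)
    have h3 : (fun x => u * ind (x ∈ Q) + 17 * u * ind (x ∈ Q')) =
        fun x => u * fa Q Q' x + 16 * u * ind (x ∈ Q') := by
      funext y
      unfold fa
      ring
    rw [h3] at h2
    have h5 := ZS_pos (q := q) hw S (fun _ => 0)
    have h6 := ZS_pos (q := q) hw S (fun y => u * fa Q Q' y)
    have h4 := oneq_lower hq hw hS (fun y => u * fa Q Q' y) (u * Q.card)
      (fun A hA hA1 _ => by
        refine ⟨c, hQ hc, ?_⟩
        have h41 : Q ⊆ cl A S c := fun y hy => mem_cl.2 ⟨hQ hy, hcl A hA hA1 y hy⟩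
        calc u * (Q.card : ℝ) = ∑ z ∈ Q, u * fa Q Q' z := by
              rw [Finset.sum_congr rfl fun y hy => by
                rw [magnA_fa hQQ, ind_true (Finset.mem_union_left _ hy), mul_one],
                Finset.sum_const, nsmul_eq_mul, mul_comm]
          _ ≤ ∑ z ∈ cl A S c, u * fa Q Q' z := by
              refine Finset.sum_le_sum_of_subset_of_nonneg h41 fun y _ _ => ?_
              rw [magnA_fa hQQ]
              exact mul_nonneg hu0.le (ind_nonneg _))
    have h7 := Real.log_le_log (by positivity) h4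
    rw [Real.log_div h6.ne' h5.ne', Real.log_mul (by positivity) (Real.exp_pos _).ne',
      Real.log_exp, one_div, Real.log_inv] at h7
    have h8 : u * N ≤ θ / 500 := by
      rw [le_div_iff₀ (by positivity)] at hut'
      linarith
    have hc0 : (0 : ℝ) ≤ Q'.card := Nat.cast_nonneg _
    have hcard' : (Q.card : ℝ) ≤ Q'.card := by exact_mod_cast hcard
    have h9 : u * N * (u * Q'.card) ≤ θ / 500 * (u * Q'.card) :=
      mul_le_mul_of_nonneg_right h8 (by positivity)
    have h9' : u * N * (u * Q.card) ≤ u * N * (u * Q'.card) := by gcongr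
    have h10 : 0 ≤ θ * (u * Q'.card) := by positivity
    -- `log q` is absorbed
    have h11 : 63 * Real.log q / θ ≤ t * Q'.card := by
      have : 0 ≤ 100 / θ ^ 2 := by positivity
      linarith
    rw [div_le_iff₀ hth] at h11
    have h12 : t * Q'.card * θ ≤ 2 * (u * Q'.card) * θ := by
      have : t * Q'.card ≤ 2 * (u * Q'.card) := by nlinarith
      exact mul_le_mul_of_nonneg_right this hth.le
    nlinarith
  · have : 0 ≤ 63 * Real.log q / θ := by positivity
    linarith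

end FKB
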