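import Pool.Agent.FKQ.LP
import Pool.Agent.FKQ.MagnA
import Pool.Agent.FKB.Sep

open Finset
noncomputable section
namespace FKB

section SepqHelpers

variable {d : ℕ}

/-- upper bound of the partition function with the field `fa` -/
theorem sepq_ZSa {l q : ℕ} [NeZero q] (hq : 2 ≤ q) {D : Finset (Pt d × Pt d)}
    {w : Pt d × Pt d → ℝ} (hD : IsLat D) (hw : Adm D w) {S Q Q' : Finset (Pt d)}
    (hS : Verts D S) (hQ : Q ⊆ S)
    (hQ' : Q' ⊆ S) {lam θ δ : ℝ} (hlam : 0 ≤ lam)
    (hmQ : E D w q (fun A => Real.exp (2 * lam * nFar l A Q)) ≤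
      Real.exp (2 * lam * ((1 + δ) * θ * Q.card)))
    (hmQ' : E D w q (fun A => Real.exp (2 * lam * nFar l A Q')) ≤
      Real.exp (2 * lam * ((1 + δ) * θ * Q'.card)))
    (hsm : ((2 * l + 1 : ℕ) : ℝ) ^ d * lam ≤ δ * θ) :
    ZS q D w S (fun x => lam * fa Q Q' x) / ZS q D w S (fun _ => 0) ≤
      Real.exp (lam * ((1 + 2 * δ) * (θ * Q.card + θ * Q'.card))) := by
  have hq0 : (0 : ℝ) < q := by exact_mod_cast (by omega : 0 < q)
  refine (ZSq_upper hq hD hw hS (fun x => lam * fa Q Q' x)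
    (fun x _ => mul_nonneg hlam (sep_hp_nonneg Q Q' x)) l ∅).trans ?_
  have h1 : E D w q (fun A => Real.exp (∑ x ∈ S, lam * fa Q Q' x *
      ind (x ∈ (∅ : Finset (Pt d)) ∨ Far l A x))) ≤
      Real.exp (lam * ((1 + δ) * θ * Q.card) + lam * ((1 + δ) * θ * Q'.card)) := by
    have h2 : (fun A => Real.exp (∑ x ∈ S, lam * fa Q Q' x *
        ind (x ∈ (∅ : Finset (Pt d)) ∨ Far l A x))) =
        (fun A => Real.exp (lam * nFar l A Q + lam * nFar l A Q')) := by
      funext A
      have h3 := sep_hp_sum l A hQ hQ' lam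
      have h4 : (∑ x ∈ S, lam * fa Q Q' x * ind (x ∈ (∅ : Finset (Pt d)) ∨ Far l A x)) =
        lam * (nFar l A Q + nFar l A Q') := h3
      rw [h4, mul_add]
    rw [h2]
    refine sep_exp_two hq0 hw (fun A => lam * nFar l A Q) (fun A => lam * nFar l A Q') ?_ ?_
    · have e1 : (fun A : Finset (Pt d × Pt d) => Real.exp (2 * (lam * nFar l A Q))) =
          (fun A => Real.exp (2 * lam * nFar l A Q)) := by
        funext A; congr 1; ring
      rw [e1]
      refine hmQ.trans (le_of_eq ?_)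
      congr 1; ring
    · have e1 : (fun A : Finset (Pt d × Pt d) => Real.exp (2 * (lam * nFar l A Q'))) =
          (fun A => Real.exp (2 * lam * nFar l A Q')) := by
        funext A; congr 1; ring
      rw [e1]
      refine hmQ'.trans (le_of_eq ?_)
      congr 1; ring
  have h3 : ((2 * l + 1 : ℕ) : ℝ) ^ d / 2 * ∑ x ∈ S, (lam * fa Q Q' x) ^ 2 ≤
      lam * (δ * (θ * Q.card + θ * Q'.card)) := by
    have h4 : ((2 * l + 1 : ℕ) : ℝ) ^ d / 2 * ∑ x ∈ S, (lam * fa Q Q' x) ^ 2 ≤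
        ((2 * l + 1 : ℕ) : ℝ) ^ d / 2 * (lam ^ 2 * (2 * (Q.card + Q'.card))) :=
      mul_le_mul_of_nonneg_left (sep_hp_sq hQ hQ' lam) (by positivity)
    refine h4.trans ?_
    have h5 : ((2 * l + 1 : ℕ) : ℝ) ^ d / 2 * (lam ^ 2 * (2 * (Q.card + Q'.card))) =
        lam * ((((2 * l + 1 : ℕ) : ℝ) ^ d * lam) * (Q.card + Q'.card)) := by ring
    rw [h5]
    refine mul_le_mul_of_nonneg_left ?_ hlam
    have h6 : (((2 * l + 1 : ℕ) : ℝ) ^ d * lam) * (Q.card + Q'.card) ≤
        (δ * θ) * (Q.card + Q'.card) := mul_le_mul_of_nonneg_right hsm (by positivity)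
    linarith
  refine (mul_le_mul h1 (Real.exp_le_exp.2 h3) (Real.exp_nonneg _) (Real.exp_nonneg _)).trans
    (le_of_eq ?_)
  rw [← Real.exp_add]
  congr 1
  ring

/-- combination of the two partition function bounds -/
theorem sepq_comb {K PE M tau UB Za Zb Z0 : ℝ} (hK : 0 < K) (hZ0 : 0 < Z0) (hZa : 0 < Za)
    (hZb : 0 < Zb)
    (h1 : PE * (1 / K * Real.exp M) ≤ Zb / Z0) (h2 : Za / Z0 ≤ Real.exp UB)
    (h3 : tau ≤ Real.log Za - Real.log Zb) : PE ≤ K * Real.exp (UB - tau - M) := by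
  have h4 : Zb ≤ Real.exp (-tau) * Za := by
    rw [← Real.exp_log hZa, ← Real.exp_add]
    nth_rewrite 1 [← Real.exp_log hZb]
    refine Real.exp_le_exp.2 ?_
    linarith
  have h5 : Zb / Z0 ≤ Real.exp (-tau) * Real.exp UB := by
    calc Zb / Z0 ≤ (Real.exp (-tau) * Za) / Z0 := div_le_div_of_nonneg_right h4 hZ0.le
      _ = Real.exp (-tau) * (Za / Z0) := by ring
      _ ≤ Real.exp (-tau) * Real.exp UB := mul_le_mul_of_nonneg_left h2 (Real.exp_nonneg _)
  have h6 : PE * (1 / K * Real.exp M) ≤ Real.exp (-tau) * Real.exp UB := h1.trans h5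
  have h7 : PE = PE * (1 / K * Real.exp M) * (K * Real.exp (-M)) := by
    have h8 : Real.exp M * Real.exp (-M) = 1 := by rw [← Real.exp_add]; simp
    have h9 : 1 / K * K = 1 := by field_simp
    calc PE = PE * (1 * 1) := by ring
      _ = PE * ((1 / K * K) * (Real.exp M * Real.exp (-M))) := by rw [h8, h9]
      _ = _ := by ring
  rw [h7]
  have h9 : PE * (1 / K * Real.exp M) * (K * Real.exp (-M)) ≤
      Real.exp (-tau) * Real.exp UB * (K * Real.exp (-M)) :=
    mul_le_mul_of_nonneg_right h6 (by positivity)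
  refine h9.trans (le_of_eq ?_)
  rw [← Real.exp_add]
  have h10 : UB - tau - M = (-tau + UB) + (-M) := by ring
  rw [h10, Real.exp_add (-tau + UB) (-M)]
  ring

/-- a second cluster has few vertices in the box of a heavy one -/
theorem sepq_core {l : ℕ} {A : Finset (Pt d × Pt d)} (hA : IsLat A) {Q : Finset (Pt d)}
    {x y : Pt d} (hxy : ¬ Conn A x y) {θ β : ℝ} (hδ4 : β ≤ 1 / 4)
    (hpos : 0 < θ * Q.card) (hN : ((2 * l + 1 : ℕ) : ℝ) ^ d ≤ β * (θ * Q.card))
    (hx : (1 - β) * θ * Q.card ≤ (cl A Q x).card)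
    (hF : (nFar l A Q : ℝ) ≤ (1 + β) * θ * Q.card) :
    ((cl A Q y).card : ℝ) ≤ 2 * β * (θ * Q.card) := by
  have hN2 : (((2 * l + 1) ^ d : ℕ) : ℝ) ≤ β * (θ * Q.card) := by
    push_cast
    push_cast at hN
    exact hN
  have h1 : (2 * l + 1) ^ d < (cl A Q x).card := by
    have h2 : (((2 * l + 1) ^ d : ℕ) : ℝ) < ((cl A Q x).card : ℝ) := by
      nlinarith
    exact_mod_cast h2
  have h3 := card_cl_add_le hA Q hxy h1
  rcases le_max_iff.1 h3 with h4 | h4
  · have h5 : ((cl A Q y).card : ℝ) + (cl A Q x).card ≤ nFar l A Q := by exact_mod_cast h4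
    nlinarith
  · have h5 : ((cl A Q y).card : ℝ) + (cl A Q x).card ≤
        (((2 * l + 1) ^ d : ℕ) : ℝ) + (cl A Q x).card := by exact_mod_cast h4
    nlinarith

/-- the numerical estimate of the total exponent -/
theorem sepq_num (hd : 3 ≤ d) {h θ β V V' lam0 pp u0 : ℝ} (hh : 0 ≤ h) (hθ : 0 ≤ θ)
    (hβ : 0 ≤ β) (hβ1 : β ≤ 1 / 2 ^ (d + 8)) (hV' : 0 ≤ V') (hVV : V ≤ 2 ^ d * V')
    (hh1 : h = lam0 * pp) (hlam0 : 0 ≤ lam0) (hu : u0 ≤ pp / 16) :
    h * ((1 + 2 * β) * (θ * V + θ * V')) - 15 / 8 * (3 / 8 * θ) * lam0 * (pp - u0) * V' -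
      (h * ((1 - β) * (θ * V) - 2 * β * (θ * V')) +
        h * ((1 - β) * (θ * V') - 2 * β * (θ * V)) / 2) ≤ -(1 / 10) * (h * θ * V') := by
  have h1 : β * V ≤ V' / 256 := by
    have h2 : β * V ≤ 1 / 2 ^ (d + 8) * (2 ^ d * V') :=
      (mul_le_mul_of_nonneg_left hVV hβ).trans
        (mul_le_mul_of_nonneg_right hβ1 (by positivity))
    have h3 : (1 : ℝ) / 2 ^ (d + 8) * (2 ^ d * V') = V' / 256 := by
      rw [pow_add]
      have : (2 : ℝ) ^ d ≠ 0 := by positivity
      field_simp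
      norm_num
      ring
    linarith
  have h2 : β ≤ 1 / 2048 := by
    refine hβ1.trans ?_
    rw [div_le_div_iff₀ (by positivity) (by norm_num)]
    have h3 : (2 : ℝ) ^ 11 ≤ 2 ^ (d + 8) := pow_le_pow_right₀ (by norm_num) (by omega)
    norm_num at h3 ⊢
    linarith
  have h3 : 15 / 16 * h ≤ lam0 * (pp - u0) := by
    rw [hh1]
    have h4 : lam0 * u0 ≤ lam0 * (pp / 16) := mul_le_mul_of_nonneg_left hu hlam0
    linarith
  have h4 : 15 / 8 * (3 / 8 * θ) * (15 / 16 * h) * V' ≤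
      15 / 8 * (3 / 8 * θ) * lam0 * (pp - u0) * V' := by
    have h5 : 15 / 8 * (3 / 8 * θ) * (15 / 16 * h) ≤ 15 / 8 * (3 / 8 * θ) * (lam0 * (pp - u0)) :=
      mul_le_mul_of_nonneg_left h3 (by positivity)
    have h6 := mul_le_mul_of_nonneg_right h5 hV'
    linarith
  have h5 : h * θ * (β * V) ≤ h * θ * (V' / 256) := mul_le_mul_of_nonneg_left h1 (by positivity)
  have h6 : h * θ * V' * β ≤ h * θ * V' * (1 / 2048) :=
    mul_le_mul_of_nonneg_left h2 (by positivity)
  have h7 : 0 ≤ h * θ * V' := by positivity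
  nlinarith

end SepqHelpers

theorem sepq {d q l : ℕ} (hd : 3 ≤ d) (hq : 2 ≤ q) {p1 p β : ℝ} (hp0 : 0 < p1)
    (hpp : p1 < p) (hp1 : p < 1) (hβ : 0 < β) (hβ1 : β ≤ 1 / 2 ^ (d + 8))
    (hth : 0 < th d l p q) :
    ∃ c0 : ℝ, 0 < c0 ∧ ∃ L0 : ℕ, ∀ (D O : Finset (Pt d × Pt d)) (c c' : Pt d) (a b ρ : ℕ),
      IsLat D → O ⊆ D → L0 ≤ b → b ≤ a → a ≤ 2 * b → a ≤ ρ → (∀ i, |c i - c' i| ≤ ρ) →
      Disjoint (cube c a) (cube c' b) → lat (thick c c' (2 * ρ)) ⊆ D →
      (∀ x ∈ thick c c' (2 * ρ), ∀ z ∈ cube c a ∪ cube c' b,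
        7 / 8 * th d l p q ^ 2 ≤ P D (pr O p1) q (fun A => Conn A x z)) →
      (∀ x ∈ cube c a ∪ cube c' b, ∀ e ∈ O, e ∉ lat (cube x l)) →
      P D (pr O p) q (fun A => ∃ x y, ¬ Conn A x y ∧
        (1 - β) * th d l p q * (cube c a).card ≤ (cl A (cube c a) x).card ∧
        (1 - β) * th d l p q * (cube c' b).card ≤ (cl A (cube c' b) y).card) ≤
      Real.exp (-c0 * b) := by
  have : NeZero q := ⟨by omega⟩
  have hpz : 0 < p := hp0.trans hpp
  have hq1 : (1 : ℝ) ≤ (q : ℝ) := by exact_mod_cast (by omega : 1 ≤ q)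
  have hq0 : (0 : ℝ) < (q : ℝ) := by linarith
  have hθ1 : th d l p q ≤ 1 := th_le_one hq1 hpz.le hp1.le
  have hβ4 : β ≤ 1 / 4 := by
    refine hβ1.trans ?_
    rw [div_le_div_iff₀ (by positivity) (by norm_num)]
    have h1 : (2 : ℝ) ^ 2 ≤ 2 ^ (d + 8) := pow_le_pow_right₀ (by norm_num) (by omega)
    linarith
  obtain ⟨ζ, hζ, hζ1, hLP⟩ := lpq (d := d) (q := q) hd hq hth hθ1
  obtain ⟨t0, ht0, hmom⟩ := moment_small (d := d) (l := l) hq1 hpz.le hp1.le hβ
  obtain ⟨t1, ht1, hmag⟩ := magnA (d := d) (q := q) (l := l) hq hpz hp1 hth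
  obtain ⟨c1, hc1, hch⟩ := chernoff (d := d) (l := l) hq1 hpz.le hp1.le hth hβ
  set θ : ℝ := th d l p q with hθdef
  have hpp0 : 0 < p - p1 := by linarith
  have hc2 : 0 < ζ * (p - p1) * θ / 10 := by positivity
  set c3 : ℝ := min c1 (ζ * (p - p1) * θ / 10) with hc3def
  have hc3 : 0 < c3 := lt_min hc1 hc2
  obtain ⟨N, hN⟩ := exists_nat_ge (1 + 1 / t0 + 1 / t1 + ((2 * l + 1 : ℕ) : ℝ) ^ d / (β * θ) +
    1600 / (θ ^ 2 * ζ * (p - p1)) + ((q : ℝ) ^ 2 + 2) / c3)
  have e1 : 0 ≤ 1 / t0 := by positivity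
  have e2 : 0 ≤ 1 / t1 := by positivity
  have e3 : 0 ≤ ((2 * l + 1 : ℕ) : ℝ) ^ d / (β * θ) := by positivity
  have e4 : 0 ≤ 1600 / (θ ^ 2 * ζ * (p - p1)) := by positivity
  have e5 : 0 ≤ ((q : ℝ) ^ 2 + 2) / c3 := by positivity
  have hN0 : (1 : ℝ) ≤ N := by linarith
  have hN1' : 1 ≤ N * t0 := (div_le_iff₀ ht0).1 (by linarith)
  have hN1'' : 1 ≤ N * t1 := (div_le_iff₀ ht1).1 (by linarith)
  have hN2' : ((2 * l + 1 : ℕ) : ℝ) ^ d ≤ N * (β * θ) :=
    (div_le_iff₀ (by positivity)).1 (by linarith)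
  have hN4' : 1600 ≤ N * (θ ^ 2 * ζ * (p - p1)) := (div_le_iff₀ (by positivity)).1 (by linarith)
  have hN3' : (q : ℝ) ^ 2 + 2 ≤ N * c3 := (div_le_iff₀ hc3).1 (by linarith)
  refine ⟨c3, hc3, N, ?_⟩
  intro D O c c' a b ρ hD hO hb hba hab haρ hcc hdisj hlat hP hOl
  have hbN : (N : ℝ) ≤ b := by exact_mod_cast hb
  have hb1 : 1 ≤ b := by
    have h1 : (1 : ℝ) ≤ b := hN0.trans hbN
    exact_mod_cast h1
  have hb1' : (1 : ℝ) ≤ b := by exact_mod_cast hb1
  have haN : (N : ℝ) ≤ a := hbN.trans (by exact_mod_cast hba)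
  have hab' : (a : ℝ) ≤ 2 * b := by exact_mod_cast hab
  have hw : Adm D (pr O p) := adm_pr hpz.le hp1.le
  set S : Finset (Pt d) := sepS D (thick c c' (2 * ρ)) with hSdef
  have hS : Verts D S := sepS_verts D _
  have hTS : thick c c' (2 * ρ) ⊆ S := sepS_left D _
  have hQS : cube c a ⊆ S := (sep_cube_thick c c' (by omega)).trans hTS
  have hQS' : cube c' b ⊆ S := (sep_cube_thick' c c' (by omega)).trans hTS
  have hcard : ((cube c a).card : ℝ) = (2 * a + 1) ^ d := by
    rw [card_cube]; push_cast; ring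
  have hcard' : ((cube c' b).card : ℝ) = (2 * b + 1) ^ d := by
    rw [card_cube]; push_cast; ring
  have hpow : ∀ t : ℝ, 0 ≤ t → 2 * t + 1 ≤ (2 * t + 1) ^ d := by
    intro t ht
    calc 2 * t + 1 = (2 * t + 1) ^ 1 := (pow_one _).symm
      _ ≤ (2 * t + 1) ^ d := pow_le_pow_right₀ (by linarith) (by omega)
  have ha0 : (0 : ℝ) ≤ a := Nat.cast_nonneg _
  have hb0 : (0 : ℝ) ≤ b := Nat.cast_nonneg _
  have hbig : (N : ℝ) ≤ (cube c a).card := by
    rw [hcard]; linarith [hpow a ha0]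
  have hbig' : (N : ℝ) ≤ (cube c' b).card := by
    rw [hcard']; linarith [hpow b hb0]
  -- the field
  set lam0 : ℝ := ζ / (2 * b + 1) ^ 2 with hlam0def
  have hlam0 : 0 < lam0 := by positivity
  have hlam0b : lam0 * (2 * b + 1) ≤ 1 / 2 := by
    have h1 : lam0 * (2 * b + 1) = ζ / (2 * b + 1) := by
      rw [hlam0def]; field_simp
    rw [h1, div_le_div_iff₀ (by positivity) (by norm_num)]
    linarith
  have hlam0N : lam0 * N ≤ 1 / 2 := by
    have h1 : lam0 * N ≤ lam0 * (2 * b + 1) := mul_le_mul_of_nonneg_left (by linarith) hlam0.le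
    linarith
  have hlam0t1 : lam0 ≤ t1 := by
    have h1 : lam0 * 1 ≤ lam0 * (N * t1) := mul_le_mul_of_nonneg_left hN1'' hlam0.le
    nlinarith
  set lam : ℝ := lam0 * (p - p1) with hlamdef
  have hlam : 0 < lam := by positivity
  have hlamle : lam ≤ lam0 := by
    have h1 : lam0 * (p - p1) ≤ lam0 * 1 := mul_le_mul_of_nonneg_left (by linarith) hlam0.le
    linarith
  have hlamt : 2 * lam ≤ t0 := by
    have h1 : lam0 * 1 ≤ lam0 * (N * t0) := mul_le_mul_of_nonneg_left hN1' hlam0.le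
    nlinarith
  have hsm : ((2 * l + 1 : ℕ) : ℝ) ^ d * lam ≤ β * θ := by
    have h0 : lam * N ≤ 1 := by
      have : lam * N ≤ lam0 * N := mul_le_mul_of_nonneg_right hlamle (by linarith)
      linarith
    calc ((2 * l + 1 : ℕ) : ℝ) ^ d * lam ≤ (N * (β * θ)) * lam :=
          mul_le_mul_of_nonneg_right hN2' hlam.le
      _ = (lam * N) * (β * θ) := by ring
      _ ≤ 1 * (β * θ) := mul_le_mul_of_nonneg_right h0 (by positivity)
      _ = β * θ := one_mul _
  have hprle : ∀ u : ℝ, u ≤ p → ∀ T : Finset (Pt d), T ⊆ cube c a ∪ cube c' b →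
      ∀ x ∈ T, ∀ e ∈ D, e ∈ lat (cube x l) → pr O u e ≤ p := by
    intro u hu T hT x hx e _ he
    have h1 : e ∉ O := fun h => hOl x (hT hx) e h he
    unfold pr
    rw [if_neg h1]
    exact hu
  have hmQ := hmom D (pr O p) hD hw (cube c a) (hprle p le_rfl _ Finset.subset_union_left)
    (2 * lam) (by linarith) hlamt
  have hmQ' := hmom D (pr O p) hD hw (cube c' b) (hprle p le_rfl _ Finset.subset_union_right)
    (2 * lam) (by linarith) hlamt
  have hchQ := hch D (pr O p) hD hw (cube c a) (hprle p le_rfl _ Finset.subset_union_left)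
  have hchQ' := hch D (pr O p) hD hw (cube c' b) (hprle p le_rfl _ Finset.subset_union_right)
  have hZSa := sepq_ZSa hq hD hw hS hQS hQS' hlam.le hmQ hmQ' hsm
  -- the threshold
  obtain ⟨e, he⟩ : ∃ e, d = e + 3 := ⟨d - 3, by omega⟩
  have hlamV : lam0 * (cube c' b).card = ζ * (2 * b + 1) ^ (e + 1) := by
    rw [hcard', hlam0def, he]
    have : (2 * (b : ℝ) + 1) ≠ 0 := by positivity
    have h2 : (2 * (b : ℝ) + 1) ^ (e + 3) = (2 * b + 1) ^ (e + 1) * (2 * b + 1) ^ 2 := by
      rw [← pow_add]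
    rw [h2]
    field_simp
  have hlamV2 : ζ * (2 * b + 1) ≤ lam0 * (cube c' b).card := by
    rw [hlamV]
    refine mul_le_mul_of_nonneg_left ?_ hζ.le
    calc (2 * (b : ℝ) + 1) = (2 * b + 1) ^ 1 := (pow_one _).symm
      _ ≤ (2 * b + 1) ^ (e + 1) := pow_le_pow_right₀ (by linarith) (by omega)
  have hlamVpos : 0 < lam0 * (cube c' b).card := lt_of_lt_of_le (by positivity) hlamV2
  set u0 : ℝ := 100 / (θ ^ 2 * (lam0 * (cube c' b).card)) with hu0def
  have hu0 : 0 < u0 := by positivity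
  have hu016 : u0 ≤ (p - p1) / 16 := by
    rw [hu0def, div_le_div_iff₀ (by positivity) (by norm_num)]
    have h1 : (p - p1) * (θ ^ 2 * (ζ * N)) ≤ (p - p1) * (θ ^ 2 * (lam0 * (cube c' b).card)) := by
      refine mul_le_mul_of_nonneg_left (mul_le_mul_of_nonneg_left ?_ (by positivity)) hpp0.le
      refine le_trans (mul_le_mul_of_nonneg_left ?_ hζ.le) hlamV2
      linarith
    linarith
  have hlp := hLP D O S c c' a b ρ p1 p u0 hp0 hpp hp1 hu0.le (by linarith) hO hS hTS hb1 hba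
    haρ hcc hlat (by
      intro u hu hu' x hx
      have hu1 : 0 < u := lt_of_lt_of_le hu0 hu
      refine hmag D (pr O (p1 + u)) S (cube c a) (cube c' b) x (ζ / (2 * b + 1) ^ 2 * u) hD
        (adm_pr (by linarith) (by linarith)) hS hQS hQS' hdisj (hTS hx)
        (hprle (p1 + u) (by linarith) _ (Finset.Subset.refl _)) ?_ (by positivity) ?_ ?_
      · intro z hz
        refine (hP x hx z hz).trans ?_
        refine E_holley hq1 (adm_pr hp0.le (by linarith))
          (adm_pr (by linarith) (by linarith)) ?_ ?_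
        · intro e _
          unfold pr
          split
          · exact le_refl _
          · linarith
        · intro A B hAB _
          exact ind_mono fun h => h.mono' hAB
      · have h1 : lam0 * u ≤ lam0 * 1 := mul_le_mul_of_nonneg_left (by linarith) hlam0.le
        linarith
      · have h1 : ((cube c' b).card : ℝ) ≤ ((cube c a ∪ cube c' b).card : ℝ) := by
          exact_mod_cast Finset.card_le_card Finset.subset_union_right
        have h2 : lam0 * u0 * (cube c' b).card ≤ lam0 * u * (cube c a ∪ cube c' b).card :=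
          mul_le_mul (mul_le_mul_of_nonneg_left hu hlam0.le) h1 (by positivity) (by positivity)
        refine le_trans (le_of_eq ?_) h2
        rw [hu0def]
        have h3 : ((cube c' b).card : ℝ) ≠ 0 := by
          intro h5
          rw [h5, mul_zero] at hlamVpos
          exact lt_irrefl _ hlamVpos
        have h4 : θ ≠ 0 := hth.ne'
        have h5 : lam0 ≠ 0 := hlam0.ne'
        generalize ((cube c' b).card : ℝ) = X at h3 ⊢
        field_simp)
  rw [← hlam0def, ← hlamdef] at hlp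
  -- the good event
  have hNθ : ((2 * l + 1 : ℕ) : ℝ) ^ d ≤ β * (θ * (cube c a).card) := by
    calc ((2 * l + 1 : ℕ) : ℝ) ^ d ≤ N * (β * θ) := hN2'
      _ ≤ (cube c a).card * (β * θ) := mul_le_mul_of_nonneg_right hbig (by positivity)
      _ = β * (θ * (cube c a).card) := by ring
  have hNθ' : ((2 * l + 1 : ℕ) : ℝ) ^ d ≤ β * (θ * (cube c' b).card) := by
    calc ((2 * l + 1 : ℕ) : ℝ) ^ d ≤ N * (β * θ) := hN2'
      _ ≤ (cube c' b).card * (β * θ) := mul_le_mul_of_nonneg_right hbig' (by positivity)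
      _ = β * (θ * (cube c' b).card) := by ring
  have hθQ : 0 < θ * (cube c a).card := by
    rw [hcard]; positivity
  have hθQ' : 0 < θ * (cube c' b).card := by
    rw [hcard']; positivity
  have hVV : ((cube c a).card : ℝ) ≤ 2 ^ d * (cube c' b).card := by
    rw [hcard, hcard', ← mul_pow]
    exact pow_le_pow_left₀ (by positivity) (by linarith) d
  have hM2 : 0 ≤ lam * ((1 - β) * (θ * (cube c' b).card) - 2 * β * (θ * (cube c a).card)) := by
    refine mul_nonneg hlam.le ?_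
    have h1 : β * (cube c a).card ≤ (cube c' b).card / 256 := by
      have h2 : β * (cube c a).card ≤ 1 / 2 ^ (d + 8) * (2 ^ d * (cube c' b).card) :=
        (mul_le_mul_of_nonneg_left hVV hβ.le).trans
          (mul_le_mul_of_nonneg_right hβ1 (by positivity))
      have h3 : (1 : ℝ) / 2 ^ (d + 8) * (2 ^ d * (cube c' b).card) = (cube c' b).card / 256 := by
        rw [pow_add]
        have : (2 : ℝ) ^ d ≠ 0 := by positivity
        field_simp
        norm_num
        ring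
      linarith
    have h2 : θ * (β * (cube c a).card) ≤ θ * ((cube c' b).card / 256) :=
      mul_le_mul_of_nonneg_left h1 hth.le
    have h3 : β * (θ * (cube c' b).card) ≤ 1 / 4 * (θ * (cube c' b).card) :=
      mul_le_mul_of_nonneg_right hβ4 hθQ'.le
    nlinarith
  have hlow := sepq_lower (q := q) hq (D := D) (w := pr O p) hw hS
    (fun x => lam * fb (cube c a) (cube c' b) x)
    (lam * ((1 - β) * (θ * (cube c a).card) - 2 * β * (θ * (cube c' b).card)))
    (lam * ((1 - β) * (θ * (cube c' b).card) - 2 * β * (θ * (cube c a).card))) hM2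
    (fun A => (∃ x y, ¬ Conn A x y ∧
        (1 - β) * θ * (cube c a).card ≤ (cl A (cube c a) x).card ∧
        (1 - β) * θ * (cube c' b).card ≤ (cl A (cube c' b) y).card) ∧
      (nFar l A (cube c a) : ℝ) ≤ (1 + β) * θ * (cube c a).card ∧
      (nFar l A (cube c' b) : ℝ) ≤ (1 + β) * θ * (cube c' b).card)
    (by
      rintro A hA _ _ ⟨⟨x, y, hxy, hx, hy⟩, hF, hF'⟩
      have hAl : IsLat A := fun e he => hD e (hA he)
      have hβ1' : 0 < 1 - β := by linarith
      have hcx : 0 < (cl A (cube c a) x).card := by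
        have h1 : (0 : ℝ) < (cl A (cube c a) x).card := by
          refine lt_of_lt_of_le ?_ hx
          rw [mul_assoc]
          exact mul_pos hβ1' hθQ
        exact_mod_cast h1
      have hcy : 0 < (cl A (cube c' b) y).card := by
        have h1 : (0 : ℝ) < (cl A (cube c' b) y).card := by
          refine lt_of_lt_of_le ?_ hy
          rw [mul_assoc]
          exact mul_pos hβ1' hθQ'
        exact_mod_cast h1
      obtain ⟨x', hx'⟩ := Finset.card_pos.1 hcx
      obtain ⟨y', hy'⟩ := Finset.card_pos.1 hcy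
      rw [mem_cl] at hx' hy'
      have hxy' : ¬ Conn A x' y' := fun h => hxy ((hx'.2.trans' h).trans' hy'.2.symm')
      rw [← sep_cl_conn (cube c a) hx'.2] at hx
      rw [← sep_cl_conn (cube c' b) hy'.2] at hy
      have h1 := sepq_core hAl hxy' hβ4 hθQ hNθ hx hF
      have h2 := sepq_core hAl (fun h => hxy' h.symm') hβ4 hθQ' hNθ' hy hF'
      have s1 : ∑ z ∈ cl A S x', lam * fb (cube c a) (cube c' b) z =
        lam * ((cl A (cube c a) x').card - (cl A (cube c' b) x').card) :=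
        sep_hm_sum A hQS hQS' lam x'
      have s2 : ∑ z ∈ cl A S y', lam * fb (cube c a) (cube c' b) z =
        lam * ((cl A (cube c a) y').card - (cl A (cube c' b) y').card) :=
        sep_hm_sum A hQS hQS' lam y'
      refine ⟨x', hQS hx'.1, y', hQS' hy'.1, hxy', ?_, ?_⟩
      · rw [s1]
        refine mul_le_mul_of_nonneg_left ?_ hlam.le
        linarith
      · rw [s2, ← mul_neg]
        refine mul_le_mul_of_nonneg_left ?_ hlam.le
        linarith)
  have hZ0 : 0 < ZS q D (pr O p) S (fun _ => 0) := ZS_pos hw S _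
  have hZa : 0 < ZS q D (pr O p) S (fun x => lam * fa (cube c a) (cube c' b) x) :=
    ZS_pos hw S _
  have hZb : 0 < ZS q D (pr O p) S (fun x => lam * fb (cube c a) (cube c' b) x) :=
    ZS_pos hw S _
  have hmain := sepq_comb (by positivity : (0 : ℝ) < (q : ℝ) ^ 2) hZ0 hZa hZb hlow hZSa hlp
  have hnum := sepq_num (d := d) hd hlam.le hth.le hβ.le hβ1
    (Nat.cast_nonneg (cube c' b).card) hVV hlamdef hlam0.le hu016
  have hexp : lam * ((1 + 2 * β) * (θ * (cube c a).card + θ * (cube c' b).card)) -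
      15 / 8 * (3 / 8 * θ) * lam0 * (p - p1 - u0) * (cube c' b).card -
      (lam * ((1 - β) * (θ * (cube c a).card) - 2 * β * (θ * (cube c' b).card)) +
        lam * ((1 - β) * (θ * (cube c' b).card) - 2 * β * (θ * (cube c a).card)) / 2) ≤
      -c3 * (2 * b + 1) := by
    refine hnum.trans ?_
    have h1 : c3 * (2 * b + 1) ≤ ζ * (p - p1) * θ / 10 * (2 * b + 1) :=
      mul_le_mul_of_nonneg_right (min_le_right _ _) (by positivity)
    have h2 : ζ * (2 * b + 1) * ((p - p1) * θ) ≤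
        lam0 * (cube c' b).card * ((p - p1) * θ) :=
      mul_le_mul_of_nonneg_right hlamV2 (by positivity)
    have h3 : lam * θ * (cube c' b).card = lam0 * (cube c' b).card * ((p - p1) * θ) := by
      rw [hlamdef]; ring
    rw [h3]
    linarith
  have hE' := hmain.trans (mul_le_mul_of_nonneg_left (Real.exp_le_exp.2 hexp)
    (by positivity : (0 : ℝ) ≤ (q : ℝ) ^ 2))
  have hsplit := sep_split (D := D) (w := pr O p) hq0 hw
    (fun A => ∃ x y, ¬ Conn A x y ∧
        (1 - β) * θ * (cube c a).card ≤ (cl A (cube c a) x).card ∧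
        (1 - β) * θ * (cube c' b).card ≤ (cl A (cube c' b) y).card)
    (fun A => (∃ x y, ¬ Conn A x y ∧
        (1 - β) * θ * (cube c a).card ≤ (cl A (cube c a) x).card ∧
        (1 - β) * θ * (cube c' b).card ≤ (cl A (cube c' b) y).card) ∧
      (nFar l A (cube c a) : ℝ) ≤ (1 + β) * θ * (cube c a).card ∧
      (nFar l A (cube c' b) : ℝ) ≤ (1 + β) * θ * (cube c' b).card)
    (fun A => (1 + β) * θ * (cube c a).card < nFar l A (cube c a))
    (fun A => (1 + β) * θ * (cube c' b).card < nFar l A (cube c' b))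
    (by
      intro A _ hA
      by_cases h1 : (1 + β) * θ * (cube c a).card < nFar l A (cube c a)
      · exact Or.inr (Or.inl h1)
      · by_cases h2 : (1 + β) * θ * (cube c' b).card < nFar l A (cube c' b)
        · exact Or.inr (Or.inr h2)
        · exact Or.inl ⟨hA, not_lt.1 h1, not_lt.1 h2⟩)
  refine hsplit.trans ?_
  have hB1 : Real.exp (-c1 * (cube c a).card) ≤ Real.exp (-c3 * (2 * b + 1)) := by
    refine Real.exp_le_exp.2 ?_
    have h0 : (b : ℝ) ≤ a := by exact_mod_cast hba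
    have h1 : (2 * b + 1 : ℝ) ≤ (cube c a).card := by
      rw [hcard]; linarith [hpow a ha0]
    have h2 : c3 * (2 * b + 1) ≤ c1 * (cube c a).card :=
      mul_le_mul (min_le_left _ _) h1 (by positivity) hc1.le
    linarith
  have hB2 : Real.exp (-c1 * (cube c' b).card) ≤ Real.exp (-c3 * (2 * b + 1)) := by
    refine Real.exp_le_exp.2 ?_
    have h1 : (2 * b + 1 : ℝ) ≤ (cube c' b).card := by
      rw [hcard']; linarith [hpow b hb0]
    have h2 : c3 * (2 * b + 1) ≤ c1 * (cube c' b).card :=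
      mul_le_mul (min_le_left _ _) h1 (by positivity) hc1.le
    linarith
  have hfin : ((q : ℝ) ^ 2 + 2) * Real.exp (-c3 * (2 * b + 1)) ≤ Real.exp (-c3 * b) := by
    have h1 : Real.exp (-c3 * b) = Real.exp (c3 * (b + 1)) *
        Real.exp (-c3 * (2 * b + 1)) := by
      rw [← Real.exp_add]; congr 1; ring
    rw [h1]
    refine mul_le_mul_of_nonneg_right ?_ (Real.exp_nonneg _)
    have h2 := Real.add_one_le_exp (c3 * ((b : ℝ) + 1))
    have h3 : (N : ℝ) * c3 ≤ ((b : ℝ) + 1) * c3 :=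
      mul_le_mul_of_nonneg_right (by linarith) hc3.le
    linarith
  linarith

end FKB
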