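import Pool.Agent.FKQ.LP
import Pool.Agent.FKQ.MagnA
import Pool.Agent.FKB.SepSeed

/-!
Separation from a seed: a large cluster in the second cube, not joined to the seed.
-/

open Finset
noncomputable section
namespace FKB

namespace SepqSeed

variable {d : ℕ}

theorem est {D O : Finset (Pt d × Pt d)} {q : ℕ} [NeZero q] (hq : 2 ≤ q) {p : ℝ}
    (hw : Adm D (pr O p)) {l : ℕ}
    {Q Q' S : Finset (Pt d)} {c : Pt d} (hD : IsLat D) (hOD : O ⊆ D) (hS : Verts D S)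
    (hQ : Q ⊆ S) (hQ' : Q' ⊆ S) (hcS : c ∈ S)
    (hc : ∀ x ∈ Q, Conn O c x) {h θ β δ : ℝ} (hh : 0 ≤ h) (hβ1 : β ≤ 1) (hθ0 : 0 ≤ θ)
    (hN : (((2 * l + 1) ^ d : ℕ) : ℝ) ≤ (δ + β) * θ * Q'.card)
    (hN' : (((2 * l + 1) ^ d : ℕ) : ℝ) < (1 - β) * θ * Q'.card) :
    P D (pr O p) q (fun A => (∃ y, ¬ Conn A c y ∧ (1 - β) * θ * Q'.card ≤ (cl A Q' y).card) ∧
        (nFar l A Q' : ℝ) ≤ (1 + δ) * θ * Q'.card) *
      (1 / (q : ℝ) ^ 2 * Real.exp (h * (Q.card - (δ + β) * θ * Q'.card) +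
        h * ((1 - β) * θ * Q'.card) / 2)) ≤
      ZS q D (pr O p) S (fun x => h * fb Q Q' x) / ZS q D (pr O p) S (fun _ => 0) := by
  refine sepq_lower hq hw hS _ _ _ ?_ _ ?_
  · have : 0 ≤ 1 - β := by linarith
    positivity
  rintro A hA hO _ ⟨⟨y, hy1, hy2⟩, hfar⟩
  have hOA : O ⊆ A := fun e he => hO e (hOD he) (by simp [pr, he])
  have hAl : IsLat A := fun e he => hD e (hA he)
  have hne : (cl A Q' y).Nonempty := by
    rw [← Finset.card_pos]
    have h0 : (0 : ℝ) ≤ (((2 * l + 1) ^ d : ℕ) : ℝ) := Nat.cast_nonneg _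
    have : (0 : ℝ) < (cl A Q' y).card := by linarith
    exact_mod_cast this
  obtain ⟨y', hy'⟩ := hne
  rw [mem_cl] at hy'
  have hcy' : ¬ Conn A c y' := fun h => hy1 (h.trans' hy'.2.symm')
  have e1 : cl A Q' y' = cl A Q' y := by
    ext z
    rw [mem_cl, mem_cl]
    exact ⟨fun h => ⟨h.1, hy'.2.trans' h.2⟩, fun h => ⟨h.1, hy'.2.symm'.trans' h.2⟩⟩
  have e2 : cl A Q c = Q := by
    ext z
    rw [mem_cl]
    exact ⟨fun h => h.1, fun h => ⟨h, (hc z h).mono' hOA⟩⟩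
  have e3 : cl A Q y' = ∅ := by
    rw [Finset.eq_empty_iff_forall_notMem]
    intro z hz
    rw [mem_cl] at hz
    exact hcy' (((hc z hz.1).mono' hOA).trans' hz.2.symm')
  have hx : (2 * l + 1) ^ d < (cl A Q' y').card := by
    rw [e1]
    have : (((2 * l + 1) ^ d : ℕ) : ℝ) < (cl A Q' y).card := hN'.trans_le hy2
    exact_mod_cast this
  have hmx := card_cl_add_le hAl Q' (x := y') (y := c) (fun h => hcy' h.symm') hx
  rw [e1] at hmx
  have hkey : ((cl A Q' c).card : ℝ) ≤ (δ + β) * θ * Q'.card := by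
    rcases le_max_iff.1 hmx with h1 | h1
    · have h2 : ((cl A Q' c).card : ℝ) + (cl A Q' y).card ≤ nFar l A Q' := by exact_mod_cast h1
      have h3 : (δ + β) * θ * Q'.card = (1 + δ) * θ * Q'.card - (1 - β) * θ * Q'.card := by ring
      rw [h3]
      linarith
    · have h2 : ((cl A Q' c).card : ℝ) ≤ (((2 * l + 1) ^ d : ℕ) : ℝ) := by
        have : (cl A Q' c).card ≤ (2 * l + 1) ^ d := by omega
        exact_mod_cast this
      exact h2.trans hN
  have s1 : ∀ z : Pt d, ∑ x ∈ cl A S z, h * fb Q Q' x =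
      h * ((cl A Q z).card - (cl A Q' z).card) := fun z => SepSeed.sum_cl hQ hQ' h A z
  refine ⟨c, hcS, y', hQ' hy'.1, hcy', ?_, ?_⟩
  · rw [s1, e2]
    exact mul_le_mul_of_nonneg_left (by linarith) hh
  · rw [s1, e1, e3, Finset.card_empty]
    have := mul_le_mul_of_nonneg_left hy2 hh
    push_cast
    linarith

theorem upper {D O : Finset (Pt d × Pt d)} {q : ℕ} [NeZero q] (hq : 2 ≤ q) {p : ℝ}
    (hw : Adm D (pr O p)) {l : ℕ}
    {Q Q' S : Finset (Pt d)} (hD : IsLat D) (hS : Verts D S)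
    (hQ : Q ⊆ S) (hQ' : Q' ⊆ S) (hdis : Disjoint Q Q') {h M : ℝ} (hh : 0 ≤ h)
    (hM : E D (pr O p) q (fun A => Real.exp (h * nFar l A Q')) ≤ Real.exp M) :
    ZS q D (pr O p) S (fun x => h * fa Q Q' x) / ZS q D (pr O p) S (fun _ => 0) ≤
      Real.exp (h * Q.card + M + ((2 * l + 1 : ℕ) : ℝ) ^ d / 2 * (h ^ 2 * (Q.card + Q'.card))) := by
  have h1 := ZSq_upper (q := q) (w := pr O p) hq hD hw hS (fun x => h * fa Q Q' x)
    (fun x _ => mul_nonneg hh (add_nonneg (ind_nonneg _) (ind_nonneg _))) l Q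
  refine h1.trans ?_
  have s1 : ∑ x ∈ S, (h * fa Q Q' x) ^ 2 = h ^ 2 * (Q.card + Q'.card) :=
    SepSeed.sum_sq hQ hQ' hdis h
  have s2 : ∀ A : Finset (Pt d × Pt d),
      ∑ x ∈ S, h * fa Q Q' x * ind (x ∈ Q ∨ Far l A x) = h * (Q.card + nFar l A Q') :=
    fun A => SepSeed.sum_upper hQ hQ' hdis h l A
  simp only [s1, s2]
  have e : (fun A => Real.exp (h * ((Q.card : ℝ) + nFar l A Q'))) =
      (fun A => Real.exp (h * Q.card) * Real.exp (h * nFar l A Q')) := by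
    funext A
    rw [← Real.exp_add]
    congr 1
    ring
  rw [e, E_smul, Real.exp_add, Real.exp_add]
  have hq0 : (0 : ℝ) < q := by
    have : 0 < q := by omega
    exact_mod_cast this
  gcongr

/-- the total exponent -/
theorem exponent {h θ V β N s : ℝ} (hh : 0 ≤ h) (hθ : 0 < θ) (hV : 0 ≤ V) (hβ : 0 < β)
    (hβ1 : β ≤ 1 / 2 ^ 8) (hs : s ≤ 1 / 16) (hN : N * h ≤ θ / 40) :
    -(15 / 8 * (3 / 8 * θ) * (h * (1 - s)) * V) - (h * (V - (β + β) * θ * V) +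
      h * ((1 - β) * θ * V) / 2) + (h * V + h * ((1 + β) * θ * V) + N / 2 * (h ^ 2 * (V + V))) ≤
      -(θ / 10 * (h * V)) := by
  have hhV : 0 ≤ h * V := mul_nonneg hh hV
  have hθV : 0 ≤ θ * (h * V) := mul_nonneg hθ.le hhV
  have e1 : N / 2 * (h ^ 2 * (V + V)) = (N * h) * (h * V) := by ring
  have e2 : (N * h) * (h * V) ≤ θ / 40 * (h * V) := mul_le_mul_of_nonneg_right hN hhV
  have e3 : s * (θ * (h * V)) ≤ 1 / 16 * (θ * (h * V)) := mul_le_mul_of_nonneg_right hs hθV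
  have e4 : β * (θ * (h * V)) ≤ 1 / 2 ^ 8 * (θ * (h * V)) := mul_le_mul_of_nonneg_right hβ1 hθV
  rw [e1]
  have e5 : -(15 / 8 * (3 / 8 * θ) * (h * (1 - s)) * V) - (h * (V - (β + β) * θ * V) +
      h * ((1 - β) * θ * V) / 2) + (h * V + h * ((1 + β) * θ * V) + (N * h) * (h * V)) =
      (1 / 2 - 45 / 64) * (θ * (h * V)) + 45 / 64 * (s * (θ * (h * V))) +
        7 / 2 * (β * (θ * (h * V))) + (N * h) * (h * V) := by ring
  rw [e5]
  nlinarith

theorem final_sum {c1 Q b : ℝ} (hc1 : 0 < c1) (hQ : 0 ≤ Q) (hb : Q ≤ c1 * b) {x y : ℝ}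
    (hx : c1 * (2 * b) ≤ x) (hy : c1 * (2 * b) ≤ y) :
    Q * Real.exp (-x) + Real.exp (-y) ≤ Real.exp (-c1 * b) := by
  have e1 : Real.exp (-x) ≤ Real.exp (-(c1 * b)) * Real.exp (-(c1 * b)) := by
    rw [← Real.exp_add, Real.exp_le_exp]
    linarith
  have e2 : Real.exp (-y) ≤ Real.exp (-(c1 * b)) * Real.exp (-(c1 * b)) := by
    rw [← Real.exp_add, Real.exp_le_exp]
    linarith
  have e3 : (Q + 1) * Real.exp (-(c1 * b)) ≤ 1 := by
    rw [Real.exp_neg, mul_inv_le_iff₀ (Real.exp_pos _), one_mul]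
    have := Real.add_one_le_exp (c1 * b)
    linarith
  have e4 : (Q + 1) * Real.exp (-(c1 * b)) * Real.exp (-(c1 * b)) ≤ 1 * Real.exp (-(c1 * b)) :=
    mul_le_mul_of_nonneg_right e3 (Real.exp_pos _).le
  have e5 : -c1 * b = -(c1 * b) := by ring
  have e6 := mul_le_mul_of_nonneg_left e1 hQ
  rw [e5]
  linarith

end SepqSeed

theorem sepq_seed {d q l : ℕ} (hd : 3 ≤ d) (hq : 2 ≤ q) {p1 p β : ℝ} (hp0 : 0 < p1)
    (hpp : p1 < p) (hp1 : p < 1) (hβ : 0 < β) (hβ1 : β ≤ 1 / 2 ^ (d + 8))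
    (hth : 0 < th d l p q) :
    ∃ c0 : ℝ, 0 < c0 ∧ ∃ L0 : ℕ, ∀ (D O : Finset (Pt d × Pt d)) (c c' : Pt d) (b ρ : ℕ),
      IsLat D → O ⊆ D → L0 ≤ b → b ≤ ρ → (∀ i, |c i - c' i| ≤ ρ) →
      Disjoint (cube c b) (cube c' b) → lat (thick c c' (2 * ρ)) ⊆ D →
      (∀ x ∈ thick c c' (2 * ρ), ∀ z ∈ cube c b ∪ cube c' b,
        7 / 8 * th d l p q ^ 2 ≤ P D (pr O p1) q (fun A => Conn A x z)) →
      (∀ x ∈ cube c b, Conn O c x) →
      (∀ x ∈ cube c' b, ∀ e ∈ O, e ∉ lat (cube x l)) →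
      P D (pr O p) q (fun A => ∃ y, ¬ Conn A c y ∧
        (1 - β) * th d l p q * (cube c' b).card ≤ (cl A (cube c' b) y).card) ≤
      Real.exp (-c0 * b) := by
  classical
  haveI : NeZero q := ⟨by omega⟩
  have hq2 : (2 : ℝ) ≤ (q : ℝ) := by exact_mod_cast hq
  have hq1 : (1 : ℝ) ≤ (q : ℝ) := by linarith
  have hq0 : (0 : ℝ) < (q : ℝ) := by linarith
  have hp' : 0 < p := hp0.trans hpp
  have hpp' : 0 < p - p1 := by linarith
  have hpp1 : p - p1 ≤ 1 := by linarith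
  have hβ8 : β ≤ 1 / 2 ^ 8 := by
    refine hβ1.trans ?_
    apply one_div_le_one_div_of_le (by positivity)
    exact pow_le_pow_right₀ (by norm_num) (by omega)
  have hβ2 : β ≤ 1 / 256 := by
    have : (2 : ℝ) ^ 8 = 256 := by norm_num
    rwa [this] at hβ8
  have hθ1' : th d l p q ≤ 1 := P_le_one hq0 (adm_pr hp'.le hp1.le) _
  obtain ⟨t0, ht0, hmom⟩ := moment_small (d := d) (l := l) hq1 hp'.le hp1.le hβ
  obtain ⟨cc, hcc, hcher⟩ := chernoff (d := d) (l := l) hq1 hp'.le hp1.le hth hβ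
  obtain ⟨tB, B, htB, hB, hmag⟩ := magnB (d := d) (l := l) hq hp' hp1 hth
  obtain ⟨ζ, hζ, hζ1, hlp⟩ := lpq hd hq hth hθ1'
  obtain ⟨θ, hθ⟩ : ∃ θ : ℝ, θ = th d l p q := ⟨_, rfl⟩
  simp only [← hθ] at hth hmom hcher hmag hlp hθ1' ⊢
  obtain ⟨N, hN⟩ : ∃ N : ℝ, N = (((2 * l + 1) ^ d : ℕ) : ℝ) := ⟨_, rfl⟩
  have hN1 : 1 ≤ N := by
    rw [hN]
    exact_mod_cast Nat.one_le_iff_ne_zero.2 (pow_ne_zero _ (by omega))
  obtain ⟨c1, hc1⟩ : ∃ c1 : ℝ, c1 = min (θ / 10 * (ζ * (p - p1))) cc := ⟨_, rfl⟩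
  have hc1p : 0 < c1 := by rw [hc1]; exact lt_min (by positivity) hcc
  obtain ⟨ε, hε⟩ : ∃ ε : ℝ, ε = min (min t0 tB) (θ / (40 * N)) := ⟨_, rfl⟩
  have hεp : 0 < ε := by rw [hε]; exact lt_min (lt_min ht0 htB) (by positivity)
  obtain ⟨n1, hn1⟩ := exists_nat_ge (1 / ε)
  obtain ⟨n2, hn2⟩ := exists_nat_ge (N / (β * θ))
  obtain ⟨n3, hn3⟩ := exists_nat_ge ((q : ℝ) ^ 2 / c1)
  obtain ⟨n4, hn4⟩ := exists_nat_ge (16 * B / (ζ * (p - p1)))
  refine ⟨c1, hc1p, max (max n1 n2) (max (max n3 n4) 1), ?_⟩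
  intro D O c c' b ρ hD hOD hb hbρ hcc' hdis hlat hconn hOc hOQ
  have hw : Adm D (pr O p) := adm_pr hp'.le hp1.le
  have hb1 : n1 ≤ b := le_trans (le_trans (le_max_left _ _) (le_max_left _ _)) hb
  have hb2 : n2 ≤ b := le_trans (le_trans (le_max_right _ _) (le_max_left _ _)) hb
  have hb3 : n3 ≤ b := le_trans (le_trans (le_trans (le_max_left _ _) (le_max_left _ _))
    (le_max_right _ _)) hb
  have hb4 : n4 ≤ b := le_trans (le_trans (le_trans (le_max_right _ _) (le_max_left _ _))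
    (le_max_right _ _)) hb
  have hb5 : 1 ≤ b := le_trans (le_trans (le_max_right _ _) (le_max_right _ _)) hb
  have hbr : (1 : ℝ) ≤ b := by exact_mod_cast hb5
  obtain ⟨S, hSdef⟩ : ∃ S : Finset (Pt d), S = thick c c' (2 * ρ) ∪
    (D.image Prod.fst ∪ D.image Prod.snd) := ⟨_, rfl⟩
  have hS : Verts D S := by
    intro e he
    rw [hSdef]
    exact ⟨mem_union_right _ (mem_union_left _ (mem_image_of_mem _ he)),
      mem_union_right _ (mem_union_right _ (mem_image_of_mem _ he))⟩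
  have hthS : thick c c' (2 * ρ) ⊆ S := by rw [hSdef]; exact subset_union_left
  have hQS : cube c b ⊆ S := (SepSeed.cube_sub_left c c' (by omega)).trans hthS
  have hQS' : cube c' b ⊆ S := (SepSeed.cube_sub_right c c' (by omega)).trans hthS
  have hcQm : c ∈ cube c b := by
    rw [mem_cube]
    intro i
    simp
  have hcS : c ∈ S := hQS hcQm
  obtain ⟨K, hK⟩ : ∃ K : ℝ, K = 2 * b + 1 := ⟨_, rfl⟩
  have hKb : 2 * (b : ℝ) ≤ K := by rw [hK]; linarith
  have hK1 : 1 ≤ K := by linarith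
  have hcQ : ((cube c b).card : ℝ) = K ^ d := by rw [card_cube, hK]; push_cast; ring
  have hcQ' : ((cube c' b).card : ℝ) = K ^ d := by rw [card_cube, hK]; push_cast; ring
  have hKd : K ^ d = K ^ 2 * K ^ (d - 2) := by
    rw [← pow_add]
    congr 1
    omega
  have hKd1 : K ≤ K ^ (d - 2) := by
    calc K = K ^ 1 := (pow_one K).symm
      _ ≤ K ^ (d - 2) := pow_le_pow_right₀ hK1 (by omega)
  have hKdV : K ^ (d - 2) ≤ K ^ d := pow_le_pow_right₀ hK1 (by omega)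
  have hsmall : ∀ u : ℝ, u ≤ p - p1 → ∀ z ∈ cube c' b, ∀ e ∈ D, e ∈ lat (cube z l) →
      pr O (p1 + u) e ≤ p := by
    intro u hu x hx e _ he
    have : e ∉ O := fun h => hOQ x hx e h he
    simp only [pr, this, if_false]
    linarith
  have hsmallp : ∀ z ∈ cube c' b, ∀ e ∈ D, e ∈ lat (cube z l) → pr O p e ≤ p := by
    have := hsmall (p - p1) le_rfl
    simpa using this
  -- the fields
  obtain ⟨h, hh⟩ : ∃ h : ℝ, h = ζ / (2 * b + 1) ^ 2 * (p - p1) := ⟨_, rfl⟩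
  have hlam : ζ / (2 * (b : ℝ) + 1) ^ 2 ≤ 1 / b := by
    rw [div_le_div_iff₀ (by positivity) (by linarith)]
    nlinarith
  have hlam0 : 0 < ζ / (2 * (b : ℝ) + 1) ^ 2 := by positivity
  have hh0 : 0 < h := by rw [hh]; positivity
  have hbε : 1 / (b : ℝ) ≤ ε := by
    have h1 : (n1 : ℝ) ≤ b := by exact_mod_cast hb1
    rw [div_le_iff₀ hεp] at hn1
    rw [div_le_iff₀ (by linarith)]
    have := mul_le_mul_of_nonneg_right h1 hεp.le
    linarith
  have hhb : h ≤ 1 / b := by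
    rw [hh]
    have h2 : ζ / (2 * (b : ℝ) + 1) ^ 2 * (p - p1) ≤ ζ / (2 * (b : ℝ) + 1) ^ 2 * 1 :=
      mul_le_mul_of_nonneg_left hpp1 hlam0.le
    linarith
  have hhε : h ≤ ε := hhb.trans hbε
  have hht : h ≤ t0 := hhε.trans (by rw [hε]; exact (min_le_left _ _).trans (min_le_left _ _))
  have hNh : N * h ≤ θ / 40 := by
    have h1 : h ≤ θ / (40 * N) := hhε.trans (by rw [hε]; exact min_le_right _ _)
    rw [le_div_iff₀ (by positivity)] at h1
    linarith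
  obtain ⟨u0, hu0⟩ : ∃ u0 : ℝ, u0 = B / (ζ * K ^ (d - 2)) := ⟨_, rfl⟩
  have hu0p : 0 < u0 := by rw [hu0]; positivity
  have hu16 : u0 ≤ 1 / 16 * (p - p1) := by
    have h1 : (n4 : ℝ) ≤ b := by exact_mod_cast hb4
    rw [div_le_iff₀ (by positivity)] at hn4
    rw [hu0, div_le_iff₀ (by positivity)]
    have h2 : (n4 : ℝ) * (ζ * (p - p1)) ≤ K ^ (d - 2) * (ζ * (p - p1)) :=
      mul_le_mul_of_nonneg_right (by linarith) (by positivity)
    linarith
  have hlpu := hlp D O S c c' b b ρ p1 p u0 hp0 hpp hp1 hu0p.le (by linarith) hOD hS hthS hb5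
    le_rfl hbρ hcc' hlat (by
      intro u hu1 hu2 x hx
      have hwu : Adm D (pr O (p1 + u)) := adm_pr (by linarith) (by linarith)
      have hw1 : Adm D (pr O p1) := adm_pr hp0.le (by linarith)
      have hup : 0 < u := by linarith
      have hKK : ((2 * b + 1 : ℕ) : ℝ) = K := by rw [hK]; push_cast; ring
      refine hmag D (pr O (p1 + u)) S (cube c b) (cube c' b) x c
        (ζ / (2 * b + 1) ^ 2 * u) hD hwu hS hQS hQS' hdis ?_ (hthS hx) hcQm
        (hsmall u hu2) ?_ ?_ (by positivity) ?_ ?_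
      · rw [card_cube, card_cube]
      · intro A hA hA1 y hy
        refine (hOc y hy).mono' ?_
        intro e he
        exact hA1 e (hOD he) (by simp [pr, he])
      · intro z hz
        refine (hconn x hx z (mem_union_right _ hz)).trans ?_
        refine E_holley hq1 hw1 hwu ?_ ?_
        · intro e _
          simp only [pr]
          split_ifs
          · exact le_rfl
          · linarith
        · intro A A' hAA _
          exact ind_mono fun h => h.mono' hAA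
      · have h1 : ζ / (2 * (b : ℝ) + 1) ^ 2 * u ≤ ζ / (2 * (b : ℝ) + 1) ^ 2 * 1 :=
          mul_le_mul_of_nonneg_left (by linarith) hlam0.le
        have h2 : ε ≤ tB := by rw [hε]; exact (min_le_left _ _).trans (min_le_right _ _)
        linarith
      · rw [hcQ', hKd, ← hK]
        have h1 : ζ / K ^ 2 * u * (K ^ 2 * K ^ (d - 2)) = ζ * K ^ (d - 2) * u := by
          field_simp
        rw [h1]
        have h2 : B = ζ * K ^ (d - 2) * u0 := by
          rw [hu0]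
          field_simp
        rw [h2]
        exact mul_le_mul_of_nonneg_left hu1 (by positivity))
  rw [← hh] at hlpu
  have hhV : h * K ^ d = ζ * (p - p1) * K ^ (d - 2) := by
    rw [hh, hKd, ← hK]
    field_simp
  obtain ⟨Q, hQ⟩ : ∃ Q, Q = cube c b := ⟨_, rfl⟩
  obtain ⟨Q', hQ'⟩ : ∃ Q', Q' = cube c' b := ⟨_, rfl⟩
  rw [← hQ] at hlpu hcQ hdis hQS hOc hcQm
  rw [← hQ'] at hlpu hcQ' hdis hQS' hOQ hsmallp
  simp only [← hQ']
  clear hlp hmag hconn hsmall hlat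
  have hN0V : N ≤ β * θ * K ^ d := by
    have h3 : (n2 : ℝ) ≤ b := by exact_mod_cast hb2
    have h4 : N ≤ n2 * (β * θ) := by
      have := hn2
      rwa [div_le_iff₀ (by positivity)] at this
    calc N ≤ n2 * (β * θ) := h4
      _ ≤ K ^ d * (β * θ) := mul_le_mul_of_nonneg_right (by linarith) (by positivity)
      _ = β * θ * K ^ d := by ring
  have hV0 : 0 < K ^ d := by positivity
  have hθV : 0 < θ * K ^ d := mul_pos hth hV0
  have hest := SepqSeed.est (q := q) hq hw (l := l) hD hOD hS hQS hQS' hcS hOc hh0.le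
    (β := β) (δ := β) (θ := θ) (by linarith) hth.le (by
      rw [← hN, hcQ']
      have : 0 < β * (θ * K ^ d) := mul_pos hβ hθV
      linarith) (by
      rw [← hN, hcQ']
      have : β * (θ * K ^ d) < (1 - β) * (θ * K ^ d) :=
        mul_lt_mul_of_pos_right (by linarith) hθV
      linarith)
  have hmomA := hmom D (pr O p) hD hw Q' hsmallp h hh0.le hht
  have hup := SepqSeed.upper (q := q) hq hw (l := l) hD hS hQS hQS' hdis hh0.le hmomA
  have hfar := hcher D (pr O p) hD hw Q' hsmallp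
  have hZ0 := ZS_pos (q := q) hw S (fun _ => 0)
  have hZa := ZS_pos (q := q) hw S (fun x => h * fa Q Q' x)
  have hZb := ZS_pos (q := q) hw S (fun x => h * fb Q Q' x)
  have hNd : ((2 * l + 1 : ℕ) : ℝ) ^ d = N := by rw [hN]; push_cast; ring
  rw [hNd] at hup
  rw [hcQ, hcQ'] at hup hest
  rw [hcQ'] at hlpu hfar
  obtain ⟨Z0, hZ0d⟩ : ∃ x, x = ZS q D (pr O p) S (fun _ => 0) := ⟨_, rfl⟩
  obtain ⟨Za, hZad⟩ : ∃ x, x = ZS q D (pr O p) S (fun x => h * fa Q Q' x) := ⟨_, rfl⟩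
  obtain ⟨Zb, hZbd⟩ : ∃ x, x = ZS q D (pr O p) S (fun x => h * fb Q Q' x) := ⟨_, rfl⟩
  rw [← hZ0d] at hZ0 hest hup
  rw [← hZad] at hZa hup hlpu
  rw [← hZbd] at hZb hest hlpu
  rw [hcQ']
  have hsd : 15 / 8 * (3 / 8 * θ) * (ζ / (2 * b + 1) ^ 2) * (p - p1 - u0) * K ^ d =
      15 / 8 * (3 / 8 * θ) * (h * (1 - u0 / (p - p1))) * K ^ d := by
    rw [hh]
    field_simp
  rw [hsd] at hlpu
  obtain ⟨s, hs⟩ : ∃ s : ℝ, s = u0 / (p - p1) := ⟨_, rfl⟩
  have hs16 : s ≤ 1 / 16 := by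
    rw [hs, div_le_iff₀ hpp']
    exact hu16
  rw [← hs] at hlpu
  have hexp := SepqSeed.exponent (h := h) (θ := θ) (V := K ^ d) (β := β) (N := N) (s := s)
    hh0.le hth hV0.le hβ hβ8 hs16 hNh
  obtain ⟨τ, hτ⟩ : ∃ τ : ℝ, τ = 15 / 8 * (3 / 8 * θ) * (h * (1 - s)) * K ^ d := ⟨_, rfl⟩
  rw [← hτ] at hlpu hexp
  have hZZ : Zb ≤ Real.exp (-τ) * Za := by
    calc Zb = Real.exp (Real.log Zb) := (Real.exp_log hZb).symm
      _ ≤ Real.exp (-τ + Real.log Za) := Real.exp_le_exp.2 (by linarith)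
      _ = Real.exp (-τ) * Za := by rw [Real.exp_add, Real.exp_log hZa]
  have hPev : P D (pr O p) q (fun A => (∃ y, ¬ Conn A c y ∧
      (1 - β) * θ * K ^ d ≤ (cl A Q' y).card) ∧
        (nFar l A Q' : ℝ) ≤ (1 + β) * θ * K ^ d) ≤
        (q : ℝ) ^ 2 * Real.exp (-(θ / 10 * (h * K ^ d))) := by
    obtain ⟨Pe, hPe⟩ : ∃ Pe, Pe = P D (pr O p) q (fun A => (∃ y, ¬ Conn A c y ∧
      (1 - β) * θ * K ^ d ≤ (cl A Q' y).card) ∧
        (nFar l A Q' : ℝ) ≤ (1 + β) * θ * K ^ d) := ⟨_, rfl⟩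
    rw [← hPe] at hest ⊢
    obtain ⟨u, hu⟩ : ∃ u, u = h * (K ^ d - (β + β) * θ * K ^ d) +
      h * ((1 - β) * θ * K ^ d) / 2 := ⟨_, rfl⟩
    obtain ⟨v, hv⟩ : ∃ v, v = h * K ^ d + h * ((1 + β) * θ * K ^ d) +
      N / 2 * (h ^ 2 * (K ^ d + K ^ d)) := ⟨_, rfl⟩
    rw [← hu] at hest
    rw [← hu, ← hv] at hexp
    rw [← hv] at hup
    have h1 : Pe * (1 / (q : ℝ) ^ 2 * Real.exp u) ≤ Real.exp (-τ) * Real.exp v := by
      refine hest.trans ?_
      calc Zb / Z0 ≤ (Real.exp (-τ) * Za) / Z0 :=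
            div_le_div_of_nonneg_right hZZ hZ0.le
        _ = Real.exp (-τ) * (Za / Z0) := by rw [mul_div_assoc]
        _ ≤ _ := mul_le_mul_of_nonneg_left hup (Real.exp_pos _).le
    rw [← Real.exp_add] at h1
    have h2 : Pe = (q : ℝ) ^ 2 * ((Pe * (1 / (q : ℝ) ^ 2 * Real.exp u)) * Real.exp (-u)) := by
      have h3 : Real.exp u * Real.exp (-u) = 1 := by rw [← Real.exp_add]; simp
      have h4 : (q : ℝ) ^ 2 * (1 / (q : ℝ) ^ 2) = 1 := by field_simp
      linear_combination (-Pe) * h3 - Pe * (Real.exp u * Real.exp (-u)) * h4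
    rw [h2]
    apply mul_le_mul_of_nonneg_left _ (by positivity)
    calc Pe * (1 / (q : ℝ) ^ 2 * Real.exp u) * Real.exp (-u) ≤
          Real.exp (-τ + v) * Real.exp (-u) := mul_le_mul_of_nonneg_right h1 (Real.exp_pos _).le
      _ = Real.exp (-τ - u + v) := by rw [← Real.exp_add]; congr 1; ring
      _ ≤ _ := Real.exp_le_exp.2 hexp
  have hsplit : P D (pr O p) q (fun A => ∃ y, ¬ Conn A c y ∧
      (1 - β) * θ * K ^ d ≤ (cl A Q' y).card) ≤
      P D (pr O p) q (fun A => (∃ y, ¬ Conn A c y ∧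
      (1 - β) * θ * K ^ d ≤ (cl A Q' y).card) ∧
        (nFar l A Q' : ℝ) ≤ (1 + β) * θ * K ^ d) +
      P D (pr O p) q (fun A => (1 + β) * θ * K ^ d < nFar l A Q') := by
    rw [P, P, P, ← E_add]
    refine E_mono hq0 hw ?_
    intro A _
    by_cases h1 : (nFar l A Q' : ℝ) ≤ (1 + β) * θ * K ^ d
    · have h2 := ind_mono (p := ∃ y, ¬ Conn A c y ∧ (1 - β) * θ * K ^ d ≤ (cl A Q' y).card)
        (r := (∃ y, ¬ Conn A c y ∧ (1 - β) * θ * K ^ d ≤ (cl A Q' y).card) ∧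
          (nFar l A Q' : ℝ) ≤ (1 + β) * θ * K ^ d) (fun h => ⟨h, h1⟩)
      have := ind_nonneg ((1 + β) * θ * K ^ d < nFar l A Q')
      linarith
    · rw [ind_true (lt_of_not_ge h1)]
      have := ind_le_one (∃ y, ¬ Conn A c y ∧ (1 - β) * θ * K ^ d ≤ (cl A Q' y).card)
      have := ind_nonneg ((∃ y, ¬ Conn A c y ∧ (1 - β) * θ * K ^ d ≤ (cl A Q' y).card) ∧
        (nFar l A Q' : ℝ) ≤ (1 + β) * θ * K ^ d)
      linarith
  refine (hsplit.trans (add_le_add hPev hfar)).trans ?_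
  have e0 : -cc * K ^ d = -(cc * K ^ d) := by ring
  rw [e0]
  apply SepqSeed.final_sum hc1p (by positivity)
  · have h3 : (n3 : ℝ) ≤ b := by exact_mod_cast hb3
    rw [div_le_iff₀ hc1p] at hn3
    have := mul_le_mul_of_nonneg_right h3 hc1p.le
    linarith
  · rw [hhV]
    calc c1 * (2 * b) ≤ (θ / 10 * (ζ * (p - p1))) * K ^ (d - 2) := by
          apply mul_le_mul (by rw [hc1]; exact min_le_left _ _) (by linarith) (by positivity)
            (by positivity)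
      _ = _ := by ring
  · apply mul_le_mul (by rw [hc1]; exact min_le_right _ _) (by linarith) (by positivity) hcc.le

end FKB
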