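import Pool.Agent.FKQ.Key
import Pool.Agent.FKB.EdgeDiff
import Pool.Agent.FKB.WiredSq
import Pool.Agent.FKB.TwoPoint

open Finset
noncomputable section
namespace FKB

theorem tq_I {d q : ℕ} (hq : 2 ≤ q) {H : Finset (Pt d)} {p : ℝ} (hp0 : 0 ≤ p) (hp1 : p ≤ 1)
    (x y z : Pt d) :
    (wP H p (q : ℝ) x z * fP H p (q : ℝ) y z - fP H p (q : ℝ) x z * wP H p (q : ℝ) y z) ^ 2 ≤
      (wP H p (q : ℝ) x y - fP H p (q : ℝ) x y) *
        ((wP H p (q : ℝ) x z - fP H p (q : ℝ) x z) +
          (wP H p (q : ℝ) x y - fP H p (q : ℝ) x y)) := by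
  have hq0 : (0 : ℝ) < q := by
    have : (2 : ℝ) ≤ q := by exact_mod_cast hq
    linarith
  have : NeZero q := ⟨by omega⟩
  have h := keyq_I hq (D := wD H) (w := pr (wO H) p) (w' := fun e => if e ∈ lat H then p else 0)
    (adm_pr hp0 hp1) (by
      intro e _
      by_cases h : e ∈ lat H
      · simp [h, hp0, hp1]
      · simp [h]) (by
      intro e _
      unfold pr
      by_cases h1 : e ∈ lat H <;> by_cases h2 : e ∈ wO H <;> simp [h1, h2, hp0, hp1]) x y z
  rw [tp_free hq0 hp0 hp1, tp_free hq0 hp0 hp1, tp_free hq0 hp0 hp1] at h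
  exact h

theorem tq_arith {a a' b b' e δ κ θ N : ℝ} (hδpos : 0 ≤ δ) (hθ0 : 0 < θ)
    (hκ : κ = 1 / (2 * θ ^ 4)) (hN0 : 0 ≤ N) (hau : θ ^ 2 ≤ a) (hau' : θ ^ 2 ≤ a')
    (ha'1 : a' ≤ 1) (he0 : 0 ≤ e) (hd1 : e ≤ δ) (hfw2 : b' ≤ a')
    (hI : (a' * b - b' * a) ^ 2 ≤ e * ((a' - b') + e))
    (hN : (1 - (δ * (1 + N * κ) ^ 2 - δ)) * a' ≤ b') :
    (1 - (δ * (1 + (N + 1) * κ) ^ 2 - δ)) * a ≤ b := by
  have hκpos : 0 < κ := by rw [hκ]; positivity
  have hθ2 : 0 < θ ^ 2 := by positivity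
  have ha0 : 0 < a := by linarith
  have ha'0 : 0 < a' := by linarith
  obtain ⟨γ, hγ⟩ : ∃ γ, γ = δ * (1 + N * κ) ^ 2 - δ := ⟨_, rfl⟩
  rw [← hγ] at hN
  have hNκ : 0 ≤ N * κ := mul_nonneg hN0 hκpos.le
  have hγ0 : 0 ≤ γ := by
    have h1 : (1 : ℝ) ≤ (1 + N * κ) ^ 2 := by nlinarith
    have h2 : δ * 1 ≤ δ * (1 + N * κ) ^ 2 := mul_le_mul_of_nonneg_left h1 hδpos
    rw [hγ]
    linarith
  have h2 : a' - b' ≤ γ := by
    have : γ * a' ≤ γ * 1 := mul_le_mul_of_nonneg_left ha'1 hγ0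
    linarith
  have h3 : (a' * b - b' * a) ^ 2 ≤ (δ * (1 + N * κ)) ^ 2 := by
    calc (a' * b - b' * a) ^ 2 ≤ e * ((a' - b') + e) := hI
      _ ≤ δ * (γ + δ) := by
          apply mul_le_mul hd1 (by linarith) (by linarith) hδpos
      _ = (δ * (1 + N * κ)) ^ 2 := by rw [hγ]; ring
  have h4 : -(δ * (1 + N * κ)) ≤ a' * b - b' * a :=
    (abs_le_of_sq_le_sq' h3 (by positivity)).1
  have e3 : δ * (1 + N * κ) ≤ 2 * κ * (δ * (1 + N * κ)) * (a * a') := by
    have h5 : θ ^ 2 * θ ^ 2 ≤ a * a' := mul_le_mul hau hau' hθ2.le ha0.le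
    have h4 : 2 * κ * (θ ^ 2 * θ ^ 2) = 1 := by
      rw [hκ]
      field_simp
    have h6 : 0 ≤ 2 * κ * (δ * (1 + N * κ)) := by positivity
    calc δ * (1 + N * κ) = (2 * κ * (θ ^ 2 * θ ^ 2)) * (δ * (1 + N * κ)) := by rw [h4]; ring
      _ = 2 * κ * (δ * (1 + N * κ)) * (θ ^ 2 * θ ^ 2) := by ring
      _ ≤ _ := mul_le_mul_of_nonneg_left h5 h6
  have e2 : (1 - γ) * a' * a ≤ b' * a := mul_le_mul_of_nonneg_right hN ha0.le
  have e4 : (1 - γ - 2 * κ * (δ * (1 + N * κ))) * a * a' ≤ b * a' := by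
    have : (1 - γ - 2 * κ * (δ * (1 + N * κ))) * a * a' =
        (1 - γ) * a' * a - 2 * κ * (δ * (1 + N * κ)) * (a * a') := by ring
    rw [this]
    linarith
  have e5 : (1 - γ - 2 * κ * (δ * (1 + N * κ))) * a ≤ b := le_of_mul_le_mul_right e4 ha'0
  have e6 : (1 - (δ * (1 + (N + 1) * κ) ^ 2 - δ)) ≤ (1 - γ - 2 * κ * (δ * (1 + N * κ))) := by
    rw [hγ]
    have : 0 ≤ δ * κ ^ 2 := by positivity
    have h7 : δ * (1 + (N + 1) * κ) ^ 2 = δ * (1 + N * κ) ^ 2 + 2 * κ * (δ * (1 + N * κ)) +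
        δ * κ ^ 2 := by ring
    linarith
  exact (mul_le_mul_of_nonneg_right e6 ha0.le).trans e5

theorem two_pointq {d q : ℕ} (hd : 1 ≤ d) (hq : 2 ≤ q) {p0 p1 : ℝ} (h0 : 0 < p0) (h01 : p0 < p1)
    (h1 : p1 < 1) (hth : 0 < th1 d p0 q) :
    ∃ C : ℝ, 0 < C ∧ ∀ n : ℕ, 1 ≤ n → ∀ x z : Pt d,
      (1 - C * (1 + dist1 x z) ^ 2 / n) * th1 d p0 q ^ 2 ≤
        fP (thick x z (2 * n + 1)) p1 q x z := by
  have hq2 : (2 : ℝ) ≤ q := by exact_mod_cast hq
  have hq1 : (1 : ℝ) < q := by linarith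
  have hq0 : (0 : ℝ) < q := by linarith
  obtain ⟨C, hC, hED⟩ := edge_diff hd hq1 h0 h01 h1
  set θ := th1 d p0 (q : ℝ) with hθ
  have hθ1 : θ ≤ 1 := by
    have := th1_le (d := d) (l := 0) hq1.le h0.le (by linarith : p0 ≤ 1)
    have h2 := th_le_one (d := d) (l := 0) hq1.le h0.le (by linarith : p0 ≤ 1)
    linarith
  refine ⟨C / θ ^ 8, by positivity, ?_⟩
  intro n hn x z
  obtain ⟨pn, hpn0, hpn1, hE⟩ := hED n hn
  have hn0 : (0 : ℝ) < n := by exact_mod_cast hn
  have hpn_0 : 0 ≤ pn := by linarith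
  have hpn_1 : pn ≤ 1 := by linarith
  set H := thick x z (2 * n + 1) with hH
  set δ := C / n with hδ
  have hδpos : 0 ≤ δ := by positivity
  set κ := 1 / (2 * θ ^ 4) with hκ
  have hκpos : 0 < κ := by positivity
  have hzH : z ∈ H := by
    apply tp_subset
    rw [tp_hull]
    intro i
    exact ⟨min_le_right _ _, le_max_right _ _⟩
  -- lower bound for the wired two-point function
  have ha : ∀ u ∈ thick x z 0, θ ^ 2 ≤ wP H pn (q : ℝ) u z := by
    intro u hu
    refine le_trans ?_ (wP_ge_sq hq1.le hpn_0 hpn_1 (tp_subset hu) hzH)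
    have := th1_mono (d := d) hq1.le h0.le hpn0.le hpn_1
    gcongr
  have ha1 : ∀ u, wP H pn (q : ℝ) u z ≤ 1 := by
    intro u
    unfold wP
    exact P_le_one hq0 (adm_pr hpn_0 hpn_1) _
  -- one step
  have step : ∀ u ∈ thick x z 0, ∀ u' ∈ thick x z 0, ∀ N : ℝ, 0 ≤ N →
      (wP H pn (q : ℝ) u' u - fP H pn (q : ℝ) u' u ≤ δ) →
      (1 - (δ * (1 + N * κ) ^ 2 - δ)) * wP H pn (q : ℝ) u' z ≤ fP H pn (q : ℝ) u' z →
      (1 - (δ * (1 + (N + 1) * κ) ^ 2 - δ)) * wP H pn (q : ℝ) u z ≤ fP H pn (q : ℝ) u z := by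
    intro u hu u' hu' N hNpos hd1 hN
    have hI := tq_I hq hpn_0 hpn_1 (H := H) u' u z
    have hfw := fP_le_wP (H := H) hq1.le hpn_0 hpn_1 u' u
    have hfw2 := fP_le_wP (H := H) hq1.le hpn_0 hpn_1 u' z
    exact tq_arith hδpos hth hκ hNpos (ha u hu) (ha u' hu') (ha1 u') (by linarith) hd1 hfw2 hI hN
  have hsymm : ∀ u u' : Pt d, wP H pn (q : ℝ) u u' - fP H pn (q : ℝ) u u' =
      wP H pn (q : ℝ) u' u - fP H pn (q : ℝ) u' u := by
    intro u u'
    unfold wP fP P
    congr 1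
    · exact E_congr (fun A _ => ind_congr ⟨Conn.symm', Conn.symm'⟩)
    · exact E_congr (fun A _ => ind_congr ⟨Conn.symm', Conn.symm'⟩)
  -- induction along a path
  have main : ∀ N : ℕ, ∀ u ∈ thick x z 0, dist1 u z = N →
      (1 - (δ * (1 + (N : ℝ) * κ) ^ 2 - δ)) * wP H pn (q : ℝ) u z ≤ fP H pn (q : ℝ) u z := by
    intro N
    induction N with
    | zero =>
      intro u hu hdist
      have huz : u = z := by
        funext i
        unfold dist1 at hdist
        have h2 := (Finset.sum_eq_zero_iff_of_nonneg (fun i _ => abs_nonneg (u i - z i))).1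
          (by simpa using hdist) i (Finset.mem_univ i)
        have := abs_eq_zero.1 h2
        linarith
      subst huz
      have e1 : wP H pn (q : ℝ) u u = 1 := tp_self hq0 (adm_pr hpn_0 hpn_1) u
      have e2 : fP H pn (q : ℝ) u u = 1 :=
        tp_self hq0 (fun e _ => ⟨hpn_0, hpn_1⟩) u
      rw [e1, e2]
      simp
    | succ N ih =>
      intro u hu hdist
      have hne : ∃ i, u i ≠ z i := by
        by_contra hcon
        push Not at hcon
        have : dist1 u z = 0 := by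
          unfold dist1
          exact Finset.sum_eq_zero (fun i _ => by simp [hcon i])
        rw [this] at hdist
        have : (0 : ℤ) < ((N + 1 : ℕ) : ℤ) := by positivity
        linarith
      obtain ⟨i, hi⟩ := hne
      have huH := tp_hull.1 hu
      rcases lt_or_gt_of_ne hi with hlt | hgt
      · -- move up
        have hu' : u + Pi.single i 1 ∈ thick x z 0 := by
          rw [tp_hull]
          intro j
          by_cases hj : j = i
          · subst hj
            simp only [Pi.add_apply, Pi.single_eq_same]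
            constructor
            · linarith [(huH j).1]
            · have : z j ≤ max (x j) (z j) := le_max_right _ _
              linarith
          · simp only [Pi.add_apply, Pi.single_eq_of_ne hj, add_zero]
            exact huH j
        have hd' : dist1 (u + Pi.single i 1) z = N := by
          rw [tp_dist_step u z i 1, hdist]
          · push_cast
            ring
          · rw [abs_of_nonpos (by linarith), abs_of_neg (by linarith)]
            ring
        have h3 := ih _ hu' hd'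
        have h4 := hE H u i (tp_cube_sub hu)
        rw [hsymm] at h4
        have h5 := step u hu _ hu' N (by positivity) h4 h3
        push_cast
        exact h5
      · -- move down
        have hu' : u + Pi.single i (-1) ∈ thick x z 0 := by
          rw [tp_hull]
          intro j
          by_cases hj : j = i
          · subst hj
            simp only [Pi.add_apply, Pi.single_eq_same]
            constructor
            · have : min (x j) (z j) ≤ z j := min_le_right _ _
              linarith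
            · linarith [(huH j).2]
          · simp only [Pi.add_apply, Pi.single_eq_of_ne hj, add_zero]
            exact huH j
        have hd' : dist1 (u + Pi.single i (-1)) z = N := by
          rw [tp_dist_step u z i (-1), hdist]
          · push_cast
            ring
          · rw [abs_of_nonneg (by linarith), abs_of_pos (by linarith)]
            ring
        have h3 := ih _ hu' hd'
        have h4 := hE H (u + Pi.single i (-1)) i (tp_cube_sub hu')
        have hback : u + Pi.single i (-1) + Pi.single i 1 = u := by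
          funext j
          by_cases hj : j = i
          · subst hj; simp
          · simp [hj]
        rw [hback] at h4
        have h5 := step u hu _ hu' N (by positivity) h4 h3
        push_cast
        exact h5
  have hxhull : x ∈ thick x z 0 := by
    rw [tp_hull]
    intro i
    exact ⟨min_le_left _ _, le_max_left _ _⟩
  have hdnn : 0 ≤ dist1 x z := Finset.sum_nonneg (fun i _ => abs_nonneg _)
  obtain ⟨N, hN⟩ := Int.eq_ofNat_of_zero_le hdnn
  have hm := main N x hxhull hN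
  have hmp : fP H pn (q : ℝ) x z ≤ fP H p1 (q : ℝ) x z :=
    fP_mono_p hq1.le hpn_0 hpn1.le h1.le x z
  have hcoef : (1 - C / θ ^ 8 * (1 + (dist1 x z : ℝ)) ^ 2 / n) ≤
      1 - (δ * (1 + (N : ℝ) * κ) ^ 2 - δ) := by
    rw [hN]
    push_cast
    have h8 : (1 + (N : ℝ) * κ) ≤ (1 + N) / θ ^ 4 := by
      have h4 : (1 : ℝ) ≤ 1 / θ ^ 4 := by
        rw [le_div_iff₀ (by positivity), one_mul]
        exact pow_le_one₀ (by positivity) hθ1
      have h5 : κ ≤ 1 / θ ^ 4 := by
        rw [hκ]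
        apply one_div_le_one_div_of_le (by positivity)
        nlinarith [pow_pos (show 0 < θ from hth) 4]
      calc (1 + (N : ℝ) * κ) ≤ 1 / θ ^ 4 + N * (1 / θ ^ 4) := by gcongr
        _ = _ := by ring
    have h9 : δ * (1 + (N : ℝ) * κ) ^ 2 ≤ δ * ((1 + N) / θ ^ 4) ^ 2 := by gcongr
    have h10 : δ * ((1 + (N : ℝ)) / θ ^ 4) ^ 2 = C / θ ^ 8 * (1 + (N : ℝ)) ^ 2 / n := by
      rw [hδ]
      field_simp
    linarith
  rcases le_or_gt 0 (1 - C / θ ^ 8 * (1 + (dist1 x z : ℝ)) ^ 2 / n) with hc | hc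
  · calc (1 - C / θ ^ 8 * (1 + (dist1 x z : ℝ)) ^ 2 / n) * θ ^ 2 ≤
        (1 - (δ * (1 + (N : ℝ) * κ) ^ 2 - δ)) * wP H pn (q : ℝ) x z := by
          have := ha x hxhull
          apply mul_le_mul hcoef this (by positivity) (by linarith)
      _ ≤ _ := hm.trans hmp
  · have h6 : 0 ≤ fP H p1 (q : ℝ) x z := by
      unfold fP
      exact P_nonneg hq0 (fun e _ => ⟨by linarith, by linarith⟩) _
    have h7 : (1 - C / θ ^ 8 * (1 + (dist1 x z : ℝ)) ^ 2 / n) * θ ^ 2 ≤ 0 :=
      mul_nonpos_of_nonpos_of_nonneg hc.le (by positivity)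
    linarith

end FKB
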