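import Pool.Agent.FKQ.ChChain
import Pool.Agent.FKQ.Sep
import Pool.Agent.FKQ.SepSeed
import Pool.Agent.FKQ.Two
import Pool.Agent.FKQ.Dense
import Pool.Agent.FKB.Top

open Finset
noncomputable section
namespace FKB

theorem qchain_seed_aux {d q : ℕ} (hd : 3 ≤ d) (hq : 2 ≤ q) {p : ℝ} (hp0 : 0 < p) (hp1 : p < 1)
    (hth : 0 < th1 d p (q : ℝ))
    (hleft : ∀ s : ℝ, 0 < s → ∃ p0, 0 < p0 ∧ p0 < p ∧
      (1 - s) * th1 d p (q : ℝ) ≤ th1 d p0 (q : ℝ))
    {ε : ℝ} (hε : 0 < ε) (hε1 : ε ≤ 1) :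
    ∃ r : ℕ, 1 ≤ r ∧ ∀ Nb : ℕ, ∃ n0 : ℕ, ∀ N : ℕ, n0 ≤ N → ∀ (j j' : Fin d) (s : ℤ), j ≠ j' →
      (s = 1 ∨ s = -1) → ∀ i, i < Nb →
      th1 d p (q : ℝ) - ε ≤
        P (DD N j j' s r i) (pr (OO N j j' s r i) p) (q : ℝ)
          (fun A => Conn A (pos N j j' s r (16 * r * i)) 0) := by
  have hq1 : (1 : ℝ) ≤ q := by
    have : 1 ≤ q := by omega
    exact_mod_cast this
  set θ := th1 d p (q : ℝ) with hθd
  have hθ1 : θ ≤ 1 := (th1_le (l := 0) hq1 hp0.le hp1.le).trans (th_le_one hq1 hp0.le hp1.le)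
  -- constants
  set β : ℝ := min (ε / 16) (1 / 2 ^ (d + 8)) with hβd
  have hβ : 0 < β := lt_min (by positivity) (by positivity)
  have hβε : β ≤ ε / 16 := min_le_left _ _
  have hβκ : β ≤ 1 / 2 ^ (d + 8) := min_le_right _ _
  set η : ℝ := ε * θ / 16 with hηd
  have hη : 0 < η := by positivity
  have hη1 : η ≤ 1 / 16 := by
    rw [hηd]
    have : ε * θ ≤ 1 * 1 := mul_le_mul hε1 hθ1 hth.le (by norm_num)
    linarith
  obtain ⟨s0, hs0, hdf⟩ := dense_freeq (d := d) (by omega) hβ (by linarith) hη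
  set s : ℝ := min (min (s0 / 4) (ε / 16)) (1 / 64) with hsd
  have hs : 0 < s := lt_min (lt_min (by positivity) (by positivity)) (by norm_num)
  have hss0 : s ≤ s0 / 4 := (min_le_left _ _).trans (min_le_left _ _)
  have hsε : s ≤ ε / 16 := (min_le_left _ _).trans (min_le_right _ _)
  have hs64 : s ≤ 1 / 64 := min_le_right _ _
  obtain ⟨p0, hp00, hp0p, hp0th⟩ := hleft s hs
  set θ0 := th1 d p0 (q : ℝ) with hθ0d
  have hθ0 : 0 < θ0 := by
    have : 0 < (1 - s) * θ := mul_pos (by linarith) hth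
    linarith
  have hθ0θ : θ0 ≤ θ := th1_mono hq1 hp00.le hp0p.le hp1.le
  obtain ⟨l, hl⟩ := th_lt_of_pos (d := d) (p := p) (q := (q : ℝ)) hq1 hp0.le hp1.le
    (r := (1 + s) * θ) (by nlinarith)
  set θl := th d l p (q : ℝ) with hθld
  have hθθl : θ ≤ θl := th1_le hq1 hp0.le hp1.le
  have hθl : 0 < θl := lt_of_lt_of_le hth hθθl
  have hθl0 : θl ≤ (1 + s0) * θ0 := by
    have h1 : (1 + s) * θ ≤ (1 + s0) * ((1 - s) * θ) := by
      have : (1 + s) ≤ (1 + s0) * (1 - s) := by nlinarith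
      nlinarith
    have h2 : (1 + s0) * ((1 - s) * θ) ≤ (1 + s0) * θ0 :=
      mul_le_mul_of_nonneg_left hp0th (by linarith)
    linarith
  set p1 : ℝ := (p0 + p) / 2 with hp1d
  have hp1a : p0 < p1 := by rw [hp1d]; linarith
  have hp1b : p1 < p := by rw [hp1d]; linarith
  have hp10 : 0 < p1 := hp00.trans hp1a
  obtain ⟨C, hC, hU⟩ := two_pointq (d := d) (q := q) (by omega) hq hp00 hp1a (hp1b.trans hp1) hθ0
  have hU' : ∀ n : ℕ, 1 ≤ n → ∀ x z : Pt d,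
      (1 - C * (1 + dist1 x z) ^ 2 / n) * θ0 ^ 2 ≤ fP (thick x z (2 * n + 1)) p (q : ℝ) x z := by
    intro n hn x z
    exact (hU n hn x z).trans (fP_mono_p hq1 hp10.le hp1b.le hp1.le x z)
  obtain ⟨K, hK, Ld, hDf⟩ := hdf (q : ℝ) p θ0 C l hq1 hp0.le hp1.le hC hθ0 (hθ0θ.trans hθθl)
    hθl0 hU'
  obtain ⟨c1, hc1, L1, hsep⟩ := sepq (d := d) (q := q) (l := l) hd hq hp10 hp1b hp1 hβ hβκ hθl
  obtain ⟨c2, hc2, L2, hseed⟩ := sepq_seed (d := d) (q := q) (l := l) hd hq hp10 hp1b hp1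
    hβ hβκ hθl
  obtain ⟨Lt, htop⟩ := top_bound (d := d) (l := l) (p := p) (q := (q : ℝ)) (ε := ε / 4) hq1
    hp0.le hp1.le (by positivity) hθl
  set κ : ℝ := 7 / 8 * θl ^ 2 with hκd
  -- the window ratio
  obtain ⟨M1, hM1⟩ := exists_nat_ge (20000 * C * d ^ 2 / s)
  set W : ℕ := max M1 400 with hWd
  have hW : 400 ≤ W := le_max_right _ _
  have hWs : 20000 * C * d ^ 2 / W ≤ s := by
    have h1 : (M1 : ℝ) ≤ W := by exact_mod_cast le_max_left _ _
    have hWpos : (0 : ℝ) < W := by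
      have : 0 < W := by omega
      exact_mod_cast this
    rw [div_le_iff₀ hWpos]
    have h2 : 20000 * C * d ^ 2 / s ≤ W := hM1.trans h1
    rw [div_le_iff₀ hs] at h2
    linarith
  set c0 : ℝ := min c1 c2 with hc0d
  have hc0 : 0 < c0 := lt_min hc1 hc2
  set Lmin : ℕ := max (max Ld L1) (max L2 Lt) with hLmind
  obtain ⟨u1, hu1⟩ := tail_small hη (by linarith : η < 1) (show 0 < ε / 16 by positivity)
  obtain ⟨u2, hu2⟩ := tail_small (Real.exp_pos (-c0))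
    (by rw [Real.exp_lt_one_iff]; linarith) (show 0 < ε / 16 by positivity)
  set m : ℕ := (16 * K * W + Lmin) ^ 4 + u1 + u2 + W + 4 * l with hmd
  have hm1 : 1 ≤ m := by omega
  have hmu : m ≤ 2 * W * m := by
    have : 1 * m ≤ 2 * W * m := Nat.mul_le_mul_right _ (by omega)
    omega
  have hLbig : 16 * K * W + Lmin ≤ Lu (2 * W * m) := by
    apply le_Lu
    omega
  set r : ℕ := 2 * W * m ^ 2 with hrd
  have hr1 : 1 ≤ r := by
    have : 0 < 2 * W * m ^ 2 := by positivity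
    omega
  refine ⟨r, hr1, fun Nb => ⟨Tu W (2 * W * m + 1) + 32 * r * Nb + W * (16 * r * Nb) ^ 2, ?_⟩⟩
  intro N hN j j' sg hj hsg i hi
  have hNb : 32 * r * i ≤ 32 * r * Nb := Nat.mul_le_mul_left _ hi.le
  have hN1 : 32 * r * i ≤ N := by omega
  have hN3 : W * (16 * r * i) ^ 2 ≤ N := by
    have h1 : 16 * r * i ≤ 16 * r * Nb := Nat.mul_le_mul_left _ hi.le
    have h2 : W * (16 * r * i) ^ 2 ≤ W * (16 * r * Nb) ^ 2 :=
      Nat.mul_le_mul_left _ (Nat.pow_le_pow_left h1 2)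
    omega
  have hN0 : Tu W (2 * W * m + 1) ≤ N := by omega
  obtain ⟨Kn, hKn, hTN, hNT⟩ := reach (m := m) (by omega : 1 ≤ W) hN0
  set v : ℝ := (1 - s) * θ0 ^ 2 with hvd
  have hv : 0 ≤ v := mul_nonneg (by linarith) (sq_nonneg _)
  have hθ0sq : (1 - s) ^ 2 * θ ^ 2 ≤ θ0 ^ 2 := by
    have : ((1 - s) * θ) ^ 2 ≤ θ0 ^ 2 := by
      apply pow_le_pow_left₀ (mul_nonneg (by linarith) hth.le) hp0th
    linarith [mul_pow (1 - s) θ 2]
  have hv0 : (1 - s) * ((1 - s) ^ 2 * θ ^ 2) ≤ v :=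
      mul_le_mul_of_nonneg_left hθ0sq (by linarith)
  have hv1 : (1 - 4 * s) * θ * θl ≤ v := by
    have h2 : (1 - 4 * s) * θ * θl ≤ (1 - 4 * s) * θ * ((1 + s) * θ) := by
      apply mul_le_mul_of_nonneg_left hl.le
      apply mul_nonneg (by linarith) hth.le
    have h3 : (1 - 4 * s) * (1 + s) ≤ (1 - s) * (1 - s) ^ 2 := by
      nlinarith [mul_nonneg hs.le hs.le,
        mul_nonneg (mul_nonneg hs.le hs.le) (show 0 ≤ 1 - s by linarith)]
    have h4 : (1 - 4 * s) * θ * ((1 + s) * θ) = ((1 - 4 * s) * (1 + s)) * θ ^ 2 := by ring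
    have h5 : (1 - s) * ((1 - s) ^ 2 * θ ^ 2) = ((1 - s) * (1 - s) ^ 2) * θ ^ 2 := by ring
    have h6 : ((1 - 4 * s) * (1 + s)) * θ ^ 2 ≤ ((1 - s) * (1 - s) ^ 2) * θ ^ 2 :=
      mul_le_mul_of_nonneg_right h3 (sq_nonneg _)
    linarith
  have hκv : κ ≤ v := by
    have h2 : 7 / 8 * (1 + s) ^ 2 ≤ (1 - s) * (1 - s) ^ 2 := by
      have h3 : (63 : ℝ) / 64 ≤ 1 - s := by linarith
      have h4 : ((63 : ℝ) / 64) ^ 2 ≤ (1 - s) ^ 2 := pow_le_pow_left₀ (by norm_num) h3 2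
      have h5 : ((63 : ℝ) / 64) * ((63 : ℝ) / 64) ^ 2 ≤ (1 - s) * (1 - s) ^ 2 :=
        mul_le_mul h3 h4 (by positivity) (by linarith)
      have h6 : (1 + s) ^ 2 ≤ (65 / 64) ^ 2 := pow_le_pow_left₀ (by linarith) (by linarith) 2
      norm_num at h5 h6
      linarith
    have h7 : θl ^ 2 ≤ ((1 + s) * θ) ^ 2 := pow_le_pow_left₀ hθl.le hl.le 2
    have h8 : ((1 + s) * θ) ^ 2 = (1 + s) ^ 2 * θ ^ 2 := by ring
    have h9 : 7 / 8 * (1 + s) ^ 2 * θ ^ 2 ≤ ((1 - s) * (1 - s) ^ 2) * θ ^ 2 :=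
      mul_le_mul_of_nonneg_right h2 (sq_nonneg _)
    have h10 : (1 - s) * ((1 - s) ^ 2 * θ ^ 2) = ((1 - s) * (1 - s) ^ 2) * θ ^ 2 := by ring
    rw [hκd]
    linarith
  have hexp : ∀ {c a : ℝ}, c0 ≤ c → 0 ≤ a → Real.exp (-c * a) ≤ Real.exp (-c0 * a) := by
    intro c a hc ha
    apply Real.exp_le_exp.2
    nlinarith
  have hmain := qchain_core (N := N) (j := j) (j' := j') (s := sg) (i := i) (W := W)
    (K := K) (Kn := Kn) (l := l) (Lmin := Lmin) (m := m) hsg hj hW hK (by omega) (by omega)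
    (q := (q : ℝ)) (p := p) (p1 := p1)
    (κ := κ) (θ := θl) (β := β) (η := η) (v := v) (ε := ε / 4) (c0 := c0) (ε' := ε / 16)
    hq1 hp10.le hp1b.le hp1.le hβ (by linarith) hη.le hv
    (by
      intro D O c c' a b ρ h1 h2 h3 h4 h5 h6 h7 h8 h9 h10 h11
      have hL : L1 ≤ Lmin := (le_max_right _ _).trans (le_max_left _ _)
      refine (hsep D O c c' a b ρ h1 h2 (hL.trans h3) h4 h5 h6 h7 h8 h9 h10 h11).trans ?_
      exact hexp (min_le_left _ _) (Nat.cast_nonneg _))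
    (by
      intro D O c c' b ρ h1 h2 h3 h4 h5 h6 h7 h8 h9 h10
      have hL : L2 ≤ Lmin := (le_max_left _ _).trans (le_max_right _ _)
      refine (hseed D O c c' b ρ h1 h2 (hL.trans h3) h4 h5 h6 h7 h8 h9 h10).trans ?_
      exact hexp (min_le_right _ _) (Nat.cast_nonneg _))
    (by
      intro D w c x0 L β' η' v' h1 h2 h3 h4 h5 h6 h7 h8 h9 h10
      have hL : Lt ≤ Lmin := (le_max_right _ _).trans (le_max_right _ _)
      exact htop D w c x0 L β' η' v' h1 h2 (hL.trans h3) h4 h5 h6 h7 h8 h9 h10)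
    (by
      intro L hL c
      have hL' : Ld ≤ Lmin := (le_max_left _ _).trans (le_max_left _ _)
      exact hDf L (hL'.trans hL) c)
    hKn hTN hNT hN1 hN3 (by omega) (by omega) hc0
    (hu1 (2 * W * m) (by omega) (Kn + 1))
    (hu2 (2 * W * m) (by omega) Kn)
    (by
      intro u hu hTu x z hx hz
      have hT2 : 2 * (2 * W * m ^ 2) ≤ Tu W u := by
        rw [← Tu_start (W := W) (by omega) m]
        exact Tu_mono W hu
      have hD2 : 2 * m ≤ Du W u := by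
        rw [← Du_start (W := W) (by omega) m]
        exact Du_mono W hu
      have hWD := Du_sq_le (W := W) (by omega) u
      have hD192 : 192 * Du W u ≤ Tu W u := by
        have h2 : 192 * Du W u ≤ W * Du W u ^ 2 := by
          have : Du W u ≤ Du W u ^ 2 := Nat.le_self_pow (by norm_num) _
          nlinarith
        omega
      have hT32 : 32 ≤ Tu W u := by
        have h1 : 16 ≤ 2 * W * m ^ 2 := by
          have h1 : 1 ≤ m ^ 2 := Nat.one_le_pow _ _ hm1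
          nlinarith
        omega
      have h1 := qwin_two hq1 hp10.le (hp1b.trans hp1).le hC (by omega) hU hj hsg hr1 hT2 hT32
        hD192 (by omega) (by omega : 1 ≤ W) hWD hTu hN1 hx hz
      refine le_trans ?_ h1
      apply mul_le_mul_of_nonneg_right _ (sq_nonneg _)
      linarith)
    hκv
  have hgoal : v / θl - (β + η / θl + ε / 4) - 2 * (ε / 16) ≤
      P (DD N j j' sg r i) (pr (OO N j j' sg r i) p) (q : ℝ)
        (fun A => Conn A (pos N j j' sg r (16 * r * i)) 0) := hmain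
  refine le_trans ?_ hgoal
  have e3 : θ - ε / 4 ≤ v / θl := by
    rw [le_div_iff₀ hθl]
    have h1 : (θ - ε / 4) * θl ≤ (1 - 4 * s) * θ * θl := by
      apply mul_le_mul_of_nonneg_right _ hθl.le
      have : 4 * s * θ ≤ ε / 4 := by
        have : 4 * s * θ ≤ 4 * s * 1 := mul_le_mul_of_nonneg_left hθ1 (by linarith)
        linarith
      nlinarith
    linarith
  have e4 : η / θl ≤ ε / 16 := by
    rw [div_le_iff₀ hθl, hηd]
    have : ε * θ ≤ ε * θl := mul_le_mul_of_nonneg_left hθθl hε.le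
    linarith
  linarith

theorem qchain_seed {d q : ℕ} (hd : 3 ≤ d) (hq : 2 ≤ q) {p : ℝ} (hp0 : 0 < p) (hp1 : p < 1)
    (hth : 0 < th1 d p (q : ℝ))
    (hleft : ∀ s : ℝ, 0 < s → ∃ p0, 0 < p0 ∧ p0 < p ∧
      (1 - s) * th1 d p (q : ℝ) ≤ th1 d p0 (q : ℝ))
    {ε : ℝ} (hε : 0 < ε) :
    ∃ r : ℕ, 1 ≤ r ∧ ∀ Nb : ℕ, ∃ n0 : ℕ, ∀ N : ℕ, n0 ≤ N → ∀ (j j' : Fin d) (s : ℤ), j ≠ j' →
      (s = 1 ∨ s = -1) → ∀ i, i < Nb →
      th1 d p (q : ℝ) - ε ≤
        P (DD N j j' s r i) (pr (OO N j j' s r i) p) (q : ℝ)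
          (fun A => Conn A (pos N j j' s r (16 * r * i)) 0) := by
  obtain ⟨r, hr, h⟩ := qchain_seed_aux hd hq hp0 hp1 hth hleft (lt_min hε one_pos)
    (min_le_right ε 1)
  refine ⟨r, hr, fun Nb => ?_⟩
  obtain ⟨n0, hn0⟩ := h Nb
  refine ⟨n0, fun N hN j j' s hj hs i hi => ?_⟩
  refine le_trans ?_ (hn0 N hN j j' s hj hs i hi)
  have := min_le_left ε 1
  linarith

end FKB
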