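import Pool.Agent.FKQ.Lim
import Pool.Agent.FKQ.ChSeed

open Finset MeasureTheory Filter
noncomputable section
namespace FKB

theorem mainCube_int {d q : ℕ} (hd : 3 ≤ d) (hq : 2 ≤ q) : MainCube d (q : ℝ) :=
  mainCube_of_chain (by omega) (by
    have : 1 ≤ q := by omega
    exact_mod_cast this) (fun p hp0 hp1 hth hleft _ hε => qchain_seed hd hq hp0 hp1 hth hleft hε)

theorem mainCube_even {d k : ℕ} (hd : 2 ≤ d) (hk : 1 ≤ k) : MainCube d (2 * k : ℝ) :=
  fun _ hp0 hp1 hth hleft _ hε => main_cube hd hk hp0 hp1 hth hleft hε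

/-- every integer `q ≥ 2` in dimension `d ≥ 3`, and every even `q ≥ 2` in dimension `2` -/
theorem mainCube_all {d q : ℕ} (h : 3 ≤ d ∧ 2 ≤ q ∨ d = 2 ∧ 2 ≤ q ∧ Even q) :
    MainCube d (q : ℝ) := by
  rcases h with ⟨hd, hq⟩ | ⟨hd, hq, ⟨k, hk⟩⟩
  · exact mainCube_int hd hq
  · have h1 := mainCube_even (d := d) (k := k) (by omega) (by omega)
    have h2 : (q : ℝ) = 2 * k := by
      rw [hk]; push_cast; ring
    rw [h2]; exact h1

theorem final_int {d q : ℕ} (hd : 3 ≤ d) (hq : 2 ≤ q) :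
    ∃ N : Set ℝ, N.Countable ∧ ∀ p : ℝ, 0 ≤ p → p ≤ 1 → p ∉ N →
      ∀ μ : Measure (Set (Pt d × Pt d)), IsFreeLimit μ p (q : ℝ) →
      ∀ a b : ℕ → Pt d, Exhausts a b →
      Tendsto (fun m => phi0 (Finset.Icc (a m) (b m)) p (q : ℝ)
        (toBoundary (Finset.Icc (a m) (b m)))) atTop (nhds (μ.real toInfinity)) :=
  qfinal_countable (by omega) (by
    have : 1 ≤ q := by omega
    exact_mod_cast this) (mainCube_int hd hq)

end FKB
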