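import Pool.Agent.FKQ.ChTop

open Finset
noncomputable section
namespace FKB

/-- the chain of windows, with all the inputs as hypotheses -/
theorem qchain_core {d : ℕ} {N : ℕ} {j j' : Fin d} {s : ℤ} {i W K Kn l Lmin m : ℕ}
    (hs : s = 1 ∨ s = -1) (hj : j ≠ j') (hW : 400 ≤ W) (hK : 1 ≤ K) (hWm : W ≤ m)
    (hlm : 4 * l ≤ m)
    {q p p1 κ θ β η v ε c0 ε' : ℝ} (hq : 1 ≤ q) (hp10 : 0 ≤ p1) (hp1p : p1 ≤ p) (hp1 : p ≤ 1)
    (hβ : 0 < β) (hβ1 : β ≤ 1 / 2) (hη : 0 ≤ η) (hv : 0 ≤ v)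
    (hsep : ∀ (D O : Finset (Pt d × Pt d)) (c c' : Pt d) (a b ρ : ℕ),
      IsLat D → O ⊆ D → Lmin ≤ b → b ≤ a → a ≤ 2 * b → a ≤ ρ → (∀ i, |c i - c' i| ≤ ρ) →
      Disjoint (cube c a) (cube c' b) → lat (thick c c' (2 * ρ)) ⊆ D →
      (∀ x ∈ thick c c' (2 * ρ), ∀ z ∈ cube c a ∪ cube c' b,
        κ ≤ P D (pr O p1) q (fun A => Conn A x z)) →
      (∀ x ∈ cube c a ∪ cube c' b, ∀ e ∈ O, e ∉ lat (cube x l)) →
      P D (pr O p) q (fun A => ∃ x y, ¬ Conn A x y ∧
        (1 - β) * θ * (cube c a).card ≤ (cl A (cube c a) x).card ∧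
        (1 - β) * θ * (cube c' b).card ≤ (cl A (cube c' b) y).card) ≤
      Real.exp (-c0 * b))
    (hseed : ∀ (D O : Finset (Pt d × Pt d)) (c c' : Pt d) (b ρ : ℕ),
      IsLat D → O ⊆ D → Lmin ≤ b → b ≤ ρ → (∀ i, |c i - c' i| ≤ ρ) →
      Disjoint (cube c b) (cube c' b) → lat (thick c c' (2 * ρ)) ⊆ D →
      (∀ x ∈ thick c c' (2 * ρ), ∀ z ∈ cube c b ∪ cube c' b,
        κ ≤ P D (pr O p1) q (fun A => Conn A x z)) →
      (∀ x ∈ cube c b, Conn O c x) →
      (∀ x ∈ cube c' b, ∀ e ∈ O, e ∉ lat (cube x l)) →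
      P D (pr O p) q (fun A => ∃ y, ¬ Conn A c y ∧
        (1 - β) * θ * (cube c' b).card ≤ (cl A (cube c' b) y).card) ≤
      Real.exp (-c0 * b))
    (htop : ∀ (D : Finset (Pt d × Pt d)) (w : Pt d × Pt d → ℝ) (c x0 : Pt d) (L : ℕ)
      (β η v : ℝ), IsLat D → Adm D w → Lmin ≤ L → 0 < β → β ≤ 1 / 2 → 0 ≤ η → 0 ≤ v →
      (∀ x ∈ cube c L, ∀ e ∈ D, e ∈ lat (cube x l) → w e ≤ p) →
      (∀ z ∈ cube c L, v ≤ P D w q (fun A => Conn A x0 z)) →
      P D w q (fun A => ¬ Dense A (cube c L) ((1 - β) * θ * (cube c L).card)) ≤ η →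
      v / θ - (β + η / θ + ε) ≤
        P D w q (fun A => ∃ y, (1 - β) * θ * (cube c L).card ≤
          (cl A (cube c L) y).card ∧ Conn A x0 y))
    (hDf : ∀ L : ℕ, Lmin ≤ L → ∀ c : Pt d,
        P (lat (cube c (K * L ^ 2))) (fun _ => p) q
          (fun A => ¬ Dense A (cube c L) ((1 - β) * θ * (cube c L).card)) ≤ η)
    (hKn : 1 ≤ Kn) (hTN : Tu W (2 * W * m + Kn) ≤ N) (hNT : N < Tu W (2 * W * m + Kn + 1))
    (hN1 : 32 * (2 * W * m ^ 2) * i ≤ N) (hN3 : W * (16 * (2 * W * m ^ 2) * i) ^ 2 ≤ N)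
    (hL1 : 16 * K * W ≤ Lu (2 * W * m)) (hL2 : Lmin ≤ Lu (2 * W * m))
    (hc0 : 0 < c0)
    (hsum1 : ∑ n ∈ Finset.range (Kn + 1), ((Lu (2 * W * m + n) : ℝ) + 2) ^ 2 *
      η ^ Lu (2 * W * m + n) ≤ ε')
    (hsum2 : ∑ n ∈ Finset.range Kn, ((Lu (2 * W * m + n) : ℝ) + 2) ^ 2 *
      Real.exp (-c0) ^ Lu (2 * W * m + n) ≤ ε')
    (htwo : ∀ u, 2 * W * m ≤ u → Tu W u ≤ N → ∀ x z : Pt d,
      x ∈ Reg N j j' s (2 * W * m ^ 2) i ((Tu W u : ℤ) - 12 * (Du W u : ℕ))
      ((Tu W u : ℤ) + 12 * (Du W u : ℕ)) (12 * (Du W u : ℕ)) →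
      z ∈ Reg N j j' s (2 * W * m ^ 2) i ((Tu W u : ℤ) - 12 * (Du W u : ℕ))
      ((Tu W u : ℤ) + 12 * (Du W u : ℕ)) (12 * (Du W u : ℕ)) →
      v ≤ P (DD N j j' s (2 * W * m ^ 2) i) (pr (OO N j j' s (2 * W * m ^ 2) i) p1) q
        (fun A => Conn A x z))
    (hκv : κ ≤ v) :
    v / θ - (β + η / θ + ε) - 2 * ε' ≤
      P (DD N j j' s (2 * W * m ^ 2) i) (pr (OO N j j' s (2 * W * m ^ 2) i) p) q
        (fun A => Conn A (pos N j j' s (2 * W * m ^ 2 : ℕ) (16 * (2 * W * m ^ 2 : ℕ) * i)) 0) := by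
  have hp0 : 0 ≤ p := hp10.trans hp1p
  have hm1 : 1 ≤ m := by omega
  set r : ℕ := 2 * W * m ^ 2 with hrd
  set u0 : ℕ := 2 * W * m with hu0
  have hr1 : 1 ≤ r := by
    have : 0 < 2 * W * m ^ 2 := by positivity
    omega
  have hTu0 : Tu W u0 = 2 * r := Tu_start (by omega) m
  have hDu0 : Du W u0 = 2 * m := Du_start (by omega) m
  have hadm : Adm (DD N j j' s r i) (pr (OO N j j' s r i) p) := adm_pr' hp0 hp1
  have hTmono : ∀ n, n ≤ Kn → Tu W (u0 + n) ≤ N := fun n hn =>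
    (Tu_mono W (by omega)).trans hTN
  have hT2r : ∀ n, 2 * r ≤ Tu W (u0 + n) := fun n => by
    rw [← hTu0]; exact Tu_mono W (by omega)
  have hN2 : 2 * r ≤ N := (hT2r 0).trans (hTmono 0 (Nat.zero_le _))
  have hr32 : 32 ≤ 2 * r := by
    have : 16 ≤ 2 * W * m ^ 2 := by
      have h1 : 1 ≤ m ^ 2 := Nat.one_le_pow _ _ hm1
      nlinarith
    omega
  have hT32 : ∀ n, 32 ≤ Tu W (u0 + n) := fun n => hr32.trans (hT2r n)
  have hLn : ∀ n, 16 * K * W ≤ Lu (u0 + n) := fun n => hL1.trans (Lu_mono (by omega))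
  have hLn2 : ∀ n, Lmin ≤ Lu (u0 + n) := fun n => hL2.trans (Lu_mono (by omega))
  have hKW : 1 ≤ 16 * K * W := by
    have : 0 < 16 * K * W := by positivity
    omega
  have hgain : ∀ n, 2 * r + 4 * (m * n) ≤ Tu W (u0 + n) := fun n => by
    have := Tu_ge_start (W := W) (by omega) m n
    rw [← hrd, ← hu0] at this
    have e : 4 * (m * n) = 4 * m * n := by ring
    rw [e]; exact this
  have hgain2 : ∀ n, 1 ≤ n → Lu (u0 + n) < 2 * (m * n) := fun n hn => by
    have := Lu_lt_gain (W := W) (m := m) (n := n) (by omega) hWm hn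
    have e : 2 * (m * n) = 2 * m * n := by ring
    rw [e]; exact this
  have hlmn : ∀ n, 1 ≤ n → l ≤ m * n := fun n hn => by
    have : m * 1 ≤ m * n := Nat.mul_le_mul_left _ hn
    omega
  have hdense1 : ∀ n, 1 ≤ n → n ≤ Kn →
      P (DD N j j' s r i) (pr (OO N j j' s r i) p) q
      (fun A => ∀ a ∈ Finset.range (Lu (u0 + n)), ∀ x,
        ((cl A (cube (qctr N j j' s r i W K (u0 + n) a) (Lu (u0 + n))) x).card : ℝ) <
          (1 - β) * θ * (cube (qctr N j j' s r i W K (u0 + n) a) (Lu (u0 + n))).card) ≤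
        η ^ Lu (u0 + n) := by
    intro n _ hn
    exact qwin_dense hs hj hW hK hr1 hq hp0 hp1 (hT2r n) (hT32 n) (hTmono n hn) hN1 (hLn n)
      (fun c => hDf _ (hLn2 n) c) (le_refl _)
  have hstep : ∀ n, 1 ≤ n → n < Kn → ∀ a ∈ Finset.range (Lu (u0 + n)),
      ∀ a' ∈ Finset.range (Lu (u0 + (n + 1))),
      P (DD N j j' s r i) (pr (OO N j j' s r i) p) q (fun A => ∃ x y, ¬ Conn A x y ∧
        (1 - β) * θ * (cube (qctr N j j' s r i W K (u0 + n) a) (Lu (u0 + n))).card ≤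
          (cl A (cube (qctr N j j' s r i W K (u0 + n) a) (Lu (u0 + n))) x).card ∧
        (1 - β) * θ *
            (cube (qctr N j j' s r i W K (u0 + (n + 1)) a') (Lu (u0 + (n + 1)))).card ≤
          (cl A (cube (qctr N j j' s r i W K (u0 + (n + 1)) a') (Lu (u0 + (n + 1)))) y).card) ≤
      Real.exp (-c0) ^ Lu (u0 + n) := by
    intro n hn1 hnK a ha a' ha'
    have h := qwin_sep hs hj hW hK hr1 hsep (hT2r n) (hT32 n) (hTmono n hnK.le) hN1 hN2
      (hLn n) (hLn2 n) (by linarith : 0 < q) hp0 hp1 (hgain n) (hgain2 n hn1) (hlmn n hn1)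
      (Finset.mem_range.1 ha) (Finset.mem_range.1 ha')
      (fun x z hx hz => hκv.trans (htwo (u0 + n) (by omega) (hTmono n hnK.le) x z hx hz))
    refine h.trans (le_of_eq ?_)
    rw [← Real.exp_nat_mul]
    congr 1
    ring
  have hstart : ∀ a' ∈ Finset.range (Lu (u0 + 1)),
      P (DD N j j' s r i) (pr (OO N j j' s r i) p) q (fun A => ∃ y,
        ¬ Conn A (qctr0 N j j' s r i (Lu (u0 + 1))) y ∧
        (1 - β) * θ * (cube (qctr N j j' s r i W K (u0 + 1) a') (Lu (u0 + 1))).card ≤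
          (cl A (cube (qctr N j j' s r i W K (u0 + 1) a') (Lu (u0 + 1))) y).card) ≤
      Real.exp (-c0) ^ Lu (u0 + 0) := by
    intro a' ha'
    have h := qwin_sep0 hs hj hW hK hr1 hseed (u := u0) hTu0 (hT32 0) hN1 hN2 (hLn 0) (hLn2 0)
      (by
        rw [hDu0]
        rw [Nat.le_div_iff_mul_le (by norm_num)]
        omega)
      (Finset.mem_range.1 ha')
      (fun x z hx hz => hκv.trans (htwo u0 (le_refl _) (hTmono 0 (Nat.zero_le _)) x z hx hz))
    refine h.trans ?_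
    rw [← Real.exp_nat_mul]
    apply Real.exp_le_exp.2
    have h1 : (Lu (u0 + 0) : ℝ) ≤ Lu (u0 + 1) := by exact_mod_cast Lu_mono (by omega)
    nlinarith
  have htop1 : v / θ - (β + η / θ + ε) ≤
      P (DD N j j' s r i) (pr (OO N j j' s r i) p) q (fun A => ∃ y,
        (1 - β) * θ * (cube (qctr N j j' s r i W K (u0 + Kn) 0) (Lu (u0 + Kn))).card ≤
          (cl A (cube (qctr N j j' s r i W K (u0 + Kn) 0) (Lu (u0 + Kn))) y).card ∧
        Conn A 0 y) := by
    refine qwin_top hs hj hW hK hp0 hp1 htop hTN hNT hN3 (hLn Kn) (hLn2 Kn) (hgain Kn)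
      (hgain2 Kn hKn) (hlmn Kn hKn) hβ hβ1 hη hv ?_ ?_
    · intro x z hx hz
      exact (htwo (u0 + Kn) (by omega) hTN x z hx hz).trans (P_conn_mono_p hq hp10 hp1p hp1 x z)
    · have h := qwin_dense (t := (1 - β) * θ) (η := η) hs hj hW hK hr1 hq hp0 hp1 (hT2r Kn)
        (hT32 Kn) hTN hN1 (hLn Kn) (fun c => hDf _ (hLn2 Kn) c) (J := 1)
        (hKW.trans (hLn Kn))
      rw [pow_one] at h
      refine le_trans ?_ h
      apply P_mono (by linarith) hadm
      intro A _ _ _ h a ha x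
      have ha0 : a = 0 := by
        rw [Finset.mem_range] at ha; omega
      subst ha0
      by_contra hcon
      exact h ⟨x, not_lt.1 hcon⟩
  have hchain := chain_prob (ι := ℕ) (by linarith : 0 < q) hadm Kn hKn
    (fun n => Finset.range (Lu (u0 + n)))
    (fun n a => cube (qctr N j j' s r i W K (u0 + n) a) (Lu (u0 + n)))
    (fun n a => (1 - β) * θ * (cube (qctr N j j' s r i W K (u0 + n) a) (Lu (u0 + n))).card)
    (qctr0 N j j' s r i (Lu (u0 + 1))) 0 (fun n => η ^ Lu (u0 + n))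
    (fun n => Real.exp (-c0) ^ Lu (u0 + n))
    (v / θ - (β + η / θ + ε)) hstart hstep hdense1 0
    (Finset.mem_range.2 (lt_of_lt_of_le Nat.zero_lt_one (hKW.trans (hLn Kn)))) htop1
  have hsA : ∑ n ∈ Finset.Icc 1 Kn, η ^ Lu (u0 + n) ≤ ε' := by
    refine le_trans ?_ hsum1
    have hsub : Finset.Icc 1 Kn ⊆ Finset.range (Kn + 1) := by
      intro n hn
      rw [Finset.mem_Icc] at hn
      rw [Finset.mem_range]; omega
    refine le_trans ?_ (Finset.sum_le_sum_of_subset_of_nonneg hsub (fun n _ _ => by positivity))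
    apply Finset.sum_le_sum
    intro n _
    have h1 : 0 ≤ η ^ Lu (u0 + n) := pow_nonneg hη _
    have h2 : (1 : ℝ) ≤ ((Lu (u0 + n) : ℝ) + 2) ^ 2 := by
      have : (0 : ℝ) ≤ Lu (u0 + n) := Nat.cast_nonneg _
      nlinarith
    nlinarith
  have hsB : ((Finset.range (Lu (u0 + 1))).card : ℝ) * Real.exp (-c0) ^ Lu (u0 + 0) +
      ∑ n ∈ Finset.Ico 1 Kn, ((Finset.range (Lu (u0 + n))).card : ℝ) *
        (Finset.range (Lu (u0 + (n + 1)))).card * Real.exp (-c0) ^ Lu (u0 + n) ≤ ε' := by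
    refine le_trans ?_ hsum2
    have hrg : Finset.range Kn = Finset.Ico 0 Kn := Finset.range_eq_Ico Kn
    rw [hrg, Finset.sum_eq_sum_Ico_succ_bot (show 0 < Kn by omega)]
    have hsucc : ∀ n, (Lu (u0 + (n + 1)) : ℝ) ≤ Lu (u0 + n) + 1 := by
      intro n
      have h := Lu_succ_le (u := u0 + n) (hKW.trans (hLn n))
      exact_mod_cast h
    simp only [Finset.card_range]
    apply add_le_add
    · have h1 : 0 ≤ Real.exp (-c0) ^ Lu (u0 + 0) := by positivity
      apply mul_le_mul_of_nonneg_right _ h1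
      have h2 := hsucc 0
      have h3 : (0 : ℝ) ≤ Lu (u0 + 0) := Nat.cast_nonneg _
      have h4 : (Lu (u0 + (0 + 1)) : ℝ) = Lu (u0 + 1) := by norm_num
      rw [h4] at h2
      nlinarith
    · apply Finset.sum_le_sum
      intro n _
      have h1 : 0 ≤ Real.exp (-c0) ^ Lu (u0 + n) := by positivity
      apply mul_le_mul_of_nonneg_right _ h1
      have h2 := hsucc n
      have h3 : (0 : ℝ) ≤ Lu (u0 + n) := Nat.cast_nonneg _
      have h4 : (0 : ℝ) ≤ Lu (u0 + (n + 1)) := Nat.cast_nonneg _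
      nlinarith
  have hfin : P (DD N j j' s r i) (pr (OO N j j' s r i) p) q
      (fun A => Conn A (qctr0 N j j' s r i (Lu (u0 + 1))) 0) ≤
      P (DD N j j' s r i) (pr (OO N j j' s r i) p) q
        (fun A => Conn A (pos N j j' s r (16 * r * i)) 0) := by
    apply P_mono (by linarith) hadm
    intro A _ hO _ h
    have hOA : OO N j j' s r i ⊆ A := by
      intro e he
      apply hO e (OO_sub hs hj hr1 hN1 hN2 he)
      unfold pr
      rw [if_pos he]
    have h1 : Conn (OO N j j' s r i) (pos N j j' s r (16 * r * i))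
        (qctr0 N j j' s r i (Lu (u0 + 1))) := by
      apply conn_lat_cube
      · exact self_mem_cube _ _
      · rw [mem_cube]
        have hb : Lu (u0 + 1) ≤ r := by
          have h1 := hgain2 1 (le_refl _)
          have h2 : 2 * (m * 1) ≤ 2 * W * m ^ 2 := by nlinarith
          omega
        have hb' : (Lu (u0 + 1) : ℤ) ≤ r := by exact_mod_cast hb
        have hb0 := Int.natCast_nonneg (Lu (u0 + 1))
        have hr0 := Int.natCast_nonneg r
        intro a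
        simp only [qctr0, pos]
        rw [abs_le]
        by_cases ha : a = j
        · simp only [ha, if_true]
          push_cast
          rcases hs with rfl | rfl
          · constructor <;> linarith
          · constructor <;> linarith
        · simp only [if_neg ha]
          constructor <;> linarith
    exact (h1.mono' hOA).trans' h
  refine le_trans ?_ hfin
  refine le_trans ?_ hchain
  linarith

end FKB
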