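import Pool.Agent.FKQ.ChWin
import Pool.Agent.FKB.ChainD
import Pool.Agent.FKB.ChainG

open Finset
noncomputable section
namespace FKB

variable {d : ℕ} {N : ℕ} {j j' : Fin d} {s : ℤ} {r i W K : ℕ}

/-- some candidate of window `u` is dense, except with probability `η ^ Lu u` -/
theorem qwin_dense (hs : s = 1 ∨ s = -1) (hj : j ≠ j') (hW : 400 ≤ W) (hK : 1 ≤ K) (hr : 1 ≤ r)
    {q p t η : ℝ} (hq : 1 ≤ q) (hp0 : 0 ≤ p) (hp1 : p ≤ 1) {u : ℕ}
    (h2r : 2 * r ≤ Tu W u) (hT : 32 ≤ Tu W u) (hTN : Tu W u ≤ N) (hN : 32 * r * i ≤ N)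
    (hL : 16 * K * W ≤ Lu u)
    (hD : ∀ c : Pt d, P (lat (cube c (K * Lu u ^ 2))) (fun _ => p) q
      (fun A => ¬ Dense A (cube c (Lu u)) (t * (cube c (Lu u)).card)) ≤ η)
    {J : ℕ} (hJ : J ≤ Lu u) :
    P (DD N j j' s r i) (pr (OO N j j' s r i) p) q
      (fun A => ∀ m ∈ Finset.range J, ∀ x,
        ((cl A (cube (qctr N j j' s r i W K u m) (Lu u)) x).card : ℝ) <
          t * (cube (qctr N j j' s r i W K u m) (Lu u)).card) ≤ η ^ J := by
  have hadm : Adm (DD N j j' s r i) (pr (OO N j j' s r i) p) := adm_pr' hp0 hp1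
  have hD1 : 192 * Du W u ≤ Tu W u := by
    have h1 := Du_sq_le (W := W) (by omega) u
    have h2 : 192 * Du W u ≤ W * Du W u ^ 2 := by
      have : Du W u ≤ Du W u ^ 2 := Nat.le_self_pow (by norm_num) _
      nlinarith
    omega
  let Nb : ℕ → Finset (Pt d × Pt d) := fun m => lat (cube (qctr N j j' s r i W K u m) (K * Lu u ^ 2))
  have h1 := P_bad (Finset.range J) hq hadm Nb (by
      intro m hm
      have hm' : m < Lu u := lt_of_lt_of_le (Finset.mem_range.1 hm) hJ
      apply qwin_sub hj hs hr h2r hT hD1 hTN hN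
      intro x hx
      have h := qwin_cube (K := K) hs hj (by omega) hK hL hm' (le_refl _) hx
      exact reg_mono (by have := Int.natCast_nonneg (Du W u); omega)
        (by have := Int.natCast_nonneg (Du W u); omega)
        (by have := Int.natCast_nonneg (Du W u); omega) h)
    (by
      intro m _ m' _ hmm
      exact lat_disj (qwin_disj hj hmm))
    (fun _ => p) (by
      intro m _ e _
      exact ⟨hp0, le_pr hp1 e⟩)
    (fun m A => ¬ Dense A (cube (qctr N j j' s r i W K u m) (Lu u))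
      (t * (cube (qctr N j j' s r i W K u m) (Lu u)).card))
    (by
      intro m _ A B hAB _ hB hA
      exact hB (hA.mono hAB))
  have h2 : P (DD N j j' s r i) (pr (OO N j j' s r i) p) q
      (fun A => ∀ m ∈ Finset.range J, ∀ x,
        ((cl A (cube (qctr N j j' s r i W K u m) (Lu u)) x).card : ℝ) <
          t * (cube (qctr N j j' s r i W K u m) (Lu u)).card) ≤
      P (DD N j j' s r i) (pr (OO N j j' s r i) p) q
        (fun A => ∀ m ∈ Finset.range J, ¬ Dense (A ∩ Nb m)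
          (cube (qctr N j j' s r i W K u m) (Lu u))
          (t * (cube (qctr N j j' s r i W K u m) (Lu u)).card)) := by
    apply P_mono (by linarith) hadm
    intro A _ _ _ h m hm hdense
    obtain ⟨x, hx⟩ := hdense.mono Finset.inter_subset_left
    exact absurd (h m hm x) (not_lt.2 hx)
  refine le_trans h2 (le_trans h1 ?_)
  have h3 : ∏ m ∈ Finset.range J, P (Nb m) (fun _ => p) q
      (fun A => ¬ Dense A (cube (qctr N j j' s r i W K u m) (Lu u))
        (t * (cube (qctr N j j' s r i W K u m) (Lu u)).card)) ≤ ∏ _m ∈ Finset.range J, η := by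
    apply Finset.prod_le_prod
    · intro m _
      exact P_nonneg (by linarith) (fun _ _ => ⟨hp0, hp1⟩) _
    · intro m _
      exact hD _
  refine le_trans h3 ?_
  rw [Finset.prod_const, Finset.card_range]

/-- separation in consecutive windows -/
theorem qwin_sep (hs : s = 1 ∨ s = -1) (hj : j ≠ j') (hW : 400 ≤ W) (hK : 1 ≤ K) (hr : 1 ≤ r)
    {q p p1 κ t c0 : ℝ} {l L0 : ℕ}
    (hsep : ∀ (D O : Finset (Pt d × Pt d)) (c c' : Pt d) (a b ρ : ℕ),
      IsLat D → O ⊆ D → L0 ≤ b → b ≤ a → a ≤ 2 * b → a ≤ ρ → (∀ i, |c i - c' i| ≤ ρ) →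
      Disjoint (cube c a) (cube c' b) → lat (thick c c' (2 * ρ)) ⊆ D →
      (∀ x ∈ thick c c' (2 * ρ), ∀ z ∈ cube c a ∪ cube c' b,
        κ ≤ P D (pr O p1) q (fun A => Conn A x z)) →
      (∀ x ∈ cube c a ∪ cube c' b, ∀ e ∈ O, e ∉ lat (cube x l)) →
      P D (pr O p) q (fun A => ∃ x y, ¬ Conn A x y ∧
        t * (cube c a).card ≤ (cl A (cube c a) x).card ∧
        t * (cube c' b).card ≤ (cl A (cube c' b) y).card) ≤
      Real.exp (-c0 * b))
    {u m m' mm : ℕ} (h2r : 2 * r ≤ Tu W u) (hT : 32 ≤ Tu W u) (hTN : Tu W u ≤ N)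
    (hN : 32 * r * i ≤ N) (hN2 : 2 * r ≤ N)
    (hL : 16 * K * W ≤ Lu u) (hL0 : L0 ≤ Lu u)
    (hq : 0 < q) (hp0 : 0 ≤ p) (hp1 : p ≤ 1)
    (hgain : 2 * r + 4 * mm ≤ Tu W u) (hgain2 : Lu u < 2 * mm) (hml : l ≤ mm)
    (hm : m < Lu u) (hm' : m' < Lu (u + 1))
    (htwo : ∀ x z : Pt d, x ∈ Reg N j j' s r i ((Tu W u : ℤ) - 12 * (Du W u : ℕ))
      ((Tu W u : ℤ) + 12 * (Du W u : ℕ)) (12 * (Du W u : ℕ)) →
      z ∈ Reg N j j' s r i ((Tu W u : ℤ) - 12 * (Du W u : ℕ))
      ((Tu W u : ℤ) + 12 * (Du W u : ℕ)) (12 * (Du W u : ℕ)) →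
      κ ≤ P (DD N j j' s r i) (pr (OO N j j' s r i) p1) q (fun A => Conn A x z)) :
    P (DD N j j' s r i) (pr (OO N j j' s r i) p) q (fun A => ∃ x y, ¬ Conn A x y ∧
        t * (cube (qctr N j j' s r i W K u m) (Lu u)).card ≤
          (cl A (cube (qctr N j j' s r i W K u m) (Lu u)) x).card ∧
        t * (cube (qctr N j j' s r i W K (u + 1) m') (Lu (u + 1))).card ≤
          (cl A (cube (qctr N j j' s r i W K (u + 1) m') (Lu (u + 1))) y).card) ≤
      Real.exp (-c0 * Lu u) := by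
  have hadm : Adm (DD N j j' s r i) (pr (OO N j j' s r i) p) := adm_pr' hp0 hp1
  have hD1 : 192 * Du W u ≤ Tu W u := by
    have h1 := Du_sq_le (W := W) (by omega) u
    have h2 : 192 * Du W u ≤ W * Du W u ^ 2 := by
      have : Du W u ≤ Du W u ^ 2 := Nat.le_self_pow (by norm_num) _
      nlinarith
    omega
  have hKW : 1 ≤ 16 * K * W := by
    have : 0 < 16 * K * W := by positivity
    omega
  have hL1 : 1 ≤ Lu u := hKW.trans hL
  have hL' : 16 * K * W ≤ Lu (u + 1) := hL.trans (Lu_mono (Nat.le_succ u))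
  have hLs : Lu (u + 1) ≤ Lu u + 1 := Lu_succ_le hL1
  have hLm : Lu u ≤ Lu (u + 1) := Lu_mono (Nat.le_succ u)
  have hoff := off_small (u := u) (by omega : 1 ≤ W) hK hL
  have hLD3 : 3 * Lu u + 2 ≤ Du W u := by
    have e1 : Lu u * 3 ≤ Lu u * (2 * (K * Lu u ^ 2) + 1) := by
      apply Nat.mul_le_mul_left
      have : 1 ≤ K * Lu u ^ 2 := Nat.mul_pos hK (pow_pos hL1 2)
      omega
    have e2 : 1 ≤ K * Lu u ^ 2 := Nat.mul_pos hK (pow_pos hL1 2)
    omega
  have hLK : Lu u ≤ K * Lu u ^ 2 := by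
    have : Lu u ≤ Lu u ^ 2 := Nat.le_self_pow (by norm_num) _
    exact this.trans (Nat.le_mul_of_pos_left _ hK)
  have hLK' : Lu (u + 1) ≤ K * Lu (u + 1) ^ 2 := by
    have : Lu (u + 1) ≤ Lu (u + 1) ^ 2 := Nat.le_self_pow (by norm_num) _
    exact this.trans (Nat.le_mul_of_pos_left _ hK)
  have hDz := Int.natCast_nonneg (Du W u)
  have hT1 := Tu_succ_le (W := W) (by omega) u
  have hT2 := Tu_succ_ge (W := W) u
  have hw1 : ∀ R, R ≤ K * Lu u ^ 2 → ∀ x ∈ cube (qctr N j j' s r i W K u m) R,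
      x ∈ Reg N j j' s r i ((Tu W u : ℤ) - 2 * (Du W u : ℕ)) ((Tu W u : ℤ) + 4 * (Du W u : ℕ))
      (2 * (Du W u : ℕ)) := by
    intro R hR x hx
    have h := qwin_cube (K := K) hs hj (by omega) hK hL hm hR hx
    exact reg_mono (by linarith) (by linarith) (by linarith) h
  have hw2 : ∀ R, R ≤ K * Lu (u + 1) ^ 2 → ∀ x ∈ cube (qctr N j j' s r i W K (u + 1) m') R,
      x ∈ Reg N j j' s r i ((Tu W u : ℤ) - 2 * (Du W u : ℕ)) ((Tu W u : ℤ) + 4 * (Du W u : ℕ))
      (2 * (Du W u : ℕ)) := fun R hR x hx => qwin_cube' (K := K) hs hj (by omega) hK hL hm' hR hx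
  have hc := hw1 0 (Nat.zero_le _) _ (self_mem_cube _ _)
  have hc' := hw2 0 (Nat.zero_le _) _ (self_mem_cube _ _)
  have hbase := hsep (DD N j j' s r i) (OO N j j' s r i) (qctr N j j' s r i W K (u + 1) m')
    (qctr N j j' s r i W K u m) (Lu (u + 1)) (Lu u) (4 * Du W u) isLat_DD
    (OO_sub hs hj hr hN hN2) hL0 hLm (by omega) (by omega)
    (by
      apply pos_dist hs
      · have e1 : (Tu W u : ℤ) ≤ Tu W (u + 1) := by exact_mod_cast Tu_mono W (Nat.le_succ u)
        rw [abs_of_nonneg (by linarith)]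
        have e2 : (Tu W (u + 1) : ℤ) ≤ Tu W u + 2 * Du W u + 3 := by exact_mod_cast hT1
        have e3 : (2 : ℤ) ≤ Du W u := by
          have : 2 ≤ Du W u := by omega
          exact_mod_cast this
        push_cast
        linarith
      · have a1 := (hc.2.2.1)
        have a2 := (hc'.2.2.1)
        simp only [qctr, pos, if_neg hj.symm, if_true] at a1 a2
        have e4 : (16 * (r : ℤ) * i + m' * (2 * (K * Lu (u + 1) ^ 2) + 1 : ℕ)) -
            (16 * r * i + m * (2 * (K * Lu u ^ 2) + 1 : ℕ)) =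
            ((16 * (r : ℤ) * i + m' * (2 * (K * Lu (u + 1) ^ 2) + 1 : ℕ)) - 16 * r * i) -
            ((16 * (r : ℤ) * i + m * (2 * (K * Lu u ^ 2) + 1 : ℕ)) - 16 * r * i) := by ring
        rw [e4]
        refine le_trans (abs_sub _ _) ?_
        push_cast at a1 a2 ⊢
        linarith)
    (by
      rw [Finset.disjoint_left]
      intro x hx hx'
      have a1 := (height_cube hs hx).1
      have a2 := (height_cube hs hx').2
      have e1 : (Tu W u : ℤ) + 2 * Du W u ≤ Tu W (u + 1) := by exact_mod_cast hT2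
      have e2 : (Lu (u + 1) : ℤ) ≤ Lu u + 1 := by exact_mod_cast hLs
      have e3 : 3 * (Lu u : ℤ) + 2 ≤ Du W u := by exact_mod_cast hLD3
      have e4 := Int.natCast_nonneg (Lu u)
      linarith)
    (qhull_sub hs hj hr h2r hT hD1 hTN hN hc' hc)
    (by
      intro x hx z hz
      apply htwo x z (qwin_hull hs hc' hc hx)
      rcases Finset.mem_union.1 hz with hz | hz
      · exact reg_mono (by linarith) (by linarith) (by linarith) (hw2 _ hLK' z hz)
      · exact reg_mono (by linarith) (by linarith) (by linarith) (hw1 _ hLK z hz))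
    (by
      intro x hx e he
      apply far_seed hs _ he
      have e1 : (2 * r + 4 * mm : ℤ) ≤ Tu W u := by exact_mod_cast hgain
      have e2 : (Lu u : ℤ) < 2 * mm := by exact_mod_cast hgain2
      have e3 : (l : ℤ) ≤ mm := by exact_mod_cast hml
      have e4 : (Tu W u : ℤ) + 2 * Du W u ≤ Tu W (u + 1) := by exact_mod_cast hT2
      have e5 : (Lu (u + 1) : ℤ) ≤ Lu u + 1 := by exact_mod_cast hLs
      have e6 : 3 * (Lu u : ℤ) + 2 ≤ Du W u := by exact_mod_cast hLD3
      have e7 := Int.natCast_nonneg (Lu u)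
      rcases Finset.mem_union.1 hx with hx | hx
      · have a1 := (height_cube hs hx).1
        linarith
      · have a1 := (height_cube hs hx).1
        linarith)
  refine le_trans ?_ hbase
  apply P_mono hq hadm
  rintro A _ _ _ ⟨x, y, hxy, h1, h2⟩
  exact ⟨y, x, fun h => hxy h.symm', h2, h1⟩

/-- the first step, from the seed -/
theorem qwin_sep0 (hs : s = 1 ∨ s = -1) (hj : j ≠ j') (hW : 400 ≤ W) (hK : 1 ≤ K) (hr : 1 ≤ r)
    {q p p1 κ t c0 : ℝ} {l L0 : ℕ}
    (hsep : ∀ (D O : Finset (Pt d × Pt d)) (c c' : Pt d) (b ρ : ℕ),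
      IsLat D → O ⊆ D → L0 ≤ b → b ≤ ρ → (∀ i, |c i - c' i| ≤ ρ) →
      Disjoint (cube c b) (cube c' b) → lat (thick c c' (2 * ρ)) ⊆ D →
      (∀ x ∈ thick c c' (2 * ρ), ∀ z ∈ cube c b ∪ cube c' b,
        κ ≤ P D (pr O p1) q (fun A => Conn A x z)) →
      (∀ x ∈ cube c b, Conn O c x) →
      (∀ x ∈ cube c' b, ∀ e ∈ O, e ∉ lat (cube x l)) →
      P D (pr O p) q (fun A => ∃ y, ¬ Conn A c y ∧
        t * (cube c' b).card ≤ (cl A (cube c' b) y).card) ≤
      Real.exp (-c0 * b))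
    {u m' : ℕ} (h2r : Tu W u = 2 * r) (hT : 32 ≤ Tu W u) (hN : 32 * r * i ≤ N) (hN2 : 2 * r ≤ N)
    (hL : 16 * K * W ≤ Lu u) (hL0 : L0 ≤ Lu u) (hl : l ≤ Du W u / 8)
    (hm' : m' < Lu (u + 1))
    (htwo : ∀ x z : Pt d, x ∈ Reg N j j' s r i ((Tu W u : ℤ) - 12 * (Du W u : ℕ))
      ((Tu W u : ℤ) + 12 * (Du W u : ℕ)) (12 * (Du W u : ℕ)) →
      z ∈ Reg N j j' s r i ((Tu W u : ℤ) - 12 * (Du W u : ℕ))
      ((Tu W u : ℤ) + 12 * (Du W u : ℕ)) (12 * (Du W u : ℕ)) →
      κ ≤ P (DD N j j' s r i) (pr (OO N j j' s r i) p1) q (fun A => Conn A x z)) :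
    P (DD N j j' s r i) (pr (OO N j j' s r i) p) q (fun A => ∃ y,
        ¬ Conn A (qctr0 N j j' s r i (Lu (u + 1))) y ∧
        t * (cube (qctr N j j' s r i W K (u + 1) m') (Lu (u + 1))).card ≤
          (cl A (cube (qctr N j j' s r i W K (u + 1) m') (Lu (u + 1))) y).card) ≤
      Real.exp (-c0 * (Lu (u + 1) : ℕ)) := by
  have hD1 : 192 * Du W u ≤ Tu W u := by
    have h1 := Du_sq_le (W := W) (by omega) u
    have h2 : 192 * Du W u ≤ W * Du W u ^ 2 := by
      have : Du W u ≤ Du W u ^ 2 := Nat.le_self_pow (by norm_num) _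
      nlinarith
    omega
  have hKW : 1 ≤ 16 * K * W := by
    have : 0 < 16 * K * W := by positivity
    omega
  have hL1 : 1 ≤ Lu u := hKW.trans hL
  have hL' : 16 * K * W ≤ Lu (u + 1) := hL.trans (Lu_mono (Nat.le_succ u))
  have hLs : Lu (u + 1) ≤ Lu u + 1 := Lu_succ_le hL1
  have hLm : Lu u ≤ Lu (u + 1) := Lu_mono (Nat.le_succ u)
  have hoff := off_small (u := u) (by omega : 1 ≤ W) hK hL
  have hbig : 100 ≤ Lu u := by
    have : 100 ≤ 16 * K * W := by nlinarith
    omega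
  have hLD8 : 8 * (Lu u + 1) ≤ Du W u := by
    have e1 : Lu u * 100 ≤ Lu u * (2 * (K * Lu u ^ 2) + 1) := by
      apply Nat.mul_le_mul_left
      have : 100 ≤ K * Lu u ^ 2 := by
        have h1 : Lu u ≤ Lu u ^ 2 := Nat.le_self_pow (by norm_num) _
        have h2 : Lu u ^ 2 ≤ K * Lu u ^ 2 := Nat.le_mul_of_pos_left _ hK
        omega
      omega
    omega
  have hLK' : Lu (u + 1) ≤ K * Lu (u + 1) ^ 2 := by
    have : Lu (u + 1) ≤ Lu (u + 1) ^ 2 := Nat.le_self_pow (by norm_num) _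
    exact this.trans (Nat.le_mul_of_pos_left _ hK)
  have hDz := Int.natCast_nonneg (Du W u)
  have hT1 := Tu_succ_le (W := W) (by omega) u
  have hT2 := Tu_succ_ge (W := W) u
  have hbD : Lu (u + 1) ≤ Du W u := by omega
  have hw0 : ∀ R, R ≤ Lu (u + 1) → ∀ x ∈ cube (qctr0 N j j' s r i (Lu (u + 1))) R,
      x ∈ Reg N j j' s r i ((Tu W u : ℤ) - 2 * (Du W u : ℕ)) ((Tu W u : ℤ) + 4 * (Du W u : ℕ))
      (2 * (Du W u : ℕ)) := by
    intro R hR x hx
    have h := qwin_cube0 (D := Du W u) hs hj hbD hR hx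
    rw [h2r]
    exact reg_mono (by linarith) (by linarith) (by linarith) h
  have hw2 : ∀ R, R ≤ K * Lu (u + 1) ^ 2 → ∀ x ∈ cube (qctr N j j' s r i W K (u + 1) m') R,
      x ∈ Reg N j j' s r i ((Tu W u : ℤ) - 2 * (Du W u : ℕ)) ((Tu W u : ℤ) + 4 * (Du W u : ℕ))
      (2 * (Du W u : ℕ)) := fun R hR x hx => qwin_cube' (K := K) hs hj (by omega) hK hL hm' hR hx
  have hc := hw0 0 (Nat.zero_le _) _ (self_mem_cube _ _)
  have hc' := hw2 0 (Nat.zero_le _) _ (self_mem_cube _ _)
  have hTN : Tu W u ≤ N := by omega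
  have hheight : ∀ x ∈ cube (qctr N j j' s r i W K (u + 1) m') (Lu (u + 1)),
      (2 * r + l : ℤ) < N - s * x j := by
    intro x hx
    have a1 := (height_cube hs hx).1
    have e4 : (Tu W u : ℤ) + 2 * Du W u ≤ Tu W (u + 1) := by exact_mod_cast hT2
    have e5 : (Lu (u + 1) : ℤ) ≤ Lu u + 1 := by exact_mod_cast hLs
    have e6 : 8 * ((Lu u : ℤ) + 1) ≤ Du W u := by exact_mod_cast hLD8
    have e7 : (l : ℤ) ≤ Du W u := by
      have : l ≤ Du W u := hl.trans (Nat.div_le_self _ _)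
      exact_mod_cast this
    have e8 := Int.natCast_nonneg (Lu u)
    have e9 : (Tu W u : ℤ) = 2 * r := by rw [h2r]; push_cast; ring
    linarith
  refine hsep (DD N j j' s r i) (OO N j j' s r i) (qctr0 N j j' s r i (Lu (u + 1)))
    (qctr N j j' s r i W K (u + 1) m') (Lu (u + 1)) (4 * Du W u) isLat_DD
    (OO_sub hs hj hr hN hN2) (hL0.trans hLm) (by omega) ?_ ?_
    (qhull_sub hs hj hr (by omega) hT hD1 hTN hN hc hc') ?_ ?_ ?_
  · apply pos_dist hs
    · have e1 : (Tu W u : ℤ) + 2 * Du W u ≤ Tu W (u + 1) := by exact_mod_cast hT2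
      have e2 : (Tu W (u + 1) : ℤ) ≤ Tu W u + 2 * Du W u + 3 := by exact_mod_cast hT1
      have e9 : (Tu W u : ℤ) = 2 * r := by rw [h2r]; push_cast; ring
      have e5 : (Lu (u + 1) : ℤ) ≤ Lu u + 1 := by exact_mod_cast hLs
      have e6 : 8 * ((Lu u : ℤ) + 1) ≤ Du W u := by exact_mod_cast hLD8
      have e8 := Int.natCast_nonneg (Lu (u + 1))
      have e10 := Int.natCast_nonneg (Lu u)
      rw [abs_le]
      constructor
      · push_cast; linarith
      · push_cast; linarith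
    · have a2 := (hc'.2.2.1)
      simp only [qctr, pos, if_neg hj.symm, if_true] at a2
      rw [abs_sub_comm]
      refine le_trans a2 ?_
      push_cast
      linarith
  · rw [Finset.disjoint_left]
    intro x hx hx'
    have a1 := hheight x hx'
    have a2 := (height_cube hs hx).2
    have := Int.natCast_nonneg l
    push_cast at a2
    linarith
  · intro x hx z hz
    apply htwo x z (qwin_hull hs hc hc' hx)
    rcases Finset.mem_union.1 hz with hz | hz
    · exact reg_mono (by linarith) (by linarith) (by linarith) (hw0 _ (le_refl _) z hz)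
    · exact reg_mono (by linarith) (by linarith) (by linarith) (hw2 _ hLK' z hz)
  · -- the cube of window 0 is inside the seed
    have hin : ∀ x ∈ cube (qctr0 N j j' s r i (Lu (u + 1))) (Lu (u + 1)),
        x ∈ seedBox N j j' s r i := by
      intro x hx
      unfold seedBox
      rw [mem_cube] at hx ⊢
      have hbr : 8 * (Lu (u + 1) : ℤ) ≤ 2 * r := by
        have h1 : 8 * Lu (u + 1) ≤ Du W u := by omega
        have h2 : Du W u ≤ Tu W u := by omega
        have h3 : 8 * Lu (u + 1) ≤ 2 * r := by omega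
        exact_mod_cast h3
      have hb0 := Int.natCast_nonneg (Lu (u + 1))
      intro a
      have h5 := hx a
      simp only [qctr0, pos] at h5 ⊢
      rw [abs_le] at h5 ⊢
      by_cases ha : a = j
      · subst ha
        simp only [if_true] at h5 ⊢
        push_cast at h5 ⊢
        rcases hs with rfl | rfl
        · constructor <;> linarith
        · constructor <;> linarith
      · simp only [if_neg ha] at h5 ⊢
        constructor <;> linarith
    intro x hx
    exact conn_lat_cube (hin _ (by rw [mem_cube]; intro a; simp)) (hin x hx)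
  · intro x hx e he'
    exact far_seed hs (hheight x hx) he'

end FKB
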