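import Mathlib

open Finset
noncomputable section
namespace FKB

/-- heights `u² / W` -/
def Tu (W u : ℕ) : ℕ := u ^ 2 / W
/-- scale of the window -/
def Du (W u : ℕ) : ℕ := u / W
/-- cube radii and numbers of candidates -/
def Lu (u : ℕ) : ℕ := Nat.sqrt (Nat.sqrt u)

theorem Lu_pow_le (u : ℕ) : Lu u ^ 4 ≤ u := by
  have h1 : Nat.sqrt (Nat.sqrt u) ^ 2 ≤ Nat.sqrt u := Nat.sqrt_le' _
  have h2 : Nat.sqrt u ^ 2 ≤ u := Nat.sqrt_le' _
  calc Lu u ^ 4 = (Nat.sqrt (Nat.sqrt u) ^ 2) ^ 2 := by unfold Lu; ring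
    _ ≤ Nat.sqrt u ^ 2 := Nat.pow_le_pow_left h1 2
    _ ≤ u := h2

theorem lt_Lu_pow (u : ℕ) : u < (Lu u + 1) ^ 4 := by
  have h1 : Nat.sqrt u < (Nat.sqrt (Nat.sqrt u) + 1) ^ 2 := Nat.lt_succ_sqrt' _
  have h2 : u < (Nat.sqrt u + 1) ^ 2 := Nat.lt_succ_sqrt' _
  calc u < (Nat.sqrt u + 1) ^ 2 := h2
    _ ≤ ((Nat.sqrt (Nat.sqrt u) + 1) ^ 2) ^ 2 := Nat.pow_le_pow_left h1 2
    _ = (Lu u + 1) ^ 4 := by unfold Lu; ring

theorem Lu_mono {u v : ℕ} (h : u ≤ v) : Lu u ≤ Lu v := Nat.sqrt_le_sqrt (Nat.sqrt_le_sqrt h)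

theorem le_Lu {m u : ℕ} (h : m ^ 4 ≤ u) : m ≤ Lu u := by
  unfold Lu
  rw [Nat.le_sqrt', Nat.le_sqrt']
  calc (m ^ 2) ^ 2 = m ^ 4 := by ring
    _ ≤ u := h

theorem Lu_succ_le {u : ℕ} (h : 1 ≤ Lu u) : Lu (u + 1) ≤ Lu u + 1 := by
  by_contra hcon
  rw [not_le] at hcon
  have h1 := Lu_pow_le (u + 1)
  have h2 := lt_Lu_pow u
  have h3 : (Lu u + 2) ^ 4 ≤ Lu (u + 1) ^ 4 := Nat.pow_le_pow_left hcon 4
  have h4 : (Lu u + 1) ^ 4 + 1 < (Lu u + 2) ^ 4 := by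
    have : (Lu u + 2) ^ 4 = (Lu u + 1) ^ 4 + 4 * (Lu u + 1) ^ 3 + 6 * (Lu u + 1) ^ 2 +
      4 * (Lu u + 1) + 1 := by ring
    have h5 : 0 < (Lu u + 1) ^ 3 := by positivity
    omega
  omega

theorem Tu_mono (W : ℕ) {u v : ℕ} (h : u ≤ v) : Tu W u ≤ Tu W v :=
  Nat.div_le_div_right (Nat.pow_le_pow_left h 2)

/-- `W D² ≤ T` -/
theorem Du_sq_le {W : ℕ} (hW : 1 ≤ W) (u : ℕ) : W * Du W u ^ 2 ≤ Tu W u := by
  unfold Du Tu
  rw [Nat.le_div_iff_mul_le (by omega)]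
  have h1 : W * (u / W) ≤ u := Nat.mul_div_le _ _
  calc W * (u / W) ^ 2 * W = (W * (u / W)) ^ 2 := by ring
    _ ≤ u ^ 2 := Nat.pow_le_pow_left h1 2

theorem Tu_succ_le {W : ℕ} (hW : 2 ≤ W) (u : ℕ) : Tu W (u + 1) ≤ Tu W u + 2 * Du W u + 3 := by
  unfold Tu Du
  have h1 : u < W * (u / W + 1) := Nat.lt_mul_div_succ _ (by omega)
  have h2 : u ^ 2 < W * (u ^ 2 / W + 1) := Nat.lt_mul_div_succ _ (by omega)
  have h3 : (u + 1) ^ 2 < (u ^ 2 / W + 2 * (u / W) + 4) * W := by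
    have e : (u + 1) ^ 2 = u ^ 2 + 2 * u + 1 := by ring
    rw [e]
    nlinarith
  have := (Nat.div_lt_iff_lt_mul (show 0 < W by omega)).2 h3
  omega

theorem Du_mono (W : ℕ) {u v : ℕ} (h : u ≤ v) : Du W u ≤ Du W v := Nat.div_le_div_right h

theorem Du_succ_le {W : ℕ} (hW : 1 ≤ W) (u : ℕ) : Du W (u + 1) ≤ Du W u + 1 := by
  unfold Du
  rw [Nat.div_le_iff_le_mul_add_pred (by omega)]
  have h1 : u < W * (u / W + 1) := Nat.lt_mul_div_succ _ (by omega)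
  omega

/-- starting point `u0 = 2 W m`, `r = 2 W m²` -/
theorem Tu_start {W : ℕ} (hW : 1 ≤ W) (m : ℕ) : Tu W (2 * W * m) = 2 * (2 * W * m ^ 2) := by
  unfold Tu
  apply Nat.div_eq_of_eq_mul_left (by omega)
  ring

theorem Du_start {W : ℕ} (hW : 1 ≤ W) (m : ℕ) : Du W (2 * W * m) = 2 * m := by
  unfold Du
  apply Nat.div_eq_of_eq_mul_left (by omega)
  ring

/-- growth from the start -/
theorem Tu_ge_start {W : ℕ} (hW : 1 ≤ W) (m n : ℕ) :
    2 * (2 * W * m ^ 2) + 4 * m * n ≤ Tu W (2 * W * m + n) := by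
  unfold Tu
  rw [Nat.le_div_iff_mul_le (by omega)]
  nlinarith [Nat.zero_le (n ^ 2)]

/-- radii are small compared with the height gained -/
theorem Lu_lt_gain {W m n : ℕ} (hW : 1 ≤ W) (hm : W ≤ m) (hn : 1 ≤ n) :
    Lu (2 * W * m + n) < 2 * m * n := by
  by_contra hcon
  rw [not_lt] at hcon
  have h1 := Lu_pow_le (2 * W * m + n)
  have h2 : (2 * m * n) ^ 4 ≤ Lu (2 * W * m + n) ^ 4 := Nat.pow_le_pow_left hcon 4
  have hm1 : 1 ≤ m := le_trans hW hm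
  have h3 : 2 * W * m + n < (2 * m * n) ^ 4 := by
    have h4 : 2 * W * m ≤ 2 * m * m := by nlinarith
    have h5 : (2 * m * n) ^ 4 = 16 * (m ^ 4 * n ^ 4) := by ring
    have h6 : m * m ≤ m ^ 4 * n ^ 4 := by
      have h7 : m * m ≤ m ^ 4 := by
        have : m ^ 4 = m * m * (m * m) := by ring
        rw [this]; exact Nat.le_mul_of_pos_right _ (by positivity)
      exact h7.trans (Nat.le_mul_of_pos_right _ (by positivity))
    have h8 : n ≤ m ^ 4 * n ^ 4 := by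
      have h9 : n ≤ n ^ 4 := Nat.le_self_pow (by norm_num) n
      exact h9.trans (Nat.le_mul_of_pos_left _ (by positivity))
    have h10 : 0 < m ^ 4 * n ^ 4 := by positivity
    rw [h5]
    nlinarith
  omega

/-- lateral extent of a window -/
theorem off_small {W K u : ℕ} (hW : 1 ≤ W) (hK : 1 ≤ K) (hL : 16 * K * W ≤ Lu u) :
    Lu u * (2 * (K * Lu u ^ 2) + 1) + 2 * (K * Lu u ^ 2) ≤ Du W u := by
  unfold Du
  rw [Nat.le_div_iff_mul_le (by omega)]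
  have h1 := Lu_pow_le u
  set L := Lu u with hLd
  have hL1 : 1 ≤ L := by
    have : 1 ≤ 16 * K * W := by
      have : 0 < 16 * K * W := by positivity
      omega
    omega
  have h2 : L * (2 * (K * L ^ 2) + 1) + 2 * (K * L ^ 2) ≤ 8 * K * L ^ 3 := by
    have e1 : L * (2 * (K * L ^ 2) + 1) = 2 * K * L ^ 3 + L := by ring
    have e2 : L ≤ K * L ^ 3 := by
      have : L ≤ L ^ 3 := Nat.le_self_pow (by norm_num) L
      exact this.trans (Nat.le_mul_of_pos_left _ (by omega))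
    have e3 : K * L ^ 2 ≤ K * L ^ 3 := by
      apply Nat.mul_le_mul_left
      exact Nat.pow_le_pow_right hL1 (by norm_num)
    nlinarith
  calc (L * (2 * (K * L ^ 2) + 1) + 2 * (K * L ^ 2)) * W ≤ 8 * K * L ^ 3 * W :=
        Nat.mul_le_mul_right _ h2
    _ ≤ 16 * K * W * L ^ 3 := by nlinarith [Nat.zero_le (K * W * L ^ 3)]
    _ ≤ L * L ^ 3 := Nat.mul_le_mul_right _ hL
    _ = L ^ 4 := by ring
    _ ≤ u := h1

theorem Lu_le_Du {W K u : ℕ} (hW : 1 ≤ W) (hK : 1 ≤ K) (hL : 16 * K * W ≤ Lu u) :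
    Lu u ≤ Du W u := by
  have h := off_small hW hK hL
  have : Lu u ≤ Lu u * (2 * (K * Lu u ^ 2) + 1) := Nat.le_mul_of_pos_right _ (by positivity)
  omega

theorem reach {W m N : ℕ} (hW : 1 ≤ W) (hN : Tu W (2 * W * m + 1) ≤ N) :
    ∃ K, 1 ≤ K ∧ Tu W (2 * W * m + K) ≤ N ∧ N < Tu W (2 * W * m + K + 1) := by
  have hex : ∃ n, N < Tu W (2 * W * m + n + 1) := by
    refine ⟨W * (N + 1), ?_⟩
    unfold Tu
    apply Nat.lt_of_succ_le
    rw [Nat.le_div_iff_mul_le (by omega)]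
    have h1 : W * (N + 1) ≤ 2 * W * m + W * (N + 1) + 1 := by omega
    have h2 : (W * (N + 1)) ^ 2 ≤ (2 * W * m + W * (N + 1) + 1) ^ 2 := Nat.pow_le_pow_left h1 2
    refine le_trans ?_ h2
    have h3 : (W * (N + 1)) ^ 2 = (N + 1) * W * ((N + 1) * W) := by ring
    rw [h3]
    exact Nat.le_mul_of_pos_right _ (by positivity)
  classical
  let K := Nat.find hex
  have h1 : N < Tu W (2 * W * m + K + 1) := Nat.find_spec hex
  have h0 : K ≠ 0 := by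
    intro h
    rw [h] at h1
    simp only [Nat.add_zero] at h1
    omega
  refine ⟨K, by omega, ?_, h1⟩
  have h2 := Nat.find_min hex (show K - 1 < K by omega)
  rw [not_lt] at h2
  have h3 : 2 * W * m + (K - 1) + 1 = 2 * W * m + K := by omega
  rw [h3] at h2
  exact h2

/-- tails of the error sums -/
theorem tail_small {a : ℝ} (ha0 : 0 < a) (ha1 : a < 1) {ε : ℝ} (hε : 0 < ε) :
    ∃ u0 : ℕ, ∀ u, u0 ≤ u → ∀ K : ℕ,
      ∑ n ∈ Finset.range K, ((Lu (u + n) : ℝ) + 2) ^ 2 * a ^ Lu (u + n) ≤ ε := by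
  -- bounded: (L+2)^10 a^L ≤ B
  have hB : ∃ B : ℝ, 0 < B ∧ ∀ L : ℕ, ((L : ℝ) + 2) ^ 10 * a ^ L ≤ B := by
    have ht : Filter.Tendsto (fun L : ℕ => ((L : ℝ) + 2) ^ 10 * a ^ L) Filter.atTop (nhds 0) := by
      have h1 := tendsto_pow_const_mul_const_pow_of_lt_one 10 ha0.le ha1
      have h2 : Filter.Tendsto (fun L : ℕ => (((L + 2 : ℕ) : ℝ)) ^ 10 * a ^ (L + 2))
          Filter.atTop (nhds 0) := h1.comp (Filter.tendsto_add_atTop_nat 2)
      have h3 := h2.const_mul ((a ^ 2)⁻¹)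
      rw [mul_zero] at h3
      refine h3.congr (fun L => ?_)
      push_cast
      rw [pow_add]
      field_simp
    obtain ⟨B, hB⟩ := ht.bddAbove_range
    refine ⟨max B 1, lt_max_of_lt_right one_pos, fun L => le_max_of_le_left ?_⟩
    exact hB ⟨L, rfl⟩
  obtain ⟨B, hB0, hB⟩ := hB
  have hterm : ∀ v : ℕ, 1 ≤ v → ((Lu v : ℝ) + 2) ^ 2 * a ^ Lu v ≤ B * (1 / (v : ℝ) ^ 2) := by
    intro v hv
    have h1 := lt_Lu_pow v
    have h2 : (v : ℝ) < ((Lu v : ℝ) + 1) ^ 4 := by exact_mod_cast h1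
    have h3 : (v : ℝ) ^ 2 ≤ ((Lu v : ℝ) + 2) ^ 8 := by
      have h4 : (v : ℝ) ≤ ((Lu v : ℝ) + 2) ^ 4 := by
        refine h2.le.trans ?_
        apply pow_le_pow_left₀ (by positivity)
        linarith
      calc (v : ℝ) ^ 2 ≤ (((Lu v : ℝ) + 2) ^ 4) ^ 2 := pow_le_pow_left₀ (by positivity) h4 2
        _ = ((Lu v : ℝ) + 2) ^ 8 := by ring
    have hv0 : (0 : ℝ) < (v : ℝ) ^ 2 := by
      have : (0 : ℝ) < v := by exact_mod_cast hv
      positivity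
    rw [mul_one_div, le_div_iff₀ hv0]
    calc ((Lu v : ℝ) + 2) ^ 2 * a ^ Lu v * (v : ℝ) ^ 2
        ≤ ((Lu v : ℝ) + 2) ^ 2 * a ^ Lu v * ((Lu v : ℝ) + 2) ^ 8 := by
          apply mul_le_mul_of_nonneg_left h3 (by positivity)
      _ = ((Lu v : ℝ) + 2) ^ 10 * a ^ Lu v := by ring
      _ ≤ B := hB _
  -- telescoping
  have hsum : ∀ u : ℕ, 2 ≤ u → ∀ K : ℕ,
      ∑ n ∈ Finset.range K, 1 / ((u + n : ℕ) : ℝ) ^ 2 ≤
        1 / ((u : ℝ) - 1) - 1 / (((u + K : ℕ) : ℝ) - 1) := by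
    intro u hu K
    have hu0 : (2 : ℝ) ≤ u := by exact_mod_cast hu
    induction K with
    | zero => simp
    | succ K ih =>
      rw [Finset.sum_range_succ]
      have e : ((u + (K + 1) : ℕ) : ℝ) - 1 = ((u + K : ℕ) : ℝ) := by push_cast; ring
      rw [e]
      set x := ((u + K : ℕ) : ℝ) with hx
      have hx2 : 2 ≤ x := by
        have : 2 ≤ u + K := by omega
        rw [hx]; exact_mod_cast this
      have h1 : 1 / x ^ 2 ≤ 1 / (x - 1) - 1 / x := by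
        rw [div_sub_div _ _ (by linarith) (by linarith), div_le_div_iff₀ (by positivity)
          (by nlinarith)]
        nlinarith
      linarith
  obtain ⟨u1, hu1⟩ := exists_nat_ge (B / ε + 2)
  refine ⟨max u1 2, fun u hu K => ?_⟩
  have hu2 : 2 ≤ u := (le_max_right _ _).trans hu
  have hu3 : (u1 : ℝ) ≤ u := by exact_mod_cast (le_max_left _ _).trans hu
  have hu0 : (2 : ℝ) ≤ u := by exact_mod_cast hu2
  calc ∑ n ∈ Finset.range K, ((Lu (u + n) : ℝ) + 2) ^ 2 * a ^ Lu (u + n)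
      ≤ ∑ n ∈ Finset.range K, B * (1 / ((u + n : ℕ) : ℝ) ^ 2) := by
        apply Finset.sum_le_sum
        intro n _
        exact hterm (u + n) (by omega)
    _ = B * ∑ n ∈ Finset.range K, 1 / ((u + n : ℕ) : ℝ) ^ 2 := by rw [Finset.mul_sum]
    _ ≤ B * (1 / ((u : ℝ) - 1)) := by
        apply mul_le_mul_of_nonneg_left _ hB0.le
        refine (hsum u hu2 K).trans ?_
        have : 0 ≤ 1 / (((u + K : ℕ) : ℝ) - 1) := by
          apply div_nonneg zero_le_one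
          have : (2 : ℝ) ≤ ((u + K : ℕ) : ℝ) := by
            have : 2 ≤ u + K := by omega
            exact_mod_cast this
          linarith
        linarith
    _ ≤ ε := by
        rw [mul_one_div, div_le_iff₀ (by linarith)]
        have : B / ε ≤ (u : ℝ) - 1 := by linarith
        rw [div_le_iff₀ hε] at this
        linarith

end FKB
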