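import Pool.Agent.FKQ.ChNum
import Pool.Agent.FKB.ChainB

open Finset
noncomputable section
namespace FKB

/-- lattice edges of a box near height `T` (scale `D`) are in `DD` -/
theorem qwin_sub {d N : ℕ} {j j' : Fin d} {s : ℤ} {r i T D : ℕ} (hj : j ≠ j')
    (hs : s = 1 ∨ s = -1) (hr : 1 ≤ r) (h2r : 2 * r ≤ T) (hT : 32 ≤ T) (hD : 192 * D ≤ T)
    (hTN : T ≤ N) (hN : 32 * r * i ≤ N) {H : Finset (Pt d)}
    (hH : ∀ x ∈ H, x ∈ Reg N j j' s r i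
      ((T : ℤ) - 12 * D - (2 * (T / 16 : ℕ) + 1))
      ((T : ℤ) + 12 * D + (2 * (T / 16 : ℕ) + 1))
      (12 * D + (2 * (T / 16 : ℕ) + 1))) :
    lat H ⊆ DD N j j' s r i := by
  set ν := T / 16 with hν
  have hν1 : 16 * ν ≤ T := Nat.mul_div_le _ _
  have hN' : 16 * r * i * 2 ≤ N := by
    have : 16 * r * i * 2 = 32 * r * i := by ring
    omega
  have hNi : (16 * (r : ℤ) * (i : ℤ)) * 2 ≤ N := by
    have := (Nat.cast_le (α := ℤ)).2 hN'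
    push_cast at this
    linarith
  refine lat_sub_DD hs hj (lo := (T : ℤ) - 12 * D - (2 * (ν : ℕ) + 1))
    (hi := (T : ℤ) + 12 * D + (2 * (ν : ℕ) + 1))
    (m := 12 * D + (2 * (ν : ℕ) + 1)) ?_ ?_ ?_ ?_ hH
  · omega
  · omega
  · omega
  · by_cases h4 : 4 * r ≤ T
    · left; omega
    · right; omega

theorem qwin_two {d : ℕ} {q p1 θ0 C : ℝ} (hq : 1 ≤ q) (hp0 : 0 ≤ p1) (hp1 : p1 ≤ 1)
    (hC : 0 < C) (hd : 1 ≤ d)
    (hU : ∀ n : ℕ, 1 ≤ n → ∀ x z : Pt d,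
      (1 - C * (1 + dist1 x z) ^ 2 / n) * θ0 ^ 2 ≤ fP (thick x z (2 * n + 1)) p1 q x z)
    {N : ℕ} {j j' : Fin d} {s : ℤ} {r i T D W : ℕ} (hj : j ≠ j') (hs : s = 1 ∨ s = -1)
    (hr : 1 ≤ r) (h2r : 2 * r ≤ T) (hT : 32 ≤ T) (hD : 192 * D ≤ T) (hD1 : 1 ≤ D)
    (hW : 1 ≤ W) (hWD : W * D ^ 2 ≤ T)
    (hTN : T ≤ N) (hN : 32 * r * i ≤ N) {x z : Pt d}
    (hx : x ∈ Reg N j j' s r i ((T : ℤ) - 12 * D) ((T : ℤ) + 12 * D) (12 * D))
    (hz : z ∈ Reg N j j' s r i ((T : ℤ) - 12 * D) ((T : ℤ) + 12 * D) (12 * D)) :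
    (1 - 20000 * C * d ^ 2 / W) * θ0 ^ 2 ≤
      P (DD N j j' s r i) (pr (OO N j j' s r i) p1) q (fun A => Conn A x z) := by
  have hν : 1 ≤ T / 16 := by omega
  have hsub : lat (thick x z (2 * (T / 16) + 1)) ⊆ DD N j j' s r i := by
    apply qwin_sub hj hs hr h2r hT hD hTN hN
    intro y hy
    have h := reg_thick hs hx hz (2 * (T / 16) + 1) hy
    push_cast at h ⊢
    exact h
  have h1 := hU (T / 16) hν x z
  have h2 := fP_le_P hq hp0 hp1 (adm_pr' (O := OO N j j' s r i) hp0 hp1) hsub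
    (fun e _ => le_pr hp1 e) x z
  refine le_trans (le_trans ?_ h1) h2
  apply mul_le_mul_of_nonneg_right _ (sq_nonneg θ0)
  have hdist : (dist1 x z : ℤ) ≤ d * (24 * D : ℕ) := by
    apply reg_dist hs hj hx hz
    · push_cast; linarith
    · push_cast; linarith
  have hdist0 : (0 : ℤ) ≤ dist1 x z := Finset.sum_nonneg (fun i _ => abs_nonneg _)
  have hdR : ((dist1 x z : ℤ) : ℝ) ≤ d * (24 * (D : ℝ)) := by
    have := (Int.cast_le (R := ℝ)).2 hdist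
    push_cast at this
    exact this
  have hdR0 : (0 : ℝ) ≤ ((dist1 x z : ℤ) : ℝ) := by exact_mod_cast hdist0
  have hTpos : (0 : ℝ) < T := by
    have : 0 < T := by omega
    exact_mod_cast this
  have hWpos : (0 : ℝ) < W := by
    have : 0 < W := by omega
    exact_mod_cast this
  have hd1 : (1 : ℝ) ≤ d := by exact_mod_cast hd
  have hD1R : (1 : ℝ) ≤ D := by exact_mod_cast hD1
  have hνR : (T : ℝ) / 32 ≤ ((T / 16 : ℕ) : ℝ) := by
    have h3 : T ≤ 32 * (T / 16) := by omega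
    have h4 : (T : ℝ) ≤ 32 * ((T / 16 : ℕ) : ℝ) := by exact_mod_cast h3
    linarith
  have hνpos : (0 : ℝ) < ((T / 16 : ℕ) : ℝ) := by
    have : 0 < T / 16 := by omega
    exact_mod_cast this
  have hWDR : (W : ℝ) * (D : ℝ) ^ 2 ≤ T := by exact_mod_cast hWD
  have hsq : (1 + ((dist1 x z : ℤ) : ℝ)) ^ 2 ≤ 625 * (d : ℝ) ^ 2 * (D : ℝ) ^ 2 := by
    have h3 : 1 + ((dist1 x z : ℤ) : ℝ) ≤ 25 * (d * D) := by
      have : (1 : ℝ) ≤ d * D := by nlinarith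
      linarith
    calc (1 + ((dist1 x z : ℤ) : ℝ)) ^ 2 ≤ (25 * (d * D)) ^ 2 :=
          pow_le_pow_left₀ (by linarith) h3 2
      _ = 625 * (d : ℝ) ^ 2 * (D : ℝ) ^ 2 := by ring
  have key : C * (1 + ((dist1 x z : ℤ) : ℝ)) ^ 2 / ((T / 16 : ℕ) : ℝ) ≤ 20000 * C * d ^ 2 / W := by
    rw [div_le_div_iff₀ hνpos hWpos]
    have e1 : C * (1 + ((dist1 x z : ℤ) : ℝ)) ^ 2 * W ≤ C * (625 * (d : ℝ) ^ 2 * (D : ℝ) ^ 2) * W := by
      apply mul_le_mul_of_nonneg_right _ hWpos.le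
      exact mul_le_mul_of_nonneg_left hsq hC.le
    have e2 : C * (625 * (d : ℝ) ^ 2 * (D : ℝ) ^ 2) * W = 625 * C * d ^ 2 * (W * (D : ℝ) ^ 2) := by
      ring
    have e3 : 625 * C * d ^ 2 * (W * (D : ℝ) ^ 2) ≤ 625 * C * d ^ 2 * T := by
      apply mul_le_mul_of_nonneg_left hWDR
      positivity
    have e4 : 625 * C * d ^ 2 * (T : ℝ) = 20000 * C * d ^ 2 * (T / 32) := by ring
    have e5 : 20000 * C * d ^ 2 * ((T : ℝ) / 32) ≤ 20000 * C * d ^ 2 * ((T / 16 : ℕ) : ℝ) := by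
      apply mul_le_mul_of_nonneg_left hνR
      positivity
    linarith
  linarith

end FKB
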