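import Pool.Agent.FKQ.ChCore

open Finset
noncomputable section
namespace FKB

variable {d : ℕ} {N : ℕ} {j j' : Fin d} {s : ℤ} {r i W K : ℕ}

/-- the lateral position of the seed is small in the top window -/
theorem qtop_lat {W N a u : ℕ} (hW : 1 ≤ W) (hNT : N < Tu W (u + 1)) (hN3 : W * a ^ 2 ≤ N) :
    a ≤ Du W u := by
  by_contra hcon
  rw [not_le] at hcon
  unfold Du at hcon
  have h1 : u < a * W := (Nat.div_lt_iff_lt_mul (by omega)).1 hcon
  have h2 : N + 1 ≤ (u + 1) ^ 2 / W := hNT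
  rw [Nat.le_div_iff_mul_le (by omega)] at h2
  have h3 : (u + 1) ^ 2 ≤ (a * W) ^ 2 := Nat.pow_le_pow_left h1 2
  have h4 : (a * W) ^ 2 = W * a ^ 2 * W := by ring
  rw [h4] at h3
  have h5 : W * a ^ 2 * W ≤ N * W := Nat.mul_le_mul_right _ hN3
  nlinarith

/-- the origin and the top window -/
theorem qwin_top (hs : s = 1 ∨ s = -1) (hj : j ≠ j') (hW : 400 ≤ W) (hK : 1 ≤ K)
    {q p v ε β η θ : ℝ} {l L0 : ℕ} (hp0 : 0 ≤ p) (hp1 : p ≤ 1)
    (htop : ∀ (D : Finset (Pt d × Pt d)) (w : Pt d × Pt d → ℝ) (c x0 : Pt d) (L : ℕ)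
      (β η v : ℝ), IsLat D → Adm D w → L0 ≤ L → 0 < β → β ≤ 1 / 2 → 0 ≤ η → 0 ≤ v →
      (∀ x ∈ cube c L, ∀ e ∈ D, e ∈ lat (cube x l) → w e ≤ p) →
      (∀ z ∈ cube c L, v ≤ P D w q (fun A => Conn A x0 z)) →
      P D w q (fun A => ¬ Dense A (cube c L) ((1 - β) * θ * (cube c L).card)) ≤ η →
      v / θ - (β + η / θ + ε) ≤
        P D w q (fun A => ∃ y, (1 - β) * θ * (cube c L).card ≤
          (cl A (cube c L) y).card ∧ Conn A x0 y))
    {u mm : ℕ} (hTN : Tu W u ≤ N) (hNT : N < Tu W (u + 1))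
    (hN3 : W * (16 * r * i) ^ 2 ≤ N)
    (hL : 16 * K * W ≤ Lu u) (hL0 : L0 ≤ Lu u)
    (hgain : 2 * r + 4 * mm ≤ Tu W u) (hgain2 : Lu u < 2 * mm) (hml : l ≤ mm)
    (hβ : 0 < β) (hβ1 : β ≤ 1 / 2) (hη : 0 ≤ η) (hv : 0 ≤ v)
    (htwo : ∀ x z : Pt d, x ∈ Reg N j j' s r i ((Tu W u : ℤ) - 12 * (Du W u : ℕ))
      ((Tu W u : ℤ) + 12 * (Du W u : ℕ)) (12 * (Du W u : ℕ)) →
      z ∈ Reg N j j' s r i ((Tu W u : ℤ) - 12 * (Du W u : ℕ))
      ((Tu W u : ℤ) + 12 * (Du W u : ℕ)) (12 * (Du W u : ℕ)) →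
      v ≤ P (DD N j j' s r i) (pr (OO N j j' s r i) p) q (fun A => Conn A x z))
    (hdense : P (DD N j j' s r i) (pr (OO N j j' s r i) p) q
      (fun A => ¬ Dense A (cube (qctr N j j' s r i W K u 0) (Lu u))
        ((1 - β) * θ * (cube (qctr N j j' s r i W K u 0) (Lu u)).card)) ≤ η) :
    v / θ - (β + η / θ + ε) ≤
      P (DD N j j' s r i) (pr (OO N j j' s r i) p) q (fun A => ∃ y,
        (1 - β) * θ * (cube (qctr N j j' s r i W K u 0) (Lu u)).card ≤
          (cl A (cube (qctr N j j' s r i W K u 0) (Lu u)) y).card ∧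
        Conn A 0 y) := by
  have hKW : 1 ≤ 16 * K * W := by
    have : 0 < 16 * K * W := by positivity
    omega
  have hL1 : 1 ≤ Lu u := hKW.trans hL
  have hLK : Lu u ≤ K * Lu u ^ 2 := by
    have : Lu u ≤ Lu u ^ 2 := Nat.le_self_pow (by norm_num) _
    exact this.trans (Nat.le_mul_of_pos_left _ hK)
  have hLD : Lu u ≤ Du W u := Lu_le_Du (by omega) hK hL
  have hDz := Int.natCast_nonneg (Du W u)
  have hD1 : 1 ≤ Du W u := hL1.trans hLD
  have hreg : ∀ x ∈ cube (qctr N j j' s r i W K u 0) (Lu u),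
      x ∈ Reg N j j' s r i ((Tu W u : ℤ) - (Du W u : ℕ))
      ((Tu W u : ℤ) + (Du W u : ℕ)) (Du W u : ℕ) := fun x hx =>
    qwin_cube (K := K) hs hj (by omega) hK hL (by omega) hLK hx
  refine htop _ _ _ _ _ _ _ _ isLat_DD (adm_pr' hp0 hp1) hL0
    hβ hβ1 hη hv ?_ ?_ hdense
  · -- no forced edges nearby
    intro x hx e _ he'
    have hnot : e ∉ OO N j j' s r i := by
      intro heO
      refine far_seed hs ?_ heO he'
      have e1 : (2 * r + 4 * mm : ℤ) ≤ Tu W u := by exact_mod_cast hgain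
      have e2 : (Lu u : ℤ) < 2 * mm := by exact_mod_cast hgain2
      have e3 : (l : ℤ) ≤ mm := by exact_mod_cast hml
      have a1 := (height_cube hs hx).1
      linarith
    unfold pr
    rw [if_neg hnot]
  · intro z hz
    refine htwo 0 z ?_ (reg_mono (by linarith) (by linarith) (by linarith) (hreg z hz))
    have hi : 16 * r * i ≤ Du W u := qtop_lat (by omega) hNT hN3
    have hi' : 16 * (r : ℤ) * i ≤ (Du W u : ℕ) := by
      have := (Nat.cast_le (α := ℤ)).2 hi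
      push_cast at this ⊢
      exact this
    have hT1 := Tu_succ_le (W := W) (by omega) u
    have hNT' : N < Tu W u + 2 * Du W u + 3 := by omega
    have hNTz : (N : ℤ) < Tu W u + 2 * (Du W u : ℕ) + 3 := by exact_mod_cast hNT'
    have hTNz : (Tu W u : ℤ) ≤ N := by exact_mod_cast hTN
    have hD1z : (1 : ℤ) ≤ (Du W u : ℕ) := by exact_mod_cast hD1
    refine ⟨?_, ?_, ?_, ?_⟩
    · simp only [Pi.zero_apply, mul_zero]; linarith
    · simp only [Pi.zero_apply, mul_zero]; linarith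
    · simp only [Pi.zero_apply, zero_sub, abs_neg]
      rw [abs_of_nonneg (by positivity)]
      linarith
    · intro a _ _
      simp only [Pi.zero_apply, abs_zero]
      linarith

end FKB
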