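import Pool.Agent.FKQ.ChReg
import Pool.Agent.FKB.ChainE

open Finset
noncomputable section
namespace FKB

variable {d : ℕ}

/-- centers of the candidate cubes of the window with index `u` -/
def qctr (N : ℕ) (j j' : Fin d) (s : ℤ) (r i W K u m : ℕ) : Pt d :=
  pos N j j' s (Tu W u) (16 * r * i + m * (2 * (K * Lu u ^ 2) + 1 : ℕ))

/-- center of the cube of radius `b` inside the seed -/
def qctr0 (N : ℕ) (j j' : Fin d) (s : ℤ) (r i b : ℕ) : Pt d :=
  pos N j j' s ((2 * r : ℕ) - (b : ℕ)) (16 * r * i)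

variable {N : ℕ} {j j' : Fin d} {s : ℤ} {r i W K : ℕ}

theorem Tu_succ_ge {W : ℕ} (u : ℕ) : Tu W u + 2 * Du W u ≤ Tu W (u + 1) := by
  unfold Tu Du
  have e : (u + 1) ^ 2 = u ^ 2 + (2 * u + 1) := by ring
  rw [e]
  have h1 : u ^ 2 / W + (2 * u + 1) / W ≤ (u ^ 2 + (2 * u + 1)) / W := Nat.add_div_le_add_div _ _ _
  have h2 : 2 * (u / W) ≤ (2 * u + 1) / W := by
    refine le_trans (Nat.mul_div_le_mul_div_assoc _ _ _) ?_
    exact Nat.div_le_div_right (by omega)
  omega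

/-- cubes of window `u` at scale `u` -/
theorem qwin_cube (hs : s = 1 ∨ s = -1) (hj : j ≠ j') (hW : 1 ≤ W) (hK : 1 ≤ K) {u m : ℕ}
    (hL : 16 * K * W ≤ Lu u) (hm : m < Lu u) {R : ℕ} (hR : R ≤ K * Lu u ^ 2)
    {x : Pt d} (hx : x ∈ cube (qctr N j j' s r i W K u m) R) :
    x ∈ Reg N j j' s r i ((Tu W u : ℤ) - (Du W u : ℕ)) ((Tu W u : ℤ) + (Du W u : ℕ))
      (Du W u : ℕ) := by
  have h1 := off_small hW hK hL
  have h2 : m * (2 * (K * Lu u ^ 2) + 1) ≤ Lu u * (2 * (K * Lu u ^ 2) + 1) :=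
    Nat.mul_le_mul_right _ hm.le
  have h5 := reg_cube (N := N) (r := r) (i := i) hs hj (Tu W u)
    (16 * r * i + m * (2 * (K * Lu u ^ 2) + 1 : ℕ)) R (Du W u : ℕ) (by
      rw [off_abs]
      have : m * (2 * (K * Lu u ^ 2) + 1) + R ≤ Du W u := by omega
      exact_mod_cast this) hx
  have h6 : (R : ℤ) ≤ (Du W u : ℕ) := by
    have : R ≤ Du W u := by omega
    exact_mod_cast this
  exact reg_mono (by linarith) (by linarith) (le_refl _) h5

/-- cubes of window `u + 1` at scale `u` -/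
theorem qwin_cube' (hs : s = 1 ∨ s = -1) (hj : j ≠ j') (hW : 2 ≤ W) (hK : 1 ≤ K) {u m : ℕ}
    (hL : 16 * K * W ≤ Lu u) (hm : m < Lu (u + 1)) {R : ℕ} (hR : R ≤ K * Lu (u + 1) ^ 2)
    {x : Pt d} (hx : x ∈ cube (qctr N j j' s r i W K (u + 1) m) R) :
    x ∈ Reg N j j' s r i ((Tu W u : ℤ) - 2 * (Du W u : ℕ)) ((Tu W u : ℤ) + 4 * (Du W u : ℕ))
      (2 * (Du W u : ℕ)) := by
  have hL' : 16 * K * W ≤ Lu (u + 1) := hL.trans (Lu_mono (Nat.le_succ u))
  have h := qwin_cube hs hj (by omega) hK hL' hm hR hx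
  have hD := Du_succ_le (W := W) (by omega) u
  have hT := Tu_succ_le hW u
  have hT' := Tu_mono W (Nat.le_succ u)
  have h16 : 32 ≤ Du W u := by
    have h1 := Lu_le_Du (by omega) hK hL
    have h2 : 32 ≤ 16 * K * W := by nlinarith
    omega
  have hDz : (Du W (u + 1) : ℤ) ≤ Du W u + 1 := by exact_mod_cast hD
  have hTz : (Tu W (u + 1) : ℤ) ≤ Tu W u + 2 * Du W u + 3 := by exact_mod_cast hT
  have hTz' : (Tu W u : ℤ) ≤ Tu W (u + 1) := by exact_mod_cast hT'
  have h16z : (32 : ℤ) ≤ Du W u := by exact_mod_cast h16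
  exact reg_mono (by linarith) (by linarith) (by linarith) h

theorem qwin_cube0 (hs : s = 1 ∨ s = -1) (hj : j ≠ j') {b D : ℕ} (hb : b ≤ D) {R : ℕ}
    (hR : R ≤ b) {x : Pt d} (hx : x ∈ cube (qctr0 N j j' s r i b) R) :
    x ∈ Reg N j j' s r i (((2 * r : ℕ) : ℤ) - 2 * D) ((2 * r : ℕ) : ℤ) D := by
  have h5 := reg_cube (N := N) (r := r) (i := i) hs hj ((2 * r : ℕ) - (b : ℕ))
    (16 * r * i) R (D : ℕ) (by
      rw [sub_self, abs_zero]
      have : 0 + R ≤ D := by omega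
      exact_mod_cast this) hx
  have h6 : (R : ℤ) ≤ b := by exact_mod_cast hR
  have h7 : (b : ℤ) ≤ D := by exact_mod_cast hb
  refine reg_mono ?_ ?_ (le_refl _) h5
  · linarith
  · linarith

/-- hull of two centers -/
theorem qwin_hull (hs : s = 1 ∨ s = -1) {c c' : Pt d} {T D : ℕ}
    (hc : c ∈ Reg N j j' s r i ((T : ℤ) - 2 * D) ((T : ℤ) + 4 * D) (2 * D))
    (hc' : c' ∈ Reg N j j' s r i ((T : ℤ) - 2 * D) ((T : ℤ) + 4 * D) (2 * D))
    {x : Pt d} (hx : x ∈ thick c c' (2 * (4 * D))) :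
    x ∈ Reg N j j' s r i ((T : ℤ) - 12 * D) ((T : ℤ) + 12 * D) (12 * D) := by
  have h := reg_thick hs hc hc' (2 * (4 * D)) hx
  have hD := Int.natCast_nonneg D
  refine reg_mono ?_ ?_ ?_ h
  · push_cast; linarith
  · push_cast; linarith
  · push_cast; linarith

theorem qhull_sub (hs : s = 1 ∨ s = -1) (hj : j ≠ j') {T D : ℕ} (hr : 1 ≤ r) (h2r : 2 * r ≤ T)
    (hT : 32 ≤ T) (hD : 192 * D ≤ T) (hTN : T ≤ N) (hN : 32 * r * i ≤ N) {c c' : Pt d}
    (hc : c ∈ Reg N j j' s r i ((T : ℤ) - 2 * D) ((T : ℤ) + 4 * D) (2 * D))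
    (hc' : c' ∈ Reg N j j' s r i ((T : ℤ) - 2 * D) ((T : ℤ) + 4 * D) (2 * D)) :
    lat (thick c c' (2 * (4 * D))) ⊆ DD N j j' s r i := by
  apply qwin_sub hj hs hr h2r hT hD hTN hN
  intro x hx
  have h := qwin_hull hs hc hc' hx
  exact reg_mono (by omega) (by omega) (by omega) h

/-- distance of the centers of two points given by `pos` -/
theorem pos_dist (hs : s = 1 ∨ s = -1) {t t' v v' : ℤ} {B : ℤ} (h1 : |t - t'| ≤ B)
    (h2 : |v - v'| ≤ B) (a : Fin d) :
    |pos N j j' s t v a - pos N j j' s t' v' a| ≤ B := by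
  unfold pos
  have hB : 0 ≤ B := (abs_nonneg _).trans h1
  by_cases ha : a = j
  · simp only [ha, if_true]
    have e : s * (N - t) - s * (N - t') = s * (t' - t) := by ring
    rw [e, abs_mul]
    have : |s| = 1 := by rcases hs with rfl | rfl <;> simp
    rw [this, one_mul, abs_sub_comm]
    exact h1
  · by_cases ha' : a = j'
    · simp only [if_neg ha, ha', if_true]
      by_cases hjj : j' = j
      · exact absurd (ha'.trans hjj) ha
      · simp only [if_neg hjj]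
        exact h2
    · simp only [if_neg ha, if_neg ha', sub_self, abs_zero]
      exact hB

/-- disjoint candidate neighbourhoods -/
theorem qwin_disj (hj : j ≠ j') {u m m' : ℕ} (hmm : m ≠ m') :
    Disjoint (cube (qctr N j j' s r i W K u m) (K * Lu u ^ 2))
      (cube (qctr N j j' s r i W K u m') (K * Lu u ^ 2)) := by
  rw [Finset.disjoint_left]
  intro x hx hx'
  rw [mem_cube] at hx hx'
  have h1 := hx j'
  have h2 := hx' j'
  simp only [qctr, pos, if_neg hj.symm, if_true] at h1 h2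
  set B := K * Lu u ^ 2 with hB
  have h3 : |((m : ℤ) - m') * ((2 * B + 1 : ℕ) : ℤ)| ≤ 2 * (B : ℕ) := by
    have e : ((m : ℤ) - m') * ((2 * B + 1 : ℕ) : ℤ) =
        (x j' - (16 * r * i + m' * ((2 * B + 1 : ℕ) : ℤ))) -
        (x j' - (16 * r * i + m * ((2 * B + 1 : ℕ) : ℤ))) := by ring
    rw [e]
    refine le_trans (abs_sub _ _) ?_
    linarith
  have h4 : (1 : ℤ) ≤ |(m : ℤ) - m'| := by
    apply Int.one_le_abs
    intro h
    apply hmm
    have : (m : ℤ) = m' := by linarith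
    exact_mod_cast this
  rw [abs_mul] at h3
  have h5 : |((2 * B + 1 : ℕ) : ℤ)| = 2 * (B : ℕ) + 1 := by
    rw [abs_of_nonneg (Int.natCast_nonneg _)]; push_cast; ring
  rw [h5] at h3
  have h6 : (0 : ℤ) ≤ (B : ℕ) := Int.natCast_nonneg _
  nlinarith

/-- the height of a point of a cube of window `u` -/
theorem height_cube (hs : s = 1 ∨ s = -1) {t v : ℤ} {R : ℕ} {x : Pt d}
    (hx : x ∈ cube (pos N j j' s t v) R) : t - R ≤ N - s * x j ∧ N - s * x j ≤ t + R := by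
  rw [mem_cube] at hx
  have h1 := hx j
  simp only [pos, if_true] at h1
  rw [abs_le] at h1
  rcases hs with rfl | rfl
  · constructor <;> linarith
  · constructor <;> linarith

end FKB
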