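import Pool.Agent.FKQ.Defs
import Pool.Agent.FKB.SpinC
import Pool.Agent.FKB.Basic

open Finset
noncomputable section
namespace FKB

variable {V : Type*} [DecidableEq V] {q : ℕ} [NeZero q]

namespace ConeQ

/-- characters from homomorphisms -/
def chr {S : Finset V} (f : Sp q S →+ ZMod (2 * q)) : AddChar (Sp q S) ℂ :=
  (ZMod.stdAddChar (N := 2 * q)).compAddMonoidHom f

omit [DecidableEq V] in
theorem chr_apply {S : Finset V} (f : Sp q S →+ ZMod (2 * q)) (a : Sp q S) :
    chr f a = ZMod.stdAddChar (f a) := rfl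

omit [DecidableEq V] in
theorem chr_mul {S : Finset V} (f g : Sp q S →+ ZMod (2 * q)) :
    chr f * chr g = chr (f + g) := by
  ext a
  rw [AddChar.mul_apply, chr_apply, chr_apply, chr_apply, AddMonoidHom.add_apply,
    AddChar.map_add_eq_mul]

omit [DecidableEq V] in
theorem chr_div {S : Finset V} (f g : Sp q S →+ ZMod (2 * q)) :
    chr f * (chr g)⁻¹ = chr (f - g) := by
  ext a
  rw [AddChar.mul_apply, AddChar.inv_apply, chr_apply, chr_apply, chr_apply, map_neg,
    AddMonoidHom.sub_apply, sub_eq_add_neg, AddChar.map_add_eq_mul]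

omit [DecidableEq V] in
theorem gf_chr {S : Finset V} (f : Sp q S →+ ZMod (2 * q)) (a : Sp q S) :
    gf (chr f) a = ch q (2 * f a) := by
  unfold gf ch
  rw [chr_apply, map_add, ← two_mul (f a)]

/-- evaluation -/
def exH (S : Finset V) (x : V) : Sp q S →+ ZMod (2 * q) where
  toFun a := ex q S x a
  map_zero' := by unfold ex; split_ifs <;> rfl
  map_add' a b := by unfold ex; split_ifs <;> simp

theorem exH_apply (S : Finset V) (x : V) (a : Sp q S) : exH S x a = ex q S x a := rfl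

theorem ch_le_one (t : ZMod (2 * q)) : ch q t ≤ 1 := by
  unfold ch
  refine (Complex.re_le_norm _).trans (le_of_eq ?_)
  rw [AddChar.norm_apply]

theorem neg_one_le_ch (t : ZMod (2 * q)) : -1 ≤ ch q t := by
  unfold ch
  have h := Complex.abs_re_le_norm (ZMod.stdAddChar t)
  rw [AddChar.norm_apply] at h
  exact (abs_le.1 h).1

end ConeQ

open ConeQ

/-- the character whose `gf` is `cs x` -/
theorem exists_cs (S : Finset V) (x : V) :
    ∃ ψ : AddChar (Sp q S) ℂ, ∀ a, gf ψ a = cs q S x a :=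
  ⟨chr (exH S x), fun a => gf_chr _ a⟩
/-- the characters of `cs x`, `cs y`: product and quotient -/
theorem exists_cs2 (S : Finset V) (x y : V) :
    ∃ ψ χ : AddChar (Sp q S) ℂ, (∀ a, gf ψ a = cs q S x a) ∧ (∀ a, gf χ a = cs q S y a) ∧
      (∀ a, gf (ψ * χ⁻¹) a = c2 q S x y a) ∧ (∀ a, gf (ψ * χ) a ≤ 1 ∧ -1 ≤ gf (ψ * χ) a) := by
  refine ⟨chr (exH S x), chr (exH S y), fun a => gf_chr _ a, fun a => gf_chr _ a, fun a => ?_,
    fun a => ?_⟩
  · rw [chr_div, gf_chr]
    rfl
  · rw [chr_mul, gf_chr]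
    exact ⟨ch_le_one _, neg_one_le_ch _⟩
theorem exists_c3 (S : Finset V) (x y z : V) :
    ∃ ψ χ : AddChar (Sp q S) ℂ, (∀ a, gf ψ a = c2 q S x z a) ∧ (∀ a, gf χ a = c2 q S y z a) ∧
      (∀ a, gf (ψ * χ⁻¹) a = c2 q S x y a) ∧ (∀ a, gf (ψ * χ) a = c3 q S x y z a) := by
  refine ⟨chr (exH S x - exH S z), chr (exH S y - exH S z), fun a => ?_, fun a => ?_,
    fun a => ?_, fun a => ?_⟩
  · rw [gf_chr, c2, AddMonoidHom.sub_apply, exH_apply, exH_apply]
  · rw [gf_chr, c2, AddMonoidHom.sub_apply, exH_apply, exH_apply]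
  · rw [chr_div, gf_chr, c2]
    congr 2
    simp only [AddMonoidHom.sub_apply, exH_apply]
    ring
  · rw [chr_mul, gf_chr, c3]
    congr 2
    simp only [AddMonoidHom.sub_apply, AddMonoidHom.add_apply, exH_apply]
    ring
theorem GC_cs (S : Finset V) (x : V) : GC (fun a : Sp q S => cs q S x a) := by
  obtain ⟨ψ, hψ⟩ := exists_cs (q := q) S x
  rw [show (fun a : Sp q S => cs q S x a) = gf ψ from funext fun a => (hψ a).symm]
  exact GC.of_gf ψ
theorem GC_c2 (S : Finset V) (x y : V) : GC (fun a : Sp q S => c2 q S x y a) := by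
  obtain ⟨ψ, χ, _, _, hψ, _⟩ := exists_cs2 (q := q) S x y
  rw [show (fun a : Sp q S => c2 q S x y a) = gf (ψ * χ⁻¹) from funext fun a => (hψ a).symm]
  exact GC.of_gf _

/-- the multiples of the difference character -/
def dChar (q : ℕ) [NeZero q] (S : Finset V) (e : V × V) (j : ZMod (2 * q)) :
    Sp q S →+ ZMod (2 * q) where
  toFun a := j * (ex q S e.1 a - ex q S e.2 a)
  map_zero' := by
    rw [← exH_apply, ← exH_apply, map_zero, map_zero, sub_zero, mul_zero]
  map_add' a b := by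
    simp only [← exH_apply, map_add]
    ring

theorem gf_dChar (S : Finset V) (e : V × V) (j : ZMod (2 * q)) (a : Sp q S) :
    gf (chr (dChar q S e j)) a =
      (ZMod.stdAddChar (j * (2 * (ex q S e.1 a - ex q S e.2 a)))).re := by
  rw [gf_chr, ch]
  congr 2
  change 2 * (j * (ex q S e.1 a - ex q S e.2 a)) = _
  ring

theorem dq_eq_sum (S : Finset V) (e : V × V) (a : Sp q S) :
    dq q S e a = 1 / (2 * q : ℝ) * ∑ j : ZMod (2 * q), gf (chr (dChar q S e j)) a := by
  have hk : (q : ℝ) ≠ 0 := by exact_mod_cast NeZero.ne q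
  have h1 : ∑ j : ZMod (2 * q), gf (chr (dChar q S e j)) a =
      (∑ j : ZMod (2 * q), ZMod.stdAddChar (j * (2 * (ex q S e.1 a - ex q S e.2 a)))).re := by
    rw [Complex.re_sum]
    exact Finset.sum_congr rfl (fun j _ => gf_dChar S e j a)
  have h2 := AddChar.sum_mulShift (R := ZMod (2 * q)) (R' := ℂ) (ψ := ZMod.stdAddChar)
    (2 * (ex q S e.1 a - ex q S e.2 a)) (ZMod.isPrimitive_stdAddChar (2 * q))
  rw [h1]
  unfold dq
  by_cases h : 2 * (ex q S e.1 a - ex q S e.2 a) = 0
  · rw [ind_true h, h2, if_pos h]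
    rw [ZMod.card]
    push_cast
    simp only [Complex.mul_re, Complex.natCast_re, Complex.natCast_im]
    norm_num
    field_simp
  · rw [ind_false h, h2, if_neg h]
    simp

theorem GC_dq (S : Finset V) (e : V × V) : GC (fun a : Sp q S => dq q S e a) := by
  have h : (fun a : Sp q S => dq q S e a) =
      fun a => 1 / (2 * q : ℝ) * ∑ j : ZMod (2 * q), gf (chr (dChar q S e j)) a := by
    funext a
    exact dq_eq_sum S e a
  rw [h]
  exact (GC.sum_mem' univ (fun j _ => GC.of_gf _)).smul (by positivity)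
theorem GC_dq_sub (S : Finset V) (e : V × V) :
    GC (fun a : Sp q S => dq q S e a - 1 / (q : ℝ) * c2 q S e.1 e.2 a) := by
  have hqpos : 0 < q := Nat.pos_of_ne_zero (NeZero.ne q)
  have hk : (q : ℝ) ≠ 0 := by exact_mod_cast NeZero.ne q
  have h4 : (2 * q : ZMod (2 * q)) = 0 := by
    have := ZMod.natCast_self (2 * q)
    push_cast at this
    exact this
  have hq0 : ((q : ℕ) : ZMod (2 * q)) ≠ 0 := by
    intro h
    have h' := (ZMod.natCast_eq_zero_iff q (2 * q)).1 h
    have := Nat.le_of_dvd hqpos h'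
    omega
  have hne : (1 : ZMod (2 * q)) ≠ 1 + ((q : ℕ) : ZMod (2 * q)) := by
    intro h
    apply hq0
    have : (1 : ZMod (2 * q)) + 0 = 1 + ((q : ℕ) : ZMod (2 * q)) := by rw [add_zero]; exact h
    exact (add_left_cancel this).symm
  have h1 : ∀ a : Sp q S, gf (chr (dChar q S e 1)) a = c2 q S e.1 e.2 a := by
    intro a
    rw [gf_dChar, one_mul]
    rfl
  have h3 : ∀ a : Sp q S, gf (chr (dChar q S e (1 + ((q : ℕ) : ZMod (2 * q))))) a =
      c2 q S e.1 e.2 a := by
    intro a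
    rw [gf_dChar]
    have : (1 + ((q : ℕ) : ZMod (2 * q))) * (2 * (ex q S e.1 a - ex q S e.2 a)) =
        2 * (ex q S e.1 a - ex q S e.2 a) := by
      have : (1 + ((q : ℕ) : ZMod (2 * q))) * (2 * (ex q S e.1 a - ex q S e.2 a)) =
        2 * (ex q S e.1 a - ex q S e.2 a) + (2 * q) * (ex q S e.1 a - ex q S e.2 a) := by ring
      rw [this, h4]
      ring
    rw [this]
    rfl
  have h : (fun a : Sp q S => dq q S e a - 1 / (q : ℝ) * c2 q S e.1 e.2 a) =
      fun a => 1 / (2 * q : ℝ) * ∑ j ∈ (univ.erase (1 : ZMod (2 * q))).erase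
        (1 + ((q : ℕ) : ZMod (2 * q))), gf (chr (dChar q S e j)) a := by
    funext a
    rw [dq_eq_sum, ← Finset.add_sum_erase univ _ (Finset.mem_univ (1 : ZMod (2 * q))),
      ← Finset.add_sum_erase (univ.erase (1 : ZMod (2 * q))) _
        (Finset.mem_erase.2 ⟨hne.symm, Finset.mem_univ (1 + ((q : ℕ) : ZMod (2 * q)))⟩), h1, h3]
    field_simp
    ring
  rw [h]
  exact (GC.sum_mem' _ (fun j _ => GC.of_gf _)).smul (by positivity)
/-- the weight of a pair of replicas -/
theorem GP_pair {D : Finset (V × V)} {w w' : V × V → ℝ} (hw : Adm D w) (hw' : Adm D w')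
    (hle : ∀ e ∈ D, w' e ≤ w e) {S : Finset V} {h h' : V → ℝ} (hh : ∀ x ∈ S, |h' x| ≤ h x) :
    GP (fun ab : Sp q S × Sp q S => swq q D w S h ab.1 * swq q D w' S h' ab.2) := by
  have h1 : GP (fun ab : Sp q S × Sp q S =>
      ∏ e ∈ D, (((1 - w e) + w e * dq q S e ab.1) * ((1 - w' e) + w' e * dq q S e ab.2))) := by
    refine GP.prod D fun e he => ?_
    exact GC.bond (GC_dq S e) (fun a => ind_zero_or_one _) (hw' e he).1 (hle e he) (hw e he).2
  have h2 : GP (fun ab : Sp q S × Sp q S =>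
      ∏ x ∈ S, Real.exp (h x * cs q S x ab.1 + h' x * cs q S x ab.2)) := by
    refine GP.prod S fun x hx => ?_
    exact GC.expo (GC_cs S x) (hh x hx)
  have h3 := h1.mul h2
  convert h3 using 2 with ab
  simp only [swq]
  rw [Finset.prod_mul_distrib, ← Real.exp_sum, Finset.sum_add_distrib, Real.exp_add]
  ring

end FKB
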