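import Pool.Agent.FKB.Seeds

open Finset
noncomputable section
namespace FKB

/-- the conclusion of the chain of windows, at all `p` -/
def ChainHyp (d : ℕ) (q : ℝ) : Prop :=
  ∀ p : ℝ, 0 < p → p < 1 → 0 < th1 d p q →
    (∀ s : ℝ, 0 < s → ∃ p0, 0 < p0 ∧ p0 < p ∧ (1 - s) * th1 d p q ≤ th1 d p0 q) →
    ∀ ε : ℝ, 0 < ε →
    ∃ r : ℕ, 1 ≤ r ∧ ∀ Nb : ℕ, ∃ n0 : ℕ, ∀ N : ℕ, n0 ≤ N → ∀ (j j' : Fin d) (s : ℤ), j ≠ j' →
      (s = 1 ∨ s = -1) → ∀ i, i < Nb →
      th1 d p q - ε ≤
        P (DD N j j' s r i) (pr (OO N j j' s r i) p) q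
          (fun A => Conn A (pos N j j' s r (16 * r * i)) 0)

/-- connection from the centre of a cube to each face, at all left-continuity points -/
def MainCube (d : ℕ) (q : ℝ) : Prop :=
  ∀ p : ℝ, 0 < p → p < 1 → 0 < th1 d p q →
    (∀ s : ℝ, 0 < s → ∃ p0, 0 < p0 ∧ p0 < p ∧ (1 - s) * th1 d p q ≤ th1 d p0 q) →
    ∀ ε : ℝ, 0 < ε → ∃ n0 : ℕ, ∀ N : ℕ, n0 ≤ N → ∀ (j : Fin d) (s : ℤ), (s = 1 ∨ s = -1) →
      th1 d p q - ε ≤ P (lat (cube (0 : Pt d) N)) (fun _ => p) q
          (fun A => ∃ y ∈ cube (0 : Pt d) N, y j = s * N ∧ Conn A 0 y)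

theorem mainCube_of_chain {d : ℕ} {q : ℝ} (hd : 2 ≤ d) (hq : 1 ≤ q) (HC : ChainHyp d q) :
    MainCube d q := by
  intro p hp0 hp1 hth hleft ε hε
  have hq0 : 0 < q := lt_of_lt_of_le one_pos hq
  set θ : ℝ := th1 d p q with hθ
  have hθ1 : θ ≤ 1 := (th1_le (l := 0) hq hp0.le hp1.le).trans (th_le_one hq hp0.le hp1.le)
  obtain ⟨r, hr, H⟩ := HC p hp0 hp1 hth hleft (ε / 2) (half_pos hε)
  -- the probability that a given seed is open
  set c : ℝ := (p / q) ^ (((2 * r + 1) ^ d) ^ 2) with hc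
  have hc0 : 0 < c := by positivity
  have hpq : p / q ≤ 1 := by
    rw [div_le_one hq0]; linarith
  have hc1 : c ≤ 1 := pow_le_one₀ (by positivity) hpq
  obtain ⟨Nb, hNb⟩ := exists_pow_lt_of_lt_one (half_pos hε) (show 1 - c < 1 by linarith)
  obtain ⟨n0, hn0⟩ := H Nb
  refine ⟨max n0 (16 * r * Nb + r), fun N hN j s hs => ?_⟩
  have hN0 : n0 ≤ N := (le_max_left _ _).trans hN
  have hN1 : 16 * r * Nb + r ≤ N := (le_max_right _ _).trans hN
  obtain ⟨j', hj⟩ : ∃ j' : Fin d, j ≠ j' := by
    have : Nontrivial (Fin d) := Fin.nontrivial_iff_two_le.mpr hd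
    obtain ⟨j', hj'⟩ := exists_ne j
    exact ⟨j', hj'.symm⟩
  have hi : ∀ i, i < Nb → 16 * r * i + r ≤ N := by
    intro i hi
    have : 16 * r * i ≤ 16 * r * Nb := Nat.mul_le_mul_left _ hi.le
    omega
  set D : Finset (Pt d × Pt d) := lat (cube 0 N) with hD
  have hadm : Adm D (fun _ => p) := fun _ _ => ⟨hp0.le, hp1.le⟩
  set U : ℕ → Finset (Pt d × Pt d) := fun i => lat (seedBox N j j' s r i) with hU
  have hUD : ∀ i, i < Nb → U i ⊆ D := by
    intro i hi'
    refine (seed_sub hs hj ?_ (hi i hi')).trans Finset.sdiff_subset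
    have := hi i hi'
    omega
  set T : Finset (Pt d × Pt d) → Prop :=
    fun A => ∃ y ∈ cube (0 : Pt d) N, y j = s * N ∧ Conn A 0 y with hT
  set Ev : ℕ → Finset (Pt d × Pt d) → Prop :=
    fun i A => U i ⊆ A ∧ ∀ i' < i, ¬ U i' ⊆ A with hEv
  -- no open seed
  have hnone : P D (fun _ => p) q (fun A => ∀ i < Nb, ¬ U i ⊆ A) ≤ ε / 2 := by
    have h1 := P_bad (Finset.range Nb) hq hadm U (fun i hi' => hUD i (Finset.mem_range.mp hi'))
      (fun i _ i' _ hne => seeds_disj hj hr hne) (fun _ => p)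
      (fun i _ e _ => ⟨hp0.le, le_refl _⟩) (fun i A => ¬ U i ⊆ A)
      (fun i _ A B hAB _ hB hA => hB (hA.trans hAB))
    have h2 : P D (fun _ => p) q (fun A => ∀ i < Nb, ¬ U i ⊆ A) ≤
        P D (fun _ => p) q (fun A => ∀ i ∈ Finset.range Nb, ¬ U i ⊆ A ∩ U i) := by
      refine P_mono hq0 hadm fun A _ _ _ hA i hi' h => ?_
      exact hA i (Finset.mem_range.mp hi') (h.trans Finset.inter_subset_left)
    refine (h2.trans h1).trans ?_
    calc ∏ i ∈ Finset.range Nb, P (U i) (fun _ => p) q (fun A => ¬ U i ⊆ A)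
        ≤ ∏ _i ∈ Finset.range Nb, (1 - c) := by
          refine Finset.prod_le_prod (fun i _ => P_nonneg hq0 (fun _ _ => ⟨hp0.le, hp1.le⟩) _)
            (fun i _ => ?_)
          rw [P_compl hq0 (fun _ _ => ⟨hp0.le, hp1.le⟩)]
          have h3 := seeds_full (D := U i) hq hp0 hp1.le
          have h4 : c ≤ (p / q) ^ (U i).card :=
            pow_le_pow_of_le_one (by positivity) hpq seeds_card
          linarith
      _ = (1 - c) ^ Nb := by rw [Finset.prod_const, Finset.card_range]
      _ ≤ ε / 2 := hNb.le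
  -- one seed
  have hone : ∀ i, i < Nb → P D (fun _ => p) q (Ev i) * (θ - ε / 2) ≤
      P D (fun _ => p) q (fun A => Ev i A ∧ T A) := by
    intro i hi'
    set D2 : Finset (Pt d × Pt d) := (Finset.range (i + 1)).biUnion U with hD2
    have hUD2 : ∀ i', i' ≤ i → U i' ⊆ D2 := by
      intro i' h
      exact Finset.subset_biUnion_of_mem U (Finset.mem_range.mpr (by omega))
    have hD2D : D2 ⊆ D := by
      rw [hD2, Finset.biUnion_subset]
      intro i' h
      exact hUD i' (by rw [Finset.mem_range] at h; omega)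
    set D3 : Finset (Pt d × Pt d) := (Finset.range i).biUnion U with hD3
    set w' : Pt d × Pt d → ℝ := fun e => if e ∈ U i then 1 else if e ∈ D3 then 0 else p with hw'
    have hadm' : Adm D w' := by
      intro e _
      simp only [hw']
      split_ifs
      · exact ⟨zero_le_one, le_refl _⟩
      · exact ⟨le_refl _, zero_le_one⟩
      · exact ⟨hp0.le, hp1.le⟩
    have hEvi : ∀ A, Ev i (A ∩ D2) ↔ Ev i A := by
      intro A
      simp only [hEv]
      constructor
      · rintro ⟨h1, h2⟩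
        refine ⟨h1.trans Finset.inter_subset_left, fun i' hi2 h3 => h2 i' hi2 ?_⟩
        exact Finset.subset_inter h3 (hUD2 i' hi2.le)
      · rintro ⟨h1, h2⟩
        refine ⟨Finset.subset_inter h1 (hUD2 i le_rfl), fun i' hi2 h3 => h2 i' hi2 ?_⟩
        exact h3.trans Finset.inter_subset_left
    have h1 := P_seed (D := D) (D2 := D2) (w := fun _ => p) (w' := w') hq hadm hD2D hadm'
      (fun e he => by
        simp only [hw']
        rw [Finset.mem_sdiff] at he
        have a1 : e ∉ U i := fun h => he.2 (hUD2 i le_rfl h)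
        rw [if_neg a1]
        split_ifs
        · exact hp0.le
        · exact le_refl _)
      (Ev i) (fun A => Conn A (pos N j j' s r (16 * r * i)) 0)
      (fun A B hAB _ => ind_mono (fun h => h.mono' hAB))
      (fun B _ hGB e he => by
        simp only [hw']
        by_cases a1 : e ∈ U i
        · rw [if_pos a1, ind_true (hGB.1 a1)]
        · rw [if_neg a1]
          have a2 : e ∈ D3 := by
            rw [hD2, Finset.mem_biUnion] at he
            obtain ⟨i', hi2, hi3⟩ := he
            rw [hD3, Finset.mem_biUnion]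
            refine ⟨i', ?_, hi3⟩
            rw [Finset.mem_range] at hi2 ⊢
            rcases Nat.lt_succ_iff_lt_or_eq.mp hi2 with h | h
            · exact h
            · rw [h] at hi3; exact absurd hi3 a1
          rw [if_pos a2]
          exact ind_nonneg _)
    have h2 : P D w' q (fun A => Conn A (pos N j j' s r (16 * r * i)) 0) =
        P (DD N j j' s r i) (pr (OO N j j' s r i) p) q
          (fun A => Conn A (pos N j j' s r (16 * r * i)) 0) := by
      unfold P
      rw [E_drop (D := DD N j j' s r i) hq0 hadm' Finset.sdiff_subset]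
      · apply E_w_congr
        intro e he
        simp only [hw', pr]
        change (if e ∈ U i then 1 else if e ∈ D3 then 0 else p) = if e ∈ U i then 1 else p
        have a2 : e ∉ D3 := (Finset.mem_sdiff.mp he).2
        rw [if_neg a2]
      · intro e he
        simp only [hw']
        have a2 : e ∈ D3 := by
          by_contra h
          rw [Finset.mem_sdiff] at he
          exact he.2 (Finset.mem_sdiff.mpr ⟨he.1, h⟩)
        have a1 : e ∉ U i := by
          intro h
          rw [hD3, Finset.mem_biUnion] at a2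
          obtain ⟨i', hi2, hi3⟩ := a2
          rw [Finset.mem_range] at hi2
          exact Finset.disjoint_left.mp (seeds_disj hj hr (ne_of_gt hi2)) h hi3
        rw [if_neg a1, if_pos a2]
    have h3 := hn0 N hN0 j j' s hj hs i hi'
    rw [← h2] at h3
    have h4 : P D (fun _ => p) q (fun A => Ev i (A ∩ D2)) = P D (fun _ => p) q (Ev i) := by
      unfold P
      exact E_congr fun A _ => ind_congr (hEvi A)
    rw [h4] at h1
    refine (mul_le_mul_of_nonneg_left h3 (P_nonneg hq0 hadm _)).trans (h1.trans ?_)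
    refine P_mono hq0 hadm fun A _ _ _ hA => ?_
    have hA1 := (hEvi A).mp hA.1
    refine ⟨hA1, ?_⟩
    obtain ⟨y, hy1, hy2, hy3⟩ := seeds_face (d := d) (N := N) (j := j) (j' := j') (s := s) (r := r)
      (i := i) hs (hi i hi')
    exact ⟨y, hy1, hy2, hA.2.symm'.trans' (hy3.mono' hA1.1)⟩
  -- sum over the seeds
  have hsum1 : ∑ i ∈ Finset.range Nb, P D (fun _ => p) q (fun A => Ev i A ∧ T A) ≤
      P D (fun _ => p) q T := by
    unfold P
    rw [← E_sum]
    refine E_mono hq0 hadm fun A _ => ?_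
    calc ∑ i ∈ Finset.range Nb, ind (Ev i A ∧ T A)
        = (∑ i ∈ Finset.range Nb, ind (Ev i A)) * ind (T A) := by
          rw [Finset.sum_mul]
          exact Finset.sum_congr rfl fun i _ => ind_and _ _
      _ ≤ 1 * ind (T A) := by
          refine mul_le_mul_of_nonneg_right ?_ (ind_nonneg _)
          have := seeds_first (fun i => U i ⊆ A) Nb
          simp only [hEv]
          rw [this]
          linarith [ind_nonneg (∀ i < Nb, ¬ U i ⊆ A)]
      _ = ind (T A) := one_mul _
  have hsum2 : ∑ i ∈ Finset.range Nb, P D (fun _ => p) q (Ev i) =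
      1 - P D (fun _ => p) q (fun A => ∀ i < Nb, ¬ U i ⊆ A) := by
    rw [← P_compl hq0 hadm]
    unfold P
    rw [← E_sum]
    refine E_congr fun A _ => ?_
    rw [ind_not]
    exact seeds_first (fun i => U i ⊆ A) Nb
  have hfin : (1 - P D (fun _ => p) q (fun A => ∀ i < Nb, ¬ U i ⊆ A)) * (θ - ε / 2) ≤
      P D (fun _ => p) q T := by
    rw [← hsum2, Finset.sum_mul]
    exact (Finset.sum_le_sum fun i hi' => hone i (Finset.mem_range.mp hi')).trans hsum1
  set x : ℝ := P D (fun _ => p) q (fun A => ∀ i < Nb, ¬ U i ⊆ A) with hx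
  have hx0 : 0 ≤ x := P_nonneg hq0 hadm _
  have hT0 : 0 ≤ P D (fun _ => p) q T := P_nonneg hq0 hadm _
  by_cases hcase : θ - ε / 2 ≤ 0
  · linarith
  · push Not at hcase
    nlinarith

end FKB
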