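import Pool.Agent.FKB.Clus
import Pool.Agent.FKB.GinC

/-!
Spin models for every integer `q ≥ 2` (spins in `ZMod (2 q)`, two spins are equal when twice their
difference vanishes), on a finite set `S` of vertices of an arbitrary type.
-/

open Finset
noncomputable section
namespace FKB

section
variable {V : Type*} [DecidableEq V] (q : ℕ) [NeZero q]

/-- spin configurations on `S` -/
abbrev Sp (S : Finset V) : Type _ := S → ZMod (2 * q)

/-- the spin of `x` (zero off `S`) -/
def ex (S : Finset V) (x : V) (a : Sp q S) : ZMod (2 * q) := if h : x ∈ S then a ⟨x, h⟩ else 0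

/-- `cos (2 π t / (2 q))` -/
def ch (t : ZMod (2 * q)) : ℝ := (ZMod.stdAddChar t).re

/-- `cos (2 π a_x / q)` -/
def cs (S : Finset V) (x : V) (a : Sp q S) : ℝ := ch q (2 * ex q S x a)

/-- `cos (2 π (a_x - a_y) / q)` -/
def c2 (S : Finset V) (x y : V) (a : Sp q S) : ℝ := ch q (2 * (ex q S x a - ex q S y a))

/-- `cos (2 π (a_x + a_y - 2 a_z) / q)` -/
def c3 (S : Finset V) (x y z : V) (a : Sp q S) : ℝ :=
  ch q (2 * (ex q S x a + ex q S y a - 2 * ex q S z a))

/-- bond indicator -/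
def dq (S : Finset V) (e : V × V) (a : Sp q S) : ℝ := ind (2 * (ex q S e.1 a - ex q S e.2 a) = 0)

/-- spin weight -/
def swq (D : Finset (V × V)) (w : V × V → ℝ) (S : Finset V) (h : V → ℝ) (a : Sp q S) : ℝ :=
  (∏ e ∈ D, ((1 - w e) + w e * dq q S e a)) * Real.exp (∑ x ∈ S, h x * cs q S x a)

/-- spin partition function -/
def ZS (D : Finset (V × V)) (w : V × V → ℝ) (S : Finset V) (h : V → ℝ) : ℝ :=
  ∑ a : Sp q S, swq q D w S h a

/-- spin expectation -/
def SE (D : Finset (V × V)) (w : V × V → ℝ) (S : Finset V) (h : V → ℝ) (φ : Sp q S → ℝ) : ℝ :=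
  (∑ a : Sp q S, swq q D w S h a * φ a) / ZS q D w S h

/-- average over a spin of `exp (H cos)` -/
def Gq (H : ℝ) : ℝ := (∑ t : ZMod (2 * q), Real.exp (H * ch q (2 * t))) / (2 * q)

/-- the two field profiles -/
def fa (Q Q' : Finset V) (x : V) : ℝ := ind (x ∈ Q) + ind (x ∈ Q')
def fb (Q Q' : Finset V) (x : V) : ℝ := ind (x ∈ Q) - ind (x ∈ Q')

end
end FKB
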