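import Pool.Agent.FKQ.Rep

open Finset
noncomputable section
namespace FKB

variable {V : Type*} [DecidableEq V] {q : ℕ} [NeZero q]

theorem DerivQ_dq (S : Finset V) (e : V × V) (a : Sp q S) : dq q S e a = 0 ∨ dq q S e a = 1 := by
  unfold dq ind
  split_ifs
  · exact Or.inr rfl
  · exact Or.inl rfl

theorem DerivQ_nonneg {D : Finset (V × V)} {w : V × V → ℝ} (hw : Adm D w) (S : Finset V)
    (h : V → ℝ) (a : Sp q S) : 0 ≤ swq q D w S h a := by
  unfold swq
  refine mul_nonneg (Finset.prod_nonneg fun e he => ?_) (Real.exp_pos _).le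
  obtain ⟨h1, h2⟩ := hw e he
  rcases DerivQ_dq S e a with h3 | h3 <;> rw [h3] <;> linarith

theorem DerivQ_SE_add (D : Finset (V × V)) (w : V × V → ℝ) (S : Finset V) (h : V → ℝ)
    (f g : Sp q S → ℝ) :
    SE q D w S h (fun a => f a + g a) = SE q D w S h f + SE q D w S h g := by
  unfold SE
  rw [← add_div, ← Finset.sum_add_distrib]
  congr 1
  exact Finset.sum_congr rfl fun a _ => by ring

theorem DerivQ_SE_smul (D : Finset (V × V)) (w : V × V → ℝ) (S : Finset V) (h : V → ℝ)
    (c : ℝ) (f : Sp q S → ℝ) :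
    SE q D w S h (fun a => c * f a) = c * SE q D w S h f := by
  unfold SE
  rw [mul_div_assoc', Finset.mul_sum]
  congr 1
  exact Finset.sum_congr rfl fun a _ => by ring

theorem DerivQ_SE_sum {ι : Type*} (D : Finset (V × V)) (w : V × V → ℝ) (S : Finset V) (h : V → ℝ)
    (T : Finset ι) (f : ι → Sp q S → ℝ) :
    SE q D w S h (fun a => ∑ i ∈ T, f i a) = ∑ i ∈ T, SE q D w S h (f i) := by
  unfold SE
  rw [← Finset.sum_div, Finset.sum_comm]
  congr 1
  exact Finset.sum_congr rfl fun a _ => by rw [Finset.mul_sum]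

theorem DerivQ_SE_one {D : Finset (V × V)} {w : V × V → ℝ} (hw : Adm D w) (S : Finset V)
    (h : V → ℝ) : SE q D w S h (fun _ => 1) = 1 := by
  unfold SE
  simp only [mul_one]
  exact div_self (ZS_pos hw S h).ne'

theorem DerivQ_factor {O : Finset (V × V)} (S : Finset V) (e : V × V) (a : Sp q S)
    (p1 t : ℝ) (h2 : p1 + t < 1) :
    HasDerivAt (fun u : ℝ => (1 - pr O (p1 + u) e) + pr O (p1 + u) e * dq q S e a)
      (((1 - pr O (p1 + t) e) + pr O (p1 + t) e * dq q S e a) *
        (if e ∈ O then 0 else -(1 / (1 - (p1 + t))) * (1 - dq q S e a))) t := by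
  by_cases he : e ∈ O
  · simp only [pr, if_pos he, mul_zero]
    exact hasDerivAt_const t _
  · simp only [pr, if_neg he]
    have h3 : HasDerivAt (fun u : ℝ => p1 + u) 1 t := (hasDerivAt_id t).const_add p1
    have h4 := (h3.const_sub 1).add (h3.mul_const (dq q S e a))
    refine h4.congr_deriv ?_
    have h5 : 1 - (p1 + t) ≠ 0 := by linarith
    rcases DerivQ_dq S e a with h6 | h6 <;> rw [h6]
    · field_simp
      ring
    · ring

theorem DerivQ_swq {D O : Finset (V × V)} (S : Finset V) (h0 : V → ℝ)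
    (p1 lam t : ℝ) (h2 : p1 + t < 1) (a : Sp q S) :
    HasDerivAt (fun u : ℝ => swq q D (pr O (p1 + u)) S (fun x => lam * u * h0 x) a)
      (swq q D (pr O (p1 + t)) S (fun x => lam * t * h0 x) a *
        (-(1 / (1 - (p1 + t))) * ∑ e ∈ D \ O, (1 - dq q S e a) +
          lam * ∑ x ∈ S, h0 x * cs q S x a)) t := by
  have h3 : HasDerivAt (fun u : ℝ => ∏ e ∈ D, ((1 - pr O (p1 + u) e) + pr O (p1 + u) e *
      dq q S e a)) ((∏ e ∈ D, ((1 - pr O (p1 + t) e) + pr O (p1 + t) e * dq q S e a)) *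
        (-(1 / (1 - (p1 + t))) * ∑ e ∈ D \ O, (1 - dq q S e a))) t := by
    have h4 := HasDerivAt.fun_finsetProd (u := D) (f := fun e (u : ℝ) =>
      ((1 - pr O (p1 + u) e) + pr O (p1 + u) e * dq q S e a))
      (f' := fun e => (((1 - pr O (p1 + t) e) + pr O (p1 + t) e * dq q S e a) *
        (if e ∈ O then 0 else -(1 / (1 - (p1 + t))) * (1 - dq q S e a))))
      (x := t) (fun e _ => DerivQ_factor S e a p1 t h2)
    refine h4.congr_deriv ?_
    rw [Finset.mul_sum (D \ O), Finset.mul_sum (D \ O)]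
    have h5 : ∑ e ∈ D \ O, (∏ e ∈ D, ((1 - pr O (p1 + t) e) + pr O (p1 + t) e * dq q S e a)) *
        (-(1 / (1 - (p1 + t))) * (1 - dq q S e a)) =
        ∑ e ∈ D, (∏ e ∈ D, ((1 - pr O (p1 + t) e) + pr O (p1 + t) e * dq q S e a)) *
        (if e ∈ O then 0 else -(1 / (1 - (p1 + t))) * (1 - dq q S e a)) := by
      rw [← Finset.sum_filter_add_sum_filter_not D (fun e => e ∈ O)]
      have h6 : ∑ e ∈ D with e ∈ O, (∏ e ∈ D, ((1 - pr O (p1 + t) e) +
          pr O (p1 + t) e * dq q S e a)) *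
          (if e ∈ O then 0 else -(1 / (1 - (p1 + t))) * (1 - dq q S e a)) = 0 := by
        refine Finset.sum_eq_zero fun e he => ?_
        rw [if_pos (Finset.mem_filter.1 he).2, mul_zero]
      rw [h6, zero_add, ← Finset.sdiff_eq_filter]
      refine Finset.sum_congr rfl fun e he => ?_
      rw [if_neg (Finset.mem_sdiff.1 he).2]
    rw [h5]
    refine Finset.sum_congr rfl fun e he => ?_
    rw [smul_eq_mul, ← mul_assoc, Finset.prod_erase_mul _ _ he]
  have hb : HasDerivAt (fun u : ℝ => ∑ x ∈ S, lam * u * h0 x * cs q S x a)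
      (lam * ∑ x ∈ S, h0 x * cs q S x a) t := by
    have e1 : (fun u : ℝ => ∑ x ∈ S, lam * u * h0 x * cs q S x a) =
        fun u => (lam * ∑ x ∈ S, h0 x * cs q S x a) * u := by
      funext u
      rw [Finset.mul_sum, Finset.sum_mul]
      refine Finset.sum_congr rfl fun x _ => ?_
      ring
    rw [e1]
    simpa using (hasDerivAt_id t).const_mul (lam * ∑ x ∈ S, h0 x * cs q S x a)
  have hd := h3.mul hb.exp
  refine hd.congr_deriv ?_
  unfold swq
  ring

theorem deriv_logZS {D O : Finset (V × V)} (hO : O ⊆ D) (S : Finset V) (h0 : V → ℝ)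
    (p1 lam t : ℝ) (h1 : 0 < p1 + t) (h2 : p1 + t < 1) :
    HasDerivAt (fun u : ℝ => Real.log (ZS q D (pr O (p1 + u)) S (fun x => lam * u * h0 x)))
      (-(1 / (1 - (p1 + t))) * ∑ e ∈ D \ O,
          (1 - SE q D (pr O (p1 + t)) S (fun x => lam * t * h0 x) (dq q S e)) +
        lam * SE q D (pr O (p1 + t)) S (fun x => lam * t * h0 x)
          (fun a => ∑ x ∈ S, h0 x * cs q S x a)) t := by
  have hadm : Adm D (pr O (p1 + t)) := adm_pr h1.le h2.le
  have hpos := ZS_pos (q := q) hadm S (fun x => lam * t * h0 x)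
  have h3 : HasDerivAt (fun u : ℝ => ZS q D (pr O (p1 + u)) S (fun x => lam * u * h0 x))
      (∑ a : Sp q S, swq q D (pr O (p1 + t)) S (fun x => lam * t * h0 x) a *
        (-(1 / (1 - (p1 + t))) * ∑ e ∈ D \ O, (1 - dq q S e a) +
          lam * ∑ x ∈ S, h0 x * cs q S x a)) t := by
    unfold ZS
    exact HasDerivAt.fun_sum fun a _ => DerivQ_swq S h0 p1 lam t h2 a
  refine (h3.log hpos.ne').congr_deriv ?_
  have h5 : (∑ a : Sp q S, swq q D (pr O (p1 + t)) S (fun x => lam * t * h0 x) a *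
        (-(1 / (1 - (p1 + t))) * ∑ e ∈ D \ O, (1 - dq q S e a) +
          lam * ∑ x ∈ S, h0 x * cs q S x a)) /
        ZS q D (pr O (p1 + t)) S (fun x => lam * t * h0 x) =
      SE q D (pr O (p1 + t)) S (fun x => lam * t * h0 x) (fun a =>
        (-(1 / (1 - (p1 + t))) * ∑ e ∈ D \ O, (1 - dq q S e a) +
          lam * ∑ x ∈ S, h0 x * cs q S x a)) := rfl
  rw [h5, DerivQ_SE_add, DerivQ_SE_smul, DerivQ_SE_smul, DerivQ_SE_sum]
  congr 2
  refine Finset.sum_congr rfl fun e _ => ?_
  have h6 : (fun a : Sp q S => 1 - dq q S e a) = fun a => (fun _ => (1 : ℝ)) a +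
      (fun a => (-1) * dq q S e a) a := by
    funext a
    simp only
    ring
  rw [h6, DerivQ_SE_add, DerivQ_SE_smul, DerivQ_SE_one hadm]
  ring

/-- field only -/
theorem deriv_cs {D : Finset (V × V)} {w : V × V → ℝ} (hw : Adm D w) (S : Finset V)
    (h0 : V → ℝ) (x : V) (t : ℝ) :
    HasDerivAt (fun u : ℝ => SE q D w S (fun y => u * h0 y) (cs q S x))
      (∑ z ∈ S, h0 z * (SE q D w S (fun y => t * h0 y) (fun a => cs q S x a * cs q S z a) -
        SE q D w S (fun y => t * h0 y) (cs q S x) *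
          SE q D w S (fun y => t * h0 y) (cs q S z))) t := by
  have h1 : ∀ a : Sp q S, HasDerivAt (fun u : ℝ => swq q D w S (fun y => u * h0 y) a)
      (swq q D w S (fun y => t * h0 y) a * ∑ z ∈ S, h0 z * cs q S z a) t := by
    intro a
    have hb : HasDerivAt (fun u : ℝ => ∑ z ∈ S, u * h0 z * cs q S z a)
        (∑ z ∈ S, h0 z * cs q S z a) t := by
      have e1 : (fun u : ℝ => ∑ z ∈ S, u * h0 z * cs q S z a) =
          fun u => (∑ z ∈ S, h0 z * cs q S z a) * u := by
        funext u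
        rw [Finset.sum_mul]
        exact Finset.sum_congr rfl fun x _ => by ring
      rw [e1]
      simpa using (hasDerivAt_id t).const_mul (∑ z ∈ S, h0 z * cs q S z a)
    have hc := hb.exp.const_mul (∏ e ∈ D, ((1 - w e) + w e * dq q S e a))
    refine hc.congr_deriv ?_
    unfold swq
    ring
  have hZ : HasDerivAt (fun u : ℝ => ZS q D w S (fun y => u * h0 y))
      (∑ a : Sp q S, swq q D w S (fun y => t * h0 y) a * ∑ z ∈ S, h0 z * cs q S z a) t := by
    unfold ZS
    exact HasDerivAt.fun_sum fun a _ => h1 a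
  have hN : HasDerivAt (fun u : ℝ => ∑ a : Sp q S, swq q D w S (fun y => u * h0 y) a *
      cs q S x a) (∑ a : Sp q S, (swq q D w S (fun y => t * h0 y) a *
        ∑ z ∈ S, h0 z * cs q S z a) * cs q S x a) t :=
    HasDerivAt.fun_sum fun a _ => (h1 a).mul_const _
  have hpos := ZS_pos (q := q) hw S (fun y => t * h0 y)
  have hq := hN.div hZ hpos.ne'
  have e2 : ∑ z ∈ S, h0 z * (SE q D w S (fun y => t * h0 y)
        (fun a => cs q S x a * cs q S z a) -
        SE q D w S (fun y => t * h0 y) (cs q S x) *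
          SE q D w S (fun y => t * h0 y) (cs q S z)) =
      SE q D w S (fun y => t * h0 y) (fun a => ∑ z ∈ S, h0 z * (cs q S x a * cs q S z a)) -
        SE q D w S (fun y => t * h0 y) (cs q S x) *
        SE q D w S (fun y => t * h0 y) (fun a => ∑ z ∈ S, h0 z * cs q S z a) := by
    rw [DerivQ_SE_sum, DerivQ_SE_sum, Finset.mul_sum, ← Finset.sum_sub_distrib]
    refine Finset.sum_congr rfl fun z _ => ?_
    rw [DerivQ_SE_smul, DerivQ_SE_smul]
    ring
  rw [e2]
  refine hq.congr_deriv ?_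
  unfold SE
  have e3 : ∑ a : Sp q S, swq q D w S (fun y => t * h0 y) a *
      ∑ z ∈ S, h0 z * (cs q S x a * cs q S z a) =
      ∑ a : Sp q S, (swq q D w S (fun y => t * h0 y) a *
        ∑ z ∈ S, h0 z * cs q S z a) * cs q S x a := by
    refine Finset.sum_congr rfl fun a _ => ?_
    rw [mul_assoc, Finset.sum_mul]
    congr 1
    exact Finset.sum_congr rfl fun z _ => by ring
  rw [e3]
  have h3 : ZS q D w S (fun y => t * h0 y) ≠ 0 := hpos.ne'
  field_simp

/-- Jensen: the magnetisation of `W` is at most the increment of `log Z` -/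
theorem mag_le {D : Finset (V × V)} {w : V × V → ℝ} (hw : Adm D w) (S : Finset V) (h : V → ℝ)
    {W : Finset V} (hW : W ⊆ S) {k : ℝ} (hk : 0 < k) :
    ∑ z ∈ W, SE q D w S h (cs q S z) ≤
      (Real.log (ZS q D w S (fun x => h x + k * ind (x ∈ W))) - Real.log (ZS q D w S h)) / k := by
  have hpos := ZS_pos (q := q) hw S h
  have hpos' := ZS_pos (q := q) hw S (fun x => h x + k * ind (x ∈ W))
  rw [le_div_iff₀ hk, ← Real.log_div hpos'.ne' hpos.ne', ← DerivQ_SE_sum]
  rw [Real.le_log_iff_exp_le (div_pos hpos' hpos)]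
  set m : ℝ := SE q D w S h (fun a => ∑ z ∈ W, cs q S z a) * k with hm
  have e1 : ∀ a : Sp q S, swq q D w S (fun x => h x + k * ind (x ∈ W)) a =
      swq q D w S h a * Real.exp (k * ∑ z ∈ W, cs q S z a) := by
    intro a
    unfold swq
    rw [mul_assoc, ← Real.exp_add]
    congr 2
    have e2 : ∑ x ∈ S, (h x + k * ind (x ∈ W)) * cs q S x a =
        ∑ x ∈ S, h x * cs q S x a + ∑ x ∈ S, k * (ind (x ∈ W) * cs q S x a) := by
      rw [← Finset.sum_add_distrib]
      exact Finset.sum_congr rfl fun x _ => by ring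
    rw [e2, ← Finset.mul_sum]
    congr 2
    rw [← Finset.sum_subset hW]
    · refine Finset.sum_congr rfl fun x hx => ?_
      simp [ind, hx]
    · intro x _ hx
      simp [ind, hx]
  have e3 : ZS q D w S (fun x => h x + k * ind (x ∈ W)) / ZS q D w S h =
      SE q D w S h (fun a => Real.exp (k * ∑ z ∈ W, cs q S z a)) := by
    unfold SE
    congr 1
    unfold ZS
    exact Finset.sum_congr rfl fun a _ => e1 a
  rw [e3]
  have e4 : SE q D w S h (fun a => Real.exp m * ((1 - m) + k * ∑ z ∈ W, cs q S z a)) =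
      Real.exp m := by
    rw [DerivQ_SE_smul]
    have e5 : (fun a : Sp q S => (1 - m) + k * ∑ z ∈ W, cs q S z a) = fun a =>
        (fun _ : Sp q S => (1 - m) * 1) a + (fun a => k * ∑ z ∈ W, cs q S z a) a := by
      funext a
      simp only [mul_one]
    rw [e5, DerivQ_SE_add, DerivQ_SE_smul, DerivQ_SE_smul, DerivQ_SE_one hw]
    have : k * SE q D w S h (fun a => ∑ z ∈ W, cs q S z a) = m := by rw [hm]; ring
    rw [this]
    ring
  rw [← e4]
  unfold SE
  refine div_le_div_of_nonneg_right (Finset.sum_le_sum fun a _ => ?_) hpos.le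
  refine mul_le_mul_of_nonneg_left ?_ (DerivQ_nonneg hw S h a)
  have e6 := Real.add_one_le_exp (k * ∑ z ∈ W, cs q S z a - m)
  have e7 : Real.exp (k * ∑ z ∈ W, cs q S z a) =
      Real.exp m * Real.exp (k * ∑ z ∈ W, cs q S z a - m) := by
    rw [← Real.exp_add]
    congr 1
    ring
  beta_reduce
  rw [e7]
  refine mul_le_mul_of_nonneg_left ?_ (Real.exp_pos m).le
  linarith

end FKB
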