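import Pool.Agent.FKB.Flow

open Finset
noncomputable section
namespace FKB

private def av {d : ℕ} (c : Pt d) (a : ℕ) (r : Pt d → ℝ) : ℝ :=
  (∑ x ∈ cube c a, r x) / (cube c a).card

private def En {d : ℕ} (R : Finset (Pt d)) (r : Pt d → ℝ) : ℝ :=
  ∑ e ∈ lat R, (r e.1 - r e.2) ^ 2

private theorem En_nonneg {d : ℕ} (R : Finset (Pt d)) (r : Pt d → ℝ) : 0 ≤ En R r :=
  Finset.sum_nonneg fun _ _ => sq_nonneg _

private theorem En_mono {d : ℕ} {R R' : Finset (Pt d)} (h : R ⊆ R') (r : Pt d → ℝ) :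
    En R r ≤ En R' r := by
  unfold En
  apply Finset.sum_le_sum_of_subset_of_nonneg
  · intro e he
    unfold lat at he ⊢
    rw [Finset.mem_filter, Finset.mem_product] at he ⊢
    exact ⟨⟨h he.1.1, h he.1.2⟩, he.2⟩
  · intro _ _ _
    exact sq_nonneg _

private theorem card_thick_le {d : ℕ} {c c' : Pt d} {m : ℕ} (hc : ∀ i, |c i - c' i| ≤ 2 * m) :
    (thick c c' m).card ≤ (4 * m + 1) ^ d := by
  rw [thick, Pi.card_Icc]
  calc ∏ i : Fin d, (Finset.Icc (min (c i) (c' i) - (m : ℤ)) (max (c i) (c' i) + (m : ℤ))).card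
      ≤ ∏ _i : Fin d, (4 * m + 1) := by
        apply Finset.prod_le_prod'
        intro i _
        rw [Int.card_Icc]
        have h1 := abs_le.1 (hc i)
        rcases le_total (c i) (c' i) with h | h
        · rw [min_eq_left h, max_eq_right h]
          omega
        · rw [min_eq_right h, max_eq_left h]
          omega
    _ = (4 * m + 1) ^ d := by simp

private theorem card_lat_le {d : ℕ} (R : Finset (Pt d)) : (lat R).card ≤ d * R.card := by
  classical
  have h : lat R ⊆ ((Finset.univ : Finset (Fin d)) ×ˢ R).image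
      (fun z => (z.2, z.2 + (Pi.single z.1 1 : Pt d))) := by
    intro e he
    unfold lat at he
    rw [Finset.mem_filter, Finset.mem_product] at he
    obtain ⟨⟨h1, _⟩, i, h3⟩ := he
    rw [Finset.mem_image]
    refine ⟨(i, e.1), ?_, ?_⟩
    · rw [Finset.mem_product]
      exact ⟨Finset.mem_univ _, h1⟩
    · exact Prod.ext rfl h3.symm
  refine (Finset.card_le_card h).trans (Finset.card_image_le.trans ?_)
  rw [Finset.card_product]
  simp

private theorem one_side {d : ℕ} (hd : 1 ≤ d) (c c' : Pt d) (a b : ℕ) (r : Pt d → ℝ) :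
    ((cube c' b).card : ℝ) * ∑ x ∈ cube c a, r x - (cube c a).card * ∑ x ∈ cube c' b, r x ≤
      (2 * (max a b : ℕ) + 1 : ℝ) ^ (d + 1) *
          ∑ e ∈ lat (thick c c' (max a b)), |r e.1 - r e.2| := by
  have h := flow hd c c' a b r
  simp only [Finset.sum_sub_distrib, Finset.sum_add_distrib, Finset.sum_const, nsmul_eq_mul] at h
  linarith

private theorem two_side {d : ℕ} (hd : 1 ≤ d) (c c' : Pt d) (a b : ℕ) (r : Pt d → ℝ) :
    |((cube c' b).card : ℝ) * ∑ x ∈ cube c a, r x - (cube c a).card * ∑ x ∈ cube c' b, r x| ≤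
      (2 * (max a b : ℕ) + 1 : ℝ) ^ (d + 1) *
          ∑ e ∈ lat (thick c c' (max a b)), |r e.1 - r e.2| := by
  rw [abs_le]
  constructor
  · have h := one_side hd c c' a b (fun x => - r x)
    have h1 : ∀ e : Pt d × Pt d, |- r e.1 - - r e.2| = |r e.1 - r e.2| := by
      intro e
      rw [← abs_neg]
      congr 1
      ring
    simp only [h1, Finset.sum_neg_distrib] at h
    linarith
  · exact one_side hd c c' a b r

/-- one comparison -/
private theorem step {d : ℕ} (hd : 3 ≤ d) {c c' : Pt d} {a b m : ℕ} (hm : max a b = m)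
    (ha : m ≤ 2 * a) (hb : m ≤ 2 * b) (hc : ∀ i, |c i - c' i| ≤ 2 * m) (r : Pt d → ℝ) :
    (av c a r - av c' b r) ^ 2 * (2 * m + 1 : ℝ) ^ (d - 2) ≤
      (d * 2 ^ (5 * d)) * En (thick c c' m) r := by
  have h2 := two_side (by omega : 1 ≤ d) c c' a b r
  rw [hm] at h2
  set A := ∑ x ∈ cube c a, r x with hA
  set B := ∑ x ∈ cube c' b, r x with hB
  set L := lat (thick c c' m) with hL
  set S1 := ∑ e ∈ L, |r e.1 - r e.2| with hS1
  set N : ℝ := 2 * (m : ℝ) + 1 with hN
  have hNpos : 0 < N := by positivity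
  have hV : ((cube c a).card : ℝ) = (2 * (a : ℝ) + 1) ^ d := by
    rw [card_cube]; push_cast; ring
  have hV' : ((cube c' b).card : ℝ) = (2 * (b : ℝ) + 1) ^ d := by
    rw [card_cube]; push_cast; ring
  set V : ℝ := ((cube c a).card : ℝ) with hVd
  set V' : ℝ := ((cube c' b).card : ℝ) with hVd'
  have hVlow : (N / 2) ^ d ≤ V := by
    rw [hV]
    apply pow_le_pow_left₀ (by positivity)
    have : (m : ℝ) ≤ 2 * a := by exact_mod_cast ha
    rw [hN]; linarith
  have hVlow' : (N / 2) ^ d ≤ V' := by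
    rw [hV']
    apply pow_le_pow_left₀ (by positivity)
    have : (m : ℝ) ≤ 2 * b := by exact_mod_cast hb
    rw [hN]; linarith
  have hVpos : 0 < V := lt_of_lt_of_le (by positivity) hVlow
  have hVpos' : 0 < V' := lt_of_lt_of_le (by positivity) hVlow'
  have hcs : S1 ^ 2 ≤ (L.card : ℝ) * En (thick c c' m) r := by
    have h := sq_sum_le_card_mul_sum_sq (s := L) (f := fun e : Pt d × Pt d => |r e.1 - r e.2|)
    simp only [sq_abs] at h
    exact h
  have hLcard : (L.card : ℝ) ≤ d * (2 * N) ^ d := by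
    have h3 : L.card ≤ d * (4 * m + 1) ^ d :=
      (card_lat_le _).trans (Nat.mul_le_mul_left d (card_thick_le hc))
    have h4 : (L.card : ℝ) ≤ ((d * (4 * m + 1) ^ d : ℕ) : ℝ) := by exact_mod_cast h3
    refine h4.trans ?_
    push_cast
    apply mul_le_mul_of_nonneg_left _ (by positivity)
    apply pow_le_pow_left₀ (by positivity)
    rw [hN]; linarith
  have hE := En_nonneg (thick c c' m) r
  set E := En (thick c c' m) r with hEd
  have h5 : (V' * A - V * B) ^ 2 ≤ N ^ (2 * (d + 1)) * (d * (2 * N) ^ d * E) := by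
    have h6 : (V' * A - V * B) ^ 2 ≤ (N ^ (d + 1) * S1) ^ 2 := by
      rw [← sq_abs (V' * A - V * B)]
      exact pow_le_pow_left₀ (abs_nonneg _) h2 2
    refine h6.trans ?_
    have h7 : (N ^ (d + 1) * S1) ^ 2 = N ^ (2 * (d + 1)) * S1 ^ 2 := by
      rw [mul_pow, ← pow_mul, mul_comm (d + 1) 2]
    rw [h7]
    apply mul_le_mul_of_nonneg_left _ (by positivity)
    exact hcs.trans (mul_le_mul_of_nonneg_right hLcard hE)
  have h8 : av c a r - av c' b r = (V' * A - V * B) / (V * V') := by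
    unfold av
    rw [← hA, ← hB, ← hVd, ← hVd']
    field_simp
  rw [h8, div_pow, div_mul_eq_mul_div, div_le_iff₀ (by positivity)]
  have h9 : ((N / 2) ^ d * (N / 2) ^ d) ^ 2 ≤ (V * V') ^ 2 := by
    apply pow_le_pow_left₀ (by positivity)
    exact mul_le_mul hVlow hVlow' (by positivity) hVpos.le
  have hexp : N ^ (2 * (d + 1)) * (d * (2 * N) ^ d * E) * N ^ (d - 2) =
      (d * 2 ^ (5 * d)) * E * ((N / 2) ^ d * (N / 2) ^ d) ^ 2 := by
    obtain ⟨k, rfl⟩ : ∃ k, d = k + 2 := ⟨d - 2, by omega⟩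
    have e1 : k + 2 - 2 = k := by omega
    rw [e1]
    have e2 : ((N / 2) ^ (k + 2) * (N / 2) ^ (k + 2)) ^ 2 = N ^ (4 * (k + 2)) / 2 ^ (4 * (k + 2)) := by
      rw [div_pow]
      rw [mul_pow, div_pow]
      rw [← pow_mul, ← pow_mul, div_mul_div_comm, ← pow_add, ← pow_add]
      congr 2 <;> ring
    rw [e2]
    have e3 : (2 : ℝ) ^ (5 * (k + 2)) = 2 ^ (4 * (k + 2)) * 2 ^ (k + 2) := by
      rw [← pow_add]; congr 1; ring
    rw [e3, mul_pow]
    have e4 : N ^ (4 * (k + 2)) = N ^ (2 * (k + 2 + 1)) * N ^ (k + 2) * N ^ k := by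
      rw [← pow_add, ← pow_add]; congr 1; ring
    rw [e4]
    have : (2 : ℝ) ^ (4 * (k + 2)) ≠ 0 := by positivity
    field_simp
  calc (V' * A - V * B) ^ 2 * N ^ (d - 2)
      ≤ N ^ (2 * (d + 1)) * (d * (2 * N) ^ d * E) * N ^ (d - 2) :=
        mul_le_mul_of_nonneg_right h5 (by positivity)
    _ = (d * 2 ^ (5 * d)) * E * ((N / 2) ^ d * (N / 2) ^ d) ^ 2 := hexp
    _ ≤ (d * 2 ^ (5 * d)) * E * (V * V') ^ 2 :=
        mul_le_mul_of_nonneg_left h9 (by positivity)

private theorem chain {f : ℕ → ℝ} {B : ℝ} (hB : 0 ≤ B) (J : ℕ)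
    (h : ∀ j < J, (f j - f (j + 1)) ^ 2 * 2 ^ j ≤ B) : |f 0 - f J| ≤ 4 * Real.sqrt B := by
  have h1 : ∀ j < J, |f j - f (j + 1)| ≤ Real.sqrt B * (3 / 4) ^ j := by
    intro j hj
    apply abs_le_of_sq_le_sq _ (by positivity)
    rw [mul_pow, Real.sq_sqrt hB, ← pow_mul, mul_comm j 2, pow_mul]
    have h2 : (1 : ℝ) ≤ 2 ^ j * ((3 / 4) ^ 2) ^ j := by
      rw [← mul_pow]
      apply one_le_pow₀
      norm_num
    calc (f j - f (j + 1)) ^ 2 ≤ (f j - f (j + 1)) ^ 2 * (2 ^ j * ((3 / 4) ^ 2) ^ j) :=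
          le_mul_of_one_le_right (sq_nonneg _) h2
      _ = (f j - f (j + 1)) ^ 2 * 2 ^ j * ((3 / 4) ^ 2) ^ j := by ring
      _ ≤ B * ((3 / 4) ^ 2) ^ j := mul_le_mul_of_nonneg_right (h j hj) (by positivity)
  have h3 : ∀ k ≤ J, |f 0 - f k| ≤ Real.sqrt B * (4 * (1 - (3 / 4) ^ k)) := by
    intro k
    induction k with
    | zero => intro _; simp
    | succ k ih =>
      intro hk
      calc |f 0 - f (k + 1)| = |(f 0 - f k) + (f k - f (k + 1))| := by ring_nf
        _ ≤ |f 0 - f k| + |f k - f (k + 1)| := abs_add_le _ _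
        _ ≤ Real.sqrt B * (4 * (1 - (3 / 4) ^ k)) + Real.sqrt B * (3 / 4) ^ k :=
            add_le_add (ih (by omega)) (h1 k (by omega))
        _ = Real.sqrt B * (4 * (1 - (3 / 4) ^ (k + 1))) := by ring
  refine (h3 J le_rfl).trans ?_
  rw [mul_comm]
  apply mul_le_mul_of_nonneg_right _ (Real.sqrt_nonneg _)
  have : (0 : ℝ) ≤ (3 / 4) ^ J := by positivity
  linarith

private theorem thick_sub {d : ℕ} (c c' : Pt d) {m n : ℕ} (h : m ≤ n) :
    thick c c' m ⊆ thick c c' n := by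
  unfold thick
  apply Finset.Icc_subset_Icc
  · intro i
    have : (m : ℤ) ≤ n := by exact_mod_cast h
    show min (c i) (c' i) - (n : ℤ) ≤ min (c i) (c' i) - (m : ℤ)
    linarith
  · intro i
    have : (m : ℤ) ≤ n := by exact_mod_cast h
    show max (c i) (c' i) + (m : ℤ) ≤ max (c i) (c' i) + (n : ℤ)
    linarith

private theorem thick_self_sub {d : ℕ} (c c' : Pt d) (n : ℕ) :
    thick c c n ⊆ thick c c' n := by
  unfold thick
  apply Finset.Icc_subset_Icc
  · intro i
    show min (c i) (c' i) - (n : ℤ) ≤ min (c i) (c i) - (n : ℤ)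
    rw [min_self]
    have := min_le_left (c i) (c' i)
    linarith
  · intro i
    show max (c i) (c i) + (n : ℤ) ≤ max (c i) (c' i) + (n : ℤ)
    rw [max_self]
    have := le_max_left (c i) (c' i)
    linarith

private theorem thick_comm {d : ℕ} (c c' : Pt d) (n : ℕ) : thick c c' n = thick c' c n := by
  unfold thick
  simp only [min_comm, max_comm]

/-- the dyadic chain of cubes around one centre -/
private theorem dyadic {d : ℕ} (hd : 3 ≤ d) (c : Pt d) {a ρ : ℕ} (ha : 1 ≤ a) (hρ : a ≤ ρ)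
    (r : Pt d → ℝ) {E : ℝ} (hE : En (thick c c (2 * ρ)) r ≤ E) :
    ∃ n : ℕ, n ≤ ρ ∧ ρ ≤ 2 * n ∧ a ≤ n ∧
      |av c a r - av c n r| ≤ 4 * Real.sqrt ((d * 2 ^ (5 * d)) * E / (a : ℝ) ^ (d - 2)) := by
  have hE0 : 0 ≤ E := (En_nonneg _ _).trans hE
  set J := Nat.log 2 (ρ / a) with hJ
  have hdiv : ρ / a ≠ 0 := by
    have := Nat.div_pos hρ ha
    omega
  have h1 : 2 ^ J ≤ ρ / a := Nat.pow_log_le_self 2 hdiv
  have h2 : ρ / a < 2 ^ (J + 1) := Nat.lt_pow_succ_log_self (by norm_num) _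
  have h3 : a * 2 ^ J ≤ ρ := by
    have := (Nat.le_div_iff_mul_le ha).1 h1
    linarith
  have h4 : ρ < 2 * (a * 2 ^ J) := by
    have := (Nat.div_lt_iff_lt_mul ha).1 h2
    rw [pow_succ] at this
    linarith
  refine ⟨a * 2 ^ J, h3, h4.le, Nat.le_mul_of_pos_right a (by positivity), ?_⟩
  have hapos : (0 : ℝ) < a := by exact_mod_cast ha
  have h5 := chain (f := fun j => av c (a * 2 ^ j) r)
    (B := (d * 2 ^ (5 * d)) * E / (a : ℝ) ^ (d - 2)) (by positivity) J ?_
  · simpa using h5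
  intro j hj
  have h6 : a * 2 ^ (j + 1) ≤ ρ := by
    refine le_trans ?_ h3
    apply Nat.mul_le_mul_left
    exact Nat.pow_le_pow_right (by norm_num) hj
  have h7 : a * 2 ^ (j + 1) = 2 * (a * 2 ^ j) := by rw [pow_succ]; ring
  have h8 := step hd (c := c) (c' := c) (a := a * 2 ^ j) (b := a * 2 ^ (j + 1))
    (m := a * 2 ^ (j + 1)) (max_eq_right (by omega)) (by omega) (by omega)
    (by intro i; rw [sub_self, abs_zero]; positivity) r
  have h9 : En (thick c c (a * 2 ^ (j + 1))) r ≤ E :=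
    (En_mono (thick_sub c c (by omega)) r).trans hE
  rw [le_div_iff₀ (by positivity)]
  have h10 : (2 : ℝ) ^ j * (a : ℝ) ^ (d - 2) ≤
      (2 * ((a * 2 ^ (j + 1) : ℕ) : ℝ) + 1) ^ (d - 2) := by
    calc (2 : ℝ) ^ j * (a : ℝ) ^ (d - 2) ≤ ((2 : ℝ) ^ j) ^ (d - 2) * (a : ℝ) ^ (d - 2) := by
          apply mul_le_mul_of_nonneg_right _ (by positivity)
          exact le_self_pow₀ (one_le_pow₀ (by norm_num)) (by omega)
      _ = (2 ^ j * (a : ℝ)) ^ (d - 2) := by rw [mul_pow]
      _ ≤ _ := by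
          apply pow_le_pow_left₀ (by positivity)
          rw [h7]
          push_cast
          have : (0 : ℝ) ≤ 2 ^ j * a := by positivity
          linarith
  calc (av c (a * 2 ^ j) r - av c (a * 2 ^ (j + 1)) r) ^ 2 * 2 ^ j * (a : ℝ) ^ (d - 2)
      = (av c (a * 2 ^ j) r - av c (a * 2 ^ (j + 1)) r) ^ 2 * (2 ^ j * (a : ℝ) ^ (d - 2)) := by ring
    _ ≤ _ := mul_le_mul_of_nonneg_left h10 (sq_nonneg _)
    _ ≤ _ := h8
    _ ≤ _ := mul_le_mul_of_nonneg_left h9 (by positivity)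

/-- capacity estimate: `d ≥ 3` -/
theorem qflow {d : ℕ} (hd : 3 ≤ d) :
    ∃ C : ℝ, 0 < C ∧ ∀ (c c' : Pt d) (a b ρ : ℕ), 1 ≤ a → 1 ≤ b → a ≤ ρ → b ≤ ρ →
      (∀ i, |c i - c' i| ≤ ρ) → ∀ r : Pt d → ℝ,
      ((∑ x ∈ cube c a, r x) / (cube c a).card - (∑ x ∈ cube c' b, r x) / (cube c' b).card) ^ 2 *
          (min a b : ℕ) ^ (d - 2) ≤
        C * ∑ e ∈ lat (thick c c' (2 * ρ)), (r e.1 - r e.2) ^ 2 := by
  have hdpos : (0 : ℝ) < d := by exact_mod_cast (by omega : 0 < d)
  refine ⟨81 * (d * 2 ^ (5 * d)), by positivity, ?_⟩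
  intro c c' a b ρ ha hb haρ hbρ hc r
  set E : ℝ := En (thick c c' (2 * ρ)) r with hE
  have hE0 : 0 ≤ E := En_nonneg _ _
  obtain ⟨n, hn1, hn2, hn3, hn4⟩ := dyadic hd c ha haρ r (E := E)
    (En_mono (thick_self_sub c c' _) r)
  obtain ⟨k, hk1, hk2, hk3, hk4⟩ := dyadic hd c' hb hbρ r (E := E)
    (by rw [hE, thick_comm c c']; exact En_mono (thick_self_sub c' c _) r)
  have hmid := step hd (c := c) (c' := c') (a := n) (b := k) (m := max n k) rfl
    (by rw [max_le_iff]; omega) (by rw [max_le_iff]; omega)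
    (by
      intro i
      refine (hc i).trans ?_
      have h1 : ρ ≤ 2 * max n k := hn2.trans (Nat.mul_le_mul_left 2 (le_max_left _ _))
      exact_mod_cast h1) r
  have hEmid : En (thick c c' (max n k)) r ≤ E :=
    En_mono (thick_sub c c' ((max_le hn1 hk1).trans (by omega))) r
  set K : ℝ := (d * 2 ^ (5 * d)) * E with hK
  have hc0 : (0 : ℝ) ≤ d * 2 ^ (5 * d) := mul_nonneg hdpos.le (pow_nonneg (by norm_num) _)
  have hK0 : 0 ≤ K := mul_nonneg hc0 hE0
  set M : ℝ := ((min a b : ℕ) : ℝ) ^ (d - 2) with hM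
  have hmin : 1 ≤ min a b := le_min ha hb
  have hminr : (1 : ℝ) ≤ ((min a b : ℕ) : ℝ) := by exact_mod_cast hmin
  have hMpos : 0 < M := pow_pos (by linarith) _
  set s := Real.sqrt (K / M) with hs
  have hs0 : 0 ≤ s := Real.sqrt_nonneg _
  have hA : Real.sqrt (K / (a : ℝ) ^ (d - 2)) ≤ s := by
    apply Real.sqrt_le_sqrt
    apply div_le_div_of_nonneg_left hK0 hMpos
    apply pow_le_pow_left₀ (by positivity)
    exact_mod_cast min_le_left a b
  have hB : Real.sqrt (K / (b : ℝ) ^ (d - 2)) ≤ s := by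
    apply Real.sqrt_le_sqrt
    apply div_le_div_of_nonneg_left hK0 hMpos
    apply pow_le_pow_left₀ (by positivity)
    exact_mod_cast min_le_right a b
  have hC : |av c n r - av c' k r| ≤ s := by
    apply Real.abs_le_sqrt
    rw [le_div_iff₀ hMpos]
    calc (av c n r - av c' k r) ^ 2 * M
        ≤ (av c n r - av c' k r) ^ 2 * (2 * ((max n k : ℕ) : ℝ) + 1) ^ (d - 2) := by
          apply mul_le_mul_of_nonneg_left _ (sq_nonneg _)
          apply pow_le_pow_left₀ (by positivity)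
          have h1 : min a b ≤ max n k := (min_le_left _ _).trans (hn3.trans (le_max_left _ _))
          have h2 : ((min a b : ℕ) : ℝ) ≤ ((max n k : ℕ) : ℝ) := by exact_mod_cast h1
          have h3 : (0 : ℝ) ≤ ((max n k : ℕ) : ℝ) := by positivity
          linarith
      _ ≤ _ := hmid
      _ ≤ K := mul_le_mul_of_nonneg_left hEmid hc0
  have htot : |av c a r - av c' b r| ≤ 9 * s := by
    calc |av c a r - av c' b r|
        = |(av c a r - av c n r) + (av c n r - av c' k r) + -(av c' b r - av c' k r)| := by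
          congr 1; ring
      _ ≤ |av c a r - av c n r| + |av c n r - av c' k r| + |av c' b r - av c' k r| := by
          have h1 := abs_add_le ((av c a r - av c n r) + (av c n r - av c' k r))
            (-(av c' b r - av c' k r))
          have h2 := abs_add_le (av c a r - av c n r) (av c n r - av c' k r)
          rw [abs_neg] at h1
          linarith
      _ ≤ 4 * s + s + 4 * s := by
          have h1 := hn4
          have h2 := hk4
          linarith
      _ = 9 * s := by ring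
  have hsq : (av c a r - av c' b r) ^ 2 ≤ 81 * (K / M) := by
    rw [← sq_abs]
    calc |av c a r - av c' b r| ^ 2 ≤ (9 * s) ^ 2 := pow_le_pow_left₀ (abs_nonneg _) htot 2
      _ = 81 * s ^ 2 := by ring
      _ = 81 * (K / M) := by rw [hs, Real.sq_sqrt (div_nonneg hK0 hMpos.le)]
  have hfin : (av c a r - av c' b r) ^ 2 * M ≤ 81 * (d * 2 ^ (5 * d)) * E := by
    calc (av c a r - av c' b r) ^ 2 * M ≤ 81 * (K / M) * M :=
          mul_le_mul_of_nonneg_right hsq hMpos.le
      _ = 81 * K := by field_simp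
      _ = 81 * (d * 2 ^ (5 * d)) * E := by rw [hK]; ring
  exact hfin

end FKB
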