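import Pool.Agent.FKQ.Defs

open Finset
noncomputable section
namespace FKB

variable {G : Type*} [AddCommGroup G] [Fintype G]

/-- real or imaginary part -/
private def gin_T (t : AddChar G ℂ × Bool) (c : G) : ℝ :=
  if t.2 then (t.1 c).re else (t.1 c).im

private def gin_s (l : List (AddChar G ℂ × Bool)) : ℝ :=
  (l.map (fun t => if t.2 then (1 : ℝ) else -1)).prod

private def gin_P (l : List (AddChar G ℂ × Bool)) (c : G) : ℝ :=
  (l.map (fun t => gin_T t c)).prod

private lemma gin_norm (ψ : AddChar G ℂ) (a : G) :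
    (ψ a).re * (ψ a).re + (ψ a).im * (ψ a).im = 1 := by
  rw [← Complex.normSq_apply, Complex.normSq_eq_norm_sq, AddChar.norm_apply]; norm_num

private lemma gin_gen_eq (t : AddChar G ℂ × Bool) (ab : G × G) :
    gen t ab = (if t.2 then (1 : ℝ) else -1) * 2 * gin_T t (ab.1 + ab.2) *
      gin_T t (ab.1 - ab.2) := by
  obtain ⟨ψ, ε⟩ := t
  obtain ⟨a, b⟩ := ab
  have ha := gin_norm ψ a
  have hb := gin_norm ψ b
  have hb' : ψ (-b) = (starRingEnd ℂ) (ψ b) := AddChar.map_neg_eq_conj ψ b
  cases ε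
  · simp only [gen, gf, gin_T, sub_eq_add_neg, AddChar.map_add_eq_mul, hb', Complex.mul_re,
      Complex.mul_im, Complex.conj_re, Complex.conj_im]
    simp only [Bool.false_eq_true, if_false]
    linear_combination (2 * (ψ b).re ^ 2 - 1) * ha + (1 - 2 * (ψ a).re ^ 2) * hb
  · simp only [gen, gf, gin_T, sub_eq_add_neg, AddChar.map_add_eq_mul, hb', Complex.mul_re,
      Complex.mul_im, Complex.conj_re, Complex.conj_im]
    simp only [if_true]
    linear_combination (2 * (ψ b).im ^ 2 - 1) * ha + (1 - 2 * (ψ a).re ^ 2) * hb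

private lemma gin_prod_eq (l : List (AddChar G ℂ × Bool)) (ab : G × G) :
    (l.map (fun t => gen t ab)).prod =
      gin_s l * 2 ^ l.length * gin_P l (ab.1 + ab.2) * gin_P l (ab.1 - ab.2) := by
  induction l with
  | nil => simp [gin_s, gin_P]
  | cons t l ih =>
    simp only [List.map_cons, List.prod_cons, ih, gin_gen_eq t ab, gin_s, gin_P,
      List.length_cons, pow_succ]
    ring

omit [Fintype G] in
private lemma gin_swap_eq (l : List (AddChar G ℂ × Bool)) (ab : G × G) :
    (l.map (fun t => gen t ab.swap)).prod = gin_s l * (l.map (fun t => gen t ab)).prod := by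
  induction l with
  | nil => simp [gin_s]
  | cons t l ih =>
    have h1 : gen t ab.swap = (if t.2 then (1 : ℝ) else -1) * gen t ab := by
      unfold gen
      split_ifs <;> simp [add_comm]
    simp only [List.map_cons, List.prod_cons, ih, h1, gin_s]
    ring

omit [Fintype G] in
private lemma gin_s_cases (l : List (AddChar G ℂ × Bool)) : gin_s l = 1 ∨ gin_s l = -1 := by
  induction l with
  | nil => simp [gin_s]
  | cons t l ih =>
    simp only [gin_s, List.map_cons, List.prod_cons] at ih ⊢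
    split_ifs
    · simpa using ih
    · rcases ih with h | h
      · right; rw [h]; norm_num
      · left; rw [h]; norm_num

private lemma gin_sum_nonneg_T (T : G → ℝ) :
    0 ≤ ∑ ab : G × G, T (ab.1 + ab.2) * T (ab.1 - ab.2) := by
  have h1 : (Fintype.card G : ℝ) * ∑ ab : G × G, T (ab.1 + ab.2) * T (ab.1 - ab.2) =
      ∑ c : G, (∑ g : G, T (c - g - g)) ^ 2 := by
    have h2 : ∀ g : G, ∑ ab : G × G, T (ab.1 + ab.2) * T (ab.1 - ab.2) =
        ∑ ch : G × G, T (ch.1 - g - g) * T (ch.1 - ch.2 - ch.2) := by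
      intro g
      symm
      refine Fintype.sum_equiv
        { toFun := fun ch => (ch.1 - g - ch.2, ch.2 - g)
          invFun := fun ab => (ab.1 + g + (ab.2 + g), ab.2 + g)
          left_inv := fun ch => by
            ext
            · simp only []; abel
            · simp
          right_inv := fun ab => by
            ext
            · simp only []; abel
            · simp } _ _ ?_
      intro ch
      simp only [Equiv.coe_fn_mk]
      congr 2
      · abel
      · abel
    calc (Fintype.card G : ℝ) * ∑ ab : G × G, T (ab.1 + ab.2) * T (ab.1 - ab.2)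
        = ∑ _g : G, ∑ ab : G × G, T (ab.1 + ab.2) * T (ab.1 - ab.2) := by
          rw [Finset.sum_const, Finset.card_univ, nsmul_eq_mul]
      _ = ∑ g : G, ∑ ch : G × G, T (ch.1 - g - g) * T (ch.1 - ch.2 - ch.2) :=
          Finset.sum_congr rfl fun g _ => h2 g
      _ = ∑ g : G, ∑ c : G, ∑ h : G, T (c - g - g) * T (c - h - h) := by
          refine Finset.sum_congr rfl fun g _ => ?_
          rw [Fintype.sum_prod_type]
      _ = ∑ c : G, ∑ g : G, ∑ h : G, T (c - g - g) * T (c - h - h) := Finset.sum_comm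
      _ = ∑ c : G, (∑ g : G, T (c - g - g)) ^ 2 := by
          refine Finset.sum_congr rfl fun c _ => ?_
          rw [sq, Finset.sum_mul_sum]
  have h3 : 0 ≤ (Fintype.card G : ℝ) * ∑ ab : G × G, T (ab.1 + ab.2) * T (ab.1 - ab.2) := by
    rw [h1]
    exact Finset.sum_nonneg fun c _ => sq_nonneg _
  have h4 : (0 : ℝ) < Fintype.card G := by
    have : Nonempty G := ⟨0⟩
    exact_mod_cast Fintype.card_pos
  exact nonneg_of_mul_nonneg_right h3 h4

private lemma gin_odd_list (l : List (AddChar G ℂ × Bool)) (F : G → ℝ)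
    (hF : ∀ g, F (-g) = -F g) :
    0 ≤ ∑ ab : G × G, -(F (ab.1 + ab.2) * F (ab.1 - ab.2)) *
      (l.map (fun t => gen t ab)).prod := by
  rcases gin_s_cases l with h | h
  · have h1 : ∑ ab : G × G, -(F (ab.1 + ab.2) * F (ab.1 - ab.2)) *
        (l.map (fun t => gen t ab)).prod =
        - ∑ ab : G × G, -(F (ab.1 + ab.2) * F (ab.1 - ab.2)) *
          (l.map (fun t => gen t ab)).prod := by
      conv_lhs => rw [← Equiv.sum_comp (Equiv.prodComm G G)]
      rw [← Finset.sum_neg_distrib]
      refine Finset.sum_congr rfl fun ab _ => ?_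
      rw [Equiv.coe_prodComm, gin_swap_eq, h]
      have e1 : ab.swap.1 + ab.swap.2 = ab.1 + ab.2 := by
        simp only [Prod.fst_swap, Prod.snd_swap]; abel
      have e2 : ab.swap.1 - ab.swap.2 = -(ab.1 - ab.2) := by
        simp only [Prod.fst_swap, Prod.snd_swap]; abel
      rw [e1, e2, hF]
      ring
    linarith
  · have h1 : ∑ ab : G × G, -(F (ab.1 + ab.2) * F (ab.1 - ab.2)) *
        (l.map (fun t => gen t ab)).prod =
        2 ^ l.length * ∑ ab : G × G, (fun c => F c * gin_P l c) (ab.1 + ab.2) *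
          (fun c => F c * gin_P l c) (ab.1 - ab.2) := by
      rw [Finset.mul_sum]
      refine Finset.sum_congr rfl fun ab _ => ?_
      rw [gin_prod_eq, h]
      ring
    rw [h1]
    have h2 := gin_sum_nonneg_T (fun c => F c * gin_P l c)
    have h3 : (0 : ℝ) ≤ 2 ^ l.length := by positivity
    exact mul_nonneg h3 h2

/-- odd functions in the half variables: the opposite sign (products with an odd number of minus
signs survive) -/
theorem gin_odd {W : G × G → ℝ} (hW : GP W) (F : G → ℝ) (hF : ∀ g, F (-g) = -F g) :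
    0 ≤ ∑ ab : G × G, -(F (ab.1 + ab.2) * F (ab.1 - ab.2)) * W ab := by
  have hcl : IsClosed {W : G × G → ℝ |
      0 ≤ ∑ ab : G × G, -(F (ab.1 + ab.2) * F (ab.1 - ab.2)) * W ab} := by
    have hc : ∀ ab : G × G, Continuous (fun W : G × G → ℝ =>
        -(F (ab.1 + ab.2) * F (ab.1 - ab.2)) * W ab) := by
      intro ab
      generalize -(F (ab.1 + ab.2) * F (ab.1 - ab.2)) = z
      fun_prop
    exact isClosed_le continuous_const (continuous_finsetSum _ fun ab _ => hc ab)
  refine closure_minimal ?_ hcl hW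
  intro W hW
  change 0 ≤ ∑ ab : G × G, -(F (ab.1 + ab.2) * F (ab.1 - ab.2)) * W ab
  induction hW using Submodule.span_induction with
  | mem x hx =>
    obtain ⟨l, rfl⟩ := hx
    exact gin_odd_list l F hF
  | zero => simp
  | add x y _ _ hx hy =>
    simp only [Pi.add_apply, mul_add, Finset.sum_add_distrib]
    exact add_nonneg hx hy
  | smul c x _ hx =>
    have e : ∑ ab : G × G, -(F (ab.1 + ab.2) * F (ab.1 - ab.2)) * (c • x) ab =
        (c : ℝ) * ∑ ab : G × G, -(F (ab.1 + ab.2) * F (ab.1 - ab.2)) * x ab := by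
      rw [Finset.mul_sum]
      refine Finset.sum_congr rfl fun ab _ => ?_
      simp only [Pi.smul_apply, NNReal.smul_def, smul_eq_mul]
      ring
    rw [e]
    exact mul_nonneg c.2 hx

private lemma gin_cross (ψ χ : AddChar G ℂ) (c d : G) :
    ((ψ * χ⁻¹) c).im * ((ψ * χ) d).im + ((ψ * χ) c).im * ((ψ * χ⁻¹) d).im =
      (ψ (c - d)).re * (χ (c + d)).re - (ψ (c + d)).re * (χ (c - d)).re := by
  simp only [sub_eq_add_neg, AddChar.map_add_eq_mul, AddChar.mul_apply,
    AddChar.inv_apply, AddChar.map_neg_eq_conj, Complex.mul_re,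
    Complex.mul_im, Complex.conj_re, Complex.conj_im]
  ring

/-- Cauchy-Schwarz form of the Ginibre inequality -/
theorem gin_cs {W : G × G → ℝ} (hW : GP W) (ψ χ : AddChar G ℂ) :
    (∑ ab : G × G, (gf ψ ab.1 * gf χ ab.2 - gf ψ ab.2 * gf χ ab.1) * W ab) ^ 2 ≤
      (∑ ab : G × G, (gf (ψ * χ⁻¹) ab.1 - gf (ψ * χ⁻¹) ab.2) * W ab) *
        (∑ ab : G × G, (gf (ψ * χ) ab.1 - gf (ψ * χ) ab.2) * W ab) := by
  have key : ∀ t : ℝ, 0 ≤
      (1 / 2 * ∑ ab : G × G, (gf (ψ * χ) ab.1 - gf (ψ * χ) ab.2) * W ab) * (t * t) +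
      (∑ ab : G × G, (gf ψ ab.1 * gf χ ab.2 - gf ψ ab.2 * gf χ ab.1) * W ab) * t +
      1 / 2 * ∑ ab : G × G, (gf (ψ * χ⁻¹) ab.1 - gf (ψ * χ⁻¹) ab.2) * W ab := by
    intro t
    have h := gin_odd hW (fun c => ((ψ * χ⁻¹) c).im + t * ((ψ * χ) c).im) (by
      intro g
      simp only [AddChar.map_neg_eq_conj, Complex.conj_im]
      ring)
    refine h.trans (le_of_eq ?_)
    rw [Finset.mul_sum, Finset.mul_sum, Finset.sum_mul, Finset.sum_mul,
      ← Finset.sum_add_distrib, ← Finset.sum_add_distrib]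
    refine Finset.sum_congr rfl fun ab _ => ?_
    obtain ⟨a, b⟩ := ab
    have key2 : -(((fun c => ((ψ * χ⁻¹) c).im + t * ((ψ * χ) c).im) (a + b)) *
        ((fun c => ((ψ * χ⁻¹) c).im + t * ((ψ * χ) c).im) (a - b))) =
        1 / 2 * (gf (ψ * χ) a - gf (ψ * χ) b) * (t * t) +
        (gf ψ a * gf χ b - gf ψ b * gf χ a) * t +
        1 / 2 * (gf (ψ * χ⁻¹) a - gf (ψ * χ⁻¹) b) := by
      have e1 := gin_gen_eq (ψ * χ⁻¹, false) (a, b)
      have e2 := gin_gen_eq (ψ * χ, false) (a, b)
      simp only [gen, gin_T, Bool.false_eq_true, if_false] at e1 e2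
      have e3 := gin_cross ψ χ (a + b) (a - b)
      have ea : a + b + (a - b) = a + a := by abel
      have eb : a + b - (a - b) = b + b := by abel
      rw [ea, eb] at e3
      simp only [gf] at e1 e2 ⊢
      linear_combination (-1 / 2) * e1 - t ^ 2 / 2 * e2 - t * e3
    have : (-(((fun c => ((ψ * χ⁻¹) c).im + t * ((ψ * χ) c).im) (a + b)) *
        ((fun c => ((ψ * χ⁻¹) c).im + t * ((ψ * χ) c).im) (a - b)))) * W (a, b) =
        1 / 2 * ((gf (ψ * χ) a - gf (ψ * χ) b) * W (a, b)) * (t * t) +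
        (gf ψ a * gf χ b - gf ψ b * gf χ a) * W (a, b) * t +
        1 / 2 * ((gf (ψ * χ⁻¹) a - gf (ψ * χ⁻¹) b) * W (a, b)) := by
      rw [key2]; ring
    exact this
  have hd := discrim_le_zero key
  rw [discrim] at hd
  linarith only [hd]

end FKB
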