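import Pool.Agent.FKQ.Defs
import Pool.Agent.FKB.Basic

/-!
Edwards–Sokal representation for the spin models with spins in `ZMod (2 q)`.
-/

open Finset
noncomputable section
namespace FKB

variable {V : Type*} [DecidableEq V] {q : ℕ} [NeZero q]

/-! Tools -/

private lemma Rep_two_sol : (∑ u : ZMod (2 * q), ind (2 * u = 0)) = 2 := by
  classical
  have h1 : (∑ u : ZMod (2 * q), ind (2 * u = 0)) =
      ((univ.filter (fun u : ZMod (2 * q) => 2 * u = 0)).card : ℝ) := by
    rw [Finset.card_filter]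
    push_cast
    refine Finset.sum_congr rfl fun u _ => ?_
    by_cases h : 2 * u = 0 <;> simp [ind, h]
  rw [h1]
  have h2 : univ.filter (fun u : ZMod (2 * q) => 2 * u = 0) =
      (Finset.range 2).image (fun i : ℕ => ((i * q : ℕ) : ZMod (2 * q))) := by
    ext u
    simp only [Finset.mem_filter, Finset.mem_univ, true_and, Finset.mem_image, Finset.mem_range]
    constructor
    · intro h
      have h3 : ((u.val : ℕ) : ZMod (2 * q)) = u := ZMod.natCast_zmod_val u
      rw [← h3] at h
      have h4 : ((2 * u.val : ℕ) : ZMod (2 * q)) = 0 := by push_cast; exact h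
      rw [ZMod.natCast_eq_zero_iff] at h4
      have h5 : q ∣ u.val := Nat.dvd_of_mul_dvd_mul_left (by norm_num) h4
      obtain ⟨c, hc⟩ := h5
      refine ⟨c, ?_, ?_⟩
      · have h6 : u.val < 2 * q := ZMod.val_lt u
        rw [hc, mul_comm q c] at h6
        exact lt_of_mul_lt_mul_right h6 (Nat.zero_le q)
      · rw [mul_comm c q, ← hc]; exact h3
    · rintro ⟨i, _, rfl⟩
      have h4 : ((2 * (i * q) : ℕ) : ZMod (2 * q)) = 0 := by
        rw [ZMod.natCast_eq_zero_iff]
        exact ⟨i, by ring⟩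
      push_cast at h4
      push_cast
      exact h4
  rw [h2, Finset.card_image_of_injOn]
  · simp
  · intro i hi j hj hij
    simp only [Finset.coe_range, Set.mem_Iio] at hi hj
    have hk : 0 < q := Nat.pos_of_ne_zero (NeZero.ne q)
    have h3 : (i * q) % (2 * q) = (j * q) % (2 * q) := (ZMod.natCast_eq_natCast_iff' _ _ _).1 hij
    rw [Nat.mod_eq_of_lt (Nat.mul_lt_mul_of_pos_right hi hk),
      Nat.mod_eq_of_lt (Nat.mul_lt_mul_of_pos_right hj hk)] at h3
    exact Nat.eq_of_mul_eq_mul_right hk h3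

private lemma Rep_sum_s (c : ZMod (2 * q)) (g : ZMod (2 * q) → ℝ) :
    ∑ s : ZMod (2 * q), ind (2 * (s - c) = 0) * g (2 * s) = 2 * g (2 * c) := by
  have h : ∀ s : ZMod (2 * q), ind (2 * (s - c) = 0) * g (2 * s) =
      ind (2 * (s - c) = 0) * g (2 * c) := by
    intro s
    by_cases hs : 2 * (s - c) = 0
    · have : 2 * s = 2 * c := by
        have h1 : 2 * s - 2 * c = 0 := by rw [← mul_sub]; exact hs
        exact sub_eq_zero.1 h1
      rw [this]
    · rw [ind_false hs, zero_mul, zero_mul]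
  rw [Finset.sum_congr rfl fun s _ => h s, ← Finset.sum_mul]
  congr 1
  rw [← Rep_two_sol (q := q), ← Equiv.sum_comp (Equiv.subRight c)
    (fun u : ZMod (2 * q) => ind (2 * u = 0))]
  rfl

private lemma Rep_sum_s' (c : ZMod (2 * q)) :
    ∑ s : ZMod (2 * q), ind (2 * (c - s) = 0) = 2 := by
  rw [← Rep_two_sol (q := q), ← Equiv.sum_comp (Equiv.subLeft c)
    (fun u : ZMod (2 * q) => ind (2 * u = 0))]
  rfl

private lemma Rep_prod_ind {ι : Type*} (s : Finset ι) (p : ι → Prop) :
    ∏ i ∈ s, ind (p i) = ind (∀ i ∈ s, p i) := by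
  by_cases h : ∀ i ∈ s, p i
  · rw [ind_true h]
    exact Finset.prod_eq_one fun i hi => ind_true (h i hi)
  · rw [ind_false h]
    push Not at h
    obtain ⟨i, hi, h⟩ := h
    exact Finset.prod_eq_zero hi (ind_false h)

private lemma Rep_sum_prod {ι κ : Type*} [Fintype ι] [DecidableEq ι] [Fintype κ]
    (g : ι → κ → ℝ) : ∑ t : ι → κ, ∏ i, g i (t i) = ∏ i, ∑ s, g i s := by
  rw [Finset.prod_univ_sum, Fintype.piFinset_univ]

/-- the spin configuration is constant (up to the kernel of doubling) on the edges -/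
def Rep_CmpQ (q : ℕ) [NeZero q] (A : Finset (V × V)) (S : Finset V) (a : Sp q S) : Prop :=
  ∀ e ∈ A, 2 * (ex q S e.1 a - ex q S e.2 a) = 0

theorem Rep_prod_dq (A : Finset (V × V)) (S : Finset V) (a : Sp q S) :
    (∏ e ∈ A, dq q S e a) = ind (Rep_CmpQ q A S a) := by
  unfold dq
  exact Rep_prod_ind A _

theorem Rep_CmpQ.conn {A : Finset (V × V)} {S : Finset V} {a : Sp q S} (h : Rep_CmpQ q A S a) {x y : V}
    (hxy : Conn A x y) : 2 * (ex q S x a - ex q S y a) = 0 := by
  have := (hxy.inv (fun v => 2 * (ex q S x a - ex q S v a) = 0) (fun e he => by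
    have h1 := h e he
    constructor
    · intro h2
      have : 2 * (ex q S x a - ex q S e.2 a) = 2 * (ex q S x a - ex q S e.1 a) +
          2 * (ex q S e.1 a - ex q S e.2 a) := by ring
      rw [this, h1, h2, add_zero]
    · intro h2
      have : 2 * (ex q S x a - ex q S e.1 a) = 2 * (ex q S x a - ex q S e.2 a) -
          2 * (ex q S e.1 a - ex q S e.2 a) := by ring
      rw [this, h1, h2, sub_zero])).1 (by simp)
  exact this

omit [NeZero q] in
theorem Rep_ex_coe {S : Finset V} (x : S) (a : Sp q S) : ex q S x a = a x := by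
  unfold ex
  rw [dif_pos x.2]

omit [NeZero q] in
theorem Rep_ex_add {S : Finset V} (x : V) (a b : Sp q S) :
    ex q S x (a + b) = ex q S x a + ex q S x b := by
  unfold ex
  split_ifs <;> simp

section
variable (A : Finset (V × V)) (S : Finset V)

/-- the cluster of a point of `S` -/
private def cx (x : S) : {C : Finset V // C ∈ clusters A S} := ⟨cl A S x, self_mem_clusters x.2⟩

private lemma cx_surj (C : {C : Finset V // C ∈ clusters A S}) : ∃ x : S, cx A S x = C := by
  obtain ⟨x, hx, h⟩ := Finset.mem_image.1 C.2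
  exact ⟨⟨x, hx⟩, Subtype.ext h⟩

private lemma cx_eq_iff (x y : S) : cx A S x = cx A S y ↔ Conn A x y := by
  rw [← cl_eq_iff (A := A) (S := S) x.2]
  exact Subtype.ext_iff

private lemma sum_cx (f : V → ℝ) (C : {C : Finset V // C ∈ clusters A S}) :
    ∑ x : S, (if cx A S x = C then f x else 0) = ∑ x ∈ C.1, f x := by
  classical
  rw [← Finset.sum_filter]
  obtain ⟨x0, hx0⟩ := cx_surj A S C
  subst hx0
  refine Finset.sum_bij (fun x _ => (x : V)) ?_ ?_ ?_ ?_
  · intro x hx
    rw [Finset.mem_filter] at hx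
    exact mem_cl.2 ⟨x.2, ((cx_eq_iff A S x x0).1 hx.2).symm'⟩
  · intro x _ y _ h
    exact Subtype.ext h
  · intro y hy
    obtain ⟨h1, h2⟩ := mem_cl.1 hy
    refine ⟨⟨y, h1⟩, ?_, rfl⟩
    rw [Finset.mem_filter]
    exact ⟨Finset.mem_univ _, (cx_eq_iff A S _ x0).2 h2.symm'⟩
  · intro x _
    rfl

private lemma sum_field (h : V → ℝ) (t : {C : Finset V // C ∈ clusters A S} → ZMod (2 * q)) :
    ∑ x : S, h x * ch q (2 * t (cx A S x)) =
      ∑ C : {C : Finset V // C ∈ clusters A S}, (∑ x ∈ C.1, h x) * ch q (2 * t C) := by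
  classical
  have h1 : ∀ C : {C : Finset V // C ∈ clusters A S}, (∑ x ∈ C.1, h x) * ch q (2 * t C) =
      ∑ x : S, (if cx A S x = C then h x * ch q (2 * t (cx A S x)) else 0) := by
    intro C
    rw [← sum_cx A S h C, Finset.sum_mul]
    refine Finset.sum_congr rfl fun x _ => ?_
    by_cases hx : cx A S x = C
    · rw [if_pos hx, if_pos hx, hx]
    · rw [if_neg hx, if_neg hx, zero_mul]
  rw [Finset.sum_congr rfl fun C _ => h1 C, Finset.sum_comm]
  refine Finset.sum_congr rfl fun x _ => ?_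
  rw [Finset.sum_ite_eq]
  simp

private lemma side_two (h : V → ℝ) (t : {C : Finset V // C ∈ clusters A S} → ZMod (2 * q)) :
    ∑ a : Sp q S, (∏ x : S, ind (2 * (a x - t (cx A S x)) = 0)) *
      Real.exp (∑ x : S, h x * ch q (2 * a x)) =
    2 ^ S.card * ∏ C : {C : Finset V // C ∈ clusters A S},
      Real.exp ((∑ x ∈ C.1, h x) * ch q (2 * t C)) := by
  classical
  have h1 : ∀ a : Sp q S, (∏ x : S, ind (2 * (a x - t (cx A S x)) = 0)) *
      Real.exp (∑ x : S, h x * ch q (2 * a x)) =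
      ∏ x : S, (ind (2 * (a x - t (cx A S x)) = 0) * Real.exp (h x * ch q (2 * a x))) := by
    intro a
    rw [Real.exp_sum, Finset.prod_mul_distrib]
  rw [Finset.sum_congr rfl fun a _ => h1 a]
  rw [Rep_sum_prod (fun (x : S) (s : ZMod (2 * q)) =>
    ind (2 * (s - t (cx A S x)) = 0) * Real.exp (h x * ch q (2 * s)))]
  have h2 : ∀ x : S, ∑ s : ZMod (2 * q), ind (2 * (s - t (cx A S x)) = 0) *
      Real.exp (h x * ch q (2 * s)) = 2 * Real.exp (h x * ch q (2 * t (cx A S x))) := fun x =>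
    Rep_sum_s (t (cx A S x)) (fun u => Real.exp (h x * ch q u))
  rw [Finset.prod_congr rfl fun x _ => h2 x, Finset.prod_mul_distrib, Finset.prod_const,
    Finset.card_univ, Fintype.card_coe, ← Real.exp_sum, sum_field, Real.exp_sum]

private lemma side_one (hA : Verts A S) (a : Sp q S) :
    ∑ t : {C : Finset V // C ∈ clusters A S} → ZMod (2 * q),
      (∏ x : S, ind (2 * (a x - t (cx A S x)) = 0)) =
    2 ^ (clusters A S).card * ind (Rep_CmpQ q A S a) := by
  classical
  have h1 : ∀ t : {C : Finset V // C ∈ clusters A S} → ZMod (2 * q),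
      (∏ x : S, ind (2 * (a x - t (cx A S x)) = 0)) =
      ∏ C : {C : Finset V // C ∈ clusters A S},
        ind (∀ x : S, cx A S x = C → 2 * (a x - t C) = 0) := by
    intro t
    rw [Rep_prod_ind, Rep_prod_ind]
    apply ind_congr
    constructor
    · intro h C _ x hx
      rw [← hx]
      exact h x (Finset.mem_univ _)
    · intro h x _
      exact h (cx A S x) (Finset.mem_univ _) x rfl
  rw [Finset.sum_congr rfl fun t _ => h1 t]
  rw [Rep_sum_prod (fun (C : {C : Finset V // C ∈ clusters A S}) (s : ZMod (2 * q)) =>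
    ind (∀ x : S, cx A S x = C → 2 * (a x - s) = 0))]
  by_cases hc : Rep_CmpQ q A S a
  · rw [ind_true hc, mul_one]
    have h2 : ∀ C : {C : Finset V // C ∈ clusters A S},
        ∑ s : ZMod (2 * q), ind (∀ x : S, cx A S x = C → 2 * (a x - s) = 0) = 2 := by
      intro C
      obtain ⟨x0, rfl⟩ := cx_surj A S C
      rw [← Rep_sum_s' (q := q) (a x0)]
      refine Finset.sum_congr rfl fun s _ => ind_congr ?_
      constructor
      · intro h
        exact h x0 rfl
      · intro h x hx
        have h3 := hc.conn ((cx_eq_iff A S x x0).1 hx)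
        rw [Rep_ex_coe, Rep_ex_coe] at h3
        have : 2 * (a x - s) = 2 * (a x - a x0) + 2 * (a x0 - s) := by ring
        rw [this, h3, h, add_zero]
    rw [Finset.prod_congr rfl fun C _ => h2 C, Finset.prod_const, Finset.card_univ,
      Fintype.card_coe]
  · rw [ind_false hc, mul_zero]
    by_contra hne
    apply hc
    have h2 : ∀ C : {C : Finset V // C ∈ clusters A S},
        ∃ s : ZMod (2 * q), ∀ x : S, cx A S x = C → 2 * (a x - s) = 0 := by
      intro C
      by_contra hC
      push Not at hC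
      apply hne
      apply Finset.prod_eq_zero (Finset.mem_univ C)
      refine Finset.sum_eq_zero fun s _ => ind_false ?_
      push Not
      exact hC s
    intro e he
    obtain ⟨he1, he2⟩ := hA e he
    obtain ⟨s, hs⟩ := h2 (cx A S ⟨e.1, he1⟩)
    have h3 := hs ⟨e.1, he1⟩ rfl
    have h4 := hs ⟨e.2, he2⟩ ((cx_eq_iff A S _ _).2 (Conn.edge he).symm')
    have h5 := Rep_ex_coe (q := q) (S := S) ⟨e.1, he1⟩ a
    have h6 := Rep_ex_coe (q := q) (S := S) ⟨e.2, he2⟩ a
    simp only at h5 h6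
    rw [h5, h6]
    have : 2 * (a ⟨e.1, he1⟩ - a ⟨e.2, he2⟩) = 2 * (a ⟨e.1, he1⟩ - s) -
      2 * (a ⟨e.2, he2⟩ - s) := by ring
    rw [this, h3, h4, sub_zero]

end

private lemma exp_cs (S : Finset V) (h : V → ℝ) (a : Sp q S) :
    ∑ x ∈ S, h x * cs q S x a = ∑ x : S, h x * ch q (2 * a x) := by
  rw [← Finset.sum_coe_sort S]
  refine Finset.sum_congr rfl fun x _ => ?_
  unfold cs
  rw [Rep_ex_coe]

/-- for fixed `A`: the average over the spins constant on the clusters of `A` -/
theorem sum_compat {A : Finset (V × V)} {S : Finset V} (hA : Verts A S) (h : V → ℝ) :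
    ∑ a : Sp q S, (∏ e ∈ A, dq q S e a) * Real.exp (∑ x ∈ S, h x * cs q S x a) =
      (2 * q : ℝ) ^ S.card * ((q : ℝ)⁻¹ ^ rk A *
        ∏ C ∈ clusters A S, Gq q (∑ x ∈ C, h x)) := by
  classical
  have hq : (q : ℝ) ≠ 0 := Nat.cast_ne_zero.2 (NeZero.ne q)
  have h1 : ∑ t : {C : Finset V // C ∈ clusters A S} → ZMod (2 * q), ∑ a : Sp q S,
      (∏ x : S, ind (2 * (a x - t (cx A S x)) = 0)) *
        Real.exp (∑ x : S, h x * ch q (2 * a x)) =
      2 ^ (clusters A S).card * ∑ a : Sp q S, (∏ e ∈ A, dq q S e a) *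
        Real.exp (∑ x ∈ S, h x * cs q S x a) := by
    rw [Finset.sum_comm, Finset.mul_sum]
    refine Finset.sum_congr rfl fun a _ => ?_
    rw [← Finset.sum_mul, side_one A S hA a, Rep_prod_dq, exp_cs, mul_assoc]
  have h2 : ∑ t : {C : Finset V // C ∈ clusters A S} → ZMod (2 * q), ∑ a : Sp q S,
      (∏ x : S, ind (2 * (a x - t (cx A S x)) = 0)) *
        Real.exp (∑ x : S, h x * ch q (2 * a x)) =
      2 ^ S.card * ((2 * q : ℝ) ^ (clusters A S).card *
        ∏ C ∈ clusters A S, Gq q (∑ x ∈ C, h x)) := by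
    rw [Finset.sum_congr rfl fun t _ => side_two A S h t, ← Finset.mul_sum]
    congr 1
    rw [Rep_sum_prod (fun (C : {C : Finset V // C ∈ clusters A S}) (s : ZMod (2 * q)) =>
      Real.exp ((∑ x ∈ C.1, h x) * ch q (2 * s)))]
    have h3 : ∀ C : {C : Finset V // C ∈ clusters A S},
        ∑ s : ZMod (2 * q), Real.exp ((∑ x ∈ C.1, h x) * ch q (2 * s)) =
          (2 * q : ℝ) * Gq q (∑ x ∈ C.1, h x) := by
      intro C
      unfold Gq
      field_simp
    rw [Finset.prod_congr rfl fun C _ => h3 C, Finset.prod_mul_distrib, Finset.prod_const,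
      Finset.card_univ, Fintype.card_coe]
    congr 1
    exact Finset.prod_coe_sort (clusters A S) (fun C => Gq q (∑ x ∈ C, h x))
  have h4 := card_clusters hA
  have h5 : (0 : ℝ) < 2 ^ (clusters A S).card := by positivity
  have h6 : (2 : ℝ) ^ (clusters A S).card * ∑ a : Sp q S, (∏ e ∈ A, dq q S e a) *
        Real.exp (∑ x ∈ S, h x * cs q S x a) = 2 ^ (clusters A S).card *
      ((2 * q : ℝ) ^ S.card * ((q : ℝ)⁻¹ ^ rk A *
        ∏ C ∈ clusters A S, Gq q (∑ x ∈ C, h x))) := by
    rw [← h1, h2, ← h4, pow_add, pow_add, mul_pow, mul_pow, inv_pow]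
    field_simp
  exact mul_left_cancel₀ h5.ne' h6

theorem ZS_pos {D : Finset (V × V)} {w : V × V → ℝ} (hw : Adm D w) (S : Finset V) (h : V → ℝ) :
    0 < ZS q D w S h := by
  unfold ZS
  refine Finset.sum_pos' (fun a _ => ?_) ⟨0, Finset.mem_univ _, ?_⟩
  · unfold swq
    refine mul_nonneg (Finset.prod_nonneg fun e he => ?_) (Real.exp_pos _).le
    obtain ⟨h0, h1⟩ := hw e he
    have := ind_nonneg (2 * (ex q S e.1 a - ex q S e.2 a) = 0)
    unfold dq
    have := mul_nonneg h0 this
    linarith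
  · unfold swq
    refine mul_pos (Finset.prod_pos fun e _ => ?_) (Real.exp_pos _)
    have h1 : dq q S e (0 : Sp q S) = 1 := by
      unfold dq
      apply ind_true
      have : ∀ x : V, ex q S x (0 : Sp q S) = 0 := by
        intro x
        unfold ex
        split_ifs <;> rfl
      rw [this, this, sub_zero, mul_zero]
    rw [h1]
    norm_num

/-- expansion over the bond configurations -/
theorem Rep_swq_expand (D : Finset (V × V)) (w : V × V → ℝ) (S : Finset V) (h : V → ℝ)
    (φ : Sp q S → ℝ) :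
    ∑ a : Sp q S, swq q D w S h a * φ a = ∑ A ∈ D.powerset,
      ((∏ e ∈ A, w e) * ∏ e ∈ D \ A, (1 - w e)) * ∑ a : Sp q S, (∏ e ∈ A, dq q S e a) *
        Real.exp (∑ x ∈ S, h x * cs q S x a) * φ a := by
  have h1 : ∀ a : Sp q S, swq q D w S h a * φ a = ∑ A ∈ D.powerset,
      ((∏ e ∈ A, w e) * ∏ e ∈ D \ A, (1 - w e)) * ((∏ e ∈ A, dq q S e a) *
        Real.exp (∑ x ∈ S, h x * cs q S x a) * φ a) := by
    intro a
    unfold swq
    have h2 : ∏ e ∈ D, ((1 - w e) + w e * dq q S e a) = ∑ A ∈ D.powerset,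
        (∏ e ∈ A, w e * dq q S e a) * ∏ e ∈ D \ A, (1 - w e) := by
      rw [← Finset.prod_add]
      exact Finset.prod_congr rfl fun e _ => add_comm _ _
    rw [h2, mul_assoc, Finset.sum_mul]
    refine Finset.sum_congr rfl fun A _ => ?_
    rw [Finset.prod_mul_distrib]
    ring
  rw [Finset.sum_congr rfl fun a _ => h1 a, Finset.sum_comm]
  refine Finset.sum_congr rfl fun A _ => ?_
  rw [Finset.mul_sum]

theorem ZS_eq {D : Finset (V × V)} (w : V × V → ℝ) {S : Finset V} (hS : Verts D S) (h : V → ℝ) :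
    ZS q D w S h = (2 * q : ℝ) ^ S.card *
      ∑ A ∈ D.powerset, wt D w q A * ∏ C ∈ clusters A S, Gq q (∑ x ∈ C, h x) := by
  have h1 := Rep_swq_expand (q := q) D w S h (fun _ => 1)
  simp only [mul_one] at h1
  unfold ZS
  rw [h1, Finset.mul_sum]
  refine Finset.sum_congr rfl fun A hA => ?_
  rw [sum_compat (fun e he => hS e (Finset.mem_powerset.1 hA he))]
  unfold wt
  ring

/-! Characters -/

private def chi (S : Finset V) (f : Sp q S →+ ZMod (2 * q)) (A : Finset (V × V)) : ℂ :=
  ∑ a : Sp q S, (ind (Rep_CmpQ q A S a) : ℂ) * ZMod.stdAddChar (f a)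

theorem Rep_CmpQ.add {A : Finset (V × V)} {S : Finset V} {a b : Sp q S} (ha : Rep_CmpQ q A S a)
    (hb : Rep_CmpQ q A S b) : Rep_CmpQ q A S (a + b) := by
  intro e he
  rw [Rep_ex_add, Rep_ex_add]
  have h1 := ha e he
  have h2 := hb e he
  have : 2 * (ex q S e.1 a + ex q S e.1 b - (ex q S e.2 a + ex q S e.2 b)) =
    2 * (ex q S e.1 a - ex q S e.2 a) + 2 * (ex q S e.1 b - ex q S e.2 b) := by ring
  rw [this, h1, h2, add_zero]

omit [NeZero q] in
theorem Rep_ex_neg {S : Finset V} (x : V) (a : Sp q S) : ex q S x (-a) = -ex q S x a := by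
  unfold ex
  split_ifs <;> simp

theorem Rep_CmpQ.neg {A : Finset (V × V)} {S : Finset V} {a : Sp q S} (ha : Rep_CmpQ q A S a) :
    Rep_CmpQ q A S (-a) := by
  intro e he
  rw [Rep_ex_neg, Rep_ex_neg]
  have h1 := ha e he
  have : 2 * (-ex q S e.1 a - -ex q S e.2 a) = -(2 * (ex q S e.1 a - ex q S e.2 a)) := by ring
  rw [this, h1, neg_zero]

private lemma chi_zero {S : Finset V} {f : Sp q S →+ ZMod (2 * q)} {A : Finset (V × V)}
    {v : Sp q S} (hv : Rep_CmpQ q A S v) (hf : f v ≠ 0) : chi S f A = 0 := by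
  have h1 : chi S f A = ZMod.stdAddChar (f v) * chi S f A := by
    have h0 : chi S f A = ∑ a : Sp q S, (ind (Rep_CmpQ q A S (a + v)) : ℂ) *
        ZMod.stdAddChar (f (a + v)) :=
      (Equiv.sum_comp (Equiv.addRight v)
        (fun a : Sp q S => (ind (Rep_CmpQ q A S a) : ℂ) * ZMod.stdAddChar (f a))).symm
    conv_lhs => rw [h0]
    conv_rhs => unfold chi
    rw [Finset.mul_sum]
    refine Finset.sum_congr rfl fun a _ => ?_
    have h2 : ind (Rep_CmpQ q A S (a + v)) = ind (Rep_CmpQ q A S a) := by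
      apply ind_congr
      constructor
      · intro h
        have := h.add hv.neg
        rwa [add_neg_cancel_right] at this
      · intro h
        exact h.add hv
    rw [h2, map_add, AddChar.map_add_eq_mul]
    ring
  have h2 : ZMod.stdAddChar (f v) ≠ (1 : ℂ) := by
    intro h
    apply hf
    have h3 : ZMod.stdAddChar (f v) = (ZMod.stdAddChar (0 : ZMod (2 * q)) : ℂ) := by
      rw [h, AddChar.map_zero_eq_one]
    exact ZMod.injective_stdAddChar h3
  have h3 : (1 - ZMod.stdAddChar (f v)) * chi S f A = 0 := by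
    rw [sub_mul, one_mul, ← h1, sub_self]
  rcases mul_eq_zero.1 h3 with h4 | h4
  · exact absurd (sub_eq_zero.1 h4).symm h2
  · exact h4

private lemma chi_re (S : Finset V) (f : Sp q S →+ ZMod (2 * q)) (A : Finset (V × V)) :
    (chi S f A).re = ∑ a : Sp q S, ind (Rep_CmpQ q A S a) * ch q (f a) := by
  unfold chi ch
  rw [Complex.re_sum]
  refine Finset.sum_congr rfl fun a _ => ?_
  rw [Complex.re_ofReal_mul]

/-- zero total charge: the average is one -/
private lemma sum_char_one {S : Finset V} {f : Sp q S →+ ZMod (2 * q)} {A : Finset (V × V)}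
    (h : ∀ v : Sp q S, Rep_CmpQ q A S v → f v = 0) :
    ∑ a : Sp q S, ind (Rep_CmpQ q A S a) * ch q (f a) = ∑ a : Sp q S, ind (Rep_CmpQ q A S a) := by
  refine Finset.sum_congr rfl fun a _ => ?_
  by_cases ha : Rep_CmpQ q A S a
  · rw [h a ha]
    have : ch q 0 = 1 := by
      unfold ch
      rw [AddChar.map_zero_eq_one]
      rfl
    rw [this, mul_one]
  · rw [ind_false ha, zero_mul]

private lemma sum_char_zero {S : Finset V} {f : Sp q S →+ ZMod (2 * q)} {A : Finset (V × V)}
    {v : Sp q S} (hv : Rep_CmpQ q A S v) (hf : f v ≠ 0) :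
    ∑ a : Sp q S, ind (Rep_CmpQ q A S a) * ch q (f a) = 0 := by
  rw [← chi_re, chi_zero hv hf]
  rfl

private lemma sum_char_nonneg (S : Finset V) (f : Sp q S →+ ZMod (2 * q)) (A : Finset (V × V)) :
    0 ≤ ∑ a : Sp q S, ind (Rep_CmpQ q A S a) * ch q (f a) := by
  by_cases h : ∀ v : Sp q S, Rep_CmpQ q A S v → f v = 0
  · rw [sum_char_one h]
    exact Finset.sum_nonneg fun a _ => ind_nonneg _
  · push Not at h
    obtain ⟨v, hv, hf⟩ := h
    rw [sum_char_zero hv hf]

private lemma Gq_zero : Gq q 0 = 1 := by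
  have hq : (q : ℝ) ≠ 0 := Nat.cast_ne_zero.2 (NeZero.ne q)
  unfold Gq
  simp only [zero_mul, Real.exp_zero, Finset.sum_const, Finset.card_univ, ZMod.card,
    nsmul_eq_mul, mul_one]
  push_cast
  field_simp

private lemma sum_cmp {A : Finset (V × V)} {S : Finset V} (hA : Verts A S) :
    ∑ a : Sp q S, ind (Rep_CmpQ q A S a) = (2 * q : ℝ) ^ S.card * (q : ℝ)⁻¹ ^ rk A := by
  have h1 := sum_compat (q := q) hA (fun _ => 0)
  simp only [zero_mul, Finset.sum_const_zero, Real.exp_zero, mul_one, Gq_zero,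
    Finset.prod_const_one] at h1
  rw [← h1]
  exact Finset.sum_congr rfl fun a _ => (Rep_prod_dq A S a).symm

/-- general formula at zero field -/
private lemma SE_char {D : Finset (V × V)} {w : V × V → ℝ} (hw : Adm D w)
    {S : Finset V} (hS : Verts D S) (φ : Sp q S → ℝ) (R : Finset (V × V) → ℝ)
    (h : ∀ A, A ⊆ D → ∑ a : Sp q S, ind (Rep_CmpQ q A S a) * φ a =
      R A * ∑ a : Sp q S, ind (Rep_CmpQ q A S a)) :
    SE q D w S (fun _ => 0) φ = E D w q R := by
  have hq : (q : ℝ) ≠ 0 := Nat.cast_ne_zero.2 (NeZero.ne q)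
  have hq0 : (0 : ℝ) < q := Nat.cast_pos.2 (Nat.pos_of_ne_zero (NeZero.ne q))
  have h1 := Rep_swq_expand (q := q) D w S (fun _ => 0) φ
  have h2 := ZS_eq (q := q) w hS (fun _ => 0)
  have h3 : ZS q D w S (fun _ => 0) = (2 * q : ℝ) ^ S.card * Z D w q := by
    rw [h2]
    unfold Z
    congr 1
    refine Finset.sum_congr rfl fun A _ => ?_
    simp only [Finset.sum_const_zero, Gq_zero, Finset.prod_const_one, mul_one]
  have h4 : ∑ a : Sp q S, swq q D w S (fun _ => 0) a * φ a =
      (2 * q : ℝ) ^ S.card * ∑ A ∈ D.powerset, wt D w q A * R A := by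
    rw [h1, Finset.mul_sum]
    refine Finset.sum_congr rfl fun A hA => ?_
    have hA' := Finset.mem_powerset.1 hA
    have h5 : ∑ a : Sp q S, (∏ e ∈ A, dq q S e a) *
        Real.exp (∑ x ∈ S, (fun _ => (0 : ℝ)) x * cs q S x a) * φ a =
        ∑ a : Sp q S, ind (Rep_CmpQ q A S a) * φ a := by
      refine Finset.sum_congr rfl fun a _ => ?_
      rw [Rep_prod_dq]
      simp
    rw [h5, h A hA', sum_cmp (fun e he => hS e (hA' he))]
    unfold wt
    ring
  unfold SE E
  rw [h3, h4]
  have h6 := Z_pos (q := (q : ℝ)) hq0 hw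
  have h7 : (0 : ℝ) < (2 * q : ℝ) ^ S.card := by positivity
  field_simp

/-- the additive functional of a point -/
private def exH (q : ℕ) [NeZero q] (S : Finset V) (x : V) : Sp q S →+ ZMod (2 * q) where
  toFun := ex q S x
  map_zero' := by
    unfold ex
    split_ifs <;> rfl
  map_add' a b := Rep_ex_add x a b

/-- the indicator of the cluster of `x` -/
private def vcl (q : ℕ) [NeZero q] (A : Finset (V × V)) (S : Finset V) (x : V) : Sp q S := by
  classical exact fun y => if Conn A x y then 1 else 0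

private lemma ex_vcl {A : Finset (V × V)} {S : Finset V} {x y : V} (hy : y ∈ S) :
    ex q S y (vcl q A S x) = (by classical exact if Conn A x y then 1 else 0) := by
  unfold ex vcl
  rw [dif_pos hy]

private lemma ex_vcl_pos {A : Finset (V × V)} {S : Finset V} {x y : V} (hy : y ∈ S)
    (h : Conn A x y) : ex q S y (vcl q A S x) = 1 := by
  rw [ex_vcl hy]
  simp [h]

private lemma ex_vcl_neg {A : Finset (V × V)} {S : Finset V} {x y : V} (hy : y ∈ S)
    (h : ¬ Conn A x y) : ex q S y (vcl q A S x) = 0 := by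
  rw [ex_vcl hy]
  simp [h]

private lemma vcl_cmp {A : Finset (V × V)} {S : Finset V} (hA : Verts A S) (x : V) :
    Rep_CmpQ q A S (vcl q A S x) := by
  intro e he
  obtain ⟨h1, h2⟩ := hA e he
  by_cases h : Conn A x e.1
  · rw [ex_vcl_pos h1 h, ex_vcl_pos h2 (h.trans' (Conn.edge he))]
    ring
  · rw [ex_vcl_neg h1 h, ex_vcl_neg h2 (fun h3 => h (h3.trans' (Conn.edge he).symm'))]
    ring

omit [NeZero q] in
private lemma two_ne (hq : 2 ≤ q) : (2 : ZMod (2 * q)) ≠ 0 := by
  intro h
  have h1 : ((2 : ℕ) : ZMod (2 * q)) = 0 := by exact_mod_cast h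
  rw [ZMod.natCast_eq_zero_iff] at h1
  have := Nat.le_of_dvd (by norm_num) h1
  omega

omit [NeZero q] in
private lemma four_ne (hq : 3 ≤ q) : (4 : ZMod (2 * q)) ≠ 0 := by
  intro h
  have h1 : ((4 : ℕ) : ZMod (2 * q)) = 0 := by exact_mod_cast h
  rw [ZMod.natCast_eq_zero_iff] at h1
  have := Nat.le_of_dvd (by norm_num) h1
  omega

/-- product formula for cosines -/
theorem Rep_ch_mul (s t : ZMod (2 * q)) :
    ch q s * ch q t = 1 / 2 * (ch q (s + t) + ch q (s - t)) := by
  unfold ch
  rw [sub_eq_add_neg, AddChar.map_add_eq_mul, AddChar.map_add_eq_mul, AddChar.map_neg_eq_conj,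
    Complex.mul_re, Complex.mul_re, Complex.conj_re, Complex.conj_im]
  ring

theorem SE_c2_zero (hq : 2 ≤ q) {D : Finset (V × V)} {w : V × V → ℝ} (hw : Adm D w)
    {S : Finset V} (hS : Verts D S) {x y : V} (hx : x ∈ S) (hy : y ∈ S) :
    SE q D w S (fun _ => 0) (c2 q S x y) = P D w q (fun A => Conn A x y) := by
  unfold P
  refine SE_char hw hS _ _ fun A hA => ?_
  have hA' : Verts A S := fun e he => hS e (hA he)
  set f : Sp q S →+ ZMod (2 * q) := 2 • (exH q S x - exH q S y) with hf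
  have hfa : ∀ a, f a = 2 * (ex q S x a - ex q S y a) := by
    intro a
    rw [hf, AddMonoidHom.nsmul_apply, AddMonoidHom.sub_apply, nsmul_eq_mul]
    rfl
  have h0 : ∀ a : Sp q S, c2 q S x y a = ch q (f a) := fun a => by rw [hfa]; rfl
  simp only [h0]
  by_cases h : Conn A x y
  · rw [ind_true h, one_mul]
    refine sum_char_one fun v hv => ?_
    rw [hfa]
    exact hv.conn h
  · rw [ind_false h, zero_mul]
    refine sum_char_zero (vcl_cmp hA' x) ?_
    rw [hfa, ex_vcl_pos hx (Conn.rfl' A x), ex_vcl_neg hy h, sub_zero, mul_one]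
    exact two_ne hq

/-- three points, `q ≥ 3` -/
theorem SE_c3_zero (hq : 3 ≤ q) {D : Finset (V × V)} {w : V × V → ℝ} (hw : Adm D w)
    {S : Finset V} (hS : Verts D S) {x y z : V} (hx : x ∈ S) (hy : y ∈ S) (hz : z ∈ S) :
    SE q D w S (fun _ => 0) (c3 q S x y z) = P D w q (fun A => Conn A x z ∧ Conn A y z) := by
  unfold P
  refine SE_char hw hS _ _ fun A hA => ?_
  have hA' : Verts A S := fun e he => hS e (hA he)
  set f : Sp q S →+ ZMod (2 * q) := 2 • (exH q S x + exH q S y - 2 • exH q S z) with hf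
  have hfa : ∀ a, f a = 2 * (ex q S x a + ex q S y a - 2 * ex q S z a) := by
    intro a
    rw [hf, AddMonoidHom.nsmul_apply, AddMonoidHom.sub_apply, AddMonoidHom.add_apply,
      AddMonoidHom.nsmul_apply, nsmul_eq_mul, nsmul_eq_mul]
    rfl
  have h0 : ∀ a : Sp q S, c3 q S x y z a = ch q (f a) := fun a => by rw [hfa]; rfl
  simp only [h0]
  have h2 := two_ne (q := q) (by omega)
  have h4 := four_ne (q := q) hq
  by_cases h : Conn A x z ∧ Conn A y z
  · rw [ind_true h, one_mul]
    refine sum_char_one fun v hv => ?_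
    rw [hfa]
    have e1 := hv.conn h.1
    have e2 := hv.conn h.2
    have : 2 * (ex q S x v + ex q S y v - 2 * ex q S z v) =
      2 * (ex q S x v - ex q S z v) + 2 * (ex q S y v - ex q S z v) := by ring
    rw [this, e1, e2, add_zero]
  · rw [ind_false h, zero_mul]
    by_cases hxz : Conn A x z
    · have hyz : ¬ Conn A y z := fun h3 => h ⟨hxz, h3⟩
      refine sum_char_zero (vcl_cmp hA' y) ?_
      rw [hfa, ex_vcl_pos hy (Conn.rfl' A y), ex_vcl_neg hz hyz,
        ex_vcl_neg hx (fun h3 => hyz (h3.trans' hxz))]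
      simpa using h2
    · refine sum_char_zero (vcl_cmp hA' x) ?_
      rw [hfa, ex_vcl_pos hx (Conn.rfl' A x), ex_vcl_neg hz hxz]
      by_cases hxy : Conn A x y
      · rw [ex_vcl_pos hy hxy]
        have : (2 : ZMod (2 * q)) * (1 + 1 - 2 * 0) = 4 := by ring
        rw [this]
        exact h4
      · rw [ex_vcl_neg hy hxy]
        simpa using h2

/-- `q = 2` -/
theorem c3_two (S : Finset V) (x y z : V) (a : Sp 2 S) : c3 2 S x y z a = c2 2 S x y a := by
  unfold c3 c2
  congr 1
  have h4 : (4 : ZMod (2 * 2)) = 0 := by decide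
  have : 2 * (ex 2 S x a + ex 2 S y a - 2 * ex 2 S z a) =
      2 * (ex 2 S x a - ex 2 S y a) + 4 * (ex 2 S y a - ex 2 S z a) := by ring
  rw [this, h4, zero_mul, add_zero]

theorem SE_cs_cs_zero (hq : 2 ≤ q) {D : Finset (V × V)} {w : V × V → ℝ} (hw : Adm D w)
    {S : Finset V} (hS : Verts D S) {x z : V} (hx : x ∈ S) (hz : z ∈ S) :
    1 / 2 * P D w q (fun A => Conn A x z) ≤
      SE q D w S (fun _ => 0) (fun a => cs q S x a * cs q S z a) := by
  have h1 := SE_c2_zero hq hw hS hx hz
  set f : Sp q S →+ ZMod (2 * q) := 2 • (exH q S x + exH q S z) with hf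
  have hfa : ∀ a, f a = 2 * (ex q S x a + ex q S z a) := by
    intro a
    rw [hf, AddMonoidHom.nsmul_apply, AddMonoidHom.add_apply, nsmul_eq_mul]
    rfl
  have h2 : 0 ≤ SE q D w S (fun _ => 0) (fun a => ch q (f a)) := by
    unfold SE
    refine div_nonneg ?_ (ZS_pos hw S _).le
    rw [Rep_swq_expand]
    refine Finset.sum_nonneg fun A hA => ?_
    have hA' := Finset.mem_powerset.1 hA
    refine mul_nonneg (mul_nonneg (Finset.prod_nonneg fun e he => (hw e (hA' he)).1)
      (Finset.prod_nonneg fun e he => ?_)) ?_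
    · have := (hw e (Finset.mem_sdiff.1 he).1).2
      linarith
    · have h3 : ∑ a : Sp q S, (∏ e ∈ A, dq q S e a) *
          Real.exp (∑ x ∈ S, (fun _ => (0 : ℝ)) x * cs q S x a) * ch q (f a) =
          ∑ a : Sp q S, ind (Rep_CmpQ q A S a) * ch q (f a) := by
        refine Finset.sum_congr rfl fun a _ => ?_
        rw [Rep_prod_dq]
        simp
      rw [h3]
      exact sum_char_nonneg S f A
  have h3 : SE q D w S (fun _ => 0) (fun a => cs q S x a * cs q S z a) =
      1 / 2 * SE q D w S (fun _ => 0) (fun a => ch q (f a)) +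
        1 / 2 * SE q D w S (fun _ => 0) (c2 q S x z) := by
    unfold SE
    rw [mul_div_assoc', mul_div_assoc', ← add_div, Finset.mul_sum, Finset.mul_sum,
      ← Finset.sum_add_distrib]
    congr 1
    refine Finset.sum_congr rfl fun a _ => ?_
    unfold cs c2
    show swq q D w S (fun _ => 0) a * (ch q (2 * ex q S x a) * ch q (2 * ex q S z a)) =
      1 / 2 * (swq q D w S (fun _ => 0) a * ch q (f a)) +
        1 / 2 * (swq q D w S (fun _ => 0) a * ch q (2 * (ex q S x a - ex q S z a)))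
    rw [Rep_ch_mul, hfa]
    have e1 : 2 * ex q S x a + 2 * ex q S z a = 2 * (ex q S x a + ex q S z a) := by ring
    have e2 : 2 * ex q S x a - 2 * ex q S z a = 2 * (ex q S x a - ex q S z a) := by ring
    rw [e1, e2]
    ring
  rw [h3, h1]
  linarith

end FKB
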