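import Pool.Agent.FKQ.Gin
import Pool.Agent.FKQ.Cone
import Pool.Agent.FKQ.Rep
import Pool.Agent.FKB.Holley

open Finset
noncomputable section
namespace FKB

variable {V : Type*} [DecidableEq V] {q : ℕ} [NeZero q]

/-- spin sum -/
private def kqS (q : ℕ) [NeZero q] (D : Finset (V × V)) (w : V × V → ℝ) (S : Finset V) (h : V → ℝ)
    (f : Sp q S → ℝ) : ℝ := ∑ a : Sp q S, swq q D w S h a * f a

private lemma kq_SE (D : Finset (V × V)) (w : V × V → ℝ) (S : Finset V) (h : V → ℝ)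
    (f : Sp q S → ℝ) : SE q D w S h f = kqS q D w S h f / ZS q D w S h := rfl

private lemma kq_ZS (D : Finset (V × V)) (w : V × V → ℝ) (S : Finset V) (h : V → ℝ) :
    kqS q D w S h (fun _ => 1) = ZS q D w S h := by
  simp only [kqS, mul_one, ZS]

private lemma kqS_sub (D : Finset (V × V)) (w : V × V → ℝ) (S : Finset V) (h : V → ℝ)
    (f g : Sp q S → ℝ) :
    kqS q D w S h (fun a => f a - g a) = kqS q D w S h f - kqS q D w S h g := by
  simp only [kqS, mul_sub, Finset.sum_sub_distrib]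

private lemma kqS_smul (D : Finset (V × V)) (w : V × V → ℝ) (S : Finset V) (h : V → ℝ) (c : ℝ)
    (f : Sp q S → ℝ) : kqS q D w S h (fun a => c * f a) = c * kqS q D w S h f := by
  simp only [kqS, Finset.mul_sum]
  exact Finset.sum_congr rfl fun a _ => by ring

private lemma kq_swq_nonneg {D : Finset (V × V)} {w : V × V → ℝ} (hw : Adm D w) (S : Finset V)
    (h : V → ℝ) (a : Sp q S) : 0 ≤ swq q D w S h a := by
  unfold swq
  apply mul_nonneg _ (Real.exp_pos _).le
  apply Finset.prod_nonneg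
  intro e he
  have h1 := hw e he
  have h2 : 0 ≤ dq q S e a := ind_nonneg _
  have h3 := mul_nonneg h1.1 h2
  linarith [h1.2]

private lemma kq_pair_sum (D : Finset (V × V)) (w w' : V × V → ℝ) (S : Finset V) (h h' : V → ℝ)
    (f g : Sp q S → ℝ) :
    ∑ ab : Sp q S × Sp q S, (f ab.1 * g ab.2) * (swq q D w S h ab.1 * swq q D w' S h' ab.2) =
      kqS q D w S h f * kqS q D w' S h' g := by
  rw [Fintype.sum_prod_type, kqS, kqS, Finset.sum_mul_sum]
  exact Finset.sum_congr rfl fun a _ => Finset.sum_congr rfl fun b _ => by ring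

private lemma kq_nonneg {D : Finset (V × V)} {w w' : V × V → ℝ} (hw : Adm D w) (hw' : Adm D w')
    (hle : ∀ e ∈ D, w' e ≤ w e) {S : Finset V} {h h' : V → ℝ} (hh : ∀ x ∈ S, |h' x| ≤ h x)
    {F : Sp q S × Sp q S → ℝ} (hF : GP F) :
    0 ≤ ∑ ab : Sp q S × Sp q S, F ab * (swq q D w S h ab.1 * swq q D w' S h' ab.2) :=
  (hF.mul (GP_pair hw hw' hle hh)).sum_nonneg

private lemma kq_sub {D : Finset (V × V)} {w w' : V × V → ℝ} (hw : Adm D w) (hw' : Adm D w')
    (hle : ∀ e ∈ D, w' e ≤ w e) {S : Finset V} {h h' : V → ℝ} (hh : ∀ x ∈ S, |h' x| ≤ h x)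
    {f : Sp q S → ℝ} (hf : GC f) : SE q D w' S h' f ≤ SE q D w S h f := by
  have h1 := kq_nonneg hw hw' hle hh hf.minus
  have h2 : ∑ ab : Sp q S × Sp q S,
      (f ab.1 - f ab.2) * (swq q D w S h ab.1 * swq q D w' S h' ab.2) =
      kqS q D w S h f * kqS q D w' S h' (fun _ => 1) -
        kqS q D w S h (fun _ => 1) * kqS q D w' S h' f := by
    rw [← kq_pair_sum, ← kq_pair_sum, ← Finset.sum_sub_distrib]
    exact Finset.sum_congr rfl fun a _ => by ring
  rw [h2, kq_ZS, kq_ZS] at h1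
  rw [kq_SE, kq_SE, div_le_div_iff₀ (ZS_pos hw' S h') (ZS_pos hw S h)]
  linarith

private lemma kq_add {D : Finset (V × V)} {w w' : V × V → ℝ} (hw : Adm D w) (hw' : Adm D w')
    (hle : ∀ e ∈ D, w' e ≤ w e) {S : Finset V} {h h' : V → ℝ} (hh : ∀ x ∈ S, |h' x| ≤ h x)
    {f : Sp q S → ℝ} (hf : GC f) : -SE q D w' S h' f ≤ SE q D w S h f := by
  have h1 := kq_nonneg hw hw' hle hh hf.plus
  have h2 : ∑ ab : Sp q S × Sp q S,
      (f ab.1 + f ab.2) * (swq q D w S h ab.1 * swq q D w' S h' ab.2) =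
      kqS q D w S h f * kqS q D w' S h' (fun _ => 1) +
        kqS q D w S h (fun _ => 1) * kqS q D w' S h' f := by
    rw [← kq_pair_sum, ← kq_pair_sum, ← Finset.sum_add_distrib]
    exact Finset.sum_congr rfl fun a _ => by ring
  rw [h2, kq_ZS, kq_ZS] at h1
  rw [kq_SE, kq_SE, ← neg_div, div_le_div_iff₀ (ZS_pos hw' S h') (ZS_pos hw S h)]
  linarith

/-- the Cauchy-Schwarz form -/
private lemma kq_cs {D : Finset (V × V)} {w w' : V × V → ℝ} (hw : Adm D w) (hw' : Adm D w')
    (hle : ∀ e ∈ D, w' e ≤ w e) {S : Finset V} {h h' : V → ℝ} (hh : ∀ x ∈ S, |h' x| ≤ h x)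
    (ψ χ : AddChar (Sp q S) ℂ) :
    (SE q D w S h (gf ψ) * SE q D w' S h' (gf χ) -
        SE q D w' S h' (gf ψ) * SE q D w S h (gf χ)) ^ 2 ≤
      (SE q D w S h (gf (ψ * χ⁻¹)) - SE q D w' S h' (gf (ψ * χ⁻¹))) *
        (SE q D w S h (gf (ψ * χ)) - SE q D w' S h' (gf (ψ * χ))) := by
  have hZ := ZS_pos (q := q) hw S h
  have hZ' := ZS_pos (q := q) hw' S h'
  have h1 := gin_cs (GP_pair (q := q) hw hw' hle hh) ψ χ
  have e1 : ∑ ab : Sp q S × Sp q S, (gf ψ ab.1 * gf χ ab.2 - gf ψ ab.2 * gf χ ab.1) *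
      (swq q D w S h ab.1 * swq q D w' S h' ab.2) =
      kqS q D w S h (gf ψ) * kqS q D w' S h' (gf χ) -
        kqS q D w S h (gf χ) * kqS q D w' S h' (gf ψ) := by
    rw [← kq_pair_sum, ← kq_pair_sum, ← Finset.sum_sub_distrib]
    exact Finset.sum_congr rfl fun a _ => by ring
  have e2 : ∀ f : Sp q S → ℝ, ∑ ab : Sp q S × Sp q S, (f ab.1 - f ab.2) *
      (swq q D w S h ab.1 * swq q D w' S h' ab.2) =
      kqS q D w S h f * ZS q D w' S h' - ZS q D w S h * kqS q D w' S h' f := by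
    intro f
    rw [← kq_ZS, ← kq_ZS, ← kq_pair_sum, ← kq_pair_sum, ← Finset.sum_sub_distrib]
    exact Finset.sum_congr rfl fun a _ => by ring
  rw [e1, e2, e2] at h1
  have hne := hZ.ne'
  have hne' := hZ'.ne'
  have k1 : SE q D w S h (gf ψ) * SE q D w' S h' (gf χ) -
        SE q D w' S h' (gf ψ) * SE q D w S h (gf χ) =
      (kqS q D w S h (gf ψ) * kqS q D w' S h' (gf χ) -
        kqS q D w S h (gf χ) * kqS q D w' S h' (gf ψ)) / (ZS q D w S h * ZS q D w' S h') := by
    rw [kq_SE, kq_SE, kq_SE, kq_SE]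
    field_simp
  have k2 : ∀ f : Sp q S → ℝ, SE q D w S h f - SE q D w' S h' f =
      (kqS q D w S h f * ZS q D w' S h' - ZS q D w S h * kqS q D w' S h' f) /
        (ZS q D w S h * ZS q D w' S h') := by
    intro f
    rw [kq_SE, kq_SE]
    field_simp
  rw [k1, k2, k2, div_pow, div_mul_div_comm, ← pow_two]
  exact div_le_div_of_nonneg_right h1 (by positivity)

theorem keyq_one {D : Finset (V × V)} {w w' : V × V → ℝ} (hw : Adm D w) (hw' : Adm D w')
    (hle : ∀ e ∈ D, w' e ≤ w e) {S : Finset V} {h h' : V → ℝ} (hh : ∀ x ∈ S, |h' x| ≤ h x)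
    (x : V) : |SE q D w' S h' (cs q S x)| ≤ SE q D w S h (cs q S x) := by
  rw [abs_le]
  constructor
  · have := kq_add hw hw' hle hh (GC_cs (q := q) S x)
    linarith
  · exact kq_sub hw hw' hle hh (GC_cs (q := q) S x)

theorem keyq_c2 {D : Finset (V × V)} {w w' : V × V → ℝ} (hw : Adm D w) (hw' : Adm D w')
    (hle : ∀ e ∈ D, w' e ≤ w e) {S : Finset V} {h h' : V → ℝ} (hh : ∀ x ∈ S, |h' x| ≤ h x)
    (x y : V) : SE q D w' S h' (c2 q S x y) ≤ SE q D w S h (c2 q S x y) :=
  kq_sub hw hw' hle hh (GC_c2 (q := q) S x y)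

private lemma kq_le_one {D : Finset (V × V)} {w : V × V → ℝ} (hw : Adm D w) (S : Finset V)
    (h : V → ℝ) {f : Sp q S → ℝ} (hf : ∀ a, f a ≤ 1) : SE q D w S h f ≤ 1 := by
  rw [kq_SE, div_le_one (ZS_pos hw S h), ← kq_ZS]
  apply Finset.sum_le_sum
  intro a _
  exact mul_le_mul_of_nonneg_left (hf a) (kq_swq_nonneg hw S h a)

private lemma kq_ge_neg {D : Finset (V × V)} {w : V × V → ℝ} (hw : Adm D w) (S : Finset V)
    (h : V → ℝ) {f : Sp q S → ℝ} (hf : ∀ a, -1 ≤ f a) : -1 ≤ SE q D w S h f := by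
  rw [kq_SE, le_div_iff₀ (ZS_pos hw S h), ← kq_ZS, kqS, Finset.mul_sum]
  apply Finset.sum_le_sum
  intro a _
  have h1 := mul_le_mul_of_nonneg_left (hf a) (kq_swq_nonneg (q := q) hw S h a)
  linarith

theorem keyq_two {D : Finset (V × V)} {w w' : V × V → ℝ} (hw : Adm D w) (hw' : Adm D w')
    (hle : ∀ e ∈ D, w' e ≤ w e) {S : Finset V} {h h' : V → ℝ} (hh : ∀ x ∈ S, |h' x| ≤ h x)
    (x y : V) :
    (SE q D w S h (cs q S x) * SE q D w' S h' (cs q S y) -
        SE q D w' S h' (cs q S x) * SE q D w S h (cs q S y)) ^ 2 ≤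
      2 * (SE q D w S h (c2 q S x y) - SE q D w' S h' (c2 q S x y)) := by
  obtain ⟨ψ, χ, hψ, hχ, h1, h2⟩ := exists_cs2 (q := q) S x y
  have e1 : gf ψ = cs q S x := funext hψ
  have e2 : gf χ = cs q S y := funext hχ
  have e3 : gf (ψ * χ⁻¹) = c2 q S x y := funext h1
  have key := kq_cs hw hw' hle hh ψ χ
  rw [e1, e2, e3] at key
  have h3 := kq_le_one (q := q) hw S h (fun a => (h2 a).1)
  have h4 := kq_ge_neg (q := q) hw' S h' (fun a => (h2 a).2)
  have h5 := keyq_c2 (q := q) hw hw' hle hh x y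
  calc _ ≤ _ := key
    _ ≤ (SE q D w S h (c2 q S x y) - SE q D w' S h' (c2 q S x y)) * 2 :=
        mul_le_mul_of_nonneg_left (by linarith) (by linarith)
    _ = _ := mul_comm _ _

theorem keyq_edge {D : Finset (V × V)} {w w' : V × V → ℝ} (hw : Adm D w) (hw' : Adm D w')
    (hle : ∀ e ∈ D, w' e ≤ w e) {S : Finset V} {h h' : V → ℝ} (hh : ∀ x ∈ S, |h' x| ≤ h x)
    (e : V × V) :
    1 / (q : ℝ) * (SE q D w S h (c2 q S e.1 e.2) - SE q D w' S h' (c2 q S e.1 e.2)) ≤
      SE q D w S h (dq q S e) - SE q D w' S h' (dq q S e) := by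
  have h1 := kq_sub hw hw' hle hh (GC_dq_sub (q := q) S e)
  rw [kq_SE, kq_SE, kqS_sub, kqS_sub, kqS_smul, kqS_smul, sub_div, sub_div, mul_div_assoc,
    mul_div_assoc] at h1
  rw [kq_SE, kq_SE, kq_SE, kq_SE]
  linarith

theorem keyq_gks {D : Finset (V × V)} {w : V × V → ℝ} (hw : Adm D w) {S : Finset V} {h : V → ℝ}
    (hh : ∀ x ∈ S, 0 ≤ h x) (x y : V) :
    SE q D w S h (cs q S x) * SE q D w S h (cs q S y) ≤
      SE q D w S h (fun a => cs q S x a * cs q S y a) := by
  have hZ := ZS_pos (q := q) hw S h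
  have h1 := kq_nonneg hw hw (fun _ _ => le_rfl) (S := S) (h := h) (h' := h)
    (fun x hx => (abs_of_nonneg (hh x hx)).le)
    ((GC_cs (q := q) S x).minus.mul (GC_cs (q := q) S y).minus)
  have e1 : ∑ ab : Sp q S × Sp q S, ((cs q S x ab.1 - cs q S x ab.2) *
      (cs q S y ab.1 - cs q S y ab.2)) * (swq q D w S h ab.1 * swq q D w S h ab.2) =
      kqS q D w S h (fun a => cs q S x a * cs q S y a) * kqS q D w S h (fun _ => 1) -
        kqS q D w S h (cs q S x) * kqS q D w S h (cs q S y) -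
        kqS q D w S h (cs q S y) * kqS q D w S h (cs q S x) +
        kqS q D w S h (fun _ => 1) * kqS q D w S h (fun a => cs q S x a * cs q S y a) := by
    rw [← kq_pair_sum, ← kq_pair_sum, ← kq_pair_sum, ← kq_pair_sum, ← Finset.sum_sub_distrib,
      ← Finset.sum_sub_distrib, ← Finset.sum_add_distrib]
    exact Finset.sum_congr rfl fun a _ => by ring
  have h1' : 0 ≤ ∑ ab : Sp q S × Sp q S, ((cs q S x ab.1 - cs q S x ab.2) *
      (cs q S y ab.1 - cs q S y ab.2)) * (swq q D w S h ab.1 * swq q D w S h ab.2) := h1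
  rw [e1, kq_ZS] at h1'
  rw [kq_SE, kq_SE, kq_SE, div_mul_div_comm, div_le_div_iff₀ (mul_pos hZ hZ) hZ]
  have h2 : kqS q D w S h (cs q S x) * kqS q D w S h (cs q S y) ≤
      kqS q D w S h (fun a => cs q S x a * cs q S y a) * ZS q D w S h := by linarith
  calc kqS q D w S h (cs q S x) * kqS q D w S h (cs q S y) * ZS q D w S h
      ≤ (kqS q D w S h (fun a => cs q S x a * cs q S y a) * ZS q D w S h) *
          ZS q D w S h := mul_le_mul_of_nonneg_right h2 hZ.le
    _ = _ := by ring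

theorem keyq_cscs {D : Finset (V × V)} {w w' : V × V → ℝ} (hw : Adm D w) (hw' : Adm D w')
    (hle : ∀ e ∈ D, w' e ≤ w e) {S : Finset V} {h h' : V → ℝ} (hh : ∀ x ∈ S, |h' x| ≤ h x)
    (x y : V) :
    SE q D w' S h' (fun a => cs q S x a * cs q S y a) ≤
      SE q D w S h (fun a => cs q S x a * cs q S y a) :=
  kq_sub hw hw' hle hh ((GC_cs (q := q) S x).mul (GC_cs (q := q) S y))

private lemma kq_inc {D : Finset (V × V)} {w w' : V × V → ℝ} {r : ℝ} (hr : 1 ≤ r)
    (hw : Adm D w) (hw' : Adm D w') (hle : ∀ e ∈ D, w' e ≤ w e) {T : Finset (V × V) → Prop}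
    (hT : ∀ A B, A ⊆ B → T A → T B) : P D w' r T ≤ P D w r T := by
  apply E_holley hr hw' hw hle
  intro A B hAB _
  exact ind_mono (hT A B hAB)

private lemma kq_three {D : Finset (V × V)} {w : V × V → ℝ} {r : ℝ} (x y z : V) :
    P D w r (fun A => Conn A x z ∧ Conn A y z) =
      P D w r (fun A => Conn A x z) + P D w r (fun A => Conn A x y) -
        P D w r (fun A => Conn A x z ∨ Conn A x y) := by
  unfold P
  rw [← E_add, ← E_sub]
  apply E_congr
  intro A _
  by_cases h1 : Conn A x z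
  · by_cases h2 : Conn A x y
    · have h3 : Conn A y z := h2.symm'.trans' h1
      rw [ind_true (show Conn A x z ∧ Conn A y z from ⟨h1, h3⟩), ind_true h1, ind_true h2,
        ind_true (show Conn A x z ∨ Conn A x y from Or.inl h1)]
      norm_num
    · have h3 : ¬ Conn A y z := fun h => h2 (h1.trans' h.symm')
      rw [ind_false (show ¬ (Conn A x z ∧ Conn A y z) from fun h => h3 h.2), ind_true h1,
        ind_false h2, ind_true (show Conn A x z ∨ Conn A x y from Or.inl h1)]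
      norm_num
  · by_cases h2 : Conn A x y
    · rw [ind_false (show ¬ (Conn A x z ∧ Conn A y z) from fun h => h1 h.1), ind_false h1,
        ind_true h2, ind_true (show Conn A x z ∨ Conn A x y from Or.inr h2)]
      norm_num
    · rw [ind_false (show ¬ (Conn A x z ∧ Conn A y z) from fun h => h1 h.1), ind_false h1,
        ind_false h2, ind_false (show ¬ (Conn A x z ∨ Conn A x y) from
          fun h => h.elim h1 h2)]
      norm_num

/-- the quadratic inequality for connection probabilities -/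
theorem keyq_I (hq : 2 ≤ q) {D : Finset (V × V)} {w w' : V × V → ℝ} (hw : Adm D w)
    (hw' : Adm D w') (hle : ∀ e ∈ D, w' e ≤ w e) (x y z : V) :
    (P D w q (fun A => Conn A x z) * P D w' q (fun A => Conn A y z) -
        P D w' q (fun A => Conn A x z) * P D w q (fun A => Conn A y z)) ^ 2 ≤
      (P D w q (fun A => Conn A x y) - P D w' q (fun A => Conn A x y)) *
        ((P D w q (fun A => Conn A x z) - P D w' q (fun A => Conn A x z)) +
          (P D w q (fun A => Conn A x y) - P D w' q (fun A => Conn A x y))) := by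
  have hq1 : (1 : ℝ) ≤ q := by
    have : 1 ≤ q := by omega
    exact_mod_cast this
  set S : Finset V := D.image Prod.fst ∪ D.image Prod.snd ∪ {x, y, z} with hSdef
  have hS : Verts D S := by
    intro e he
    constructor
    · simp only [hSdef, Finset.mem_union]
      exact Or.inl (Or.inl (Finset.mem_image_of_mem _ he))
    · simp only [hSdef, Finset.mem_union]
      exact Or.inl (Or.inr (Finset.mem_image_of_mem _ he))
  have hx : x ∈ S := by simp [hSdef]
  have hy : y ∈ S := by simp [hSdef]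
  have hz : z ∈ S := by simp [hSdef]
  obtain ⟨ψ, χ, hψ, hχ, h1, h2⟩ := exists_c3 (q := q) S x y z
  have e1 : gf ψ = c2 q S x z := funext hψ
  have e2 : gf χ = c2 q S y z := funext hχ
  have e3 : gf (ψ * χ⁻¹) = c2 q S x y := funext h1
  have e4 : gf (ψ * χ) = c3 q S x y z := funext h2
  have key := kq_cs (q := q) hw hw' hle (S := S) (h := fun _ => 0) (h' := fun _ => 0)
    (fun _ _ => by simp) ψ χ
  rw [e1, e2, e3, e4, SE_c2_zero hq hw hS hx hz, SE_c2_zero hq hw' hS hx hz,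
    SE_c2_zero hq hw hS hy hz, SE_c2_zero hq hw' hS hy hz, SE_c2_zero hq hw hS hx hy,
    SE_c2_zero hq hw' hS hx hy] at key
  have hxy : 0 ≤ P D w q (fun A => Conn A x y) - P D w' q (fun A => Conn A x y) :=
    sub_nonneg.2 (kq_inc hq1 hw hw' hle (fun A B hAB h => h.mono' hAB))
  have hxz : 0 ≤ P D w q (fun A => Conn A x z) - P D w' q (fun A => Conn A x z) :=
    sub_nonneg.2 (kq_inc hq1 hw hw' hle (fun A B hAB h => h.mono' hAB))
  refine key.trans (mul_le_mul_of_nonneg_left ?_ hxy)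
  rcases Nat.lt_or_ge 2 q with h3 | h3
  · have hq3 : 3 ≤ q := h3
    rw [SE_c3_zero hq3 hw hS hx hy hz, SE_c3_zero hq3 hw' hS hx hy hz, kq_three, kq_three]
    have hor : P D w' q (fun A => Conn A x z ∨ Conn A x y) ≤
        P D w q (fun A => Conn A x z ∨ Conn A x y) :=
      kq_inc hq1 hw hw' hle (fun A B hAB h => h.imp (fun h => h.mono' hAB)
        (fun h => h.mono' hAB))
    linarith
  · have hq2 : q = 2 := le_antisymm h3 hq
    subst hq2
    have e5 : c3 2 S x y z = c2 2 S x y := funext fun a => c3_two S x y z a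
    rw [e5, SE_c2_zero hq hw hS hx hy, SE_c2_zero hq hw' hS hx hy]
    linarith

end FKB
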