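import Pool.Agent.FKQ.Key
import Pool.Agent.FKQ.Deriv
import Pool.Agent.FKQ.Flow

open Finset
noncomputable section
namespace FKB

section LPQAbstract

variable {V : Type*} [DecidableEq V] {q : ℕ} [NeZero q]

theorem lpq_SE_sum {ι : Type*} (s : Finset ι) (D : Finset (V × V)) (w : V × V → ℝ)
    (S : Finset V) (h : V → ℝ) (φ : ι → Sp q S → ℝ) :
    SE q D w S h (fun a => ∑ i ∈ s, φ i a) = ∑ i ∈ s, SE q D w S h (φ i) := by
  unfold SE
  rw [← Finset.sum_div]
  congr 1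
  rw [Finset.sum_comm]
  refine Finset.sum_congr rfl fun a _ => ?_
  rw [Finset.mul_sum]

theorem lpq_SE_smul (c : ℝ) (D : Finset (V × V)) (w : V × V → ℝ)
    (S : Finset V) (h : V → ℝ) (φ : Sp q S → ℝ) :
    SE q D w S h (fun a => c * φ a) = c * SE q D w S h φ := by
  unfold SE
  rw [← mul_div_assoc, Finset.mul_sum]
  congr 1
  refine Finset.sum_congr rfl fun a _ => ?_
  ring

theorem lpq_field (D : Finset (V × V)) (w : V × V → ℝ) (S : Finset V) (h h0 : V → ℝ) :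
    SE q D w S h (fun a => ∑ x ∈ S, h0 x * cs q S x a) =
      ∑ x ∈ S, h0 x * SE q D w S h (cs q S x) := by
  rw [lpq_SE_sum S D w S h (fun x a => h0 x * cs q S x a)]
  refine Finset.sum_congr rfl fun x _ => ?_
  exact lpq_SE_smul (h0 x) D w S h (cs q S x)

theorem lpq_forced {D O : Finset (V × V)} {S : Finset V} {p : ℝ} (h : V → ℝ) {e : V × V}
    (heO : e ∈ O) (heD : e ∈ D) :
    SE q D (pr O p) S h (cs q S e.1) = SE q D (pr O p) S h (cs q S e.2) := by
  unfold SE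
  congr 1
  refine Finset.sum_congr rfl fun a _ => ?_
  by_cases hc : 2 * (ex q S e.1 a - ex q S e.2 a) = 0
  · have h1 : cs q S e.1 a = cs q S e.2 a := by
      unfold cs
      have h2 : 2 * ex q S e.1 a = 2 * ex q S e.2 a := by
        rw [mul_sub, sub_eq_zero] at hc
        exact hc
      rw [h2]
    rw [h1]
  · have hz : swq q D (pr O p) S h a = 0 := by
      unfold swq
      rw [Finset.prod_eq_zero heD, zero_mul]
      have hpe : pr O p e = 1 := by
        unfold pr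
        rw [if_pos heO]
      rw [hpe]
      unfold dq
      rw [ind_false hc]
      ring
    rw [hz, zero_mul, zero_mul]

theorem lpq_edge {D : Finset (V × V)} {w : V × V → ℝ} (hw : Adm D w) {S : Finset V}
    {h h' : V → ℝ} (hh : ∀ x ∈ S, |h' x| ≤ h x) (e : V × V) :
    1 / (2 * q : ℝ) * (SE q D w S h (cs q S e.1) * SE q D w S h' (cs q S e.2) -
        SE q D w S h' (cs q S e.1) * SE q D w S h (cs q S e.2)) ^ 2 ≤
      SE q D w S h (dq q S e) - SE q D w S h' (dq q S e) := by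
  have h1 := keyq_two (q := q) hw hw (fun _ _ => le_refl _) hh e.1 e.2
  have h2 := keyq_edge (q := q) hw hw (fun _ _ => le_refl _) hh e
  have hq0 : (0 : ℝ) < q := by exact_mod_cast Nat.pos_of_ne_zero (NeZero.ne q)
  calc 1 / (2 * q : ℝ) * (SE q D w S h (cs q S e.1) * SE q D w S h' (cs q S e.2) -
        SE q D w S h' (cs q S e.1) * SE q D w S h (cs q S e.2)) ^ 2 ≤
      1 / (2 * q : ℝ) * (2 * (SE q D w S h (c2 q S e.1 e.2) -
        SE q D w S h' (c2 q S e.1 e.2))) := mul_le_mul_of_nonneg_left h1 (by positivity)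
    _ = 1 / (q : ℝ) * (SE q D w S h (c2 q S e.1 e.2) -
        SE q D w S h' (c2 q S e.1 e.2)) := by
      field_simp
    _ ≤ _ := h2

theorem lpq_edge_nonneg {D : Finset (V × V)} {w : V × V → ℝ} (hw : Adm D w) {S : Finset V}
    {h h' : V → ℝ} (hh : ∀ x ∈ S, |h' x| ≤ h x) (e : V × V) :
    0 ≤ SE q D w S h (dq q S e) - SE q D w S h' (dq q S e) := by
  refine le_trans ?_ (lpq_edge hw hh e)
  positivity

omit [DecidableEq V] in
theorem lpq_sum_ind {S Q : Finset V} (hQ : Q ⊆ S) (M : V → ℝ) :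
    ∑ x ∈ S, ind (x ∈ Q) * M x = ∑ x ∈ Q, M x := by
  rw [← Finset.sum_subset hQ (f := fun x => ind (x ∈ Q) * M x)]
  · refine Finset.sum_congr rfl fun x hx => ?_
    rw [ind_true hx, one_mul]
  · intro x _ hx
    rw [ind_false hx, zero_mul]

omit [DecidableEq V] in
theorem lpq_fb_le (Q Q' : Finset V) (x : V) : |fb Q Q' x| ≤ fa Q Q' x := by
  unfold fb fa
  have h1 := ind_nonneg (x ∈ Q)
  have h2 := ind_nonneg (x ∈ Q')
  rw [abs_le]
  constructor <;> linarith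

omit [DecidableEq V] in
theorem lpq_fb_le_mul {t : ℝ} (ht : 0 ≤ t) (Q Q' : Finset V) (x : V) :
    |t * fb Q Q' x| ≤ t * fa Q Q' x := by
  rw [abs_mul, abs_of_nonneg ht]
  exact mul_le_mul_of_nonneg_left (lpq_fb_le Q Q' x) ht

omit [DecidableEq V] in
theorem lpq_sum_fa {S Q Q' : Finset V} (hQ : Q ⊆ S) (hQ' : Q' ⊆ S) (M : V → ℝ) :
    ∑ x ∈ S, fa Q Q' x * M x = ∑ x ∈ Q, M x + ∑ x ∈ Q', M x := by
  unfold fa
  simp only [add_mul]
  rw [Finset.sum_add_distrib, lpq_sum_ind hQ, lpq_sum_ind hQ']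

omit [DecidableEq V] in
theorem lpq_sum_fb {S Q Q' : Finset V} (hQ : Q ⊆ S) (hQ' : Q' ⊆ S) (M : V → ℝ) :
    ∑ x ∈ S, fb Q Q' x * M x = ∑ x ∈ Q, M x - ∑ x ∈ Q', M x := by
  unfold fb
  simp only [sub_mul]
  rw [Finset.sum_sub_distrib, lpq_sum_ind hQ, lpq_sum_ind hQ']

/-- the derivative of the difference -/
def lpqD (q : ℕ) [NeZero q] (D O : Finset (V × V)) (S Q Q' : Finset V) (p t lam : ℝ) : ℝ :=
  1 / (1 - p) * ∑ e ∈ D \ O, (SE q D (pr O p) S (fun x => t * fa Q Q' x) (dq q S e) -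
      SE q D (pr O p) S (fun x => t * fb Q Q' x) (dq q S e)) +
    lam * (SE q D (pr O p) S (fun x => t * fa Q Q' x)
        (fun a => ∑ x ∈ S, fa Q Q' x * cs q S x a) -
      SE q D (pr O p) S (fun x => t * fb Q Q' x)
        (fun a => ∑ x ∈ S, fb Q Q' x * cs q S x a))

/-- the field part of the derivative -/
theorem lpq_fieldpart {D : Finset (V × V)} {S Q Q' : Finset V}
    (hQ : Q ⊆ S) (hQ' : Q' ⊆ S) (w : V × V → ℝ) (t : ℝ) :
    SE q D w S (fun x => t * fa Q Q' x) (fun a => ∑ x ∈ S, fa Q Q' x * cs q S x a) -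
      SE q D w S (fun x => t * fb Q Q' x) (fun a => ∑ x ∈ S, fb Q Q' x * cs q S x a) =
    ∑ x ∈ Q, (SE q D w S (fun x => t * fa Q Q' x) (cs q S x) -
        SE q D w S (fun x => t * fb Q Q' x) (cs q S x)) +
      ∑ x ∈ Q', (SE q D w S (fun x => t * fa Q Q' x) (cs q S x) +
        SE q D w S (fun x => t * fb Q Q' x) (cs q S x)) := by
  rw [lpq_field, lpq_field, lpq_sum_fa hQ hQ', lpq_sum_fb hQ hQ', Finset.sum_sub_distrib,
    Finset.sum_add_distrib]
  ring

/-- the derivative is nonnegative -/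
theorem lpq_nonneg {D O : Finset (V × V)} {S Q Q' : Finset V} (hQ : Q ⊆ S) (hQ' : Q' ⊆ S)
    {p t lam : ℝ} (hp0 : 0 < p) (hp1 : p < 1) (ht : 0 ≤ t) (hlam : 0 ≤ lam) :
    0 ≤ lpqD q D O S Q Q' p t lam := by
  have hw : Adm D (pr O p) := adm_pr hp0.le hp1.le
  have hh : ∀ x ∈ S, |t * fb Q Q' x| ≤ t * fa Q Q' x := fun x _ => lpq_fb_le_mul ht Q Q' x
  unfold lpqD
  rw [lpq_fieldpart hQ hQ']
  have h2 : ∀ x, |SE q D (pr O p) S (fun x => t * fb Q Q' x) (cs q S x)| ≤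
      SE q D (pr O p) S (fun x => t * fa Q Q' x) (cs q S x) :=
    fun x => keyq_one hw hw (fun _ _ => le_refl _) hh x
  have h3 : 0 ≤ 1 / (1 - p) := by
    have : 0 < 1 - p := by linarith
    positivity
  refine add_nonneg (mul_nonneg h3 (Finset.sum_nonneg fun e _ => lpq_edge_nonneg hw hh e))
    (mul_nonneg hlam (add_nonneg (Finset.sum_nonneg fun x _ => ?_)
      (Finset.sum_nonneg fun x _ => ?_)))
  · have := (abs_le.mp (h2 x)).2
    linarith
  · have := (abs_le.mp (h2 x)).1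
    linarith

end LPQAbstract

variable {d q : ℕ} [NeZero q]

/-- the lower bound of the derivative through the flow -/
theorem lpq_big {D O : Finset (Pt d × Pt d)} {S Q Q' R : Finset (Pt d)}
    (hQ : Q ⊆ R) (hQ' : Q' ⊆ R) (hR : R ⊆ S) (hlat : lat R ⊆ D)
    {p t lam M0 : ℝ} (hp0 : 0 < p) (hp1 : p < 1)
    (ht : 0 ≤ t) (hlam : 0 ≤ lam) (hM0 : 0 < M0)
    (hM : ∀ x ∈ R, M0 ≤ SE q D (pr O p) S (fun x => t * fa Q Q' x) (cs q S x)) :
    ∃ r : Pt d → ℝ,
      M0 ^ 4 / (2 * q : ℝ) * ∑ e ∈ lat R, (r e.1 - r e.2) ^ 2 +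
        lam * M0 * (∑ x ∈ Q, (1 - r x) + ∑ x ∈ Q', (1 + r x)) ≤
      lpqD q D O S Q Q' p t lam ∧
      (∀ x ∈ R, |r x| ≤ 1) := by
  have hw : Adm D (pr O p) := adm_pr hp0.le hp1.le
  have hh : ∀ x ∈ S, |t * fb Q Q' x| ≤ t * fa Q Q' x := fun x _ => lpq_fb_le_mul ht Q Q' x
  have hq0 : (0 : ℝ) < q := by exact_mod_cast Nat.pos_of_ne_zero (NeZero.ne q)
  set Ma : Pt d → ℝ := fun x => SE q D (pr O p) S (fun x => t * fa Q Q' x) (cs q S x) with hMa
  set Mb : Pt d → ℝ := fun x => SE q D (pr O p) S (fun x => t * fb Q Q' x) (cs q S x) with hMb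
  have h2 : ∀ x, |Mb x| ≤ Ma x := fun x => keyq_one hw hw (fun _ _ => le_refl _) hh x
  have hMpos : ∀ x ∈ R, 0 < Ma x := fun x hx => lt_of_lt_of_le hM0 (hM x hx)
  have hr1 : ∀ x ∈ R, |Mb x / Ma x| ≤ 1 := by
    intro x hx
    rw [abs_div, abs_of_pos (hMpos x hx), div_le_one (hMpos x hx)]
    exact h2 x
  refine ⟨fun x => Mb x / Ma x, ?_, hr1⟩
  unfold lpqD
  rw [lpq_fieldpart (hQ.trans hR) (hQ'.trans hR)]
  refine add_le_add ?_ ?_
  · -- the edge part
    set F : Pt d × Pt d → ℝ := fun e =>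
      SE q D (pr O p) S (fun x => t * fa Q Q' x) (dq q S e) -
        SE q D (pr O p) S (fun x => t * fb Q Q' x) (dq q S e) with hF
    have hF0 : ∀ e, 0 ≤ F e := fun e => lpq_edge_nonneg hw hh e
    have h3 : ∑ e ∈ lat R \ O, F e ≤ ∑ e ∈ D \ O, F e :=
      Finset.sum_le_sum_of_subset_of_nonneg
        (Finset.sdiff_subset_sdiff hlat (Finset.Subset.refl O)) fun e _ _ => hF0 e
    have h5 : ∑ e ∈ lat R, (Mb e.1 / Ma e.1 - Mb e.2 / Ma e.2) ^ 2 =
        ∑ e ∈ lat R \ O, (Mb e.1 / Ma e.1 - Mb e.2 / Ma e.2) ^ 2 := by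
      symm
      refine Finset.sum_subset Finset.sdiff_subset fun e he hne => ?_
      have heO : e ∈ O := by
        by_contra hcon
        exact hne (Finset.mem_sdiff.mpr ⟨he, hcon⟩)
      have ea : Ma e.1 = Ma e.2 := lpq_forced _ heO (hlat he)
      have eb : Mb e.1 = Mb e.2 := lpq_forced _ heO (hlat he)
      rw [ea, eb, sub_self]
      ring
    have h4 : M0 ^ 4 / (2 * q : ℝ) * ∑ e ∈ lat R, (Mb e.1 / Ma e.1 - Mb e.2 / Ma e.2) ^ 2 ≤
        ∑ e ∈ lat R \ O, F e := by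
      rw [h5, Finset.mul_sum]
      refine Finset.sum_le_sum fun e he => ?_
      have heL := (Finset.mem_sdiff.mp he).1
      have hx := (verts_lat R e heL).1
      have hy := (verts_lat R e heL).2
      have hkey : 1 / (2 * q : ℝ) * (Ma e.1 * Mb e.2 - Mb e.1 * Ma e.2) ^ 2 ≤ F e :=
        lpq_edge hw hh e
      refine le_trans ?_ hkey
      have px := hMpos _ hx
      have py := hMpos _ hy
      have e1 : Ma e.1 * Mb e.2 - Mb e.1 * Ma e.2 =
          -(Ma e.1 * Ma e.2 * (Mb e.1 / Ma e.1 - Mb e.2 / Ma e.2)) := by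
        field_simp
        ring
      have e2 : M0 ^ 4 ≤ (Ma e.1 * Ma e.2) ^ 2 := by
        have h7 : M0 * M0 ≤ Ma e.1 * Ma e.2 := mul_le_mul (hM _ hx) (hM _ hy) hM0.le px.le
        calc M0 ^ 4 = (M0 * M0) ^ 2 := by ring
          _ ≤ _ := pow_le_pow_left₀ (by positivity) h7 2
      rw [e1]
      calc M0 ^ 4 / (2 * q : ℝ) * (Mb e.1 / Ma e.1 - Mb e.2 / Ma e.2) ^ 2 ≤
          (Ma e.1 * Ma e.2) ^ 2 / (2 * q : ℝ) * (Mb e.1 / Ma e.1 - Mb e.2 / Ma e.2) ^ 2 := by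
            refine mul_le_mul_of_nonneg_right ?_ (sq_nonneg _)
            exact div_le_div_of_nonneg_right e2 (by positivity)
        _ = _ := by ring
    have h6 : (1 : ℝ) ≤ 1 / (1 - p) := by
      rw [le_div_iff₀ (by linarith)]
      linarith
    have h7 : 0 ≤ ∑ e ∈ D \ O, F e := Finset.sum_nonneg fun e _ => hF0 e
    calc _ ≤ ∑ e ∈ D \ O, F e := h4.trans h3
      _ = 1 * ∑ e ∈ D \ O, F e := (one_mul _).symm
      _ ≤ _ := mul_le_mul_of_nonneg_right h6 h7
  · -- the field part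
    rw [mul_assoc]
    refine mul_le_mul_of_nonneg_left ?_ hlam
    rw [mul_add, Finset.mul_sum, Finset.mul_sum]
    refine add_le_add (Finset.sum_le_sum fun x hx => ?_) (Finset.sum_le_sum fun x hx => ?_)
    · have px := hMpos x (hQ hx)
      have hb := (abs_le.mp (hr1 x (hQ hx))).2
      have e1 : Ma x - Mb x = Ma x * (1 - Mb x / Ma x) := by field_simp
      change M0 * (1 - Mb x / Ma x) ≤ Ma x - Mb x
      rw [e1]
      exact mul_le_mul_of_nonneg_right (hM x (hQ hx)) (by linarith)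
    · have px := hMpos x (hQ' hx)
      have hb := (abs_le.mp (hr1 x (hQ' hx))).1
      have e1 : Ma x + Mb x = Ma x * (1 + Mb x / Ma x) := by field_simp
      change M0 * (1 + Mb x / Ma x) ≤ Ma x + Mb x
      rw [e1]
      exact mul_le_mul_of_nonneg_right (hM x (hQ' hx)) (by linarith)

theorem lpq_cube_sub_left (c c' : Pt d) {a m : ℕ} (h : a ≤ m) : cube c a ⊆ thick c c' m := by
  unfold cube thick
  have h2 : (a : ℤ) ≤ (m : ℤ) := by exact_mod_cast h
  refine Finset.Icc_subset_Icc (fun i => ?_) (fun i => ?_)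
  · have h1 : min (c i) (c' i) ≤ c i := min_le_left _ _
    dsimp only
    linarith
  · have h1 : c i ≤ max (c i) (c' i) := le_max_left _ _
    dsimp only
    linarith

theorem lpq_cube_sub_right (c c' : Pt d) {b m : ℕ} (h : b ≤ m) : cube c' b ⊆ thick c c' m := by
  unfold cube thick
  have h2 : (b : ℤ) ≤ (m : ℤ) := by exact_mod_cast h
  refine Finset.Icc_subset_Icc (fun i => ?_) (fun i => ?_)
  · have h1 : min (c i) (c' i) ≤ c' i := min_le_right _ _
    dsimp only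
    linarith
  · have h1 : c' i ≤ max (c i) (c' i) := le_max_right _ _
    dsimp only
    linarith

/-- the final arithmetic -/
theorem lpq_arith {C M0 ζ c1 B bd2 X G n n' A A' lam Y : ℝ} {q : ℝ} {T : ℝ}
    (hC : 0 < C) (hM0 : 0 < M0) (hζ : 0 < ζ) (hq : 0 < q) (hT : 0 < T)
    (hc1 : c1 = M0 ^ 4 / (2 * q * T * C)) (hζc : ζ * M0 ≤ c1 / 2)
    (hB0 : 0 ≤ B) (hB : B ≤ T * bd2) (hflow : X ^ 2 * bd2 ≤ C * G)
    (hn : 0 < n) (hn' : 0 < n') (hnn : n' ≤ n) (hX : X = A / n - A' / n') (hA : A ≤ n)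
    (hlam : lam * n' = ζ * B) (hlam0 : 0 ≤ lam)
    (hY : M0 ^ 4 / (2 * q) * G + lam * M0 * ((n - A) + (n' + A')) ≤ Y) :
    15 / 8 * M0 * (lam * n') ≤ Y := by
  refine le_trans ?_ hY
  -- field part
  have h1 : n' * (2 - X) ≤ (n - A) + (n' + A') := by
    have e1 : n - A = n * (1 - A / n) := by field_simp
    have e2 : n' + A' = n' * (1 + A' / n') := by field_simp
    have e3 : 0 ≤ 1 - A / n := by
      rw [sub_nonneg, div_le_one hn]
      exact hA
    rw [e1, e2, hX]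
    have := mul_le_mul_of_nonneg_right hnn e3
    nlinarith
  have h2 : lam * M0 * (n' * (2 - X)) ≤ lam * M0 * ((n - A) + (n' + A')) :=
    mul_le_mul_of_nonneg_left h1 (mul_nonneg hlam0 hM0.le)
  have h3 : lam * M0 * (n' * (2 - X)) = ζ * M0 * B * (2 - X) := by
    have : lam * M0 * (n' * (2 - X)) = (lam * n') * M0 * (2 - X) := by ring
    rw [this, hlam]
    ring
  -- edge part
  have h4 : c1 * X ^ 2 * B ≤ M0 ^ 4 / (2 * q) * G := by
    have g1 : X ^ 2 * B ≤ T * (C * G) := by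
      calc X ^ 2 * B ≤ X ^ 2 * (T * bd2) := mul_le_mul_of_nonneg_left hB (sq_nonneg _)
        _ = T * (X ^ 2 * bd2) := by ring
        _ ≤ T * (C * G) := mul_le_mul_of_nonneg_left hflow hT.le
    have g2 : 0 ≤ c1 := by
      rw [hc1]
      positivity
    calc c1 * X ^ 2 * B = c1 * (X ^ 2 * B) := by ring
      _ ≤ c1 * (T * (C * G)) := mul_le_mul_of_nonneg_left g1 g2
      _ = M0 ^ 4 / (2 * q) * G := by
        rw [hc1]
        field_simp
  rw [hlam]
  have h5 : 15 / 8 * M0 * (ζ * B) ≤ c1 * X ^ 2 * B + ζ * M0 * B * (2 - X) := by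
    have g1 : 0 ≤ B * (2 * (ζ * M0) * (X - 1 / 4) ^ 2) := by positivity
    have g2 : 0 ≤ (c1 - 2 * (ζ * M0)) * (X ^ 2 * B) :=
      mul_nonneg (by linarith) (mul_nonneg (sq_nonneg _) hB0)
    nlinarith
  rw [h3] at h2
  linarith

/-- lower bound of the difference of the two free energies -/
theorem lpq {d q : ℕ} [NeZero q] (hd : 3 ≤ d) (hq : 2 ≤ q) {θ : ℝ} (hθ : 0 < θ) (hθ1 : θ ≤ 1) :
    ∃ ζ : ℝ, 0 < ζ ∧ ζ ≤ 1 ∧ ∀ (D O : Finset (Pt d × Pt d)) (S : Finset (Pt d)) (c c' : Pt d)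
      (a b ρ : ℕ) (p1 p u0 : ℝ), 0 < p1 → p1 < p → p < 1 → 0 ≤ u0 → u0 ≤ p - p1 →
      O ⊆ D → Verts D S → thick c c' (2 * ρ) ⊆ S → 1 ≤ b → b ≤ a → a ≤ ρ →
      (∀ i, |c i - c' i| ≤ ρ) → lat (thick c c' (2 * ρ)) ⊆ D →
      (∀ u : ℝ, u0 ≤ u → u ≤ p - p1 → ∀ x ∈ thick c c' (2 * ρ),
        3 / 8 * θ ≤ SE q D (pr O (p1 + u)) S
          (fun y => ζ / (2 * b + 1) ^ 2 * u * fa (cube c a) (cube c' b) y) (cs q S x)) →
      15 / 8 * (3 / 8 * θ) * (ζ / (2 * b + 1) ^ 2) * (p - p1 - u0) * (cube c' b).card ≤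
        Real.log (ZS q D (pr O p) S
            (fun x => ζ / (2 * b + 1) ^ 2 * (p - p1) * fa (cube c a) (cube c' b) x)) -
          Real.log (ZS q D (pr O p) S
            (fun x => ζ / (2 * b + 1) ^ 2 * (p - p1) * fb (cube c a) (cube c' b) x)) := by
  obtain ⟨C, hC, hflow⟩ := qflow hd
  have hq0 : (0 : ℝ) < q := by
    have : 0 < q := by omega
    exact_mod_cast this
  set M0 : ℝ := 3 / 8 * θ with hM0def
  have hM0 : 0 < M0 := by positivity
  set T : ℝ := 3 ^ (d - 2) with hT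
  have hT0 : 0 < T := by positivity
  set c1 : ℝ := M0 ^ 4 / (2 * q * T * C) with hc1
  have hc10 : 0 < c1 := by positivity
  refine ⟨min 1 (c1 / (2 * M0)), by positivity, min_le_left _ _, ?_⟩
  set ζ : ℝ := min 1 (c1 / (2 * M0)) with hζdef
  have hζ : 0 < ζ := by positivity
  have hζM : ζ * M0 ≤ c1 / 2 := by
    have h1 : ζ ≤ c1 / (2 * M0) := min_le_right _ _
    calc ζ * M0 ≤ c1 / (2 * M0) * M0 := mul_le_mul_of_nonneg_right h1 hM0.le
      _ = c1 / 2 := by field_simp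
  intro D O S c c' a b ρ p1 p u0 hp0 hpp hp1 hu0 hu0p hO hS hthick hb1 hba haρ hcc hlat hmag
  set lam : ℝ := ζ / (2 * b + 1) ^ 2 with hlam
  have hlam0 : 0 < lam := by positivity
  set Q := cube c a with hQ
  set Q' := cube c' b with hQ'
  set R := thick c c' (2 * ρ) with hR
  have hQR : Q ⊆ R := lpq_cube_sub_left c c' (by omega)
  have hQR' : Q' ⊆ R := lpq_cube_sub_right c c' (by omega)
  set τ : ℝ → ℝ := fun u =>
    Real.log (ZS q D (pr O (p1 + u)) S (fun x => lam * u * fa Q Q' x)) -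
      Real.log (ZS q D (pr O (p1 + u)) S (fun x => lam * u * fb Q Q' x)) with hτ
  have hder : ∀ u, 0 ≤ u → u ≤ p - p1 →
      HasDerivAt τ (lpqD q D O S Q Q' (p1 + u) (lam * u) lam) u := by
    intro u hu0 hu1
    have h1 : 0 < p1 + u := by linarith
    have h2 : p1 + u < 1 := by linarith
    have := (deriv_logZS (q := q) hO S (fa Q Q') p1 lam u h1 h2).sub
      (deriv_logZS (q := q) hO S (fb Q Q') p1 lam u h1 h2)
    refine this.congr_deriv ?_
    unfold lpqD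
    rw [Finset.sum_sub_distrib, Finset.sum_sub_distrib, Finset.sum_sub_distrib]
    ring
  have hτ'0 : ∀ u, 0 ≤ u → u ≤ p - p1 → 0 ≤ lpqD q D O S Q Q' (p1 + u) (lam * u) lam := by
    intro u hu0 hu1
    exact lpq_nonneg (hQR.trans hthick) (hQR'.trans hthick) (by linarith) (by linarith)
      (mul_nonneg hlam0.le hu0) hlam0.le
  have hQc : (Q.card : ℝ) = (2 * (a : ℝ) + 1) ^ d := by
    rw [hQ, card_cube]; push_cast; ring
  have hQc' : (Q'.card : ℝ) = (2 * (b : ℝ) + 1) ^ d := by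
    rw [hQ', card_cube]; push_cast; ring
  have hτ'1 : ∀ u, u0 ≤ u → u ≤ p - p1 →
      15 / 8 * M0 * (lam * Q'.card) ≤ lpqD q D O S Q Q' (p1 + u) (lam * u) lam := by
    intro u hu1 hu2
    have hu : 0 ≤ u := hu0.trans hu1
    obtain ⟨r, hr, hr1⟩ := lpq_big (q := q) (Q := Q) (Q' := Q') (R := R) (O := O) (D := D)
      (S := S) (p := p1 + u) (t := lam * u) (lam := lam) (M0 := M0) hQR hQR' hthick hlat
      (by linarith) (by linarith) (mul_nonneg hlam0.le hu) hlam0.le hM0 (hmag u hu1 hu2)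
    have hfl := hflow c c' a b ρ (by omega) hb1 haρ (by omega) hcc r
    rw [min_eq_right hba] at hfl
    have hb1' : (1 : ℝ) ≤ b := by exact_mod_cast hb1
    have hba' : (b : ℝ) ≤ a := by exact_mod_cast hba
    refine lpq_arith (C := C) (M0 := M0) (ζ := ζ) (c1 := c1) (B := (2 * (b : ℝ) + 1) ^ (d - 2))
      (bd2 := (b : ℝ) ^ (d - 2))
      (X := (∑ x ∈ Q, r x) / (Q.card : ℝ) - (∑ x ∈ Q', r x) / (Q'.card : ℝ))
      (G := ∑ e ∈ lat R, (r e.1 - r e.2) ^ 2) (n := Q.card) (n' := Q'.card)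
      (A := ∑ x ∈ Q, r x) (A' := ∑ x ∈ Q', r x) (q := q) (T := T) hC hM0 hζ hq0 hT0 hc1 hζM
      (by positivity) ?_ hfl ?_ ?_ ?_ rfl ?_ ?_ hlam0.le ?_
    · rw [hT, ← mul_pow]
      exact pow_le_pow_left₀ (by positivity) (by linarith) _
    · rw [hQc]
      positivity
    · rw [hQc']
      positivity
    · rw [hQc, hQc']
      exact pow_le_pow_left₀ (by positivity) (by linarith) _
    · calc ∑ x ∈ Q, r x ≤ ∑ x ∈ Q, (1 : ℝ) :=
            Finset.sum_le_sum fun x hx => (abs_le.mp (hr1 x (hQR hx))).2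
        _ = Q.card := by simp
    · rw [hQc', hlam]
      have e1 : (2 * (b : ℝ) + 1) ^ d = (2 * (b : ℝ) + 1) ^ 2 * (2 * (b : ℝ) + 1) ^ (d - 2) := by
        rw [← pow_add]
        congr 1
        omega
      rw [e1]
      field_simp
    · refine le_trans (le_of_eq ?_) hr
      have e1 : ∑ x ∈ Q, (1 - r x) = (Q.card : ℝ) - ∑ x ∈ Q, r x := by
        rw [Finset.sum_sub_distrib]
        simp
      have e2 : ∑ x ∈ Q', (1 + r x) = (Q'.card : ℝ) + ∑ x ∈ Q', r x := by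
        rw [Finset.sum_add_distrib]
        simp
      rw [e1, e2]
  -- integrate
  have hdiff1 : 0 * (u0 - 0) ≤ τ u0 - τ 0 := by
    refine (convex_Icc (0 : ℝ) u0).mul_sub_le_image_sub_of_le_deriv
      (f := τ) (C := 0) ?_ ?_ ?_ 0 ⟨le_refl _, hu0⟩ u0 ⟨hu0, le_refl _⟩ hu0
    · exact fun u hu => (hder u hu.1 (hu.2.trans hu0p)).continuousAt.continuousWithinAt
    · rw [interior_Icc]
      exact fun u hu =>
        (hder u hu.1.le (hu.2.le.trans hu0p)).differentiableAt.differentiableWithinAt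
    · rw [interior_Icc]
      intro u hu
      rw [(hder u hu.1.le (hu.2.le.trans hu0p)).deriv]
      exact hτ'0 u hu.1.le (hu.2.le.trans hu0p)
  have hdiff2 : 15 / 8 * M0 * (lam * Q'.card) * (p - p1 - u0) ≤ τ (p - p1) - τ u0 := by
    refine (convex_Icc u0 (p - p1)).mul_sub_le_image_sub_of_le_deriv
      (f := τ) (C := 15 / 8 * M0 * (lam * Q'.card)) ?_ ?_ ?_ u0 ⟨le_refl _, hu0p⟩ (p - p1)
      ⟨hu0p, le_refl _⟩ hu0p
    · exact fun u hu => (hder u (hu0.trans hu.1) hu.2).continuousAt.continuousWithinAt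
    · rw [interior_Icc]
      exact fun u hu =>
        (hder u (hu0.trans hu.1.le) hu.2.le).differentiableAt.differentiableWithinAt
    · rw [interior_Icc]
      intro u hu
      rw [(hder u (hu0.trans hu.1.le) hu.2.le).deriv]
      exact hτ'1 u hu.1.le hu.2.le
  have hτ0 : τ 0 = 0 := by
    rw [hτ]
    simp only [mul_zero, zero_mul, sub_self]
  have hfin : τ (p - p1) = Real.log (ZS q D (pr O p) S (fun x => lam * (p - p1) * fa Q Q' x)) -
      Real.log (ZS q D (pr O p) S (fun x => lam * (p - p1) * fb Q Q' x)) := by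
    rw [hτ]
    have : p1 + (p - p1) = p := by ring
    simp only [this]
  rw [← hfin]
  have e3 : 15 / 8 * M0 * lam * (p - p1 - u0) * (Q'.card : ℝ) =
      15 / 8 * M0 * (lam * Q'.card) * (p - p1 - u0) := by ring
  rw [e3]
  linarith

end FKB
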