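import Pool.Agent.FKQ.Cube
import Pool.Agent.FKB.FinC

open Finset MeasureTheory Filter
noncomputable section
namespace FKB

/-- the lower bound, at every left-continuity point of the free density -/
theorem qlower_box {d : ℕ} {q : ℝ} (hd : 2 ≤ d) (hq : 1 ≤ q) (HM : MainCube d q) {p : ℝ} (hp0 : 0 ≤ p) (hp1 : p ≤ 1)
    (hleft : ∀ s : ℝ, 0 < s → ∃ p0, 0 ≤ p0 ∧ p0 < p ∧
      th0 d p q - s ≤ th0 d p0 q)
    {ε : ℝ} (hε : 0 < ε) :
    ∃ n0 : ℕ, ∀ a b : Pt d, (∀ i, a i ≤ -(n0 : ℤ)) → (∀ i, (n0 : ℤ) ≤ b i) →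
      th0 d p q - ε ≤
        P (lat (Finset.Icc a b)) (fun _ => p) q
          (fun A => ∃ y ∈ bd (Finset.Icc a b), Conn A 0 y) := by
  have hq0 : (0 : ℝ) < q := by linarith
  by_cases hbig : th0 d p q ≤ ε
  · refine ⟨0, fun a b _ _ => ?_⟩
    have := P_nonneg (D := lat (Finset.Icc a b)) (w := fun _ => p) hq0 (fun _ _ => ⟨hp0, hp1⟩)
      (fun A => ∃ y ∈ bd (Finset.Icc a b), Conn A 0 y)
    linarith
  push Not at hbig
  obtain ⟨p0, h00, h0p, hp0'⟩ := hleft (ε / 2) (half_pos hε)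
  have hpos : 0 < th0 d p0 q := by linarith
  obtain ⟨p', hpp0, hpp, hth, hlc⟩ := limB_point hq h00 h0p hp1 hpos
  have hp'0 : 0 < p' := lt_of_le_of_lt h00 hpp0
  have hp'1 : p' < 1 := lt_of_lt_of_le hpp hp1
  obtain ⟨n0, hn0⟩ := HM p' hp'0 hp'1 hth hlc (ε / 2) (half_pos hε)
  refine ⟨n0, ?_⟩
  intro a b ha hb
  have hne : (Finset.univ : Finset (Fin d)).Nonempty := ⟨⟨0, by omega⟩, Finset.mem_univ _⟩
  obtain ⟨j, _, hj⟩ := Finset.exists_min_image Finset.univ (fun i => min (-a i) (b i)) hne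
  have hgj : (n0 : ℤ) ≤ min (-a j) (b j) := le_min (by linarith [ha j]) (hb j)
  obtain ⟨N, hN⟩ : ∃ N : ℕ, (N : ℤ) = min (-a j) (b j) :=
    ⟨(min (-a j) (b j)).toNat, Int.toNat_of_nonneg (by
      have : (0 : ℤ) ≤ n0 := Int.natCast_nonneg _
      linarith)⟩
  have hN0 : n0 ≤ N := by
    have : (n0 : ℤ) ≤ N := by rw [hN]; exact hgj
    exact_mod_cast this
  have hsub : cube (0 : Pt d) N ⊆ Finset.Icc a b := by
    intro x hx
    rw [mem_cube] at hx
    rw [Finset.mem_Icc]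
    have hx' : ∀ i, -(N : ℤ) ≤ x i ∧ x i ≤ N := by
      intro i
      have := hx i
      simp only [Pi.zero_apply, sub_zero] at this
      exact abs_le.mp this
    have hNi : ∀ i, (N : ℤ) ≤ -a i ∧ (N : ℤ) ≤ b i := by
      intro i
      have := hj i (Finset.mem_univ i)
      rw [← hN] at this
      exact le_min_iff.mp this
    constructor
    · intro i; linarith [(hx' i).1, (hNi i).1]
    · intro i; linarith [(hx' i).2, (hNi i).2]
  -- the face
  obtain ⟨s, hs, hface⟩ : ∃ s : ℤ, (s = 1 ∨ s = -1) ∧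
      ∀ y ∈ cube (0 : Pt d) N, y j = s * N → y ∈ bd (Finset.Icc a b) := by
    rcases min_choice (-a j) (b j) with hm | hm
    · refine ⟨-1, Or.inr rfl, ?_⟩
      intro y hy hyj
      unfold bd
      rw [Finset.mem_filter]
      refine ⟨hsub hy, j, Or.inr ?_⟩
      intro hcon
      rw [Finset.mem_Icc] at hcon
      have h3 := hcon.1 j
      simp only [Pi.sub_apply, Pi.single_eq_same] at h3
      rw [hyj, hN, hm] at h3
      linarith
    · refine ⟨1, Or.inl rfl, ?_⟩
      intro y hy hyj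
      unfold bd
      rw [Finset.mem_filter]
      refine ⟨hsub hy, j, Or.inl ?_⟩
      intro hcon
      rw [Finset.mem_Icc] at hcon
      have h3 := hcon.2 j
      simp only [Pi.add_apply, Pi.single_eq_same] at h3
      rw [hyj, hN, hm] at h3
      linarith
  have hmain := hn0 N hN0 j s hs
  have s1 : P (lat (cube (0 : Pt d) N)) (fun _ => p') q
      (fun A => ∃ y ∈ cube (0 : Pt d) N, y j = s * N ∧ Conn A 0 y) ≤
      P (lat (Finset.Icc a b)) (fun _ => p) q
      (fun A => ∃ y ∈ cube (0 : Pt d) N, y j = s * N ∧ Conn A 0 y) := by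
    apply E_dom hq (fun _ _ => ⟨hp'0.le, hp'1.le⟩) (fun _ _ => ⟨hp0, hp1⟩) (lat_mono hsub)
      (fun _ _ => hpp.le)
    intro A B hAB _
    apply ind_mono
    rintro ⟨y, hy, hyj, hc⟩
    exact ⟨y, hy, hyj, hc.mono' hAB⟩
  have s2 : P (lat (Finset.Icc a b)) (fun _ => p) q
      (fun A => ∃ y ∈ cube (0 : Pt d) N, y j = s * N ∧ Conn A 0 y) ≤
      P (lat (Finset.Icc a b)) (fun _ => p) q
          (fun A => ∃ y ∈ bd (Finset.Icc a b), Conn A 0 y) := by
    apply P_mono hq0 (fun _ _ => ⟨hp0, hp1⟩)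
    intro A _ _ _
    rintro ⟨y, hy, hyj, hc⟩
    exact ⟨y, hface y hy hyj, hc⟩
  have h5 := th0_le_th1 (d := d) hq hp'0.le hp'1.le
  have h6 := th0_mono (d := d) hq h00 hpp0.le hp'1.le
  linarith

/-- the limit at every left-continuity point of the free density -/
theorem qlimit_left {d : ℕ} {q : ℝ} (hd : 2 ≤ d) (hq : 1 ≤ q) (HM : MainCube d q) {p : ℝ} (hp0 : 0 ≤ p) (hp1 : p ≤ 1)
    (hleft : p = 0 ∨ p = 1 ∨ ∀ s : ℝ, 0 < s → ∃ p0, 0 ≤ p0 ∧ p0 < p ∧
      th0 d p q - s ≤ th0 d p0 q)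
    (a b : ℕ → Pt d) (hab : Exhausts a b) :
    Tendsto (fun m => phi0 (Finset.Icc (a m) (b m)) p q
        (toBoundary (Finset.Icc (a m) (b m)))) atTop (nhds (th0 d p q)) := by
  have hq0 : (0 : ℝ) < q := by linarith
  have hphi : (fun m => phi0 (Finset.Icc (a m) (b m)) p q
        (toBoundary (Finset.Icc (a m) (b m)))) = fun m => finC_beta (a m) (b m) p q := by
    funext m
    exact finC_phi _ _ _ hq0
  rw [hphi]
  -- the lower bound
  have hlow : ∀ ε : ℝ, 0 < ε → ∃ n0 : ℕ, ∀ a b : Pt d, (∀ i, a i ≤ -(n0 : ℤ)) →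
      (∀ i, (n0 : ℤ) ≤ b i) → th0 d p q - ε ≤ finC_beta a b p q := by
    intro ε hε
    rcases hleft with h | h | h
    · subst h
      refine ⟨0, fun a b _ _ => ?_⟩
      have h1 := finC_zero (d := d) hq
      have h2 : 0 ≤ finC_beta a b 0 q :=
        P_nonneg hq0 (finC_adm _ le_rfl zero_le_one) _
      linarith
    · subst h
      refine ⟨0, fun a b ha hb => ?_⟩
      have h1 := finC_le_one (d := d) hq hp0 hp1
      have h2 : 1 ≤ finC_beta a b 1 q :=
        finC_one (by omega) hq (fun j => by simpa using ha j) (fun j => by simpa using hb j)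
      linarith
    · exact qlower_box hd hq HM hp0 hp1 h hε
  rw [Metric.tendsto_atTop]
  intro ε hε
  obtain ⟨n1, h1⟩ := hlow (ε / 2) (by linarith)
  obtain ⟨n2, h2⟩ := upper_box (d := d) (p := p) (q := q) (by omega) hq hp0 hp1
    (ε := ε / 2) (by linarith)
  have he := (finC_exhausts hab n1).and (finC_exhausts hab n2)
  obtain ⟨M, hM⟩ := eventually_atTop.1 he
  refine ⟨M, fun m hm => ?_⟩
  obtain ⟨⟨ha1, hb1⟩, ha2, hb2⟩ := hM m hm
  have e1 := h1 (a m) (b m) ha1 hb1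
  have e2 := h2 (a m) (b m) ha2 hb2
  have e3 : finC_beta (a m) (b m) p q ≤ th0 d p q + ε / 2 := e2
  rw [Real.dist_eq, abs_lt]
  constructor <;> linarith

/-- final statement, version 1 -/
theorem qfinal_countable {d : ℕ} {q : ℝ} (hd : 2 ≤ d) (hq : 1 ≤ q) (HM : MainCube d q) :
    ∃ N : Set ℝ, N.Countable ∧ ∀ p : ℝ, 0 ≤ p → p ≤ 1 → p ∉ N →
      ∀ μ : Measure (Set (Pt d × Pt d)), IsFreeLimit μ p q →
      ∀ a b : ℕ → Pt d, Exhausts a b →
      Tendsto (fun m => phi0 (Finset.Icc (a m) (b m)) p q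
        (toBoundary (Finset.Icc (a m) (b m)))) atTop (nhds (μ.real toInfinity)) := by
  set f : ℝ → ℝ := fun p => th0 d (max 0 (min p 1)) q with hf
  have hmono : Monotone f := by
    intro x y hxy
    exact th0_mono hq (le_max_left _ _) (max_le_max le_rfl (min_le_min hxy le_rfl))
      (max_le zero_le_one (min_le_right _ _))
  refine ⟨{x | ¬ ContinuousAt f x}, hmono.countable_not_continuousAt, ?_⟩
  intro p hp0 hp1 hpN μ hμ a b hab
  have hc : ContinuousAt f p := by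
    by_contra h
    exact hpN h
  rw [free_limit_th0 (by omega) hq hp0 hp1 hμ]
  refine qlimit_left hd hq HM hp0 hp1 ?_ a b hab
  rcases hp0.eq_or_lt with h | h
  · exact Or.inl h.symm
  right
  rcases hp1.eq_or_lt with h' | h'
  · exact Or.inl h'
  right
  intro s hs
  rw [Metric.continuousAt_iff] at hc
  obtain ⟨δ, hδ, hδ2⟩ := hc s hs
  have hpp : p - min (δ / 2) p < p := by
    have : 0 < min (δ / 2) p := lt_min (by linarith) h
    linarith
  have hpp0 : 0 ≤ p - min (δ / 2) p := by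
    have := min_le_right (δ / 2) p
    linarith
  refine ⟨p - min (δ / 2) p, hpp0, hpp, ?_⟩
  have h3 := hδ2 (x := p - min (δ / 2) p) (by
    rw [Real.dist_eq]
    have h4 : p - min (δ / 2) p - p = - min (δ / 2) p := by ring
    rw [h4, abs_neg, abs_of_pos (lt_min (by linarith) h)]
    exact (min_le_left _ _).trans_lt (by linarith))
  have hclamp : ∀ x : ℝ, 0 ≤ x → x ≤ 1 → f x = th0 d x q := by
    intro x hx0 hx1
    simp only [hf]
    rw [min_eq_left hx1, max_eq_right hx0]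
  rw [hclamp _ hpp0 (hpp.le.trans hp1), hclamp _ hp0 hp1, Real.dist_eq, abs_lt] at h3
  linarith [h3.1]

end FKB
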