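import Pool.Agent.FKQ.Key
import Pool.Agent.FKQ.Deriv

open Finset
noncomputable section
namespace FKB

variable {V : Type*} [DecidableEq V] {q : ℕ} [NeZero q]

theorem magnq {D : Finset (V × V)} {w : V × V → ℝ} (hw : Adm D w) {S : Finset V}
    {h0 : V → ℝ} (hh : ∀ x ∈ S, 0 ≤ h0 x) {W : Finset V} (hWS : W ⊆ S)
    (hW : ∀ x ∈ W, 1 ≤ h0 x) {x : V} {θ t : ℝ} (hθ : 0 < θ) (hθ1 : θ ≤ 1) (ht : 0 < t)
    (hP : ∀ z ∈ W, 7 / 16 * θ ^ 2 ≤ SE q D w S (fun _ => 0) (fun a => cs q S x a * cs q S z a))
    (hm : ∀ u : ℝ, t / 2 ≤ u → u ≤ t →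
      ∑ z ∈ W, SE q D w S (fun y => u * h0 y) (cs q S z) ≤ 35 / 32 * θ * W.card)
    (hbig : 100 / θ ^ 2 ≤ t * W.card) :
    3 / 8 * θ ≤ SE q D w S (fun y => t * h0 y) (cs q S x) := by
  obtain ⟨m, hmdef⟩ : ∃ m : ℝ → ℝ, ∀ u, m u = SE q D w S (fun y => u * h0 y) (cs q S x) :=
    ⟨_, fun _ => rfl⟩
  rw [← hmdef]
  by_contra hlt
  push Not at hlt
  have hmono : ∀ u, 0 ≤ u → u ≤ t → m u ≤ m t := by
    intro u hu hut
    have := keyq_one (q := q) hw hw (fun _ _ => le_rfl) (S := S) (h := fun y => t * h0 y)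
      (h' := fun y => u * h0 y) (fun z hz => by
        rw [abs_of_nonneg (mul_nonneg hu (hh z hz))]
        exact mul_le_mul_of_nonneg_right hut (hh z hz)) x
    rw [hmdef, hmdef]
    exact (le_abs_self _).trans this
  have hnonneg : ∀ u, 0 ≤ u → 0 ≤ m u := by
    intro u hu
    have := keyq_one (q := q) hw hw (fun _ _ => le_rfl) (S := S) (h := fun y => u * h0 y)
      (h' := fun y => u * h0 y) (fun z hz => by
        rw [abs_of_nonneg (mul_nonneg hu (hh z hz))]) x
    rw [hmdef]
    exact (abs_nonneg _).trans this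
  have hderiv : ∀ u : ℝ, HasDerivAt m
      (∑ z ∈ S, h0 z * (SE q D w S (fun y => u * h0 y) (fun a => cs q S x a * cs q S z a) -
        m u * SE q D w S (fun y => u * h0 y) (cs q S z))) u := by
    intro u
    have h1 := deriv_cs (q := q) hw S h0 x u
    have e1 : m = fun u : ℝ => SE q D w S (fun y => u * h0 y) (cs q S x) := funext hmdef
    rw [e1]
    exact h1
  have hlow : ∀ u, t / 2 ≤ u → u ≤ t → 7 / 256 * (W.card * θ ^ 2) ≤
      ∑ z ∈ S, h0 z * (SE q D w S (fun y => u * h0 y) (fun a => cs q S x a * cs q S z a) -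
        m u * SE q D w S (fun y => u * h0 y) (cs q S z)) := by
    intro u hu2 hut
    have hu : 0 ≤ u := by linarith
    have hmu := hmono u hu hut
    have hmu0 := hnonneg u hu
    have hcov : ∀ z ∈ S, 0 ≤ SE q D w S (fun y => u * h0 y)
        (fun a => cs q S x a * cs q S z a) -
        m u * SE q D w S (fun y => u * h0 y) (cs q S z) := by
      intro z _
      have := keyq_gks (q := q) hw (S := S) (h := fun y => u * h0 y)
        (fun y hy => mul_nonneg hu (hh y hy)) x z
      rw [hmdef]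
      linarith
    have hW2 : ∀ z ∈ W, 7 / 16 * θ ^ 2 ≤ SE q D w S (fun y => u * h0 y)
        (fun a => cs q S x a * cs q S z a) := by
      intro z hz
      have h3 := keyq_cscs (q := q) hw hw (fun _ _ => le_rfl) (S := S) (h := fun y => u * h0 y)
        (h' := fun _ => 0) (fun y hy => by simpa using mul_nonneg hu (hh y hy)) x z
      exact (hP z hz).trans h3
    have hsum := hm u hu2 hut
    calc 7 / 256 * (W.card * θ ^ 2)
        ≤ W.card * (7 / 16 * θ ^ 2) -
          m u * ∑ z ∈ W, SE q D w S (fun y => u * h0 y) (cs q S z) := by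
          have h5 : m u * ∑ z ∈ W, SE q D w S (fun y => u * h0 y) (cs q S z) ≤
              m u * (35 / 32 * θ * W.card) := mul_le_mul_of_nonneg_left hsum hmu0
          have h6 : m u * (35 / 32 * θ * W.card) ≤ 3 / 8 * θ * (35 / 32 * θ * W.card) :=
            mul_le_mul_of_nonneg_right (by linarith) (by positivity)
          have h7 : 7 / 256 * ((W.card : ℝ) * θ ^ 2) = W.card * (7 / 16 * θ ^ 2) -
              3 / 8 * θ * (35 / 32 * θ * W.card) := by ring
          linarith
      _ ≤ ∑ z ∈ W, (SE q D w S (fun y => u * h0 y) (fun a => cs q S x a * cs q S z a) -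
            m u * SE q D w S (fun y => u * h0 y) (cs q S z)) := by
          rw [Finset.sum_sub_distrib, Finset.mul_sum]
          have h8 : (W.card : ℝ) * (7 / 16 * θ ^ 2) ≤
              ∑ z ∈ W, SE q D w S (fun y => u * h0 y) (fun a => cs q S x a * cs q S z a) := by
            rw [← nsmul_eq_mul]
            exact Finset.card_nsmul_le_sum _ _ _ hW2
          linarith
      _ ≤ ∑ z ∈ W, h0 z * (SE q D w S (fun y => u * h0 y) (fun a => cs q S x a * cs q S z a) -
            m u * SE q D w S (fun y => u * h0 y) (cs q S z)) := by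
          refine Finset.sum_le_sum fun z hz => ?_
          exact le_mul_of_one_le_left (hcov z (hWS hz)) (hW z hz)
      _ ≤ _ := Finset.sum_le_sum_of_subset_of_nonneg hWS
          (fun z hz _ => mul_nonneg (hh z hz) (hcov z hz))
  have ht2 : t / 2 ≤ t := by linarith
  have hmv : 7 / 256 * (W.card * θ ^ 2) * (t - t / 2) ≤ m t - m (t / 2) := by
    refine Convex.mul_sub_le_image_sub_of_le_deriv (convex_Icc (t / 2 : ℝ) t) ?_ ?_ ?_ (t / 2)
      (Set.left_mem_Icc.2 ht2) t (Set.right_mem_Icc.2 ht2) ht2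
    · exact fun u _ => (hderiv u).continuousAt.continuousWithinAt
    · exact fun u _ => (hderiv u).differentiableAt.differentiableWithinAt
    · intro u hu
      have hu' := interior_subset hu
      rw [(hderiv u).deriv]
      exact hlow u hu'.1 hu'.2
  have h00 := hnonneg (t / 2) (by linarith)
  have h9 : 100 ≤ t * W.card * θ ^ 2 := by
    rwa [div_le_iff₀ (by positivity)] at hbig
  have h10 : 7 / 256 * ((W.card : ℝ) * θ ^ 2) * (t - t / 2) = 7 / 512 * (t * W.card * θ ^ 2) := by
    ring
  rw [h10] at hmv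
  linarith

end FKB
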